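import Pool.Agent.H283R3.Newt3

open MeasureTheory Set Filter Topology
open scoped ENNReal

namespace Pool.Agent.H283R3.Ann

open Pool.Agent.H283R3.Newt

lemma finrank_E3 : Module.finrank ℝ E3 = 3 := by simp

/-- polar coordinates in `E3`, spheres inside -/
theorem polarS (g : E3 → ℝ) (hg : Integrable g) :
    (∫ y : E3, g y = ∫ r in Ioi (0:ℝ), r ^ 2 *
      ∫ v : Metric.sphere (0 : E3) 1, g (r • (v : E3)) ∂((volume : Measure E3).toSphere)) ∧
    IntegrableOn (fun r => r ^ 2 *
      ∫ v : Metric.sphere (0 : E3) 1, g (r • (v : E3)) ∂((volume : Measure E3).toSphere)) (Ioi (0:ℝ)) := by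
  have hmp := (volume : Measure E3).measurePreserving_homeomorphUnitSphereProd
  rw [finrank_E3] at hmp
  have hemb := (homeomorphUnitSphereProd E3).measurableEmbedding
  have hcomp : ∀ x : ({(0 : E3)}ᶜ : Set E3),
      (fun p : Metric.sphere (0 : E3) 1 × Ioi (0:ℝ) => g ((p.2 : ℝ) • (p.1 : E3)))
        (homeomorphUnitSphereProd E3 x) = g x := by
    intro x
    show g _ = g x
    congr 1
    have h1 := (homeomorphUnitSphereProd E3).symm_apply_apply x
    have h2 := congrArg Subtype.val h1
    rw [homeomorphUnitSphereProd_symm_apply_coe] at h2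
    exact h2
  have hint : Integrable (fun p : Metric.sphere (0 : E3) 1 × Ioi (0:ℝ) => g ((p.2 : ℝ) • (p.1 : E3)))
      ((volume : Measure E3).toSphere.prod (Measure.volumeIoiPow 2)) := by
    rw [← hmp.integrable_comp_emb hemb]
    have h1 : IntegrableOn g ({(0 : E3)}ᶜ : Set E3) := hg.integrableOn
    rw [integrableOn_iff_comap_subtypeVal (measurableSet_singleton _).compl] at h1
    refine h1.congr (Filter.Eventually.of_forall fun x => ?_)
    exact (hcomp x).symm
  set G : ℝ → ℝ := fun r => ∫ v : Metric.sphere (0 : E3) 1, g (r • (v : E3))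
    ∂((volume : Measure E3).toSphere) with hG
  have hG1 : Integrable (fun r : Ioi (0:ℝ) => G r) (Measure.volumeIoiPow 2) :=
    hint.integral_prod_right
  constructor
  · calc ∫ y : E3, g y = ∫ x : ({(0 : E3)}ᶜ : Set E3), g x ∂((volume : Measure E3).comap (↑)) := by
          rw [integral_subtype_comap (measurableSet_singleton _).compl g,
            restrict_compl_singleton]
      _ = ∫ x : ({(0 : E3)}ᶜ : Set E3),
          (fun p : Metric.sphere (0 : E3) 1 × Ioi (0:ℝ) => g ((p.2 : ℝ) • (p.1 : E3)))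
            (homeomorphUnitSphereProd E3 x) ∂((volume : Measure E3).comap (↑)) := by
          congr 1
          funext x
          exact (hcomp x).symm
      _ = ∫ p : Metric.sphere (0 : E3) 1 × Ioi (0:ℝ), g ((p.2 : ℝ) • (p.1 : E3))
            ∂((volume : Measure E3).toSphere.prod (Measure.volumeIoiPow 2)) :=
          hmp.integral_comp hemb (fun p : Metric.sphere (0 : E3) 1 × Ioi (0:ℝ) => g ((p.2 : ℝ) • (p.1 : E3)))
      _ = ∫ r : Ioi (0:ℝ), G r ∂(Measure.volumeIoiPow 2) := integral_prod_symm _ hint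
      _ = _ := by
          simp only [Measure.volumeIoiPow, ENNReal.ofReal]
          rw [integral_withDensity_eq_integral_smul,
            integral_subtype_comap measurableSet_Ioi
              fun a ↦ Real.toNNReal (a ^ 2) • G a,
            setIntegral_congr_fun measurableSet_Ioi fun x hx ↦ ?_]
          · rw [NNReal.smul_def, Real.coe_toNNReal _ (pow_nonneg (le_of_lt hx) _), smul_eq_mul]
          · exact (measurable_subtype_coe.pow_const _).real_toNNReal
  · simp only [Measure.volumeIoiPow, ENNReal.ofReal] at hG1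
    rw [integrable_withDensity_iff_integrable_smul
      (measurable_subtype_coe.pow_const _).real_toNNReal] at hG1
    have h2 : IntegrableOn (fun a : ℝ => Real.toNNReal (a ^ 2) • G a) (Ioi 0) := by
      rw [integrableOn_iff_comap_subtypeVal measurableSet_Ioi]
      exact hG1
    refine h2.congr_fun (fun x hx => ?_) measurableSet_Ioi
    simp only
    rw [NNReal.smul_def, Real.coe_toNNReal _ (pow_nonneg (le_of_lt hx) _), smul_eq_mul]

/-- total (unnormalised) integral over the sphere of radius `r` -/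
noncomputable def gS (x : E3) (r : ℝ) : ℝ :=
  ∫ v : Metric.sphere (0 : E3) 1, ‖x - r • (v : E3)‖⁻¹ ∂((volume : Measure E3).toSphere)

lemma shell (x : E3) {s : ℝ} (hs : 0 < s) :
    (∫ r in Ioc (0:ℝ) s, r ^ 2 * gS x r = Nn s ‖x‖) ∧
    IntegrableOn (fun r => r ^ 2 * gS x r) (Ioc (0:ℝ) s) := by
  set g : E3 → ℝ := (Metric.closedBall (0:E3) s).indicator (fun y => (dist x y)⁻¹) with hg
  have hm : MeasurableSet (Metric.closedBall (0:E3) s) := Metric.isClosed_closedBall.measurableSet
  have hae : Metric.closedBall (0:E3) s =ᵐ[volume] Metric.ball (0:E3) s := by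
    apply (ae_eq_of_ae_subset_of_measure_ge ?_ ?_ ?_ ?_).symm
    · exact (Metric.ball_subset_closedBall).eventuallyLE
    · rw [Measure.addHaar_closedBall_eq_addHaar_ball]
    · exact Metric.isOpen_ball.measurableSet.nullMeasurableSet
    · rw [Measure.addHaar_closedBall_eq_addHaar_ball]; exact measure_ball_lt_top.ne
  have hgi : Integrable g := by
    rw [hg, integrable_indicator_iff hm]
    exact (kern_int hs 0 x).congr_set_ae hae
  obtain ⟨h1, h2⟩ := polarS g hgi
  have h3 : ∫ y, g y = Nn s ‖x‖ := by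
    rw [hg, integral_indicator hm, setIntegral_congr_set hae, ball_pot hs, dist_zero_right]
  have h4 : ∀ r ∈ Ioi (0:ℝ), r ^ 2 * (∫ v : Metric.sphere (0 : E3) 1, g (r • (v : E3))
      ∂((volume : Measure E3).toSphere)) = (Ioc (0:ℝ) s).indicator (fun r => r ^ 2 * gS x r) r := by
    intro r hr
    have hr0 : (0:ℝ) < r := hr
    have hmem : ∀ v : Metric.sphere (0 : E3) 1, r • (v : E3) ∈ Metric.closedBall (0:E3) s ↔ r ≤ s := by
      intro v
      rw [mem_closedBall_zero_iff, norm_smul, norm_eq_of_mem_sphere, mul_one, Real.norm_of_nonneg hr0.le]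
    by_cases h : r ≤ s
    · have hrI : r ∈ Ioc (0:ℝ) s := ⟨hr0, h⟩
      rw [indicator_of_mem hrI]
      congr 1
      unfold gS
      congr 1
      ext v
      rw [hg, indicator_of_mem ((hmem v).2 h), dist_eq_norm]
    · rw [indicator_of_notMem (fun h' => h h'.2)]
      have : ∀ v : Metric.sphere (0 : E3) 1, g (r • (v : E3)) = 0 := by
        intro v
        rw [hg, indicator_of_notMem (fun h' => h ((hmem v).1 h'))]
      simp_rw [this]
      simp
  have hI : Ioc (0:ℝ) s ∩ Ioi 0 = Ioc 0 s := by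
    ext r; simp only [mem_inter_iff, mem_Ioc, mem_Ioi]; tauto
  constructor
  · rw [← h3, h1, setIntegral_congr_fun measurableSet_Ioi h4, integral_indicator measurableSet_Ioc,
      Measure.restrict_restrict measurableSet_Ioc, hI]
  · have h5 := (h2.congr_fun h4 measurableSet_Ioi)
    rw [integrableOn_indicator_iff measurableSet_Ioc, hI] at h5
    exact h5

lemma gS_cont {x : E3} {s : ℝ} (hx : ‖x‖ ≠ s) (hs : 0 < s) : ContinuousAt (gS x) s := by
  unfold gS
  set δ := |‖x‖ - s| / 2 with hδ
  have hδ0 : 0 < δ := by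
    have : 0 < |‖x‖ - s| := abs_pos.2 (sub_ne_zero.2 hx)
    positivity
  have hlow : ∀ᶠ r in 𝓝 s, ∀ v : Metric.sphere (0 : E3) 1, δ ≤ ‖x - r • (v : E3)‖ := by
    filter_upwards [Metric.ball_mem_nhds s (lt_min hδ0 hs)] with r hr v
    rw [Metric.mem_ball, Real.dist_eq] at hr
    have hr1 : |r - s| < δ := hr.trans_le (min_le_left _ _)
    have hr2 : |r - s| < s := hr.trans_le (min_le_right _ _)
    have hr0 : 0 < r := by rw [abs_lt] at hr2; linarith [hr2.1]
    have h1 := abs_norm_sub_norm_le x (r • (v : E3))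
    rw [norm_smul, norm_eq_of_mem_sphere, mul_one, Real.norm_of_nonneg hr0.le] at h1
    have h2 : |‖x‖ - s| ≤ |‖x‖ - r| + |r - s| := abs_sub_le _ _ _
    have h3 : |‖x‖ - s| = 2 * δ := by rw [hδ]; ring
    linarith
  apply continuousAt_of_dominated (bound := fun _ => δ⁻¹)
  · filter_upwards with r
    fun_prop
  · filter_upwards [hlow] with r hr
    refine ae_of_all _ fun v => ?_
    rw [Real.norm_of_nonneg (by positivity)]
    exact inv_anti₀ hδ0 (hr v)
  · exact integrable_const _
  · refine ae_of_all _ fun v => ?_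
    apply ContinuousAt.inv₀ (by fun_prop)
    have := hlow.self_of_nhds v
    linarith

lemma gS_val {x : E3} (hx : ‖x‖ ≠ 1) :
    gS x 1 = if ‖x‖ < 1 then 4 * Real.pi else 4 * Real.pi / ‖x‖ := by
  obtain ⟨-, hI⟩ := shell x (show (0:ℝ) < 2 by norm_num)
  have hII : IntervalIntegrable (fun r => r ^ 2 * gS x r) volume 0 1 := by
    rw [intervalIntegrable_iff_integrableOn_Ioc_of_le zero_le_one]
    exact hI.mono_set (Ioc_subset_Ioc_right (by norm_num))
  have hc : ContinuousAt (fun r => r ^ 2 * gS x r) 1 :=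
    (continuousAt_id.pow 2).mul (gS_cont hx one_pos)
  have hd := intervalIntegral.integral_hasDerivAt_right hII
    (⟨Ioc 0 2, Ioc_mem_nhds (by norm_num) (by norm_num), hI.aestronglyMeasurable⟩) hc
  have he : (fun u => ∫ r in (0:ℝ)..u, r ^ 2 * gS x r) =ᶠ[𝓝 1] fun u => Nn u ‖x‖ := by
    filter_upwards [lt_mem_nhds (zero_lt_one (α := ℝ))] with u hu
    rw [intervalIntegral.integral_of_le hu.le, (shell x hu).1]
  have hd1 := hd.congr_of_eventuallyEq he.symm
  have hv : (1:ℝ) ^ 2 * gS x 1 = gS x 1 := by ring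
  rw [hv] at hd1
  split_ifs with h
  · have he2 : (fun u => Nn u ‖x‖) =ᶠ[𝓝 1] fun u => 2 * Real.pi * (u ^ 2 - ‖x‖ ^ 2 / 3) := by
      filter_upwards [lt_mem_nhds h] with u hu
      rw [Nn, if_pos hu]
    have hd2 : HasDerivAt (fun u : ℝ => 2 * Real.pi * (u ^ 2 - ‖x‖ ^ 2 / 3)) (4 * Real.pi) 1 := by
      have := (((hasDerivAt_pow 2 (1:ℝ)).sub_const (‖x‖ ^ 2 / 3))).const_mul (2 * Real.pi)
      refine this.congr_deriv ?_
      push_cast
      ring
    exact hd1.unique (hd2.congr_of_eventuallyEq he2)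
  · have h1 : 1 < ‖x‖ := lt_of_le_of_ne (not_lt.1 h) (Ne.symm hx)
    have he2 : (fun u => Nn u ‖x‖) =ᶠ[𝓝 1] fun u => 4 * Real.pi / 3 * u ^ 3 / ‖x‖ := by
      filter_upwards [gt_mem_nhds h1] with u hu
      rw [Nn, if_neg (not_lt.2 hu.le)]
    have hd2 : HasDerivAt (fun u : ℝ => 4 * Real.pi / 3 * u ^ 3 / ‖x‖) (4 * Real.pi / ‖x‖) 1 := by
      have := ((hasDerivAt_pow 3 (1:ℝ)).const_mul (4 * Real.pi / 3)).div_const ‖x‖
      refine this.congr_deriv ?_
      push_cast
      ring
    exact hd1.unique (hd2.congr_of_eventuallyEq he2)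

end Pool.Agent.H283R3.Ann
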