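import Mathlib

open Finset

namespace Pool.Agent.H283R3.Cap

/-- Choice of the critical points. -/
theorem crit {M : ℕ} (hM : 1 ≤ M) {ι : Type*} [DecidableEq ι] (w : ι → ℂ) :
    ∀ (k : ℕ) (S : Finset ι), S.card = (k + 1) * M → ∃ c : Fin k → ℂ, ∀ z : ℂ,
      ∃ T ⊆ S, T.card = M ∧ ∏ j, ‖z - c j‖ ^ M ≤ 3 ^ (k * M) * ∏ i ∈ S \ T, ‖z - w i‖ := by
  intro k
  induction k with
  | zero =>
    intro S hS
    refine ⟨Fin.elim0, fun z => ⟨S, Subset.rfl, by rw [hS]; ring, ?_⟩⟩
    simp
  | succ k ih =>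
    intro S hS
    -- minimal ball
    have hcard : M + 1 ≤ S.card := by
      rw [hS]; nlinarith
    have hSne : S.Nonempty := by
      rw [← Finset.card_pos]; omega
    have hPne : (S ×ˢ powersetCard (M + 1) S).Nonempty :=
      hSne.product (powersetCard_nonempty.2 hcard)
    set rad : ι × Finset ι → ℝ := fun p => (p.2.sup (fun j => ‖w p.1 - w j‖₊) : NNReal) with hrad
    obtain ⟨⟨a, T1⟩, hmem, hmin⟩ := exists_min_image (S ×ˢ powersetCard (M + 1) S) rad hPne
    rw [mem_product, mem_powersetCard] at hmem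
    obtain ⟨haS, hT1S, hT1c⟩ := hmem
    simp only at haS hT1S hT1c
    set r := rad (a, T1) with hr
    have hr_le : ∀ j ∈ T1, ‖w a - w j‖ ≤ r := by
      intro j hj
      have : ‖w a - w j‖₊ ≤ T1.sup (fun j => ‖w a - w j‖₊) :=
        le_sup (f := fun j => ‖w a - w j‖₊) hj
      exact_mod_cast this
    obtain ⟨T0, hT0, hT0c⟩ := exists_subset_card_eq (s := T1) (n := M) (by omega)
    have hT0S : T0 ⊆ S := hT0.trans hT1S
    have hS'c : (S \ T0).card = (k + 1) * M := by
      rw [card_sdiff_of_subset hT0S, hS, hT0c]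
      rw [show (k + 1 + 1) * M = (k + 1) * M + M by ring]
      omega
    obtain ⟨c, hc⟩ := ih (S \ T0) hS'c
    refine ⟨Fin.cons (w a) c, fun z => ?_⟩
    obtain ⟨T', hT'S, hT'c, hT'⟩ := hc z
    have hdisj : Disjoint T0 T' := by
      rw [Finset.disjoint_left]
      intro i hi hi'
      exact (mem_sdiff.1 (hT'S hi')).2 hi
    set U := T0 ∪ T' with hU
    have hUS : U ⊆ S := union_subset hT0S (hT'S.trans sdiff_subset)
    have hUc : U.card = 2 * M := by
      rw [hU, card_union_of_disjoint hdisj, hT0c, hT'c]; ring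
    have hSU : (S \ T0) \ T' = S \ U := by
      ext i; simp only [mem_sdiff, hU, mem_union]; tauto
    -- general step
    have step : ∀ T ⊆ U, T.card = M → (∀ i ∈ U \ T, ‖z - w a‖ / 3 ≤ ‖z - w i‖) →
        ∏ j, ‖z - (Fin.cons (w a) c : Fin (k+1) → ℂ) j‖ ^ M ≤
          3 ^ ((k + 1) * M) * ∏ i ∈ S \ T, ‖z - w i‖ := by
      intro T hTU hTc hlow
      rw [Fin.prod_univ_succ]
      simp only [Fin.cons_zero, Fin.cons_succ]
      have h1 : ∏ i ∈ S \ T, ‖z - w i‖ = (∏ i ∈ U \ T, ‖z - w i‖) * ∏ i ∈ S \ U, ‖z - w i‖ := by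
        rw [← prod_sdiff (sdiff_subset_sdiff (Subset.refl S) hTU : S \ U ⊆ S \ T)]
        congr 1
        apply prod_congr _ fun _ _ => rfl
        ext i; simp only [mem_sdiff]
        constructor
        · rintro ⟨⟨h1, h2⟩, h3⟩
          exact ⟨by by_contra h; exact h3 ⟨h1, h⟩, h2⟩
        · rintro ⟨h1, h2⟩
          exact ⟨⟨hUS h1, h2⟩, fun h => h.2 h1⟩
      have h2 : (‖z - w a‖ / 3) ^ M ≤ ∏ i ∈ U \ T, ‖z - w i‖ := by
        have hcc : (U \ T).card = M := by
          rw [card_sdiff_of_subset hTU, hUc, hTc]; omega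
        calc (‖z - w a‖ / 3) ^ M = ∏ i ∈ U \ T, (‖z - w a‖ / 3) := by rw [prod_const, hcc]
          _ ≤ _ := prod_le_prod (fun _ _ => by positivity) hlow
      rw [hSU] at hT'
      calc ‖z - w a‖ ^ M * ∏ j, ‖z - c j‖ ^ M
          ≤ ‖z - w a‖ ^ M * (3 ^ (k * M) * ∏ i ∈ S \ U, ‖z - w i‖) := by gcongr
        _ = 3 ^ ((k+1) * M) * ((‖z - w a‖ / 3) ^ M * ∏ i ∈ S \ U, ‖z - w i‖) := by
            rw [div_pow, show (k+1) * M = k * M + M by ring, pow_add]; field_simp
        _ ≤ 3 ^ ((k+1) * M) * ((∏ i ∈ U \ T, ‖z - w i‖) * ∏ i ∈ S \ U, ‖z - w i‖) := by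
            gcongr
        _ = _ := by rw [h1]
    by_cases hA : ∀ i ∈ T0, ‖z - w a‖ ≤ 3 * ‖z - w i‖
    · have hT'U : T' ⊆ U := subset_union_right
      refine ⟨T', hT'U.trans hUS, hT'c, step T' hT'U hT'c ?_⟩
      intro i hi
      have hi0 : i ∈ T0 := by
        rw [mem_sdiff, hU, mem_union] at hi
        rcases hi.1 with h | h
        · exact h
        · exact absurd h hi.2
      have := hA i hi0
      linarith
    · push Not at hA
      obtain ⟨i0, hi0, hlt⟩ := hA
      have h1 := hr_le i0 (hT0 hi0)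
      have h2 : ‖z - w a‖ ≤ ‖z - w i0‖ + ‖w a - w i0‖ := by
        calc ‖z - w a‖ = ‖(z - w i0) - (w a - w i0)‖ := by ring_nf
          _ ≤ _ := norm_sub_le _ _
      have h3 : ‖z - w a‖ / 3 ≤ r / 2 := by linarith
      have hr0 : 0 < r := by
        have := norm_nonneg (z - w i0)
        linarith
      set Nr := S.filter (fun i => ‖z - w i‖ < r / 2) with hNr
      have hNrc : Nr.card ≤ M := by
        by_contra hcon
        push Not at hcon
        obtain ⟨T'', hT'', hT''c⟩ := exists_subset_card_eq (s := Nr) (n := M + 1) (by omega)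
        obtain ⟨j0, hj0⟩ : T''.Nonempty := by rw [← Finset.card_pos]; omega
        have hsub : T'' ⊆ S := hT''.trans (filter_subset _ _)
        have h4 := hmin (j0, T'') (by
          rw [mem_product, mem_powersetCard]
          exact ⟨hsub hj0, hsub, hT''c⟩)
        have h5 : rad (j0, T'') < r := by
          have : T''.sup (fun j => ‖w j0 - w j‖₊) < Real.toNNReal r := by
            rw [Finset.sup_lt_iff (by simpa using hr0)]
            intro j hj
            have e1 := (mem_filter.1 (hT'' hj)).2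
            have e2 := (mem_filter.1 (hT'' hj0)).2
            have : ‖w j0 - w j‖ < r := by
              calc ‖w j0 - w j‖ = ‖(z - w j) - (z - w j0)‖ := by ring_nf
                _ ≤ ‖z - w j‖ + ‖z - w j0‖ := norm_sub_le _ _
                _ < r := by linarith
            rw [Real.lt_toNNReal_iff_coe_lt]
            exact_mod_cast this
          rw [Real.lt_toNNReal_iff_coe_lt] at this
          exact this
        linarith
      obtain ⟨T, hT1', hT2', hTc⟩ := exists_subsuperset_card_eq (s := Nr ∩ U) (t := U) (n := M)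
        inter_subset_right ((card_le_card inter_subset_left).trans hNrc) (by rw [hUc]; omega)
      refine ⟨T, hT2'.trans hUS, hTc, step T hT2' hTc ?_⟩
      intro i hi
      rw [mem_sdiff] at hi
      have hnot : i ∉ Nr := fun h => hi.2 (hT1' (mem_inter.2 ⟨h, hi.1⟩))
      rw [hNr, mem_filter, not_and] at hnot
      have := not_lt.1 (hnot (hUS hi.1))
      linarith

end Pool.Agent.H283R3.Cap
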