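import Mathlib

open MeasureTheory Set
open scoped ENNReal

namespace Pool.Agent.H283R3.Cap

lemma lint_ball_zero {τ : ℝ} (hτ : 0 < τ) :
    ∫⁻ z in Metric.ball (0:ℂ) τ, (ENNReal.ofReal ‖z‖)⁻¹ ≤ ENNReal.ofReal (2 * Real.pi * τ) := by
  rw [← lintegral_indicator Metric.isOpen_ball.measurableSet, ← Complex.lintegral_comp_polarCoord_symm]
  have h1 : ∀ p ∈ polarCoord.target, ENNReal.ofReal p.1 •
      (Metric.ball (0:ℂ) τ).indicator (fun z => (ENNReal.ofReal ‖z‖)⁻¹) (Complex.polarCoord.symm p) =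
      (Ioo (0:ℝ) τ ×ˢ (univ : Set ℝ)).indicator (fun _ => (1 : ℝ≥0∞)) p := by
    intro p hp
    rw [polarCoord_target] at hp
    have hp1 : 0 < p.1 := hp.1
    have hn : ‖Complex.polarCoord.symm p‖ = p.1 := by
      rw [Complex.norm_polarCoord_symm, abs_of_pos hp1]
    by_cases h : p.1 < τ
    · rw [indicator_of_mem (by rw [mem_ball_zero_iff, hn]; exact h),
        indicator_of_mem (by exact ⟨⟨hp1, h⟩, mem_univ _⟩), hn, smul_eq_mul,
        ENNReal.mul_inv_cancel (by simpa using hp1) ENNReal.ofReal_ne_top]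
    · rw [indicator_of_notMem (by rw [mem_ball_zero_iff, hn]; exact h),
        indicator_of_notMem (by rintro ⟨⟨-, h2⟩, -⟩; exact h h2), smul_zero]
  rw [setLIntegral_congr_fun polarCoord.open_target.measurableSet h1]
  rw [lintegral_indicator (measurableSet_Ioo.prod MeasurableSet.univ), lintegral_one,
    Measure.restrict_restrict (measurableSet_Ioo.prod MeasurableSet.univ),
    Measure.restrict_apply MeasurableSet.univ, univ_inter, polarCoord_target]
  calc volume (Ioo (0:ℝ) τ ×ˢ (univ : Set ℝ) ∩ Ioi 0 ×ˢ Ioo (-Real.pi) Real.pi)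
      ≤ volume (Ioo (0:ℝ) τ ×ˢ Ioo (-Real.pi) Real.pi) := by
        apply measure_mono
        rintro p ⟨h1, h2⟩
        exact ⟨h1.1, h2.2⟩
    _ = _ := by
        rw [Measure.volume_eq_prod, Measure.prod_prod, Real.volume_Ioo, Real.volume_Ioo,
          ← ENNReal.ofReal_mul (by linarith)]
        congr 1; ring

lemma lint_A {A : Set ℂ} (hA : MeasurableSet A) (a : ℂ) {τ : ℝ} (hτ : 0 < τ) :
    ∫⁻ z in A, (ENNReal.ofReal ‖z - a‖)⁻¹ ≤
      ENNReal.ofReal (2 * Real.pi * τ) + volume A * ENNReal.ofReal (1 / τ) := by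
  have hsplit : A ⊆ Metric.ball a τ ∪ (A ∩ (Metric.ball a τ)ᶜ) := by
    intro z hz
    by_cases h : z ∈ Metric.ball a τ
    · exact Or.inl h
    · exact Or.inr ⟨hz, h⟩
  refine (lintegral_mono_set hsplit).trans ((lintegral_union_le _ _ _).trans ?_)
  gcongr
  · have h := (measurePreserving_sub_right (volume : Measure ℂ) a).setLIntegral_comp_preimage
      (s := Metric.ball (0:ℂ) τ) Metric.isOpen_ball.measurableSet
      (f := fun z => (ENNReal.ofReal ‖z‖)⁻¹) (by fun_prop)
    have h2 : ((fun x => x - a) ⁻¹' Metric.ball (0:ℂ) τ) = Metric.ball a τ := by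
      ext z; simp [dist_eq_norm]
    rw [h2] at h
    rw [h]
    exact lint_ball_zero hτ
  · calc ∫⁻ z in A ∩ (Metric.ball a τ)ᶜ, (ENNReal.ofReal ‖z - a‖)⁻¹
        ≤ ∫⁻ z in A ∩ (Metric.ball a τ)ᶜ, ENNReal.ofReal (1 / τ) := by
          apply setLIntegral_mono' (hA.inter Metric.isOpen_ball.measurableSet.compl)
          intro z hz
          have h1 : τ ≤ ‖z - a‖ := by
            have := hz.2
            rw [mem_compl_iff, Metric.mem_ball, dist_eq_norm, not_lt] at this
            exact this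
          rw [one_div, ENNReal.ofReal_inv_of_pos hτ, ENNReal.inv_le_inv]
          exact ENNReal.ofReal_le_ofReal h1
      _ = ENNReal.ofReal (1 / τ) * volume (A ∩ (Metric.ball a τ)ᶜ) := by rw [setLIntegral_const]
      _ ≤ volume A * ENNReal.ofReal (1 / τ) := by
          rw [mul_comm]
          gcongr
          exact inter_subset_left

/-- weak form of the isoperimetric inequality for logarithmic capacity -/
theorem area {ι : Type*} {J : Finset ι} (hJ : J.Nonempty) (w : ι → ℂ) {t : ℝ} (ht : 0 < t) :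
    volume {z : ℂ | ∏ i ∈ J, ‖z - w i‖ ≤ t ^ J.card} ≤ ENNReal.ofReal (8 * Real.pi * t ^ 2) := by
  set A := {z : ℂ | ∏ i ∈ J, ‖z - w i‖ ≤ t ^ J.card} with hAdef
  have hk : 0 < J.card := Finset.card_pos.2 hJ
  have hkR : (0:ℝ) < J.card := by exact_mod_cast hk
  have hAc : IsClosed A := isClosed_le (by fun_prop) continuous_const
  have hAfin : volume A ≠ ⊤ := by
    have hsub : A ⊆ ⋃ i ∈ J, Metric.closedBall (w i) t := by
      intro z hz
      by_contra hcon
      simp only [mem_iUnion, not_exists, Metric.mem_closedBall, not_le, dist_eq_norm] at hcon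
      have : t ^ J.card < ∏ i ∈ J, ‖z - w i‖ := by
        calc t ^ J.card = ∏ i ∈ J, t := by rw [Finset.prod_const]
          _ < _ := Finset.prod_lt_prod_of_nonempty (fun _ _ => ht) (fun i hi => hcon i hi) hJ
      exact absurd hz (not_le.2 this)
    refine ((measure_mono hsub).trans_lt ?_).ne
    refine (measure_biUnion_finset_le _ _).trans_lt ?_
    exact ENNReal.sum_lt_top.2 fun i _ => measure_closedBall_lt_top
  have h1 : ENNReal.ofReal (1 / t) * volume A ≤
      ∫⁻ z in A, (J.card : ℝ≥0∞)⁻¹ * ∑ i ∈ J, (ENNReal.ofReal ‖z - w i‖)⁻¹ := by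
    rw [← setLIntegral_const]
    apply setLIntegral_mono' hAc.measurableSet
    intro z hz
    by_cases h0 : ∃ i ∈ J, ‖z - w i‖ = 0
    · obtain ⟨i, hi, h0⟩ := h0
      have : (∑ i ∈ J, (ENNReal.ofReal ‖z - w i‖)⁻¹) = ⊤ := by
        rw [ENNReal.sum_eq_top]
        exact ⟨i, hi, by rw [h0]; simp⟩
      rw [this, ENNReal.mul_top]
      · exact le_top
      · simp
    · push Not at h0
      have hpos : ∀ i ∈ J, 0 < ‖z - w i‖ := fun i hi =>
        lt_of_le_of_ne (norm_nonneg _) (Ne.symm (h0 i hi))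
      have hprod : 0 < ∏ i ∈ J, ‖z - w i‖ := Finset.prod_pos hpos
      have hAG := Real.geom_mean_le_arith_mean J (fun _ => (1:ℝ)) (fun i => ‖z - w i‖⁻¹)
        (fun _ _ => zero_le_one) (by simpa using hJ) (fun i hi => (inv_pos.2 (hpos i hi)).le)
      simp only [Real.rpow_one, Finset.sum_const, nsmul_eq_mul, mul_one, one_mul,
        Finset.prod_inv_distrib] at hAG
      have h2 : 1 / t ≤ (∑ i ∈ J, ‖z - w i‖⁻¹) / J.card := by
        refine le_trans ?_ hAG
        have h3 : (t ^ J.card)⁻¹ ≤ (∏ i ∈ J, ‖z - w i‖)⁻¹ := inv_anti₀ hprod hz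
        calc 1 / t = ((t ^ J.card)⁻¹) ^ ((J.card : ℝ)⁻¹) := by
              rw [← inv_pow, Real.pow_rpow_inv_natCast (by positivity) hk.ne', one_div]
          _ ≤ _ := by gcongr
      calc ENNReal.ofReal (1 / t) ≤ ENNReal.ofReal ((∑ i ∈ J, ‖z - w i‖⁻¹) / J.card) :=
            ENNReal.ofReal_le_ofReal h2
        _ = _ := by
            rw [div_eq_mul_inv, mul_comm, ENNReal.ofReal_mul (by positivity),
              ENNReal.ofReal_sum_of_nonneg (fun i hi => (inv_pos.2 (hpos i hi)).le),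
              ENNReal.ofReal_inv_of_pos hkR, ENNReal.ofReal_natCast]
            congr 1
            exact Finset.sum_congr rfl fun i hi => ENNReal.ofReal_inv_of_pos (hpos i hi)
  have h2 : ∫⁻ z in A, (J.card : ℝ≥0∞)⁻¹ * ∑ i ∈ J, (ENNReal.ofReal ‖z - w i‖)⁻¹ ≤
      ENNReal.ofReal (2 * Real.pi * (2 * t)) + volume A * ENNReal.ofReal (1 / (2 * t)) := by
    rw [lintegral_const_mul _ (by fun_prop), lintegral_finsetSum _ (by fun_prop)]
    calc (J.card : ℝ≥0∞)⁻¹ * ∑ i ∈ J, ∫⁻ z in A, (ENNReal.ofReal ‖z - w i‖)⁻¹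
        ≤ (J.card : ℝ≥0∞)⁻¹ * ∑ i ∈ J, (ENNReal.ofReal (2 * Real.pi * (2 * t)) +
            volume A * ENNReal.ofReal (1 / (2 * t))) := by
          gcongr with i hi
          exact lint_A hAc.measurableSet _ (by positivity)
      _ = _ := by
          rw [Finset.sum_const, nsmul_eq_mul, ← mul_assoc, ENNReal.inv_mul_cancel, one_mul]
          · simpa using hJ.ne_empty
          · simp
  have h3 := h1.trans h2
  -- pass to real numbers
  set V := (volume A).toReal with hV
  have hVe : volume A = ENNReal.ofReal V := (ENNReal.ofReal_toReal hAfin).symm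
  have hV0 : 0 ≤ V := ENNReal.toReal_nonneg
  rw [hVe] at h3 ⊢
  rw [← ENNReal.ofReal_mul (by positivity), ← ENNReal.ofReal_mul hV0,
    ← ENNReal.ofReal_add (by positivity) (by positivity), ENNReal.ofReal_le_ofReal_iff (by positivity)] at h3
  apply ENNReal.ofReal_le_ofReal
  have h4 : 1 / t * V = V / t := by ring
  have h5 : V * (1 / (2 * t)) = V / t / 2 := by field_simp
  rw [h4, h5] at h3
  have h6 : V / t ≤ 8 * Real.pi * t := by linarith
  rw [div_le_iff₀ ht] at h6
  nlinarith

end Pool.Agent.H283R3.Cap
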