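import Pool.Agent.H283R3.Cap2

open MeasureTheory Set
open scoped ENNReal NNReal

set_option linter.unusedSectionVars false

namespace Pool.Agent.H283R3.Cap

variable {ι : Type*} [Fintype ι] [DecidableEq ι] (w : ι → ℂ) (M : ℕ)

/-- largest distance from `z` to the points of `T` -/
noncomputable def sp (z : ℂ) (T : Finset ι) : ℝ := ((T.sup fun i => ‖z - w i‖₊ : ℝ≥0) : ℝ)

lemma le_sp (z : ℂ) {T : Finset ι} {i : ι} (hi : i ∈ T) : ‖z - w i‖ ≤ sp w z T := by
  have : ‖z - w i‖₊ ≤ T.sup (fun i => ‖z - w i‖₊) := Finset.le_sup (f := fun i => ‖z - w i‖₊) hi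
  exact_mod_cast this

lemma sp_le (z : ℂ) {T : Finset ι} {a : ℝ} (ha : 0 ≤ a) (h : ∀ i ∈ T, ‖z - w i‖ ≤ a) :
    sp w z T ≤ a := by
  unfold sp
  rw [← Real.le_toNNReal_iff_coe_le ha]
  apply Finset.sup_le
  intro i hi
  rw [Real.le_toNNReal_iff_coe_le ha]
  exact_mod_cast h i hi

lemma sp_nonneg (z : ℂ) (T : Finset ι) : 0 ≤ sp w z T := NNReal.coe_nonneg _

/-- radius of the smallest closed disc about `z` with `M` of the points -/
noncomputable def rho (z : ℂ) : ℝ := ⨅ T : {T : Finset ι // T.card = M}, sp w z T.1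

lemma rho_nonneg (z : ℂ) : 0 ≤ rho w M z := Real.iInf_nonneg fun _ => sp_nonneg w z _

variable {M}

lemma rho_exists (hM : M ≤ Fintype.card ι) (z : ℂ) :
    ∃ T : Finset ι, T.card = M ∧ sp w z T = rho w M z := by
  obtain ⟨T, -, hT⟩ := Finset.exists_subset_card_eq (s := (Finset.univ : Finset ι)) (n := M)
    (by rwa [Finset.card_univ])
  have : Nonempty {T : Finset ι // T.card = M} := ⟨⟨T, hT⟩⟩
  obtain ⟨T', hT'⟩ := exists_eq_ciInf_of_finite (f := fun T : {T : Finset ι // T.card = M} => sp w z T.1)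
  exact ⟨T'.1, T'.2, hT'⟩

lemma rho_le (z : ℂ) {T : Finset ι} (hT : T.card = M) : rho w M z ≤ sp w z T :=
  ciInf_le (Set.finite_range _).bddBelow (⟨T, hT⟩ : {T : Finset ι // T.card = M})

lemma rho_lip (hM : M ≤ Fintype.card ι) (x y : ℂ) : rho w M x ≤ rho w M y + ‖x - y‖ := by
  obtain ⟨T, hT, hTy⟩ := rho_exists w hM y
  refine (rho_le w x hT).trans ?_
  apply sp_le w x (add_nonneg (rho_nonneg w M y) (norm_nonneg _))
  intro i hi
  have h1 := le_sp w y hi
  rw [hTy] at h1
  calc ‖x - w i‖ = ‖(y - w i) + (x - y)‖ := by ring_nf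
    _ ≤ ‖y - w i‖ + ‖x - y‖ := norm_add_le _ _
    _ ≤ _ := by linarith

lemma rho_cont (hM : M ≤ Fintype.card ι) : Continuous (rho w M) := by
  have : LipschitzWith 1 (rho w M) := by
    apply LipschitzWith.of_dist_le_mul
    intro x y
    rw [Real.dist_eq, dist_eq_norm, NNReal.coe_one, one_mul, abs_le]
    have h1 := rho_lip w hM x y
    have h2 := rho_lip w hM y x
    rw [norm_sub_rev] at h2
    constructor <;> linarith
  exact this.continuous

lemma rho_card (hM1 : 1 ≤ M) (z : ℂ) :
    (Finset.univ.filter (fun i => ‖z - w i‖ < rho w M z)).card < M := by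
  by_contra hcon
  push Not at hcon
  obtain ⟨T, hT, hTc⟩ := Finset.exists_subset_card_eq hcon
  have hTne : T.Nonempty := by rw [← Finset.card_pos]; omega
  have h1 := rho_le w z hTc
  have h0 : 0 < rho w M z := by
    obtain ⟨i, hi⟩ := hTne
    have := (Finset.mem_filter.1 (hT hi)).2
    exact (norm_nonneg _).trans_lt this
  have h2 : sp w z T < rho w M z := by
    unfold sp
    have : T.sup (fun i => ‖z - w i‖₊) < Real.toNNReal (rho w M z) := by
      rw [Finset.sup_lt_iff (by simpa using h0)]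
      intro j hj
      rw [Real.lt_toNNReal_iff_coe_lt]
      exact_mod_cast (Finset.mem_filter.1 (hT hj)).2
    rwa [Real.lt_toNNReal_iff_coe_lt] at this
  linarith

/-- the logarithm of the regularised product of the distances -/
noncomputable def LL (M : ℕ) (n R : ℝ) (z : ℂ) : ℝ :=
  (∑ i, Real.log (max ‖z - w i‖ (rho w M z))) / M - n * Real.log R

lemma LL_meas (hM : M ≤ Fintype.card ι) (n R : ℝ) : Measurable (LL w M n R) := by
  unfold LL
  have := (rho_cont w hM).measurable
  fun_prop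

section est
variable {n R : ℝ} (hM : M ≤ Fintype.card ι) (hM1 : 1 ≤ M) (hn : (Fintype.card ι : ℝ) = n * M)
include hM hM1 hn

lemma LL_near {x z : ℂ} (hx : 0 < rho w M x) (hz : ‖z - x‖ ≤ rho w M x / 4) :
    3 / 4 * rho w M x ≤ rho w M z ∧ LL w M n R z ≤ LL w M n R x + n / 4 := by
  have hM0 : (0:ℝ) < M := by exact_mod_cast hM1
  have h1 := rho_lip w hM x z
  have h2 := rho_lip w hM z x
  rw [norm_sub_rev] at h1
  have h3 : 3 / 4 * rho w M x ≤ rho w M z := by linarith
  refine ⟨h3, ?_⟩
  have hρz : 0 < rho w M z := by linarith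
  have key : ∀ i, Real.log (max ‖z - w i‖ (rho w M z)) ≤
      Real.log (max ‖x - w i‖ (rho w M x)) + 1 / 4 := by
    intro i
    have hm0 : 0 < max ‖x - w i‖ (rho w M x) := lt_max_of_lt_right hx
    have h4 : max ‖z - w i‖ (rho w M z) ≤ 5 / 4 * max ‖x - w i‖ (rho w M x) := by
      apply max_le
      · have : ‖z - w i‖ ≤ ‖x - w i‖ + ‖z - x‖ := by
          calc ‖z - w i‖ = ‖(x - w i) + (z - x)‖ := by ring_nf
            _ ≤ _ := norm_add_le _ _
        have e1 := le_max_left ‖x - w i‖ (rho w M x)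
        have e2 := le_max_right ‖x - w i‖ (rho w M x)
        linarith
      · have e2 := le_max_right ‖x - w i‖ (rho w M x)
        linarith
    calc Real.log (max ‖z - w i‖ (rho w M z)) ≤ Real.log (5 / 4 * max ‖x - w i‖ (rho w M x)) :=
          Real.log_le_log (lt_max_of_lt_right hρz) h4
      _ = Real.log (5/4) + Real.log (max ‖x - w i‖ (rho w M x)) :=
          Real.log_mul (by norm_num) hm0.ne'
      _ ≤ _ := by
          have := Real.log_le_sub_one_of_pos (by norm_num : (0:ℝ) < 5/4)
          linarith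
  unfold LL
  have hs := Finset.sum_le_sum fun i (_ : i ∈ Finset.univ) => key i
  rw [Finset.sum_add_distrib, Finset.sum_const, Finset.card_univ, nsmul_eq_mul, hn] at hs
  have : (∑ i, Real.log (max ‖z - w i‖ (rho w M z))) / M ≤
      (∑ i, Real.log (max ‖x - w i‖ (rho w M x))) / M + n / 4 := by
    rw [div_add_div _ _ hM0.ne' (by norm_num), div_le_div_iff₀ hM0 (by positivity)]
    nlinarith
  linarith

lemma LL_comp {x y a : ℂ} (hxa : ‖x - a‖ ≤ rho w M x) (hya : ‖y - a‖ ≤ rho w M y)
    (hy : 0 < rho w M y) (hyx : rho w M y ≤ rho w M x) :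
    LL w M n R y ≤ LL w M n R x + n * Real.log 3 + Real.log (rho w M y) - Real.log (rho w M x) := by
  have hM0 : (0:ℝ) < M := by exact_mod_cast hM1
  have hx : 0 < rho w M x := hy.trans_le hyx
  have hlog3 : 0 < Real.log 3 := Real.log_pos (by norm_num)
  obtain ⟨T, hT, hTy⟩ := rho_exists w hM y
  have hxy : ‖y - x‖ ≤ 2 * rho w M x := by
    calc ‖y - x‖ = ‖(y - a) - (x - a)‖ := by ring_nf
      _ ≤ ‖y - a‖ + ‖x - a‖ := norm_sub_le _ _
      _ ≤ _ := by linarith
  have key : ∀ i, Real.log (max ‖y - w i‖ (rho w M y)) ≤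
      Real.log (max ‖x - w i‖ (rho w M x)) + Real.log 3 := by
    intro i
    have hm0 : 0 < max ‖x - w i‖ (rho w M x) := lt_max_of_lt_right hx
    have e1 := le_max_left ‖x - w i‖ (rho w M x)
    have e2 := le_max_right ‖x - w i‖ (rho w M x)
    have h4 : max ‖y - w i‖ (rho w M y) ≤ 3 * max ‖x - w i‖ (rho w M x) := by
      apply max_le
      · have : ‖y - w i‖ ≤ ‖x - w i‖ + ‖y - x‖ := by
          calc ‖y - w i‖ = ‖(x - w i) + (y - x)‖ := by ring_nf
            _ ≤ _ := norm_add_le _ _
        linarith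
      · linarith
    calc Real.log (max ‖y - w i‖ (rho w M y)) ≤ Real.log (3 * max ‖x - w i‖ (rho w M x)) :=
          Real.log_le_log (lt_max_of_lt_right hy) h4
      _ = Real.log 3 + Real.log (max ‖x - w i‖ (rho w M x)) :=
          Real.log_mul (by norm_num) hm0.ne'
      _ = _ := by ring
  have hsum : ∑ i, Real.log (max ‖y - w i‖ (rho w M y)) ≤
      ∑ i, Real.log (max ‖x - w i‖ (rho w M x)) + n * M * Real.log 3 +
        M * (Real.log (rho w M y) - Real.log (rho w M x)) := by
    rw [← Finset.sum_add_sum_compl T (fun i => Real.log (max ‖y - w i‖ (rho w M y))),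
      ← Finset.sum_add_sum_compl T (fun i => Real.log (max ‖x - w i‖ (rho w M x)))]
    have h1 : ∑ i ∈ T, Real.log (max ‖y - w i‖ (rho w M y)) = M * Real.log (rho w M y) := by
      rw [Finset.sum_congr rfl (g := fun _ => Real.log (rho w M y)), Finset.sum_const, hT,
        nsmul_eq_mul]
      intro i hi
      have := le_sp w y hi
      rw [hTy] at this
      rw [max_eq_right this]
    have h2 : M * Real.log (rho w M x) ≤ ∑ i ∈ T, Real.log (max ‖x - w i‖ (rho w M x)) := by
      calc M * Real.log (rho w M x) = ∑ i ∈ T, Real.log (rho w M x) := by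
            rw [Finset.sum_const, hT, nsmul_eq_mul]
        _ ≤ _ := Finset.sum_le_sum fun i _ => Real.log_le_log hx (le_max_right _ _)
    have h3 : ∑ i ∈ Tᶜ, Real.log (max ‖y - w i‖ (rho w M y)) ≤
        ∑ i ∈ Tᶜ, Real.log (max ‖x - w i‖ (rho w M x)) + n * M * Real.log 3 := by
      calc _ ≤ ∑ i ∈ Tᶜ, (Real.log (max ‖x - w i‖ (rho w M x)) + Real.log 3) :=
            Finset.sum_le_sum fun i _ => key i
        _ = ∑ i ∈ Tᶜ, Real.log (max ‖x - w i‖ (rho w M x)) + (Tᶜ.card : ℝ) * Real.log 3 := by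
            rw [Finset.sum_add_distrib, Finset.sum_const, nsmul_eq_mul]
        _ ≤ _ := by
            have : (Tᶜ.card : ℝ) ≤ n * M := by
              rw [← hn]; exact_mod_cast Finset.card_le_univ _
            have := mul_le_mul_of_nonneg_right this hlog3.le
            linarith
    rw [h1]
    linarith
  unfold LL
  have : (∑ i, Real.log (max ‖y - w i‖ (rho w M y))) / M ≤
      (∑ i, Real.log (max ‖x - w i‖ (rho w M x))) / M + n * Real.log 3 +
        (Real.log (rho w M y) - Real.log (rho w M x)) := by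
    have e : (∑ i, Real.log (max ‖x - w i‖ (rho w M x))) / M + n * Real.log 3 +
        (Real.log (rho w M y) - Real.log (rho w M x)) =
        (∑ i, Real.log (max ‖x - w i‖ (rho w M x)) + n * M * Real.log 3 +
        M * (Real.log (rho w M y) - Real.log (rho w M x))) / M := by
      field_simp
    rw [e]
    gcongr
  linarith

end est

/-- points at distance less than half the radius -/
noncomputable def JJ (M : ℕ) (x : ℂ) : Finset ι := Finset.univ.filter (fun i => ‖x - w i‖ < rho w M x / 2)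

end Pool.Agent.H283R3.Cap
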