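import Pool.Agent.H283R3.Cap3

open MeasureTheory Set
open scoped ENNReal NNReal

set_option linter.unusedSectionVars false

namespace Pool.Agent.H283R3.Cap

variable {ι : Type*} [Fintype ι] [DecidableEq ι] (w : ι → ℂ) {M : ℕ}

/-- the lemniscate -/
def EE (R : ℝ) : Set ℂ := {z | ∏ i, ‖z - w i‖ ≤ R ^ Fintype.card ι}

section est
variable {n R : ℝ} (hM : M ≤ Fintype.card ι) (hM1 : 1 ≤ M) (hn : (Fintype.card ι : ℝ) = n * M)
  (hR : 0 < R)
include hM hM1 hn hR

lemma JJ_card {x : ℂ} (hx : 0 < rho w M x) : (JJ w M x).card < M := by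
  refine lt_of_le_of_lt (Finset.card_le_card ?_) (rho_card w hM1 x)
  intro i hi
  unfold JJ at hi
  rw [Finset.mem_filter] at hi ⊢
  exact ⟨hi.1, by linarith [hi.2]⟩

lemma exp_LL {x : ℂ} (hx : 0 < rho w M x) :
    Real.exp (M * LL w M n R x) = (∏ i, max ‖x - w i‖ (rho w M x)) / R ^ Fintype.card ι := by
  have hM0 : (0:ℝ) < M := by exact_mod_cast hM1
  unfold LL
  rw [mul_sub, mul_div_cancel₀ _ hM0.ne', Real.exp_sub, Real.exp_sum]
  congr 1
  · exact Finset.prod_congr rfl fun i _ => Real.exp_log (lt_max_of_lt_right hx)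
  · rw [← mul_assoc, mul_comm (M:ℝ) n, ← hn, ← Real.log_pow, Real.exp_log (by positivity)]

/-- the product over the nearby points is small on the lemniscate -/
lemma near_prod {x z : ℂ} (hx : 0 < rho w M x) (hz : ‖z - x‖ ≤ rho w M x / 4) (hzE : z ∈ EE w R) :
    ∏ i ∈ JJ w M x, ‖z - w i‖ ≤
      rho w M x ^ (JJ w M x).card * Real.exp (- (M * (LL w M n R x - n * Real.log 4))) := by
  have hM0 : (0:ℝ) < M := by exact_mod_cast hM1
  set J := JJ w M x with hJ
  set ρ := rho w M x with hρ
  have hJmem : ∀ i, i ∈ J ↔ ‖x - w i‖ < ρ / 2 := by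
    intro i; rw [hJ]; unfold JJ; simp [hρ]
  have hprod_all : ∏ i, max ‖x - w i‖ ρ = ρ ^ J.card * ∏ i ∈ Jᶜ, max ‖x - w i‖ ρ := by
    rw [← Finset.prod_mul_prod_compl J, Finset.prod_congr rfl (g := fun _ => ρ), Finset.prod_const]
    intro i hi
    rw [hJmem] at hi
    exact max_eq_right (by linarith)
  have hfar : ∏ i ∈ Jᶜ, max ‖x - w i‖ ρ ≤ 4 ^ Fintype.card ι * ∏ i ∈ Jᶜ, ‖z - w i‖ := by
    calc ∏ i ∈ Jᶜ, max ‖x - w i‖ ρ ≤ ∏ i ∈ Jᶜ, (4 * ‖z - w i‖) := by
          apply Finset.prod_le_prod (fun i _ => (lt_max_of_lt_right hx).le)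
          intro i hi
          rw [Finset.mem_compl, hJmem, not_lt] at hi
          have h1 : ‖x - w i‖ ≤ ‖z - w i‖ + ‖z - x‖ := by
            calc ‖x - w i‖ = ‖(z - w i) - (z - x)‖ := by ring_nf
              _ ≤ _ := norm_sub_le _ _
          apply max_le <;> linarith
      _ = 4 ^ (Jᶜ.card) * ∏ i ∈ Jᶜ, ‖z - w i‖ := by
          rw [Finset.prod_mul_distrib, Finset.prod_const]
      _ ≤ _ := by
          have hc : Jᶜ.card ≤ Fintype.card ι := Finset.card_le_univ _
          gcongr
          norm_num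
  have hE : (∏ i ∈ J, ‖z - w i‖) * ∏ i ∈ Jᶜ, ‖z - w i‖ ≤ R ^ Fintype.card ι := by
    rw [Finset.prod_mul_prod_compl]; exact hzE
  have hfar_pos : 0 < ∏ i ∈ Jᶜ, max ‖x - w i‖ ρ :=
    Finset.prod_pos fun i _ => lt_max_of_lt_right hx
  have hexp : Real.exp (- (M * (LL w M n R x - n * Real.log 4))) =
      4 ^ Fintype.card ι * R ^ Fintype.card ι / ∏ i, max ‖x - w i‖ ρ := by
    rw [show - (M * (LL w M n R x - n * Real.log 4)) = n * M * Real.log 4 - M * LL w M n R x by ring,
      Real.exp_sub, exp_LL w hM hM1 hn hR hx, ← hn, ← Real.log_pow, Real.exp_log (by positivity), ← hρ]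
    have : (∏ i, max ‖x - w i‖ ρ) ≠ 0 := (Finset.prod_pos fun i _ => lt_max_of_lt_right hx).ne'
    field_simp
  rw [hexp, hprod_all]
  have hρk : 0 < ρ ^ J.card := by positivity
  have e : ρ ^ J.card * (4 ^ Fintype.card ι * R ^ Fintype.card ι / (ρ ^ J.card * ∏ i ∈ Jᶜ, max ‖x - w i‖ ρ)) =
      4 ^ Fintype.card ι * R ^ Fintype.card ι / ∏ i ∈ Jᶜ, max ‖x - w i‖ ρ := by
    field_simp
  rw [e, le_div_iff₀ hfar_pos]
  have hJ0 : 0 ≤ ∏ i ∈ J, ‖z - w i‖ := Finset.prod_nonneg fun _ _ => norm_nonneg _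
  calc (∏ i ∈ J, ‖z - w i‖) * ∏ i ∈ Jᶜ, max ‖x - w i‖ ρ
      ≤ (∏ i ∈ J, ‖z - w i‖) * (4 ^ Fintype.card ι * ∏ i ∈ Jᶜ, ‖z - w i‖) := by gcongr
    _ = 4 ^ Fintype.card ι * ((∏ i ∈ J, ‖z - w i‖) * ∏ i ∈ Jᶜ, ‖z - w i‖) := by ring
    _ ≤ _ := by gcongr

/-- the key local estimate -/
lemma local_est {x : ℂ} (hx : 0 < rho w M x) :
    ENNReal.ofReal (Real.exp (2 * (LL w M n R x - n * Real.log 4))) *
      volume (EE w R ∩ Metric.closedBall x (rho w M x / 4)) ≤
    ENNReal.ofReal (8 * Real.pi * rho w M x ^ 2 *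
      (Real.exp (-2 * |LL w M n R x - n * Real.log 4|) +
        if M < 2 * (JJ w M x).card then 1 else 0)) := by
  have hM0 : (0:ℝ) < M := by exact_mod_cast hM1
  set l := LL w M n R x - n * Real.log 4 with hl
  set ρ := rho w M x with hρ
  have hite : (0:ℝ) ≤ if M < 2 * (JJ w M x).card then 1 else 0 := by split_ifs <;> norm_num
  rcases le_or_gt l 0 with hl0 | hl0
  · -- trivial estimate
    have h1 : volume (EE w R ∩ Metric.closedBall x (ρ / 4)) ≤ ENNReal.ofReal (8 * Real.pi * ρ ^ 2) := by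
      refine (measure_mono inter_subset_right).trans ?_
      rw [Complex.volume_closedBall, ← ENNReal.ofReal_pow (by positivity)]
      rw [show (NNReal.pi : ℝ≥0∞) = ENNReal.ofReal Real.pi by
        rw [ENNReal.ofReal, ← NNReal.coe_real_pi, Real.toNNReal_coe]]
      rw [← ENNReal.ofReal_mul (by positivity)]
      apply ENNReal.ofReal_le_ofReal
      have := Real.pi_pos
      nlinarith [sq_nonneg ρ, mul_pos this (pow_pos hx 2)]
    calc _ ≤ ENNReal.ofReal (Real.exp (2 * l)) * ENNReal.ofReal (8 * Real.pi * ρ ^ 2) := by gcongr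
      _ = ENNReal.ofReal (8 * Real.pi * ρ ^ 2 * Real.exp (2 * l)) := by
          rw [← ENNReal.ofReal_mul (by positivity)]; congr 1; ring
      _ ≤ _ := by
          apply ENNReal.ofReal_le_ofReal
          rw [abs_of_nonpos hl0, show -2 * -l = 2 * l by ring]
          have := Real.pi_pos
          gcongr
          linarith
  · rcases (JJ w M x).eq_empty_or_nonempty with hJ | hJ
    · -- empty
      have : EE w R ∩ Metric.closedBall x (ρ / 4) = ∅ := by
        rw [Set.eq_empty_iff_forall_notMem]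
        rintro z ⟨hz1, hz2⟩
        rw [Metric.mem_closedBall, dist_eq_norm] at hz2
        have h1 := near_prod w hM hM1 hn hR hx hz2 hz1
        rw [hJ] at h1
        simp only [Finset.prod_empty, Finset.card_empty, pow_zero, one_mul] at h1
        have h2 : Real.exp (-(M * l)) < 1 := by
          rw [Real.exp_lt_one_iff]
          nlinarith
        linarith
      rw [this]; simp
    · have hk : 0 < (JJ w M x).card := Finset.card_pos.2 hJ
      have hkM := JJ_card w hM hM1 hn hR hx
      set k := (JJ w M x).card with hkdef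
      have hk0 : (0:ℝ) < k := by exact_mod_cast hk
      set t := ρ * Real.exp (- (M / k * l)) with ht
      have htpos : 0 < t := by positivity
      have h1 : volume (EE w R ∩ Metric.closedBall x (ρ / 4)) ≤ ENNReal.ofReal (8 * Real.pi * t ^ 2) := by
        refine (measure_mono ?_).trans (area hJ w htpos)
        rintro z ⟨hz1, hz2⟩
        rw [Metric.mem_closedBall, dist_eq_norm] at hz2
        have h1 := near_prod w hM hM1 hn hR hx hz2 hz1
        rw [mem_ofPred_eq]
        refine h1.trans (le_of_eq ?_)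
        rw [ht, mul_pow, ← Real.exp_nat_mul]
        congr 2
        rw [← hkdef, ← hl]
        field_simp
      have h2 : ENNReal.ofReal (Real.exp (2 * l)) * volume (EE w R ∩ Metric.closedBall x (ρ / 4)) ≤
          ENNReal.ofReal (8 * Real.pi * ρ ^ 2 * Real.exp (2 * l - 2 * (M / k * l))) := by
        calc _ ≤ ENNReal.ofReal (Real.exp (2 * l)) * ENNReal.ofReal (8 * Real.pi * t ^ 2) := by gcongr
          _ = _ := by
              rw [← ENNReal.ofReal_mul (by positivity)]
              congr 1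
              rw [ht, mul_pow, ← Real.exp_nat_mul, sub_eq_add_neg, Real.exp_add]
              push_cast
              ring_nf
      refine h2.trans (ENNReal.ofReal_le_ofReal ?_)
      have hpi := Real.pi_pos
      apply mul_le_mul_of_nonneg_left _ (by positivity)
      split_ifs with hcase
      · have h3 : (1:ℝ) ≤ M / k := by
          rw [one_le_div hk0]; exact_mod_cast hkM.le
        have h4 : 2 * l - 2 * (M / k * l) ≤ 0 := by nlinarith
        have := Real.exp_le_one_iff.2 h4
        have := Real.exp_pos (-2 * |l|)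
        linarith
      · have h3 : (2:ℝ) ≤ M / k := by
          rw [le_div_iff₀ hk0]; exact_mod_cast not_lt.1 hcase
        rw [add_zero, abs_of_pos hl0]
        apply Real.exp_le_exp.2
        nlinarith

end est

end Pool.Agent.H283R3.Cap
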