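import Pool.Agent.H283R3.Cap4

open MeasureTheory Set
open scoped ENNReal NNReal

set_option linter.unusedSectionVars false

namespace Pool.Agent.H283R3.Cap

lemma vol_ball (a : ℂ) {r : ℝ} (hr : 0 ≤ r) :
    volume (Metric.closedBall a r) = ENNReal.ofReal (Real.pi * r ^ 2) := by
  rw [Complex.volume_closedBall, ← ENNReal.ofReal_pow hr,
    show (NNReal.pi : ℝ≥0∞) = ENNReal.ofReal Real.pi by
      rw [ENNReal.ofReal, ← NNReal.coe_real_pi, Real.toNNReal_coe],
    ← ENNReal.ofReal_mul (by positivity), mul_comm]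

variable {ι : Type*} [Fintype ι] [DecidableEq ι] (w : ι → ℂ) {M : ℕ}

lemma setbound {X : Set ℂ} (hX : MeasurableSet X) {f : ℂ → ℝ} {a : ℂ} {B r : ℝ} (hr : 0 ≤ r)
    (hB : 0 ≤ B) (h1 : ∀ x ∈ X, f x ≤ B) (h2 : ∀ x ∈ X, ‖x - a‖ ≤ r) :
    ∫⁻ x in X, ENNReal.ofReal (f x) ≤ ENNReal.ofReal (B * (Real.pi * r ^ 2)) := by
  calc ∫⁻ x in X, ENNReal.ofReal (f x) ≤ ∫⁻ x in X, ENNReal.ofReal B :=
        setLIntegral_mono' hX fun x hx => ENNReal.ofReal_le_ofReal (h1 x hx)
    _ = ENNReal.ofReal B * volume X := by rw [setLIntegral_const]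
    _ ≤ ENNReal.ofReal B * volume (Metric.closedBall a r) := by
        gcongr
        intro x hx
        rw [Metric.mem_closedBall, dist_eq_norm]
        exact h2 x hx
    _ = _ := by rw [vol_ball a hr, ← ENNReal.ofReal_mul hB]

section est
variable {n R : ℝ} (hM : M ≤ Fintype.card ι) (hM1 : 1 ≤ M) (hn : (Fintype.card ι : ℝ) = n * M)
  (hR : 0 < R)
include hM hM1 hn hR

lemma pt_a (a : ℂ) : ∫⁻ x in {x : ℂ | 0 < rho w M x ∧ ‖x - a‖ < rho w M x / 2},
    ENNReal.ofReal ((rho w M x ^ 2)⁻¹) ≤ ENNReal.ofReal (9 * Real.pi / 4) := by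
  have hcont := rho_cont w hM
  have hmeas : MeasurableSet {x : ℂ | 0 < rho w M x ∧ ‖x - a‖ < rho w M x / 2} :=
    ((isOpen_lt continuous_const hcont).inter
      (isOpen_lt (by fun_prop) (hcont.div_const 2))).measurableSet
  rcases eq_or_lt_of_le (rho_nonneg w M a) with h0 | h0
  · have : {x : ℂ | 0 < rho w M x ∧ ‖x - a‖ < rho w M x / 2} = ∅ := by
      rw [Set.eq_empty_iff_forall_notMem]
      rintro x ⟨h1, h2⟩
      have := rho_lip w hM x a
      linarith
    rw [this]; simp
  · refine (setbound hmeas (f := fun x => (rho w M x ^ 2)⁻¹) (a := a) (B := 9/4 * (rho w M a ^ 2)⁻¹)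
      (r := rho w M a) h0.le (by positivity) ?_ ?_).trans (le_of_eq ?_)
    · rintro x ⟨h1, h2⟩
      have := rho_lip w hM a x
      rw [norm_sub_rev] at this
      have h3 : rho w M a ≤ 3/2 * rho w M x := by linarith
      have h4 : rho w M a ^ 2 ≤ 9/4 * rho w M x ^ 2 := by nlinarith
      rw [← div_eq_mul_inv, le_div_iff₀ (by positivity)]
      rw [inv_mul_le_iff₀ (by positivity)]
      linarith
    · rintro x ⟨h1, h2⟩
      have := rho_lip w hM x a
      linarith
    · congr 1
      field_simp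

/-- the constant of the level sets -/
lemma pt_b (hn0 : 0 ≤ n) (a : ℂ) (l : ℤ) :
    ∫⁻ x in {x : ℂ | (0 < rho w M x ∧ ‖x - a‖ ≤ rho w M x) ∧
      ((l:ℝ) ≤ LL w M n R x - n * Real.log 4 ∧ LL w M n R x - n * Real.log 4 < l + 1)},
    ENNReal.ofReal ((rho w M x ^ 2)⁻¹ * Real.exp (-2 * |LL w M n R x - n * Real.log 4|)) ≤
    ENNReal.ofReal (Real.pi * Real.exp (4 * (1 + n * Real.log 3) + 2) * Real.exp (-2 * |(l:ℝ)|)) := by
  set X := {x : ℂ | (0 < rho w M x ∧ ‖x - a‖ ≤ rho w M x) ∧
      ((l:ℝ) ≤ LL w M n R x - n * Real.log 4 ∧ LL w M n R x - n * Real.log 4 < l + 1)} with hX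
  have hcont := rho_cont w hM
  have hLm := LL_meas w hM n R
  have hmeas : MeasurableSet X := by
    apply MeasurableSet.inter
    · exact (measurableSet_lt measurable_const hcont.measurable).inter
        (measurableSet_le (by fun_prop) hcont.measurable)
    · exact (measurableSet_le measurable_const (hLm.sub_const _)).inter
        (measurableSet_lt (hLm.sub_const _) measurable_const)
  have hlog3 : 0 < Real.log 3 := Real.log_pos (by norm_num)
  rcases X.eq_empty_or_nonempty with he | ⟨y0, hy0⟩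
  · rw [he]; simp
  set A := Real.exp (1 + n * Real.log 3) with hA
  have hA1 : 1 ≤ A := Real.one_le_exp (by positivity)
  have key : ∀ x ∈ X, ∀ y ∈ X, rho w M x ≤ A * rho w M y := by
    intro x hx y hy
    rcases le_total (rho w M x) (rho w M y) with h | h
    · have := hy.1.1
      nlinarith
    · have hc := LL_comp w hM hM1 hn (R := R) hx.1.2 hy.1.2 hy.1.1 h
      have h1 := hy.2.1
      have h2 := hx.2.2
      have h3 : Real.log (rho w M x) - Real.log (rho w M y) ≤ 1 + n * Real.log 3 := by linarith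
      have h4 : Real.log (rho w M x) ≤ Real.log (A * rho w M y) := by
        rw [Real.log_mul (Real.exp_pos _).ne' hy.1.1.ne', Real.log_exp]
        linarith
      exact (Real.log_le_log_iff hx.1.1 (mul_pos (Real.exp_pos _) hy.1.1)).1 h4
  have hy0p := hy0.1.1
  refine (setbound hmeas (a := a)
    (B := A ^ 2 * (rho w M y0 ^ 2)⁻¹ * (Real.exp 2 * Real.exp (-2 * |(l:ℝ)|)))
    (r := A * rho w M y0) (by positivity) (by positivity) ?_ ?_).trans (le_of_eq ?_)
  · intro x hx
    have h1 := key y0 hy0 x hx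
    have hxp := hx.1.1
    have h2 : (rho w M x ^ 2)⁻¹ ≤ A ^ 2 * (rho w M y0 ^ 2)⁻¹ := by
      rw [← div_eq_mul_inv, le_div_iff₀ (by positivity), inv_mul_le_iff₀ (by positivity)]
      calc rho w M y0 ^ 2 ≤ (A * rho w M x) ^ 2 := by gcongr
        _ = _ := by ring
    have h3 : Real.exp (-2 * |LL w M n R x - n * Real.log 4|) ≤ Real.exp 2 * Real.exp (-2 * |(l:ℝ)|) := by
      rw [← Real.exp_add]
      apply Real.exp_le_exp.2
      have h4 : |(l:ℝ)| ≤ |LL w M n R x - n * Real.log 4| + 1 := by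
        have h5 : |(l:ℝ) - (LL w M n R x - n * Real.log 4)| ≤ 1 := by
          rw [abs_le]; constructor <;> linarith [hx.2.1, hx.2.2]
        have h6 := abs_sub_abs_le_abs_sub (l:ℝ) (LL w M n R x - n * Real.log 4)
        linarith
      linarith
    gcongr
  · intro x hx
    exact hx.1.2.trans (key x hx y0 hy0)
  · congr 1
    have e1 : Real.exp (4 * (1 + n * Real.log 3) + 2) = A ^ 4 * Real.exp 2 := by
      rw [hA, ← Real.exp_nat_mul, ← Real.exp_add]; norm_num
    rw [e1]
    field_simp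

end est

/-- the constant of the second integral -/
noncomputable def CB (n : ℝ) : ℝ≥0∞ :=
  ∑' l : ℤ, ENNReal.ofReal (Real.pi * Real.exp (4 * (1 + n * Real.log 3) + 2) * Real.exp (-2 * |(l:ℝ)|))

lemma CB_ne_top (n : ℝ) : CB n ≠ ⊤ := by
  have hs : Summable (fun l : ℤ => Real.exp (-2 * |(l:ℝ)|)) := by
    have h0 : Summable (fun k : ℕ => Real.exp (-2 * (k:ℝ))) := by
      have : ∀ k : ℕ, Real.exp (-2 * (k:ℝ)) = (Real.exp (-2)) ^ k := by
        intro k; rw [← Real.exp_nat_mul]; ring_nf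
      simp only [this]
      exact summable_geometric_of_lt_one (Real.exp_pos _).le (by rw [Real.exp_lt_one_iff]; norm_num)
    apply Summable.of_nat_of_neg
    · simpa using h0
    · simpa using h0
  unfold CB
  exact (hs.mul_left _).tsum_ofReal_ne_top

section est2
variable {n R : ℝ} (hM : M ≤ Fintype.card ι) (hM1 : 1 ≤ M) (hn : (Fintype.card ι : ℝ) = n * M)
  (hR : 0 < R)
include hM hM1 hn hR

lemma pt_b' (hn0 : 0 ≤ n) (a : ℂ) :
    ∫⁻ x in {x : ℂ | 0 < rho w M x ∧ ‖x - a‖ ≤ rho w M x},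
    ENNReal.ofReal ((rho w M x ^ 2)⁻¹ * Real.exp (-2 * |LL w M n R x - n * Real.log 4|)) ≤ CB n := by
  have hsub : {x : ℂ | 0 < rho w M x ∧ ‖x - a‖ ≤ rho w M x} ⊆ ⋃ l : ℤ,
      {x : ℂ | (0 < rho w M x ∧ ‖x - a‖ ≤ rho w M x) ∧
      ((l:ℝ) ≤ LL w M n R x - n * Real.log 4 ∧ LL w M n R x - n * Real.log 4 < l + 1)} := by
    intro x hx
    rw [mem_iUnion]
    exact ⟨⌊LL w M n R x - n * Real.log 4⌋, hx, Int.floor_le _, Int.lt_floor_add_one _⟩
  refine (lintegral_mono_set hsub).trans ((lintegral_iUnion_le _ _).trans ?_)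
  exact ENNReal.tsum_le_tsum fun l => pt_b w hM hM1 hn hR hn0 a l

/-- the integral of the scale invariant quantity -/
lemma scale_int (hn0 : 0 ≤ n) :
    ∫⁻ x in {x : ℂ | 0 < rho w M x},
    ENNReal.ofReal ((rho w M x ^ 2)⁻¹ * (Real.exp (-2 * |LL w M n R x - n * Real.log 4|) +
      if M < 2 * (JJ w M x).card then 1 else 0)) ≤
    ENNReal.ofReal n * CB n + ENNReal.ofReal (n * (9 * Real.pi / 2)) := by
  have hM0 : (0:ℝ) < M := by exact_mod_cast hM1
  have hcont := rho_cont w hM
  have hLm := LL_meas w hM n R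
  set P := {x : ℂ | 0 < rho w M x} with hP
  have hPm : MeasurableSet P := (isOpen_lt continuous_const hcont).measurableSet
  set g1 : ℂ → ℝ := fun x => (rho w M x ^ 2)⁻¹ * Real.exp (-2 * |LL w M n R x - n * Real.log 4|)
    with hg1
  set g2 : ℂ → ℝ := fun x => (rho w M x ^ 2)⁻¹ with hg2
  have hg1m : Measurable g1 := by
    have := hcont.measurable
    fun_prop
  have hg2m : Measurable g2 := by
    have := hcont.measurable
    fun_prop
  set S1 : ι → Set ℂ := fun i => {x : ℂ | 0 < rho w M x ∧ ‖x - w i‖ ≤ rho w M x} with hS1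
  set S2 : ι → Set ℂ := fun i => {x : ℂ | 0 < rho w M x ∧ ‖x - w i‖ < rho w M x / 2} with hS2
  have hS1m : ∀ i, MeasurableSet (S1 i) := fun i =>
    (measurableSet_lt measurable_const hcont.measurable).inter
        (measurableSet_le (by fun_prop) hcont.measurable)
  have hS2m : ∀ i, MeasurableSet (S2 i) := fun i =>
    ((isOpen_lt continuous_const hcont).inter
      (isOpen_lt (by fun_prop) (hcont.div_const 2))).measurableSet
  -- pointwise bound
  have hpt : ∀ x ∈ P, ENNReal.ofReal ((rho w M x ^ 2)⁻¹ *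
      (Real.exp (-2 * |LL w M n R x - n * Real.log 4|) +
      if M < 2 * (JJ w M x).card then 1 else 0)) ≤
      (ENNReal.ofReal (M:ℝ)⁻¹ * ∑ i, (S1 i).indicator (fun x => ENNReal.ofReal (g1 x)) x) +
      (ENNReal.ofReal (2 / (M:ℝ)) * ∑ i, (S2 i).indicator (fun x => ENNReal.ofReal (g2 x)) x) := by
    intro x hx
    have hx : 0 < rho w M x := hx
    have hg1x : 0 ≤ g1 x := by positivity
    have hg2x : 0 ≤ g2 x := by positivity
    have e1 : ∑ i, (S1 i).indicator (fun x => ENNReal.ofReal (g1 x)) x =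
        ENNReal.ofReal ((Finset.univ.filter (fun i => ‖x - w i‖ ≤ rho w M x)).card * g1 x) := by
      rw [ENNReal.ofReal_mul (by positivity), ENNReal.ofReal_natCast, ← nsmul_eq_mul,
        ← Finset.sum_const, Finset.sum_filter]
      apply Finset.sum_congr rfl
      intro i _
      by_cases h : ‖x - w i‖ ≤ rho w M x
      · rw [if_pos h, indicator_of_mem (by exact ⟨hx, h⟩)]
      · rw [if_neg h, indicator_of_notMem (by rintro ⟨-, h2⟩; exact h h2)]
    have e2 : ∑ i, (S2 i).indicator (fun x => ENNReal.ofReal (g2 x)) x =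
        ENNReal.ofReal ((JJ w M x).card * g2 x) := by
      rw [ENNReal.ofReal_mul (by positivity), ENNReal.ofReal_natCast, ← nsmul_eq_mul,
        ← Finset.sum_const]
      unfold JJ
      rw [Finset.sum_filter]
      apply Finset.sum_congr rfl
      intro i _
      by_cases h : ‖x - w i‖ < rho w M x / 2
      · rw [if_pos h, indicator_of_mem (by exact ⟨hx, h⟩)]
      · rw [if_neg h, indicator_of_notMem (by rintro ⟨-, h2⟩; exact h h2)]
    rw [e1, e2, ← ENNReal.ofReal_mul (by positivity), ← ENNReal.ofReal_mul (by positivity),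
      ← ENNReal.ofReal_add (by positivity) (by positivity)]
    apply ENNReal.ofReal_le_ofReal
    rw [mul_add]
    apply add_le_add
    · -- at least M points
      obtain ⟨T, hT, hTy⟩ := rho_exists w hM x
      have hc : M ≤ (Finset.univ.filter (fun i => ‖x - w i‖ ≤ rho w M x)).card := by
        refine hT.symm.le.trans (Finset.card_le_card ?_)
        intro i hi
        rw [Finset.mem_filter]
        refine ⟨Finset.mem_univ _, ?_⟩
        have := le_sp w x hi
        rwa [hTy] at this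
      have hc' : (M:ℝ) ≤ (Finset.univ.filter (fun i => ‖x - w i‖ ≤ rho w M x)).card := by
        exact_mod_cast hc
      calc g1 x = (M:ℝ)⁻¹ * (M * g1 x) := by field_simp
        _ ≤ _ := by gcongr
    · split_ifs with hcase
      · have hc' : (M:ℝ) ≤ 2 * (JJ w M x).card := by exact_mod_cast hcase.le
        calc g2 x * 1 = (M:ℝ)⁻¹ * (M * g2 x) := by field_simp
          _ ≤ (M:ℝ)⁻¹ * ((2 * (JJ w M x).card) * g2 x) := by gcongr
          _ = _ := by ring
      · simp only [mul_zero]; positivity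
  refine (setLIntegral_mono' hPm hpt).trans ?_
  have hm1 : ∀ i, Measurable ((S1 i).indicator (fun x => ENNReal.ofReal (g1 x))) := fun i =>
    (hg1m.ennreal_ofReal).indicator (hS1m i)
  have hm2 : ∀ i, Measurable ((S2 i).indicator (fun x => ENNReal.ofReal (g2 x))) := fun i =>
    (hg2m.ennreal_ofReal).indicator (hS2m i)
  rw [lintegral_add_left ((Finset.measurable_sum _ fun i _ => hm1 i).const_mul _)]
  rw [lintegral_const_mul _ (Finset.measurable_sum _ fun i _ => hm1 i),
    lintegral_const_mul _ (Finset.measurable_sum _ fun i _ => hm2 i),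
    lintegral_finsetSum _ (fun i _ => hm1 i), lintegral_finsetSum _ (fun i _ => hm2 i)]
  apply add_le_add
  · calc ENNReal.ofReal (M:ℝ)⁻¹ * ∑ i, ∫⁻ x in P, (S1 i).indicator (fun x => ENNReal.ofReal (g1 x)) x
        ≤ ENNReal.ofReal (M:ℝ)⁻¹ * ∑ i : ι, CB n := by
          gcongr with i _
          calc ∫⁻ x in P, (S1 i).indicator (fun x => ENNReal.ofReal (g1 x)) x
              ≤ ∫⁻ x, (S1 i).indicator (fun x => ENNReal.ofReal (g1 x)) x :=
                setLIntegral_le_lintegral _ _
            _ = ∫⁻ x in S1 i, ENNReal.ofReal (g1 x) := lintegral_indicator (hS1m i) _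
            _ ≤ CB n := pt_b' w hM hM1 hn hR hn0 (w i)
      _ = ENNReal.ofReal n * CB n := by
          rw [Finset.sum_const, Finset.card_univ, nsmul_eq_mul, ← mul_assoc]
          congr 1
          rw [← ENNReal.ofReal_natCast, ← ENNReal.ofReal_mul (by positivity), hn]
          congr 1; field_simp
  · calc ENNReal.ofReal (2 / (M:ℝ)) * ∑ i, ∫⁻ x in P, (S2 i).indicator (fun x => ENNReal.ofReal (g2 x)) x
        ≤ ENNReal.ofReal (2 / (M:ℝ)) * ∑ i : ι, ENNReal.ofReal (9 * Real.pi / 4) := by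
          gcongr with i _
          calc ∫⁻ x in P, (S2 i).indicator (fun x => ENNReal.ofReal (g2 x)) x
              ≤ ∫⁻ x, (S2 i).indicator (fun x => ENNReal.ofReal (g2 x)) x :=
                setLIntegral_le_lintegral _ _
            _ = ∫⁻ x in S2 i, ENNReal.ofReal (g2 x) := lintegral_indicator (hS2m i) _
            _ ≤ _ := pt_a w hM hM1 hn hR (w i)
      _ = _ := by
          rw [Finset.sum_const, Finset.card_univ, nsmul_eq_mul, ← ENNReal.ofReal_natCast,
            ← ENNReal.ofReal_mul (by positivity), ← ENNReal.ofReal_mul (by positivity), hn]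
          congr 1; field_simp; ring

end est2

end Pool.Agent.H283R3.Cap
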