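import Pool.Agent.H283R3.Cap5
import Pool.Agent.H283R3.Cap1

open MeasureTheory Set
open scoped ENNReal NNReal

set_option linter.unusedSectionVars false

namespace Pool.Agent.H283R3.Cap

variable {ι : Type*} [Fintype ι] [DecidableEq ι] (w : ι → ℂ) {M : ℕ}

/-- constant -/
noncomputable def CC (n : ℝ) : ℝ≥0∞ :=
  ENNReal.ofReal (36 / Real.pi) * (ENNReal.ofReal (8 * Real.pi * (16 / 9 * Real.exp (n / 2 + 2 * (n * Real.log 4)))) *
    (ENNReal.ofReal n * CB n + ENNReal.ofReal (n * (9 * Real.pi / 2))))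

lemma CC_ne_top (n : ℝ) : CC n ≠ ⊤ := by
  unfold CC
  refine ENNReal.mul_ne_top ENNReal.ofReal_ne_top (ENNReal.mul_ne_top ENNReal.ofReal_ne_top ?_)
  exact ENNReal.add_ne_top.2 ⟨ENNReal.mul_ne_top ENNReal.ofReal_ne_top (CB_ne_top n),
    ENNReal.ofReal_ne_top⟩

section est
variable {n R : ℝ} (hM : M ≤ Fintype.card ι) (hM1 : 1 ≤ M) (hn : (Fintype.card ι : ℝ) = n * M)
  (hR : 0 < R)
include hM hM1 hn hR

lemma EE_meas : MeasurableSet (EE w R) := by
  unfold EE
  exact (isClosed_le (by fun_prop) continuous_const).measurableSet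

/-- the averaging constant -/
lemma averaging {z : ℂ} (hz : 0 < rho w M z) :
    1 ≤ ENNReal.ofReal (36 / Real.pi) * ∫⁻ x in {x : ℂ | 0 < rho w M x},
      {x : ℂ | ‖x - z‖ ≤ rho w M x / 4}.indicator (fun x => ENNReal.ofReal ((rho w M x ^ 2)⁻¹)) x := by
  have hcont := rho_cont w hM
  have hpi := Real.pi_pos
  have hsub : Metric.closedBall z (rho w M z / 5) ⊆
      {x : ℂ | 0 < rho w M x} ∩ {x : ℂ | ‖x - z‖ ≤ rho w M x / 4} := by
    intro x hx
    rw [Metric.mem_closedBall, dist_eq_norm] at hx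
    have h1 := rho_lip w hM z x
    rw [norm_sub_rev] at h1
    constructor
    · simp only [mem_ofPred_eq]; linarith
    · simp only [mem_ofPred_eq]; linarith
  have hm : MeasurableSet {x : ℂ | ‖x - z‖ ≤ rho w M x / 4} :=
    (isClosed_le (by fun_prop) (hcont.div_const 4)).measurableSet
  have h1 : ENNReal.ofReal (25/36 * (rho w M z ^ 2)⁻¹) * volume (Metric.closedBall z (rho w M z / 5)) ≤
      ∫⁻ x in {x : ℂ | 0 < rho w M x},
      {x : ℂ | ‖x - z‖ ≤ rho w M x / 4}.indicator (fun x => ENNReal.ofReal ((rho w M x ^ 2)⁻¹)) x := by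
    calc _ = ∫⁻ x in Metric.closedBall z (rho w M z / 5), ENNReal.ofReal (25/36 * (rho w M z ^ 2)⁻¹) := by
          rw [setLIntegral_const]
      _ ≤ ∫⁻ x in Metric.closedBall z (rho w M z / 5),
            {x : ℂ | ‖x - z‖ ≤ rho w M x / 4}.indicator (fun x => ENNReal.ofReal ((rho w M x ^ 2)⁻¹)) x := by
          apply setLIntegral_mono' Metric.isClosed_closedBall.measurableSet
          intro x hx
          rw [indicator_of_mem (hsub hx).2]
          apply ENNReal.ofReal_le_ofReal
          have hxp : 0 < rho w M x := (hsub hx).1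
          rw [Metric.mem_closedBall, dist_eq_norm] at hx
          have h2 := rho_lip w hM x z
          have h3 : rho w M x ≤ 6/5 * rho w M z := by linarith
          rw [← div_eq_mul_inv, div_le_iff₀ (by positivity), ← div_eq_inv_mul,
            le_div_iff₀ (by positivity)]
          nlinarith
      _ ≤ _ := lintegral_mono_set fun x hx => (hsub hx).1
  rw [vol_ball z (by positivity), ← ENNReal.ofReal_mul (by positivity)] at h1
  calc (1 : ℝ≥0∞) = ENNReal.ofReal (36 / Real.pi) *
        ENNReal.ofReal (25 / 36 * (rho w M z ^ 2)⁻¹ * (Real.pi * (rho w M z / 5) ^ 2)) := by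
        rw [← ENNReal.ofReal_mul (by positivity), ← ENNReal.ofReal_one]
        congr 1
        field_simp
        norm_num
    _ ≤ _ := by gcongr

theorem main_int (hn0 : 0 ≤ n) :
    ∫⁻ z in EE w R ∩ {x : ℂ | 0 < rho w M x},
      ENNReal.ofReal (Real.exp (2 * LL w M n R z) * (rho w M z ^ 2)⁻¹) ≤ CC n := by
  have hcont := rho_cont w hM
  have hpi := Real.pi_pos
  have hLm := LL_meas w hM n R
  have hρm := hcont.measurable
  have hEm := EE_meas w hM hM1 hn hR
  set P := {x : ℂ | 0 < rho w M x} with hP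
  have hPm : MeasurableSet P := (isOpen_lt continuous_const hcont).measurableSet
  set f : ℂ → ℝ≥0∞ := fun z => ENNReal.ofReal (Real.exp (2 * LL w M n R z) * (rho w M z ^ 2)⁻¹) with hf
  have hfm : Measurable f := by fun_prop
  set H : ℂ → ℂ → ℝ≥0∞ := fun x z =>
    {x : ℂ | ‖x - z‖ ≤ rho w M x / 4}.indicator (fun x => ENNReal.ofReal ((rho w M x ^ 2)⁻¹)) x * f z
    with hH
  have hHm : Measurable (Function.uncurry fun z x => H x z) := by
    simp only [hH]
    have h1 : Measurable (fun p : ℂ × ℂ => {q : ℂ × ℂ | ‖q.2 - q.1‖ ≤ rho w M q.2 / 4}.indicator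
        (fun q => ENNReal.ofReal ((rho w M q.2 ^ 2)⁻¹)) p * f p.1) := by
      apply Measurable.mul
      · apply Measurable.indicator
        · fun_prop
        · exact measurableSet_le (by fun_prop) (by fun_prop)
      · exact hfm.comp measurable_fst
    convert h1 using 1
    ext p
    simp only [Function.uncurry, Set.indicator, Set.mem_ofPred_eq]
  have step1 : ∫⁻ z in EE w R ∩ P, f z ≤
      ENNReal.ofReal (36 / Real.pi) * ∫⁻ z in EE w R ∩ P, ∫⁻ x in P, H x z := by
    rw [← lintegral_const_mul _ (by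
      exact (hHm.lintegral_prod_right' (ν := volume.restrict P)))]
    apply setLIntegral_mono' (hEm.inter hPm)
    intro z hz
    have h1 := averaging w hM hM1 hn hR hz.2
    have h2 : ∫⁻ x in P, H x z = (∫⁻ x in P,
      {x : ℂ | ‖x - z‖ ≤ rho w M x / 4}.indicator (fun x => ENNReal.ofReal ((rho w M x ^ 2)⁻¹)) x) * f z := by
      rw [← lintegral_mul_const _ ((by fun_prop : Measurable fun x => ENNReal.ofReal ((rho w M x ^ 2)⁻¹)).indicator
        (measurableSet_le (by fun_prop) (by fun_prop)))]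
    rw [h2, ← mul_assoc]
    calc f z = 1 * f z := (one_mul _).symm
      _ ≤ _ := by gcongr
  have step2 : ∫⁻ z in EE w R ∩ P, ∫⁻ x in P, H x z = ∫⁻ x in P, ∫⁻ z in EE w R ∩ P, H x z :=
    lintegral_lintegral_swap hHm.aemeasurable
  have step3 : ∀ x ∈ P, ∫⁻ z in EE w R ∩ P, H x z ≤
      ENNReal.ofReal (8 * Real.pi * (16 / 9 * Real.exp (n / 2 + 2 * (n * Real.log 4)))) *
      ENNReal.ofReal ((rho w M x ^ 2)⁻¹ * (Real.exp (-2 * |LL w M n R x - n * Real.log 4|) +
      if M < 2 * (JJ w M x).card then 1 else 0)) := by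
    intro x hx
    have hx : 0 < rho w M x := hx
    set l := LL w M n R x - n * Real.log 4 with hl
    have hfb : ∀ z ∈ EE w R ∩ Metric.closedBall x (rho w M x / 4),
        f z ≤ ENNReal.ofReal (16 / 9 * Real.exp (n / 2 + 2 * (n * Real.log 4)) * (rho w M x ^ 2)⁻¹ * Real.exp (2 * l)) := by
      rintro z ⟨-, hz⟩
      rw [Metric.mem_closedBall, dist_eq_norm] at hz
      obtain ⟨h1, h2⟩ := LL_near w hM hM1 hn (R := R) hx hz
      apply ENNReal.ofReal_le_ofReal
      have h3 : Real.exp (2 * LL w M n R z) ≤ Real.exp (n / 2 + 2 * (n * Real.log 4)) * Real.exp (2 * l) := by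
        rw [← Real.exp_add]
        apply Real.exp_le_exp.2
        rw [hl]; linarith
      have h4 : (rho w M z ^ 2)⁻¹ ≤ 16 / 9 * (rho w M x ^ 2)⁻¹ := by
        have hz0 : 0 < rho w M z := by linarith
        rw [← div_eq_mul_inv, le_div_iff₀ (by positivity), inv_mul_le_iff₀ (by positivity)]
        nlinarith
      calc _ ≤ (Real.exp (n / 2 + 2 * (n * Real.log 4)) * Real.exp (2 * l)) * (16 / 9 * (rho w M x ^ 2)⁻¹) := by
            gcongr
        _ = _ := by ring
    calc ∫⁻ z in EE w R ∩ P, H x z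
        ≤ ∫⁻ z, (EE w R ∩ Metric.closedBall x (rho w M x / 4)).indicator
            (fun z => ENNReal.ofReal ((rho w M x ^ 2)⁻¹) * f z) z := by
          rw [← lintegral_indicator (hEm.inter hPm)]
          apply lintegral_mono
          intro z
          by_cases hz : z ∈ EE w R ∩ P
          · rw [indicator_of_mem hz]
            simp only [hH]
            by_cases hd : ‖x - z‖ ≤ rho w M x / 4
            · rw [indicator_of_mem (by exact hd), indicator_of_mem]
              exact ⟨hz.1, by rw [Metric.mem_closedBall, dist_eq_norm, norm_sub_rev]; exact hd⟩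
            · rw [indicator_of_notMem (by exact hd), zero_mul]
              exact bot_le
          · rw [indicator_of_notMem hz]
            exact bot_le
      _ = ∫⁻ z in EE w R ∩ Metric.closedBall x (rho w M x / 4), ENNReal.ofReal ((rho w M x ^ 2)⁻¹) * f z :=
          lintegral_indicator (hEm.inter Metric.isClosed_closedBall.measurableSet) _
      _ ≤ ∫⁻ z in EE w R ∩ Metric.closedBall x (rho w M x / 4), ENNReal.ofReal ((rho w M x ^ 2)⁻¹) *
            ENNReal.ofReal (16 / 9 * Real.exp (n / 2 + 2 * (n * Real.log 4)) * (rho w M x ^ 2)⁻¹ * Real.exp (2 * l)) := by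
          apply setLIntegral_mono' (hEm.inter Metric.isClosed_closedBall.measurableSet)
          intro z hz
          gcongr
          exact hfb z hz
      _ = ENNReal.ofReal (16 / 9 * Real.exp (n / 2 + 2 * (n * Real.log 4)) * ((rho w M x ^ 2)⁻¹) ^ 2) *
            (ENNReal.ofReal (Real.exp (2 * l)) * volume (EE w R ∩ Metric.closedBall x (rho w M x / 4))) := by
          have e : ENNReal.ofReal ((rho w M x ^ 2)⁻¹) *
            ENNReal.ofReal (16 / 9 * Real.exp (n / 2 + 2 * (n * Real.log 4)) * (rho w M x ^ 2)⁻¹ * Real.exp (2 * l)) =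
            ENNReal.ofReal (16 / 9 * Real.exp (n / 2 + 2 * (n * Real.log 4)) * ((rho w M x ^ 2)⁻¹) ^ 2) *
            ENNReal.ofReal (Real.exp (2 * l)) := by
            rw [← ENNReal.ofReal_mul (by positivity), ← ENNReal.ofReal_mul (by positivity)]
            congr 1; ring
          rw [setLIntegral_const, e, mul_assoc]
      _ ≤ ENNReal.ofReal (16 / 9 * Real.exp (n / 2 + 2 * (n * Real.log 4)) * ((rho w M x ^ 2)⁻¹) ^ 2) *
            ENNReal.ofReal (8 * Real.pi * rho w M x ^ 2 *
      (Real.exp (-2 * |LL w M n R x - n * Real.log 4|) +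
        if M < 2 * (JJ w M x).card then 1 else 0)) := by
          gcongr
          exact local_est w hM hM1 hn hR hx
      _ = _ := by
          rw [← ENNReal.ofReal_mul (by positivity), ← ENNReal.ofReal_mul (by positivity), ← hl]
          congr 1
          field_simp
  calc ∫⁻ z in EE w R ∩ P, f z ≤ _ := step1
    _ = ENNReal.ofReal (36 / Real.pi) * ∫⁻ x in P, ∫⁻ z in EE w R ∩ P, H x z := by rw [step2]
    _ ≤ ENNReal.ofReal (36 / Real.pi) * ∫⁻ x in P,
        ENNReal.ofReal (8 * Real.pi * (16 / 9 * Real.exp (n / 2 + 2 * (n * Real.log 4)))) *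
      ENNReal.ofReal ((rho w M x ^ 2)⁻¹ * (Real.exp (-2 * |LL w M n R x - n * Real.log 4|) +
      if M < 2 * (JJ w M x).card then 1 else 0)) := by
        exact mul_le_mul' le_rfl (setLIntegral_mono' hPm step3)
    _ ≤ CC n := by
        rw [lintegral_const_mul' _ _ ENNReal.ofReal_ne_top]
        unfold CC
        gcongr
        exact scale_int w hM hM1 hn hR hn0

end est

end Pool.Agent.H283R3.Cap
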