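import Pool.Agent.H283R3.Cap6

open MeasureTheory Set
open scoped ENNReal NNReal

namespace Pool.Agent.H283R3.Cap

open Polynomial in
lemma exists_prim {n : ℕ} (hn : 1 ≤ n) (f : ℂ[X]) (hd : f.natDegree = n - 1) (hl : f.coeff (n-1) = n) :
    ∃ p : ℂ[X], p.Monic ∧ p.natDegree = n ∧ derivative p = f := by
  set p : ℂ[X] := ∑ i ∈ Finset.range n, monomial (i+1) (f.coeff i / (i + 1)) with hp
  have hder : derivative p = f := by
    rw [hp, derivative_sum]
    conv_rhs => rw [f.as_sum_range' n (by omega)]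
    apply Finset.sum_congr rfl
    intro i _
    rw [derivative_monomial, Nat.add_sub_cancel]
    congr 1
    have : ((i:ℂ) + 1) ≠ 0 := by exact_mod_cast Nat.succ_ne_zero i
    push_cast
    field_simp
  have hdeg : p.natDegree ≤ n := by
    rw [hp]
    apply natDegree_sum_le_of_forall_le
    intro i hi
    refine (natDegree_monomial_le _).trans ?_
    have := Finset.mem_range.1 hi
    omega
  have hcoeff : p.coeff n = 1 := by
    rw [hp, finsetSum_coeff, Finset.sum_eq_single (n-1)]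
    · rw [coeff_monomial, if_pos (by omega), hl]
      have h1 : ((n - 1 : ℕ) : ℂ) + 1 = n := by
        rw [Nat.cast_sub hn]; push_cast; ring
      rw [h1]
      have : (n:ℂ) ≠ 0 := by exact_mod_cast (by omega : n ≠ 0)
      field_simp
    · intro b _ hb
      rw [coeff_monomial, if_neg (by omega)]
    · intro h
      exact absurd (Finset.mem_range.2 (by omega)) h
  have hm : p.Monic := monic_of_natDegree_le_of_coeff_eq_one n hdeg hcoeff
  refine ⟨p, hm, ?_, hder⟩
  apply le_antisymm hdeg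
  apply le_natDegree_of_ne_zero
  rw [hcoeff]; exact one_ne_zero

/-- the constant of the final inequality -/
noncomputable def DD (n : ℕ) : ℝ≥0∞ := ENNReal.ofReal ((n:ℝ) ^ 2 * 9 ^ (n - 1)) * CC n

lemma DD_ne_top (n : ℕ) : DD n ≠ ⊤ := ENNReal.mul_ne_top ENNReal.ofReal_ne_top (CC_ne_top _)

theorem poly_bound {n : ℕ} (hn : 1 ≤ n) {m : ℕ} (hm1 : 1 ≤ m) (q : Polynomial ℂ) (hq : q.Monic)
    (hqd : q.natDegree = m) {R : ℝ} (hR : 0 < R) :
    ∃ p : Polynomial ℂ, p.Monic ∧ p.natDegree = n ∧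
      ∫⁻ z in {z : ℂ | ‖q.eval z‖ ≤ R ^ m}, ENNReal.ofReal (‖(Polynomial.derivative p).eval z‖ ^ 2) ≤
        DD n * ENNReal.ofReal (R ^ (2 * n)) := by
  classical
  -- roots
  have hsplit : q.Splits := IsAlgClosed.splits q
  have hcard : q.roots.card = m := by rw [← hqd]; exact hsplit.natDegree_eq_card_roots.symm
  obtain ⟨l, hl⟩ : ∃ l : List ℂ, (l : Multiset ℂ) = q.roots := Quotient.exists_rep _
  have hlen : l.length = m := by rw [← hcard, ← hl]; rfl
  have heval : ∀ z, q.eval z = ∏ i : Fin m, (z - l.get (i.cast hlen.symm)) := by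
    intro z
    subst hlen
    conv_lhs => rw [hsplit.eq_prod_roots_of_monic hq]
    rw [Polynomial.eval_multiset_prod, ← hl]
    simp only [Multiset.map_coe, Multiset.prod_coe, List.map_map, Fin.cast_eq_self]
    rw [← List.prod_ofFn]
    congr 1
    apply List.ext_get
    · simp
    · intro i h1 h2
      simp
  set r : Fin m → ℂ := fun i => l.get (i.cast hlen.symm) with hr
  set w : Fin n × Fin m → ℂ := fun p => r p.2 with hw
  have hcardι : Fintype.card (Fin n × Fin m) = n * m := by simp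
  have hM : m ≤ Fintype.card (Fin n × Fin m) := by rw [hcardι]; nlinarith
  have hn' : (Fintype.card (Fin n × Fin m) : ℝ) = (n:ℝ) * m := by rw [hcardι]; push_cast; ring
  have hn0 : (0:ℝ) ≤ n := by positivity
  -- critical points
  obtain ⟨c, hc⟩ := crit hm1 w (n - 1) Finset.univ (by
    rw [Finset.card_univ, hcardι]; congr 1; omega)
  -- the polynomial
  set f : Polynomial ℂ := Polynomial.C (n:ℂ) * ∏ j : Fin (n-1), (Polynomial.X - Polynomial.C (c j)) with hf
  have hprodm : (∏ j : Fin (n-1), (Polynomial.X - Polynomial.C (c j))).Monic :=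
    Polynomial.monic_prod_of_monic _ _ fun j _ => Polynomial.monic_X_sub_C _
  have hprodd : (∏ j : Fin (n-1), (Polynomial.X - Polynomial.C (c j))).natDegree = n - 1 := by
    rw [Polynomial.natDegree_prod_of_monic _ _ fun j _ => Polynomial.monic_X_sub_C _]
    simp
  have hnC : (n:ℂ) ≠ 0 := by exact_mod_cast (by omega : n ≠ 0)
  obtain ⟨p, hpm, hpd, hpder⟩ := exists_prim hn f (by
      rw [hf, Polynomial.natDegree_C_mul hnC, hprodd]) (by
      rw [hf, Polynomial.coeff_C_mul]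
      have : (∏ j : Fin (n-1), (Polynomial.X - Polynomial.C (c j))).coeff (n-1) = 1 := by
        have := hprodm.coeff_natDegree
        rwa [hprodd] at this
      rw [this, mul_one])
  refine ⟨p, hpm, hpd, ?_⟩
  have hEE : {z : ℂ | ‖q.eval z‖ ≤ R ^ m} ⊆ EE w R := by
    intro z hz
    unfold EE
    simp only [mem_ofPred_eq] at hz ⊢
    rw [hcardι, Fintype.prod_prod_type]
    simp only [hw]
    have : ∏ i : Fin m, ‖z - r i‖ = ‖q.eval z‖ := by rw [heval z, norm_prod]
    rw [this, Finset.prod_const, Finset.card_univ, Fintype.card_fin]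
    calc ‖q.eval z‖ ^ n ≤ (R ^ m) ^ n := by gcongr
      _ = R ^ (n * m) := by rw [← pow_mul, mul_comm]
  have hmain := main_int w hM hm1 hn' hR hn0
  have hcont := rho_cont w hM
  set P := {x : ℂ | 0 < rho w m x} with hP
  have hPm : MeasurableSet P := (isOpen_lt continuous_const hcont).measurableSet
  have hEm := EE_meas w hM hm1 hn' hR
  -- null complement
  have hnull : volume (EE w R ∩ Pᶜ) = 0 := by
    refine measure_mono_null (t := range w) ?_ ((Set.finite_range w).measure_zero volume)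
    rintro z ⟨-, hz⟩
    have h0 : rho w m z = 0 := by
      rw [hP, mem_compl_iff, mem_ofPred_eq, not_lt] at hz
      exact le_antisymm hz (rho_nonneg w m z)
    obtain ⟨T, hT, hTz⟩ := rho_exists w hM z
    obtain ⟨i, hi⟩ : T.Nonempty := by rw [← Finset.card_pos]; omega
    have := le_sp w z hi
    rw [hTz, h0] at this
    refine ⟨i, ?_⟩
    have h1 := norm_le_zero_iff.1 this
    exact (sub_eq_zero.1 h1).symm
  -- pointwise bound
  have hpt : ∀ z ∈ EE w R ∩ P, ENNReal.ofReal (‖(Polynomial.derivative p).eval z‖ ^ 2) ≤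
      ENNReal.ofReal ((n:ℝ) ^ 2 * 9 ^ (n - 1) * R ^ (2 * n)) *
      ENNReal.ofReal (Real.exp (2 * LL w m n R z) * (rho w m z ^ 2)⁻¹) := by
    rintro z ⟨-, hz⟩
    have hz : 0 < rho w m z := hz
    rw [← ENNReal.ofReal_mul (by positivity)]
    apply ENNReal.ofReal_le_ofReal
    obtain ⟨T, -, hTc, hT⟩ := hc z
    have h1 : ∏ i ∈ Finset.univ \ T, ‖z - w i‖ ≤
        (Real.exp (LL w m n R z) * R ^ n / rho w m z) ^ m := by
      have hall := exp_LL w hM hm1 hn' hR hz
      have h2 : ∏ i ∈ Finset.univ \ T, ‖z - w i‖ ≤ ∏ i ∈ Finset.univ \ T, max ‖z - w i‖ (rho w m z) :=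
        Finset.prod_le_prod (fun _ _ => norm_nonneg _) fun _ _ => le_max_left _ _
      have h3 : rho w m z ^ m ≤ ∏ i ∈ T, max ‖z - w i‖ (rho w m z) := by
        calc rho w m z ^ m = ∏ i ∈ T, rho w m z := by rw [Finset.prod_const, hTc]
          _ ≤ _ := Finset.prod_le_prod (fun _ _ => hz.le) fun _ _ => le_max_right _ _
      have h4 : (∏ i ∈ Finset.univ \ T, max ‖z - w i‖ (rho w m z)) * ∏ i ∈ T, max ‖z - w i‖ (rho w m z) =
          ∏ i, max ‖z - w i‖ (rho w m z) := Finset.prod_sdiff (Finset.subset_univ T)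
      have h5 : ∏ i, max ‖z - w i‖ (rho w m z) = Real.exp (m * LL w m n R z) * R ^ (n * m) := by
        rw [hall, hcardι]
        field_simp
      have h6 : 0 ≤ ∏ i ∈ Finset.univ \ T, max ‖z - w i‖ (rho w m z) :=
        Finset.prod_nonneg fun _ _ => (lt_max_of_lt_right hz).le
      rw [div_pow, mul_pow, ← Real.exp_nat_mul, ← pow_mul, le_div_iff₀ (by positivity), ← h5, ← h4]
      calc (∏ i ∈ Finset.univ \ T, ‖z - w i‖) * rho w m z ^ m
          ≤ (∏ i ∈ Finset.univ \ T, max ‖z - w i‖ (rho w m z)) * rho w m z ^ m := by gcongr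
        _ ≤ _ := by gcongr
    have h2 : ∏ j, ‖z - c j‖ ≤ 3 ^ (n - 1) * (Real.exp (LL w m n R z) * R ^ n / rho w m z) := by
      rw [← pow_le_pow_iff_left₀ (Finset.prod_nonneg fun _ _ => norm_nonneg _) (by positivity)
        (by omega : m ≠ 0), ← Finset.prod_pow, mul_pow, ← pow_mul]
      exact hT.trans (by gcongr)
    have h3 : ‖(Polynomial.derivative p).eval z‖ = n * ∏ j, ‖z - c j‖ := by
      rw [hpder, hf, Polynomial.eval_mul, Polynomial.eval_C, Polynomial.eval_prod, norm_mul,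
        norm_prod, Complex.norm_natCast]
      simp
    rw [h3]
    calc ((n:ℝ) * ∏ j, ‖z - c j‖) ^ 2 ≤
        (n * (3 ^ (n - 1) * (Real.exp (LL w m n R z) * R ^ n / rho w m z))) ^ 2 := by
          gcongr
      _ = _ := by
          rw [show (9:ℝ) = 3 ^ 2 by norm_num, ← pow_mul, mul_comm 2 (n-1), pow_mul,
            show Real.exp (2 * LL w m n R z) = Real.exp (LL w m n R z) ^ 2 by
              rw [← Real.exp_nat_mul]; norm_num]
          rw [mul_comm 2 n, pow_mul]
          field_simp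
  calc ∫⁻ z in {z : ℂ | ‖q.eval z‖ ≤ R ^ m}, ENNReal.ofReal (‖(Polynomial.derivative p).eval z‖ ^ 2)
      ≤ ∫⁻ z in EE w R, ENNReal.ofReal (‖(Polynomial.derivative p).eval z‖ ^ 2) :=
        lintegral_mono_set hEE
    _ = ∫⁻ z in EE w R ∩ P, ENNReal.ofReal (‖(Polynomial.derivative p).eval z‖ ^ 2) := by
        apply setLIntegral_congr
        apply (ae_eq_set (μ := volume)).2
        constructor
        · rw [show EE w R \ (EE w R ∩ P) = EE w R ∩ Pᶜ by
            ext x; simp only [mem_sdiff, mem_inter_iff, mem_compl_iff]; tauto]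
          exact hnull
        · rw [Set.sdiff_eq_empty.2 inter_subset_left]; simp
    _ ≤ ∫⁻ z in EE w R ∩ P, ENNReal.ofReal ((n:ℝ) ^ 2 * 9 ^ (n - 1) * R ^ (2 * n)) *
      ENNReal.ofReal (Real.exp (2 * LL w m n R z) * (rho w m z ^ 2)⁻¹) :=
        setLIntegral_mono' (hEm.inter hPm) hpt
    _ = ENNReal.ofReal ((n:ℝ) ^ 2 * 9 ^ (n - 1) * R ^ (2 * n)) * ∫⁻ z in EE w R ∩ P,
      ENNReal.ofReal (Real.exp (2 * LL w m n R z) * (rho w m z ^ 2)⁻¹) :=
        lintegral_const_mul' _ _ ENNReal.ofReal_ne_top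
    _ ≤ ENNReal.ofReal ((n:ℝ) ^ 2 * 9 ^ (n - 1) * R ^ (2 * n)) * CC n := by gcongr
    _ = _ := by
        unfold DD
        rw [ENNReal.ofReal_mul (by positivity)]
        ring

theorem main (n : ℕ) (hn : 1 ≤ n) : ∃ C : ℝ, 0 < C ∧ ∀ K : Set ℂ, IsCompact K → K.Nonempty →
      C * (⨅ p : {p : Polynomial ℂ // p.Monic ∧ p.natDegree = n},
            Real.sqrt (∫ z in K, ‖(Polynomial.derivative p.1).eval z‖ ^ 2)) ≤
        (⨅ m : ℕ,
            (⨅ q : {q : Polynomial ℂ // q.Monic ∧ q.natDegree = m + 1},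
                sSup ((fun z => ‖q.1.eval z‖) '' K)) ^ ((1 : ℝ) / ((m : ℝ) + 1))) ^ n := by
  set D := (DD n).toReal with hD
  have hD0 : 0 ≤ D := ENNReal.toReal_nonneg
  refine ⟨1 / (Real.sqrt D + 1), by positivity, ?_⟩
  intro K hK hne
  set I := ⨅ p : {p : Polynomial ℂ // p.Monic ∧ p.natDegree = n},
            Real.sqrt (∫ z in K, ‖(Polynomial.derivative p.1).eval z‖ ^ 2) with hI
  set sK : Polynomial ℂ → ℝ := fun q => sSup ((fun z => ‖q.eval z‖) '' K) with hsK
  have hbdd : ∀ q : Polynomial ℂ, BddAbove ((fun z => ‖q.eval z‖) '' K) := fun q =>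
    (hK.image (by fun_prop)).bddAbove
  have hsK0 : ∀ q, 0 ≤ sK q := fun q => Real.sSup_nonneg (by
    rintro _ ⟨z, -, rfl⟩; exact norm_nonneg _)
  set b : ℕ → ℝ := fun m => (⨅ q : {q : Polynomial ℂ // q.Monic ∧ q.natDegree = m + 1},
                sSup ((fun z => ‖q.1.eval z‖) '' K)) ^ ((1 : ℝ) / ((m : ℝ) + 1)) with hb
  have hinf0 : ∀ m, 0 ≤ ⨅ q : {q : Polynomial ℂ // q.Monic ∧ q.natDegree = m + 1},
                sSup ((fun z => ‖q.1.eval z‖) '' K) := fun m =>
    Real.iInf_nonneg fun q => hsK0 q.1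
  have hb0 : ∀ m, 0 ≤ b m := fun m => Real.rpow_nonneg (hinf0 m) _
  have hcap0 : 0 ≤ ⨅ m, b m := Real.iInf_nonneg hb0
  have key : ∀ R : ℝ, (⨅ m, b m) < R → I ≤ Real.sqrt D * R ^ n := by
    intro R hRc
    have hR : 0 < R := hcap0.trans_lt hRc
    obtain ⟨m, hm⟩ := exists_lt_of_ciInf_lt hRc
    have h1 : (⨅ q : {q : Polynomial ℂ // q.Monic ∧ q.natDegree = m + 1},
                sSup ((fun z => ‖q.1.eval z‖) '' K)) < R ^ (m + 1) := by
      have hm' : (⨅ q : {q : Polynomial ℂ // q.Monic ∧ q.natDegree = m + 1},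
                sSup ((fun z => ‖q.1.eval z‖) '' K)) ^ ((1 : ℝ) / ((m : ℝ) + 1)) < R := hm
      have h2 := Real.rpow_lt_rpow (Real.rpow_nonneg (hinf0 m) _) hm' (by positivity : (0:ℝ) < (m:ℝ) + 1)
      rw [← Real.rpow_mul (hinf0 m), one_div, inv_mul_cancel₀ (by positivity), Real.rpow_one] at h2
      calc _ < R ^ ((m:ℝ) + 1) := h2
        _ = R ^ (m + 1) := by rw [← Real.rpow_natCast]; push_cast; rfl
    have : Nonempty {q : Polynomial ℂ // q.Monic ∧ q.natDegree = m + 1} :=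
      ⟨⟨Polynomial.X ^ (m+1), Polynomial.monic_X_pow _, by simp⟩⟩
    obtain ⟨⟨q, hqm, hqd⟩, hq⟩ := exists_lt_of_ciInf_lt h1
    simp only at hq
    obtain ⟨p, hpm, hpd, hp⟩ := poly_bound hn (Nat.succ_pos m) q hqm hqd hR
    have hKsub : K ⊆ {z : ℂ | ‖q.eval z‖ ≤ R ^ (m+1)} := by
      intro z hz
      exact (le_csSup (hbdd q) ⟨z, hz, rfl⟩).trans hq.le
    have h3 : I ≤ Real.sqrt (∫ z in K, ‖(Polynomial.derivative p).eval z‖ ^ 2) := by
      rw [hI]
      exact ciInf_le ⟨0, by rintro _ ⟨p, rfl⟩; exact Real.sqrt_nonneg _⟩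
        (⟨p, hpm, hpd⟩ : {p : Polynomial ℂ // p.Monic ∧ p.natDegree = n})
    refine h3.trans ?_
    have h4 : ∫ z in K, ‖(Polynomial.derivative p).eval z‖ ^ 2 ≤ D * R ^ (2 * n) := by
      rw [integral_eq_lintegral_of_nonneg_ae (Filter.Eventually.of_forall fun z => by positivity)
        (by fun_prop)]
      apply ENNReal.toReal_le_of_le_ofReal (by positivity)
      refine (lintegral_mono_set hKsub).trans (hp.trans ?_)
      rw [ENNReal.ofReal_mul hD0, hD, ENNReal.ofReal_toReal (DD_ne_top n)]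
    calc Real.sqrt (∫ z in K, ‖(Polynomial.derivative p).eval z‖ ^ 2) ≤ Real.sqrt (D * R ^ (2 * n)) :=
          Real.sqrt_le_sqrt h4
      _ = Real.sqrt D * R ^ n := by
          rw [Real.sqrt_mul hD0, mul_comm 2 n, pow_mul, Real.sqrt_sq (by positivity)]
  -- conclusion
  by_contra hcon
  push Not at hcon
  have hI0 : 0 ≤ I := Real.iInf_nonneg fun _ => Real.sqrt_nonneg _
  have hcontp : Filter.Tendsto (fun R : ℝ => R ^ n) (nhdsWithin (⨅ m, b m) (Ioi (⨅ m, b m)))
      (nhds ((⨅ m, b m) ^ n)) :=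
    ((continuous_pow n).tendsto _).mono_left nhdsWithin_le_nhds
  obtain ⟨R, hR1, hR2⟩ := ((hcontp.eventually (gt_mem_nhds hcon)).and self_mem_nhdsWithin).exists
  have hk := key R hR2
  have hRpos : 0 < R := hcap0.trans_lt hR2
  have h5 : 1 / (Real.sqrt D + 1) * I ≤ R ^ n := by
    rw [one_div, inv_mul_le_iff₀ (by positivity)]
    refine hk.trans ?_
    gcongr
    linarith
  linarith

end Pool.Agent.H283R3.Cap
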