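import Mathlib
import Pool.Agent.H308R3.DM.Stmts

set_option autoImplicit false

/-! # Project DIAMOND, POW: from the form bound to a bound on the number of paths -/

namespace Pool.Agent.H283R3.DMPow

open Finset Filter Topology
open scoped Classical BigOperators ENNReal
open Pool.Agent.H308R3.DM

noncomputable section

lemma pos_zero {n : ℕ} (x : Pt) (ω : Fin n → Stp) : pos x ω 0 = x := by
  simp [pos]

lemma pos_cons {n : ℕ} (x : Pt) (s : Stp) (ω : Fin n → Stp) (k : ℕ) :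
    pos x (Fin.cons s ω : Fin (n + 1) → Stp) (k + 1) = pos (x + dv s) ω k := by
  unfold pos
  rw [Fin.sum_univ_succ]
  simp [add_assoc]

lemma rng_cons {n : ℕ} (x : Pt) (s : Stp) (ω : Fin n → Stp) :
    rng x (Fin.cons s ω : Fin (n + 1) → Stp) = insert x (rng (x + dv s) ω) := by
  ext y
  simp only [rng, mem_image, mem_range, mem_insert]
  constructor
  · rintro ⟨k, hk, rfl⟩
    rcases k with _ | k
    · left; exact pos_zero _ _
    · right; exact ⟨k, by omega, (pos_cons x s ω k).symm⟩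
  · rintro (rfl | ⟨k, hk, rfl⟩)
    · exact ⟨0, by omega, pos_zero _ _⟩
    · exact ⟨k + 1, by omega, pos_cons x s ω k⟩

/-- the number of paths staying in `H` -/
def cnt (H : Finset Pt) (n : ℕ) (x : Pt) : ℝ :=
  (((univ : Finset (Fin n → Stp)).filter (fun ω => rng x ω ⊆ H)).card : ℝ)

/-- the killed operator -/
def T (H : Finset Pt) (f : Pt → ℝ) (x : Pt) : ℝ := if x ∈ H then ∑ s : Stp, f (x + dv s) else 0

lemma cnt_zero (H : Finset Pt) (x : Pt) : cnt H 0 x = if x ∈ H then 1 else 0 := by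
  unfold cnt
  have h : ∀ ω : Fin 0 → Stp, rng x ω = {x} := by
    intro ω; simp [rng, pos_zero]
  by_cases hx : x ∈ H
  · simp [h, hx]
  · simp [h, hx]

lemma cnt_eq_sum (H : Finset Pt) (n : ℕ) (x : Pt) :
    cnt H n x = ∑ ω : Fin n → Stp, if rng x ω ⊆ H then (1 : ℝ) else 0 := by
  unfold cnt
  rw [Finset.card_filter]
  push_cast
  rfl

lemma cnt_succ (H : Finset Pt) (n : ℕ) (x : Pt) : cnt H (n + 1) x = T H (cnt H n) x := by
  rw [cnt_eq_sum]
  rw [← (Fin.consEquiv (fun _ : Fin (n + 1) => Stp)).sum_comp, Fintype.sum_prod_type]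
  unfold T
  by_cases hx : x ∈ H
  · rw [if_pos hx]
    apply Finset.sum_congr rfl
    intro s _
    rw [cnt_eq_sum]
    apply Finset.sum_congr rfl
    intro ω _
    have : (Fin.consEquiv (fun _ : Fin (n + 1) => Stp)) (s, ω) = (Fin.cons s ω : Fin (n + 1) → Stp) := rfl
    rw [this, rng_cons]
    simp only [Finset.insert_subset_iff, hx, true_and]
  · rw [if_neg hx]
    apply Finset.sum_eq_zero
    intro s _
    apply Finset.sum_eq_zero
    intro ω _
    have : (Fin.consEquiv (fun _ : Fin (n + 1) => Stp)) (s, ω) = (Fin.cons s ω : Fin (n + 1) → Stp) := rfl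
    rw [this, rng_cons]
    simp only [Finset.insert_subset_iff, hx, false_and, if_false]

/-- the bilinear form -/
def B (H : Finset Pt) (f g : Pt → ℝ) : ℝ := ∑ x ∈ H, ∑ s : Stp, f x * g (x + dv s)

def ng (s : Stp) : Stp := (!s.1, !s.2)

lemma ng_ng (s : Stp) : ng (ng s) = s := by simp [ng]

lemma dv_ng (s : Stp) : dv (ng s) = - dv s := by
  rcases s with ⟨a, b⟩
  rcases a <;> rcases b <;> simp [dv, sg, ng]

lemma B_symm (H : Finset Pt) (f g : Pt → ℝ) (hf : ∀ x, x ∉ H → f x = 0)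
    (hg : ∀ x, x ∉ H → g x = 0) : B H f g = B H g f := by
  have key : ∀ f g : Pt → ℝ, (∀ x, x ∉ H → g x = 0) →
      B H f g = ∑ p ∈ (H ×ˢ (univ : Finset Stp)).filter (fun p => p.1 + dv p.2 ∈ H),
        f p.1 * g (p.1 + dv p.2) := by
    intro f g hg
    unfold B
    rw [← Finset.sum_product' (f := fun x s => f x * g (x + dv s)), Finset.sum_filter]
    apply Finset.sum_congr rfl
    intro p _
    split_ifs with h
    · rfl
    · rw [hg _ h, mul_zero]
  rw [key f g hg, key g f hf]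
  refine Finset.sum_nbij' (fun p => (p.1 + dv p.2, ng p.2)) (fun p => (p.1 + dv p.2, ng p.2))
    ?_ ?_ ?_ ?_ ?_
  · intro p hp
    simp only [mem_filter, mem_product, mem_univ, and_true] at hp ⊢
    refine ⟨hp.2, ?_⟩
    rw [dv_ng]
    simpa using hp.1
  · intro p hp
    simp only [mem_filter, mem_product, mem_univ, and_true] at hp ⊢
    refine ⟨hp.2, ?_⟩
    rw [dv_ng]
    simpa using hp.1
  · intro p _
    simp [dv_ng, ng_ng]
  · intro p _
    simp [dv_ng, ng_ng]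
  · intro p _
    simp only [dv_ng]
    rw [add_neg_cancel_right, mul_comm]

lemma sign_flip (x : Pt) (s : Stp) :
    ((-1 : ℝ) ^ (x + dv s).1.natAbs) = - (-1 : ℝ) ^ x.1.natAbs := by
  have h1 : (x + dv s).1 = x.1 + 1 ∨ (x + dv s).1 = x.1 - 1 := by
    rcases s with ⟨a, b⟩
    rcases a
    · right; simp [dv, sg]; ring
    · left; simp [dv, sg]
  rcases Int.even_or_odd x.1 with he | ho
  · have ho' : Odd (x + dv s).1 := by
      rcases h1 with h | h <;> rw [h]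
      · exact he.add_one
      · exact he.sub_odd odd_one
    rw [(Int.natAbs_odd.mpr ho').neg_one_pow, (Int.natAbs_even.mpr he).neg_one_pow]
  · have he' : Even (x + dv s).1 := by
      rcases h1 with h | h <;> rw [h]
      · exact ho.add_one
      · exact ho.sub_odd odd_one
    rw [(Int.natAbs_even.mpr he').neg_one_pow, (Int.natAbs_odd.mpr ho).neg_one_pow]
    norm_num

lemma B_neg_bound (H : Finset Pt) (ρ : ℝ)
    (hB : ∀ f : Pt → ℝ, (∀ x, x ∉ H → f x = 0) → B H f f ≤ 4 * ρ * ∑ x ∈ H, (f x) ^ 2)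
    (f : Pt → ℝ) (hf : ∀ x, x ∉ H → f x = 0) : - B H f f ≤ 4 * ρ * ∑ x ∈ H, (f x) ^ 2 := by
  have h := hB (fun x => (-1 : ℝ) ^ x.1.natAbs * f x) (fun x hx => by simp [hf x hx])
  have hsq : ∀ k : ℕ, ((-1 : ℝ) ^ k) ^ 2 = 1 := by
    intro k; rw [← pow_mul, mul_comm, pow_mul]; norm_num
  have h1 : B H (fun x => (-1 : ℝ) ^ x.1.natAbs * f x) (fun x => (-1 : ℝ) ^ x.1.natAbs * f x)
      = - B H f f := by
    unfold B
    rw [← Finset.sum_neg_distrib]
    apply Finset.sum_congr rfl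
    intro x _
    rw [← Finset.sum_neg_distrib]
    apply Finset.sum_congr rfl
    intro s _
    have hsf := sign_flip x s
    show ((-1 : ℝ) ^ x.1.natAbs * f x) * ((-1 : ℝ) ^ (x + dv s).1.natAbs * f (x + dv s)) = _
    rw [hsf]
    have := hsq x.1.natAbs
    linear_combination (- f x * f (x + dv s)) * this
  have h2 : ∑ x ∈ H, ((-1 : ℝ) ^ x.1.natAbs * f x) ^ 2 = ∑ x ∈ H, (f x) ^ 2 := by
    apply Finset.sum_congr rfl
    intro x _
    rw [mul_pow, hsq, one_mul]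
  rw [h1, h2] at h
  exact h

lemma B_lin (H : Finset Pt) (f g : Pt → ℝ) (t : ℝ) (hs : B H f g = B H g f) :
    B H (fun x => t * f x + g x) (fun x => t * f x + g x)
      - B H (fun x => t * f x - g x) (fun x => t * f x - g x) = 4 * t * B H g f := by
  have e : B H (fun x => t * f x + g x) (fun x => t * f x + g x)
      - B H (fun x => t * f x - g x) (fun x => t * f x - g x)
      = 2 * t * B H f g + 2 * t * B H g f := by
    unfold B
    rw [← Finset.sum_sub_distrib, Finset.mul_sum, Finset.mul_sum, ← Finset.sum_add_distrib]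
    apply Finset.sum_congr rfl
    intro x _
    rw [← Finset.sum_sub_distrib, Finset.mul_sum, Finset.mul_sum, ← Finset.sum_add_distrib]
    apply Finset.sum_congr rfl
    intro s _
    ring
  rw [e, hs]; ring

lemma T_supp (H : Finset Pt) (f : Pt → ℝ) : ∀ x, x ∉ H → T H f x = 0 := by
  intro x hx; simp [T, hx]

lemma B_T (H : Finset Pt) (f : Pt → ℝ) : B H (T H f) f = ∑ x ∈ H, (T H f x) ^ 2 := by
  unfold B
  apply Finset.sum_congr rfl
  intro x hx
  rw [← Finset.mul_sum, pow_two]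
  congr 1
  simp [T, hx]

lemma norm_T (H : Finset Pt) (ρ : ℝ) (hρ : 0 ≤ ρ)
    (hB : ∀ f : Pt → ℝ, (∀ x, x ∉ H → f x = 0) → B H f f ≤ 4 * ρ * ∑ x ∈ H, (f x) ^ 2)
    (f : Pt → ℝ) (hf : ∀ x, x ∉ H → f x = 0) :
    ∑ x ∈ H, (T H f x) ^ 2 ≤ (4 * ρ) ^ 2 * ∑ x ∈ H, (f x) ^ 2 := by
  have hT := T_supp H f
  have main : ∀ t : ℝ, 4 * t * ∑ x ∈ H, (T H f x) ^ 2 ≤
      8 * ρ * (t ^ 2 * ∑ x ∈ H, (f x) ^ 2 + ∑ x ∈ H, (T H f x) ^ 2) := by
    intro t
    have h1 := hB (fun x => t * f x + T H f x) (fun x hx => by simp [hf x hx, hT x hx])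
    have h2 := B_neg_bound H ρ hB (fun x => t * f x - T H f x)
      (fun x hx => by simp [hf x hx, hT x hx])
    have h3 := B_lin H f (T H f) t (B_symm H f (T H f) hf hT)
    rw [B_T] at h3
    have h4 : ∑ x ∈ H, (t * f x + T H f x) ^ 2 + ∑ x ∈ H, (t * f x - T H f x) ^ 2
        = 2 * (t ^ 2 * ∑ x ∈ H, (f x) ^ 2 + ∑ x ∈ H, (T H f x) ^ 2) := by
      rw [Finset.mul_sum, ← Finset.sum_add_distrib, ← Finset.sum_add_distrib, Finset.mul_sum]
      apply Finset.sum_congr rfl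
      intro x _
      ring
    have h5 : 4 * ρ * (∑ x ∈ H, (t * f x + T H f x) ^ 2 + ∑ x ∈ H, (t * f x - T H f x) ^ 2)
        = 8 * ρ * (t ^ 2 * ∑ x ∈ H, (f x) ^ 2 + ∑ x ∈ H, (T H f x) ^ 2) := by
      rw [h4]; ring
    linarith
  rcases hρ.eq_or_lt with h0 | hpos
  · have := main 1
    rw [← h0] at this ⊢
    have hn : 0 ≤ ∑ x ∈ H, (f x) ^ 2 := Finset.sum_nonneg fun x _ => sq_nonneg _
    nlinarith
  · have h := main (4 * ρ)
    have h' : ρ * (∑ x ∈ H, (T H f x) ^ 2) ≤ ρ * ((4 * ρ) ^ 2 * ∑ x ∈ H, (f x) ^ 2) := by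
      nlinarith
    exact le_of_mul_le_mul_left h' hpos

lemma cnt_supp (H : Finset Pt) (n : ℕ) : ∀ x, x ∉ H → cnt H n x = 0 := by
  intro x hx
  cases n with
  | zero => rw [cnt_zero, if_neg hx]
  | succ n => rw [cnt_succ]; exact T_supp H _ x hx

lemma cnt_norm (H : Finset Pt) (ρ : ℝ) (hρ : 0 ≤ ρ)
    (hB : ∀ f : Pt → ℝ, (∀ x, x ∉ H → f x = 0) → B H f f ≤ 4 * ρ * ∑ x ∈ H, (f x) ^ 2)
    (n : ℕ) : ∑ x ∈ H, (cnt H n x) ^ 2 ≤ ((4 * ρ) ^ n) ^ 2 * H.card := by
  induction n with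
  | zero =>
    have : ∑ x ∈ H, (cnt H 0 x) ^ 2 = ∑ x ∈ H, (1 : ℝ) := by
      apply Finset.sum_congr rfl
      intro x hx
      rw [cnt_zero, if_pos hx]; norm_num
    rw [this]; simp
  | succ n ih =>
    have e : ∑ x ∈ H, (cnt H (n + 1) x) ^ 2 = ∑ x ∈ H, (T H (cnt H n) x) ^ 2 := by
      apply Finset.sum_congr rfl
      intro x _
      rw [cnt_succ]
    rw [e]
    refine (norm_T H ρ hρ hB (cnt H n) (cnt_supp H n)).trans ?_
    calc (4 * ρ) ^ 2 * ∑ x ∈ H, cnt H n x ^ 2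
        ≤ (4 * ρ) ^ 2 * (((4 * ρ) ^ n) ^ 2 * H.card) :=
          mul_le_mul_of_nonneg_left ih (sq_nonneg _)
      _ = ((4 * ρ) ^ (n + 1)) ^ 2 * H.card := by ring

/-- POW. -/
theorem taskPow : TaskPow := by
  intro H ρ hρ hB n x
  change cnt H n x ≤ 4 ^ n * Real.sqrt H.card * ρ ^ n
  have hB' : ∀ f : Pt → ℝ, (∀ x, x ∉ H → f x = 0) → B H f f ≤ 4 * ρ * ∑ x ∈ H, (f x) ^ 2 := hB
  have hn := cnt_norm H ρ hρ hB' n
  have hr : 0 ≤ 4 ^ n * Real.sqrt H.card * ρ ^ n := by positivity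
  by_cases hx : x ∈ H
  · have h1 : (cnt H n x) ^ 2 ≤ ∑ x ∈ H, (cnt H n x) ^ 2 :=
      Finset.single_le_sum (f := fun x => (cnt H n x) ^ 2) (fun y _ => sq_nonneg _) hx
    refine abs_le_of_sq_le_sq' ?_ hr |>.2
    calc (cnt H n x) ^ 2 ≤ ((4 * ρ) ^ n) ^ 2 * H.card := h1.trans hn
      _ = (4 ^ n * Real.sqrt H.card * ρ ^ n) ^ 2 := by
        rw [mul_pow, mul_pow, mul_pow, mul_pow, Real.sq_sqrt (Nat.cast_nonneg _)]
        ring
  · rw [cnt_supp H n x hx]; exact hr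

end

end Pool.Agent.H283R3.DMPow
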