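import Mathlib

open MeasureTheory Filter Topology Set Metric
open scoped ENNReal

namespace Pool.Agent.H283R3.Hole

/-- dividing radii -/
noncomputable def s (m : ℕ) : ℝ := 1 - (1/2) ^ m
/-- radii of the zeros -/
noncomputable def r (m : ℕ) : ℝ := 1 - (3/4) * (1/2) ^ m
/-- size of the holes -/
noncomputable def d (m : ℕ) : ℝ := (1/4) * (1/2) ^ m

lemma d_pos (m : ℕ) : 0 < d m := by unfold d; positivity
lemma d_le (m : ℕ) : d m ≤ 1/4 := by
  unfold d
  have : (1/2 : ℝ) ^ m ≤ 1 := pow_le_one₀ (by norm_num) (by norm_num)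
  linarith

lemma s_zero : s 0 = 0 := by unfold s; norm_num
lemma s_lt_one (m : ℕ) : s m < 1 := by
  unfold s
  have : (0 : ℝ) < (1/2) ^ m := by positivity
  linarith
lemma s_nonneg (m : ℕ) : 0 ≤ s m := by
  unfold s
  have : (1/2 : ℝ) ^ m ≤ 1 := pow_le_one₀ (by norm_num) (by norm_num)
  linarith
lemma s_mono : Monotone s := by
  intro a b hab
  unfold s
  have : (1/2 : ℝ) ^ b ≤ (1/2) ^ a := pow_le_pow_of_le_one (by norm_num) (by norm_num) hab
  linarith
lemma s_lt_r (m : ℕ) : s m < r m := by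
  unfold s r
  have : (0 : ℝ) < (1/2) ^ m := by positivity
  linarith
lemma r_lt_s (m : ℕ) : r m < s (m + 1) := by
  unfold s r
  have : (0 : ℝ) < (1/2) ^ m := by positivity
  rw [pow_succ]; linarith
lemma r_pos (m : ℕ) : 0 < r m := (s_nonneg m).trans_lt (s_lt_r m)
lemma r_lt_one (m : ℕ) : r m < 1 := (r_lt_s m).trans (s_lt_one _)

lemma tendsto_s : Tendsto s atTop (𝓝 1) := by
  have h : Tendsto (fun m : ℕ => (1/2 : ℝ) ^ m) atTop (𝓝 0) :=
    tendsto_pow_atTop_nhds_zero_of_lt_one (by norm_num) (by norm_num)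
  have : Tendsto (fun m : ℕ => 1 - (1/2 : ℝ) ^ m) atTop (𝓝 (1 - 0)) := h.const_sub 1
  rw [sub_zero] at this
  exact this

lemma exists_n (m : ℕ) : ∃ n : ℕ, 1 ≤ n ∧ (s m / r m) ^ n ≤ d m ∧ 5 ≤ (s (m+1) / r m) ^ n := by
  have h1 : Tendsto (fun n : ℕ => (s m / r m) ^ n) atTop (𝓝 0) :=
    tendsto_pow_atTop_nhds_zero_of_lt_one (div_nonneg (s_nonneg m) (r_pos m).le)
      ((div_lt_one (r_pos m)).2 (s_lt_r m))
  have h2 : Tendsto (fun n : ℕ => (s (m+1) / r m) ^ n) atTop atTop :=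
    tendsto_pow_atTop_atTop_of_one_lt ((one_lt_div (r_pos m)).2 (r_lt_s m))
  obtain ⟨n, h3, h4, h5⟩ := ((eventually_ge_atTop 1).and
    ((h1.eventually (gt_mem_nhds (d_pos m))).and (h2.eventually_ge_atTop 5))).exists
  exact ⟨n, h3, h4.le, h5⟩

/-- the exponents -/
noncomputable def n (m : ℕ) : ℕ := (exists_n m).choose
lemma n_pos (m : ℕ) : 1 ≤ n m := (exists_n m).choose_spec.1
lemma n_small (m : ℕ) : (s m / r m) ^ n m ≤ d m := (exists_n m).choose_spec.2.1
lemma n_large (m : ℕ) : 5 ≤ (s (m+1) / r m) ^ n m := (exists_n m).choose_spec.2.2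

/-- the factors -/
noncomputable def F (m : ℕ) (z : ℂ) : ℂ := 1 - (z / r m) ^ n m

lemma F_cont (m : ℕ) : Continuous (F m) := by unfold F; fun_prop
lemma F_diff (m : ℕ) : Differentiable ℂ (F m) := by unfold F; fun_prop

lemma norm_pow (m : ℕ) (z : ℂ) : ‖(z / r m) ^ n m‖ = (‖z‖ / r m) ^ n m := by
  rw [_root_.norm_pow, norm_div, Complex.norm_real, Real.norm_of_nonneg (r_pos m).le]

lemma F_near (m : ℕ) {z : ℂ} (hz : ‖z‖ ≤ s m) : ‖1 - F m z‖ ≤ d m := by
  have : 1 - F m z = (z / r m) ^ n m := by unfold F; ring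
  rw [this, norm_pow]
  refine le_trans ?_ (n_small m)
  have := r_pos m
  gcongr

lemma F_low (m : ℕ) {z : ℂ} (hz : ‖z‖ ≤ s m) : 3/4 ≤ ‖F m z‖ := by
  have h1 := F_near m hz
  have h2 : ‖(1:ℂ)‖ ≤ ‖1 - F m z‖ + ‖F m z‖ := by
    calc ‖(1:ℂ)‖ = ‖(1 - F m z) + F m z‖ := by ring_nf
      _ ≤ _ := norm_add_le _ _
  rw [norm_one] at h2
  linarith [d_le m]

lemma F_high (m : ℕ) {z : ℂ} (hz : s (m+1) ≤ ‖z‖) : 4 ≤ ‖F m z‖ := by
  have h1 : 5 ≤ ‖(z / r m) ^ n m‖ := by
    rw [norm_pow]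
    refine (n_large m).trans ?_
    have := r_pos m
    have := s_nonneg (m+1)
    gcongr
  have h2 : ‖(z / r m) ^ n m‖ ≤ ‖F m z‖ + ‖(1:ℂ)‖ := by
    calc ‖(z / r m) ^ n m‖ = ‖F m z - 1‖ := by
          unfold F
          rw [show (1 - (z / r m) ^ n m - 1 : ℂ) = - (z / r m) ^ n m by ring, norm_neg]
      _ ≤ _ := norm_sub_le _ _
  rw [norm_one] at h2
  linarith

/-- the domain -/
def Om : Set ℂ := ball 0 1 ∩ {z | ∀ m, d m < ‖F m z‖}

lemma mem_of_ring {m : ℕ} {z : ℂ} (h1 : s m ≤ ‖z‖) (h2 : ‖z‖ ≤ s (m+1)) (h3 : d m < ‖F m z‖) :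
    z ∈ Om := by
  refine ⟨by rw [mem_ball_zero_iff]; exact h2.trans_lt (s_lt_one _), ?_⟩
  intro j
  rcases lt_trichotomy j m with h | h | h
  · have := F_high j ((s_mono h).trans h1)
    linarith [d_le j]
  · rw [h]; exact h3
  · have := F_low j (h2.trans (s_mono h))
    linarith [d_le j]

lemma sphere_sub (m : ℕ) : sphere (0:ℂ) (s m) ⊆ Om := by
  intro z hz
  rw [mem_sphere_zero_iff_norm] at hz
  apply mem_of_ring (m := m) hz.ge (hz.le.trans (s_mono (Nat.le_succ m)))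
  have := F_low m hz.le
  linarith [d_le m]

lemma isOpen_Om : IsOpen Om := by
  rw [isOpen_iff_mem_nhds]
  intro z hz
  have hz1 : ‖z‖ < 1 := by simpa using hz.1
  obtain ⟨m, hm⟩ := (tendsto_s.eventually (lt_mem_nhds hz1)).exists
  have h1 : ∀ᶠ w in 𝓝 z, w ∈ ball (0:ℂ) (s m) :=
    isOpen_ball.mem_nhds (by rw [mem_ball_zero_iff]; exact hm)
  have h2 : ∀ᶠ w in 𝓝 z, ∀ j ∈ Finset.range m, d j < ‖F j w‖ := by
    rw [Filter.eventually_all_finset]
    intro j _
    exact ((F_cont j).norm.tendsto z).eventually (lt_mem_nhds (hz.2 j))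
  filter_upwards [h1, h2] with w hw1 hw2
  rw [mem_ball_zero_iff] at hw1
  refine ⟨by rw [mem_ball_zero_iff]; exact hw1.trans (s_lt_one m), ?_⟩
  intro j
  by_cases hj : j < m
  · exact hw2 j (Finset.mem_range.2 hj)
  · have := F_low j (hw1.le.trans (s_mono (not_lt.1 hj)))
    linarith [d_le j]

lemma closure_Om {z : ℂ} (hz : z ∈ closure Om) : ‖z‖ ≤ 1 ∧ ∀ m, d m ≤ ‖F m z‖ := by
  have h1 : IsClosed {z : ℂ | ‖z‖ ≤ 1 ∧ ∀ m, d m ≤ ‖F m z‖} := by
    apply IsClosed.inter (isClosed_le continuous_norm continuous_const)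
    have : {z : ℂ | ∀ m, d m ≤ ‖F m z‖} = ⋂ m, {z : ℂ | d m ≤ ‖F m z‖} := by
      ext z; simp
    rw [show (fun z : ℂ => ∀ m, d m ≤ ‖F m z‖) = {z : ℂ | ∀ m, d m ≤ ‖F m z‖} from rfl, this]
    exact isClosed_iInter fun m => isClosed_le continuous_const (F_cont m).norm
  have h2 : Om ⊆ {z : ℂ | ‖z‖ ≤ 1 ∧ ∀ m, d m ≤ ‖F m z‖} := by
    intro w hw
    exact ⟨by simpa using (mem_ball_zero_iff.1 hw.1).le, fun m => (hw.2 m).le⟩
  exact closure_minimal h2 h1 hz

/-- connectedness -/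
lemma radial {ζ : ℂ} {δ : ℝ} (h : δ < ‖1 - ζ‖) :
    (∀ t : ℝ, 0 ≤ t → t ≤ 1 → δ < ‖1 - t * ζ‖) ∨ (∀ t : ℝ, 1 ≤ t → δ < ‖1 - t * ζ‖) := by
  by_contra hcon
  push Not at hcon
  obtain ⟨⟨a, ha0, ha1, ha⟩, b, hb1, hb⟩ := hcon
  have hconv : ConvexOn ℝ univ (fun t : ℝ => ‖1 - (t:ℂ) * ζ‖) := by
    have h1 : ConvexOn ℝ univ (fun w : ℂ => ‖w‖) := convexOn_univ_norm
    have h2 := h1.comp_affineMap (AffineMap.lineMap (1:ℂ) (1 - ζ) : ℝ →ᵃ[ℝ] ℂ)
    have h3 : (fun t : ℝ => ‖1 - (t:ℂ) * ζ‖) = (fun w : ℂ => ‖w‖) ∘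
        (AffineMap.lineMap (1:ℂ) (1 - ζ) : ℝ →ᵃ[ℝ] ℂ) := by
      ext t
      simp only [Function.comp_apply, AffineMap.lineMap_apply_module]
      congr 1
      simp
      ring
    rw [h3]
    simpa using h2
  have hs := hconv.1
  rcases eq_or_lt_of_le (ha1.trans hb1) with hab | hab
  · have : a = 1 := le_antisymm ha1 (by rw [hab]; exact hb1)
    rw [this] at ha
    simp at ha
    linarith
  · have hmem : (1:ℝ) ∈ segment ℝ a b := by
      rw [segment_eq_Icc hab.le]
      exact ⟨ha1, hb1⟩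
    have h4 := hconv.le_on_segment (mem_univ a) (mem_univ b) hmem
    simp only [Complex.ofReal_one, one_mul] at h4
    have := h4.trans (max_le ha hb)
    linarith

lemma seg_sub {m : ℕ} {z : ℂ} {a b : ℝ} (ha : 0 ≤ a) (hz : s m ≤ a * ‖z‖) (hz2 : b * ‖z‖ ≤ s (m+1))
    (h : ∀ t : ℝ, a ≤ t → t ≤ b → d m < ‖F m (t * z)‖) :
    (fun t : ℝ => (t:ℂ) * z) '' Icc a b ⊆ Om := by
  rintro w ⟨t, ⟨h1, h2⟩, rfl⟩
  have ht : 0 ≤ t := ha.trans h1
  have e : ‖(t:ℂ) * z‖ = t * ‖z‖ := by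
    rw [norm_mul, Complex.norm_real, Real.norm_of_nonneg ht]
  apply mem_of_ring (m := m)
  · rw [e]; exact hz.trans (by gcongr)
  · rw [e]; exact le_trans (by gcongr) hz2
  · exact h t h1 h2

lemma seg_conn (z : ℂ) (a b : ℝ) : IsPreconnected ((fun t : ℝ => (t:ℂ) * z) '' Icc a b) :=
  isPreconnected_Icc.image _ (by fun_prop)

lemma sphere_comp (m : ℕ) : sphere (0:ℂ) (s m) ⊆ connectedComponentIn Om 0 := by
  induction m with
  | zero =>
    rw [s_zero]
    intro z hz
    have hz0 : z = 0 := by simpa using hz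
    rw [hz0]
    apply mem_connectedComponentIn
    apply sphere_sub 0
    rw [s_zero]; simp
  | succ m ih =>
    -- direction
    set w : ℂ := Complex.exp (Real.pi / n m * Complex.I) with hw
    have hwn : ‖w‖ = 1 := by
      rw [hw]
      have := Complex.norm_exp_ofReal_mul_I (Real.pi / n m)
      push_cast at this
      exact this
    have hn0 : (n m : ℂ) ≠ 0 := by
      have := n_pos m
      exact_mod_cast (by omega : n m ≠ 0)
    have hwpow : w ^ n m = -1 := by
      rw [hw, ← Complex.exp_nat_mul]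
      rw [show ((n m : ℂ) * (Real.pi / n m * Complex.I)) = Real.pi * Complex.I by field_simp]
      exact Complex.exp_pi_mul_I
    have hseg : (fun t : ℝ => (t:ℂ) * w) '' Icc (s m) (s (m+1)) ⊆ Om := by
      apply seg_sub (m := m) (s_nonneg m)
      · rw [hwn, mul_one]
      · rw [hwn, mul_one]
      · intro t ht1 ht2
        have ht : 0 ≤ t := (s_nonneg m).trans ht1
        have e : F m (t * w) = ((1 + (t / r m) ^ n m : ℝ) : ℂ) := by
          unfold F
          rw [show ((t:ℂ) * w / r m) = (t / r m) * w by ring, mul_pow, hwpow]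
          push_cast; ring
        rw [e, Complex.norm_real, Real.norm_of_nonneg (by
          have := r_pos m
          positivity)]
        have h5 : 0 ≤ (t / r m) ^ n m := by
          have := r_pos m
          positivity
        linarith [d_le m]
    have hmem1 : (s m : ℂ) * w ∈ connectedComponentIn Om 0 := by
      apply ih
      rw [mem_sphere_zero_iff_norm, norm_mul, hwn, mul_one, Complex.norm_real,
        Real.norm_of_nonneg (s_nonneg m)]
    have hsub := (seg_conn w (s m) (s (m+1))).subset_connectedComponentIn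
      (⟨s m, ⟨le_rfl, s_mono (Nat.le_succ m)⟩, rfl⟩) hseg
    rw [← connectedComponentIn_eq hmem1] at hsub
    have hmem2 : (s (m+1) : ℂ) * w ∈ connectedComponentIn Om 0 :=
      hsub ⟨s (m+1), ⟨s_mono (Nat.le_succ m), le_rfl⟩, rfl⟩
    have hsph : IsPreconnected (sphere (0:ℂ) (s (m+1))) :=
      isPreconnected_sphere (by rw [Complex.rank_real_complex]; exact Nat.one_lt_ofNat) _ _
    have h6 := hsph.subset_connectedComponentIn (x := (s (m+1) : ℂ) * w) (by
      rw [mem_sphere_zero_iff_norm, norm_mul, hwn, mul_one, Complex.norm_real,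
        Real.norm_of_nonneg (s_nonneg (m+1))]) (sphere_sub (m+1))
    rwa [← connectedComponentIn_eq hmem2] at h6

lemma exists_ring {z : ℂ} (hz : ‖z‖ < 1) : ∃ m, s m ≤ ‖z‖ ∧ ‖z‖ < s (m+1) := by
  classical
  have hex : ∃ m, ‖z‖ < s m := (tendsto_s.eventually (lt_mem_nhds hz)).exists
  set k := Nat.find hex with hk
  have hk1 : ‖z‖ < s k := Nat.find_spec hex
  have hk0 : k ≠ 0 := by
    intro h
    rw [h, s_zero] at hk1
    linarith [norm_nonneg z]
  obtain ⟨m, hm⟩ := Nat.exists_eq_succ_of_ne_zero hk0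
  refine ⟨m, ?_, by rw [hm] at hk1; exact hk1⟩
  have := Nat.find_min hex (m := m) (by omega)
  exact not_lt.1 this

lemma isConnected_Om : IsConnected Om := by
  have h0 : (0:ℂ) ∈ Om := sphere_sub 0 (by rw [s_zero]; simp)
  refine ⟨⟨0, h0⟩, ?_⟩
  have hsub : Om ⊆ connectedComponentIn Om 0 := by
    intro z hz
    obtain ⟨m, hm1, hm2⟩ := exists_ring (z := z) (by simpa using hz.1)
    by_cases hz0 : z = 0
    · rw [hz0]; exact mem_connectedComponentIn h0
    have hzn : 0 < ‖z‖ := norm_pos_iff.2 hz0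
    have hF := hz.2 m
    unfold F at hF
    have hpow : ∀ t : ℝ, F m (t * z) = 1 - ((t ^ n m : ℝ) : ℂ) * (z / r m) ^ n m := by
      intro t
      unfold F
      rw [show ((t:ℂ) * z / r m) = t * (z / r m) by ring, mul_pow]
      push_cast; ring
    rcases radial hF with h | h
    · -- inward
      set a : ℝ := s m / ‖z‖ with ha
      have ha0 : 0 ≤ a := div_nonneg (s_nonneg m) hzn.le
      have ha1 : a ≤ 1 := (div_le_one hzn).2 hm1
      have haz : a * ‖z‖ = s m := by rw [ha]; field_simp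
      have hseg : (fun t : ℝ => (t:ℂ) * z) '' Icc a 1 ⊆ Om := by
        apply seg_sub (m := m) ha0 haz.ge (by rw [one_mul]; exact hm2.le)
        intro t ht1 ht2
        have ht : 0 ≤ t := ha0.trans ht1
        rw [hpow]
        exact h _ (by positivity) (pow_le_one₀ ht ht2)
      have hmem : (a:ℂ) * z ∈ connectedComponentIn Om 0 := by
        apply sphere_comp m
        rw [mem_sphere_zero_iff_norm, norm_mul, Complex.norm_real, Real.norm_of_nonneg ha0, haz]
      have h6 := (seg_conn z a 1).subset_connectedComponentIn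
        (⟨a, ⟨le_rfl, ha1⟩, rfl⟩) hseg
      rw [← connectedComponentIn_eq hmem] at h6
      have := h6 ⟨1, ⟨ha1, le_rfl⟩, rfl⟩
      simpa using this
    · set a : ℝ := s (m+1) / ‖z‖ with ha
      have ha1 : 1 ≤ a := (one_le_div hzn).2 hm2.le
      have haz : a * ‖z‖ = s (m+1) := by rw [ha]; field_simp
      have hseg : (fun t : ℝ => (t:ℂ) * z) '' Icc 1 a ⊆ Om := by
        apply seg_sub (m := m) zero_le_one (by rw [one_mul]; exact hm1) haz.le
        intro t ht1 ht2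
        rw [hpow]
        exact h _ (one_le_pow₀ ht1)
      have hmem : (a:ℂ) * z ∈ connectedComponentIn Om 0 := by
        apply sphere_comp (m+1)
        rw [mem_sphere_zero_iff_norm, norm_mul, Complex.norm_real,
          Real.norm_of_nonneg (by linarith), haz]
      have h6 := (seg_conn z 1 a).subset_connectedComponentIn
        (⟨a, ⟨ha1, le_rfl⟩, rfl⟩) hseg
      rw [← connectedComponentIn_eq hmem] at h6
      have := h6 ⟨1, ⟨le_rfl, ha1⟩, rfl⟩
      simpa using this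
  have : Om = connectedComponentIn Om 0 := hsub.antisymm (connectedComponentIn_subset _ _)
  rw [this]
  exact isPreconnected_connectedComponentIn

end Pool.Agent.H283R3.Hole
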