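import Pool.Agent.H283R3.Hole1

open MeasureTheory Filter Topology Set Metric
open scoped ENNReal NNReal

namespace Pool.Agent.H283R3.Hole

/-- the boundary curves of the holes -/
def Crv (m : ℕ) : Set ℂ := {z | ‖F m z‖ = d m}

lemma log_lip {N : ℕ} (hN : 1 ≤ N) {δ : ℝ} (hδ0 : 0 < δ) (hδ : δ ≤ 1/4) {ζ ξ : ℂ}
    (hζ : ζ ∈ closedBall (1:ℂ) δ) (hξ : ξ ∈ closedBall (1:ℂ) δ) :
    ‖Complex.exp (Complex.log ζ / N) - Complex.exp (Complex.log ξ / N)‖ ≤ 2 / N * ‖ζ - ξ‖ := by
  have hN0 : (0:ℝ) < N := by exact_mod_cast hN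
  have key : ∀ w ∈ closedBall (1:ℂ) δ, w ∈ Complex.slitPlane ∧ 3/4 ≤ ‖w‖ ∧ ‖w‖ ≤ 5/4 := by
    intro w hw
    rw [mem_closedBall_iff_norm] at hw
    refine ⟨?_, ?_, ?_⟩
    · left
      have h1 : |(w - 1).re| ≤ ‖w - 1‖ := Complex.abs_re_le_norm _
      rw [Complex.sub_re, Complex.one_re] at h1
      have := abs_le.1 (h1.trans hw)
      linarith [this.1]
    · have h1 : ‖(1:ℂ)‖ ≤ ‖w‖ + ‖w - 1‖ := by
        calc ‖(1:ℂ)‖ = ‖w - (w - 1)‖ := by ring_nf
          _ ≤ _ := norm_sub_le _ _
      rw [norm_one] at h1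
      linarith
    · have h1 : ‖w‖ ≤ ‖w - 1‖ + ‖(1:ℂ)‖ := by
        calc ‖w‖ = ‖(w - 1) + 1‖ := by ring_nf
          _ ≤ _ := norm_add_le _ _
      rw [norm_one] at h1
      linarith
  have hder : ∀ w ∈ closedBall (1:ℂ) δ, HasDerivWithinAt (fun w => Complex.exp (Complex.log w / N))
      (Complex.exp (Complex.log w / N) * (w⁻¹ / N)) (closedBall 1 δ) w := by
    intro w hw
    have h1 := (Complex.hasDerivAt_log (key w hw).1).div_const (N:ℂ)
    exact (h1.cexp).hasDerivWithinAt
  have hb : ∀ w ∈ closedBall (1:ℂ) δ, ‖Complex.exp (Complex.log w / N) * (w⁻¹ / N)‖ ≤ 2 / N := by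
    intro w hw
    obtain ⟨h1, h2, h3⟩ := key w hw
    have hre : (Complex.log w / N).re = Real.log ‖w‖ / N := by
      rw [Complex.div_natCast_re, Complex.log_re]
    have hlog : Real.log ‖w‖ ≤ 1/4 := by
      have := Real.log_le_sub_one_of_pos (by linarith : 0 < ‖w‖)
      linarith
    have hexp : ‖Complex.exp (Complex.log w / N)‖ ≤ 3/2 := by
      rw [Complex.norm_exp, hre]
      have h4 : Real.log ‖w‖ / N ≤ 1/4 := by
        rw [div_le_iff₀ hN0]
        have : (1:ℝ) ≤ N := by exact_mod_cast hN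
        linarith
      calc Real.exp (Real.log ‖w‖ / N) ≤ Real.exp (1/4) := Real.exp_le_exp.2 h4
        _ ≤ 3/2 := by
          have h5 : (1:ℝ) - 1/4 ≤ Real.exp (-(1/4)) := by
            have := Real.add_one_le_exp (-(1/4 : ℝ))
            linarith
          rw [Real.exp_neg] at h5
          have h6 := Real.exp_pos (1/4 : ℝ)
          have h7 : (3/4 : ℝ) * Real.exp (1/4) ≤ 1 := by
            calc (3/4 : ℝ) * Real.exp (1/4) ≤ (Real.exp (1/4))⁻¹ * Real.exp (1/4) := by
                  gcongr; linarith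
              _ = 1 := by field_simp
          linarith
    rw [norm_mul, norm_div, norm_inv, Complex.norm_natCast]
    have h8 : ‖w‖⁻¹ ≤ 4/3 := by
      rw [inv_le_comm₀ (by linarith) (by norm_num)]
      linarith
    calc ‖Complex.exp (Complex.log w / N)‖ * (‖w‖⁻¹ / N) ≤ 3/2 * (4/3 / N) := by gcongr
      _ = 2 / N := by ring
  exact (convex_closedBall (1:ℂ) δ).norm_image_sub_le_of_norm_hasDerivWithin_le hder hb hξ hζ

/-- one arc -/
noncomputable def arc (m : ℕ) (j : ℕ) (t : ℝ) : ℂ :=
  r m * Complex.exp (2 * Real.pi * Complex.I * (j / n m)) *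
    Complex.exp (Complex.log (circleMap 1 (d m) t) / n m)

lemma arc_lip (m j : ℕ) : LipschitzWith (Real.toNNReal (2 * d m / n m)) (arc m j) := by
  apply LipschitzWith.of_dist_le_mul
  intro t u
  have hN0 : (0:ℝ) < n m := by exact_mod_cast (n_pos m)
  have hd := d_pos m
  rw [dist_eq_norm]
  simp only [arc]
  rw [← mul_sub, norm_mul, norm_mul, Complex.norm_real, Real.norm_of_nonneg (r_pos m).le]
  have h1 : ‖Complex.exp (2 * Real.pi * Complex.I * (j / n m))‖ = 1 := by
    rw [show (2 * Real.pi * Complex.I * (j / n m) : ℂ) = ((2 * Real.pi * (j / n m) : ℝ) : ℂ) * Complex.I by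
      push_cast; ring]
    exact Complex.norm_exp_ofReal_mul_I _
  rw [h1, mul_one]
  have h2 := log_lip (n_pos m) hd (d_le m)
    (sphere_subset_closedBall (circleMap_mem_sphere 1 hd.le t))
    (sphere_subset_closedBall (circleMap_mem_sphere 1 hd.le u))
  have h3 : ‖circleMap 1 (d m) t - circleMap 1 (d m) u‖ ≤ d m * dist t u := by
    have := (lipschitzWith_circleMap 1 (d m)).dist_le_mul t u
    rw [dist_eq_norm] at this
    simpa [abs_of_pos hd] using this
  calc r m * _ ≤ 1 * (2 / n m * (d m * dist t u)) := by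
        gcongr
        · exact (r_lt_one m).le
        · exact h2.trans (by gcongr)
    _ = _ := by
        rw [Real.coe_toNNReal _ (by positivity)]; ring

lemma Crv_sub (m : ℕ) : Crv m ⊆ ⋃ j ∈ Finset.range (n m), arc m j '' Ioc 0 (2 * Real.pi) := by
  intro z hz
  have hd := d_pos m
  have hn0 : n m ≠ 0 := by have := n_pos m; omega
  have hnC : (n m : ℂ) ≠ 0 := by exact_mod_cast hn0
  have hrC : (r m : ℂ) ≠ 0 := by exact_mod_cast (r_pos m).ne'
  set ζ : ℂ := (z / r m) ^ n m with hζ
  have hmem : ζ ∈ sphere (1:ℂ) (d m) := by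
    rw [mem_sphere_iff_norm, ← hz, hζ]
    unfold F
    rw [← norm_neg]; congr 1; ring
  have hball : ζ ∈ closedBall (1:ℂ) (d m) := sphere_subset_closedBall hmem
  have hζ0 : ζ ≠ 0 := by
    intro h
    rw [h, mem_sphere_iff_norm] at hmem
    simp at hmem
    linarith [d_le m]
  obtain ⟨t, ht, htz⟩ : ∃ t ∈ Ioc 0 (2 * Real.pi), circleMap 1 (d m) t = ζ := by
    have := image_circleMap_Ioc 1 (d m)
    rw [abs_of_pos hd] at this
    rw [← this] at hmem
    exact hmem
  -- the root of unity
  set e : ℂ := Complex.exp (Complex.log ζ / n m) with he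
  have he0 : e ≠ 0 := Complex.exp_ne_zero _
  have hepow : e ^ n m = ζ := by
    rw [he, ← Complex.exp_nat_mul, show ((n m : ℂ) * (Complex.log ζ / n m)) = Complex.log ζ by
      field_simp, Complex.exp_log hζ0]
  have hroot : ((z / r m) / e) ^ n m = 1 := by
    rw [div_pow, hepow, ← hζ, div_self hζ0]
  have : NeZero (n m) := ⟨hn0⟩
  obtain ⟨j, hj, hj2⟩ := (Complex.mem_rootsOfUnity (n m) (Units.mk0 ((z / r m) / e) (by
    intro h
    rw [h, zero_pow hn0] at hroot
    exact zero_ne_one hroot))).1 (by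
      rw [mem_rootsOfUnity']
      simpa using hroot)
  simp only [mem_iUnion, Finset.mem_range]
  refine ⟨j, hj, t, ht, ?_⟩
  simp only [arc]
  rw [htz]
  simp only [Units.val_mk0] at hj2
  rw [hj2]
  rw [← he]
  field_simp

lemma Crv_measure (m : ℕ) : μH[1] (Crv m) ≤ ENNReal.ofReal (Real.pi * (1/2) ^ m) := by
  have hN0 : (0:ℝ) < n m := by exact_mod_cast (n_pos m)
  have hd := d_pos m
  calc μH[1] (Crv m) ≤ μH[1] (⋃ j ∈ Finset.range (n m), arc m j '' Ioc 0 (2 * Real.pi)) :=
        measure_mono (Crv_sub m)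
    _ ≤ ∑ j ∈ Finset.range (n m), μH[1] (arc m j '' Ioc 0 (2 * Real.pi)) :=
        measure_biUnion_finset_le _ _
    _ ≤ ∑ j ∈ Finset.range (n m), ENNReal.ofReal (2 * d m / n m * (2 * Real.pi)) := by
        apply Finset.sum_le_sum
        intro j _
        refine ((arc_lip m j).hausdorffMeasure_image_le zero_le_one _).trans ?_
        rw [hausdorffMeasure_real, Real.volume_Ioc, ENNReal.rpow_one, sub_zero,
          ENNReal.ofReal_mul (p := 2 * d m / n m) (by positivity)]
        apply le_of_eq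
        rfl
    _ = ENNReal.ofReal (Real.pi * (1/2) ^ m) := by
        rw [Finset.sum_const, Finset.card_range, nsmul_eq_mul, ← ENNReal.ofReal_natCast,
          ← ENNReal.ofReal_mul (by positivity)]
        congr 1
        unfold d
        field_simp
        norm_num

lemma frontier_sub : frontier Om ⊆ sphere (0:ℂ) 1 ∪ ⋃ m, Crv m := by
  intro z hz
  have hcl := closure_Om (frontier_subset_closure hz)
  have hnot : z ∉ Om := by
    rw [frontier, isOpen_Om.interior_eq] at hz
    exact hz.2
  rcases eq_or_lt_of_le hcl.1 with h | h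
  · left; simpa using h
  · right
    by_contra hcon
    apply hnot
    refine ⟨by simpa using h, fun m => ?_⟩
    rcases eq_or_lt_of_le (hcl.2 m) with h1 | h1
    · exact absurd (mem_iUnion.2 ⟨m, h1.symm⟩) hcon
    · exact h1

lemma sphere_measure_lt : μH[1] (sphere (0:ℂ) 1) < ⊤ := by
  have h := image_circleMap_Ioc 0 1
  rw [abs_one] at h
  rw [← h]
  refine ((lipschitzWith_circleMap 0 1).hausdorffMeasure_image_le zero_le_one _).trans_lt ?_
  rw [hausdorffMeasure_real, Real.volume_Ioc, ENNReal.rpow_one]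
  exact ENNReal.mul_lt_top ENNReal.coe_lt_top ENNReal.ofReal_lt_top

lemma frontier_measure : μH[1] (frontier Om) < ⊤ := by
  refine (measure_mono frontier_sub).trans_lt ((measure_union_le _ _).trans_lt ?_)
  rw [ENNReal.add_lt_top]
  refine ⟨sphere_measure_lt, (measure_iUnion_le _).trans_lt ?_⟩
  refine (ENNReal.tsum_le_tsum Crv_measure).trans_lt ?_
  have hs : Summable (fun m : ℕ => Real.pi * (1/2 : ℝ) ^ m) :=
    (summable_geometric_of_lt_one (by norm_num) (by norm_num)).mul_left _
  exact hs.tsum_ofReal_lt_top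

lemma sphere_measure_pos : 0 < μH[1] (sphere (0:ℂ) 1) := by
  have h1 : Icc (-1:ℝ) 1 ⊆ Complex.re '' sphere (0:ℂ) 1 := by
    intro x hx
    refine ⟨⟨x, Real.sqrt (1 - x ^ 2)⟩, ?_, rfl⟩
    rw [mem_sphere_zero_iff_norm, Complex.norm_def, Complex.normSq_mk]
    have : 0 ≤ 1 - x ^ 2 := by nlinarith [hx.1, hx.2]
    rw [Real.mul_self_sqrt this]
    ring_nf
    exact Real.sqrt_one
  have hlip : LipschitzWith 1 Complex.re := by
    apply LipschitzWith.of_dist_le_mul
    intro z w
    rw [dist_eq_norm, dist_eq_norm, ← Complex.sub_re, NNReal.coe_one, one_mul]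
    exact Complex.abs_re_le_norm _
  have h2 := (hlip.hausdorffMeasure_image_le zero_le_one (sphere (0:ℂ) 1) :
    μH[1] (Complex.re '' sphere (0:ℂ) 1) ≤ _)
  have h3 := (measure_mono h1).trans h2
  rw [hausdorffMeasure_real, Real.volume_Icc] at h3
  simp only [ENNReal.coe_one, ENNReal.one_rpow, one_mul] at h3
  refine lt_of_lt_of_le ?_ h3
  rw [ENNReal.ofReal_pos]; norm_num

/-! the outer boundary -/

lemma sphere_sub_closure : sphere (0:ℂ) 1 ⊆ closure Om := by
  intro z hz
  rw [mem_sphere_zero_iff_norm] at hz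
  have h1 : Tendsto (fun m => (s m : ℂ) * z) atTop (𝓝 (((1:ℝ):ℂ) * z)) := by
    apply Tendsto.mul_const
    exact (Complex.continuous_ofReal.tendsto 1).comp tendsto_s
  rw [Complex.ofReal_one, one_mul] at h1
  apply mem_closure_of_tendsto h1
  refine Eventually.of_forall fun m => sphere_sub m ?_
  rw [mem_sphere_zero_iff_norm, norm_mul, hz, mul_one, Complex.norm_real,
    Real.norm_of_nonneg (s_nonneg m)]

lemma ext_conn : IsPreconnected {z : ℂ | 1 < ‖z‖} := by
  have h : {z : ℂ | 1 < ‖z‖} = Complex.exp '' {w : ℂ | 0 < w.re} := by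
    ext z
    simp only [mem_ofPred_eq, mem_image]
    constructor
    · intro hz
      have hz0 : z ≠ 0 := by rintro rfl; simp at hz; linarith
      exact ⟨Complex.log z, by rw [Complex.log_re]; exact Real.log_pos hz, Complex.exp_log hz0⟩
    · rintro ⟨w, hw, rfl⟩
      rw [Complex.norm_exp]; exact Real.one_lt_exp_iff.2 hw
  rw [h]
  apply IsPreconnected.image _ _ Complex.continuous_exp.continuousOn
  exact (convex_halfSpace_re_gt 0).isPreconnected

lemma outer {z : ℂ} (hb : ¬ Bornology.IsBounded (connectedComponentIn (closure Om)ᶜ z)) :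
    frontier (connectedComponentIn (closure Om)ᶜ z) = sphere (0:ℂ) 1 := by
  set C := connectedComponentIn (closure Om)ᶜ z with hC
  have hsub : C ⊆ (closure Om)ᶜ := connectedComponentIn_subset _ _
  obtain ⟨w, hw, hw1⟩ : ∃ w ∈ C, 1 < ‖w‖ := by
    by_contra hcon
    push Not at hcon
    apply hb
    exact isBounded_closedBall.subset (t := closedBall (0:ℂ) 1) fun w hw => by
      simpa using hcon w hw
  have hCpre : IsPreconnected C := isPreconnected_connectedComponentIn
  have hz : z ∈ (closure Om)ᶜ := by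
    by_contra hcon
    rw [hC, connectedComponentIn_eq_empty hcon] at hw
    exact hw
  have hCeq : C = connectedComponentIn (closure Om)ᶜ w := connectedComponentIn_eq hw
  have hext : {z : ℂ | 1 < ‖z‖} ⊆ C := by
    rw [hCeq]
    apply ext_conn.subset_connectedComponentIn hw1
    intro v hv hv2
    have := (closure_Om hv2).1
    simp only [mem_ofPred_eq] at hv
    linarith
  have hCext : C ⊆ {z : ℂ | 1 < ‖z‖} := by
    have hU : IsOpen {z : ℂ | 1 < ‖z‖} := isOpen_lt continuous_const continuous_norm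
    have hV : IsOpen {z : ℂ | ‖z‖ < 1} := isOpen_lt continuous_norm continuous_const
    apply hCpre.subset_left_of_subset_union hU hV
    · rw [Set.disjoint_left]
      intro v hv1 hv2
      simp only [mem_ofPred_eq] at hv1 hv2
      linarith
    · intro v hv
      rcases lt_trichotomy ‖v‖ 1 with h | h | h
      · right; exact h
      · exfalso
        exact hsub hv (sphere_sub_closure (by simpa using h))
      · left; exact h
    · exact ⟨w, hw, hw1⟩
  have : C = (closedBall (0:ℂ) 1)ᶜ := by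
    rw [hCext.antisymm hext]
    ext v; simp
  rw [this, frontier_compl, frontier_closedBall _ one_ne_zero]

end Pool.Agent.H283R3.Hole
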