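import Pool.Agent.H283R3.Hole2

open MeasureTheory Filter Topology Set Metric
open scoped ENNReal NNReal

namespace Pool.Agent.H283R3.Hole

lemma abs_log_le {x a : ℝ} (ha : a ≤ 1/4) (hx : |x - 1| ≤ a) : |Real.log x| ≤ 2 * a := by
  have ⟨h1, h2⟩ := abs_le.1 hx
  have hx0 : 0 < x := by linarith
  have ha0 : 0 ≤ a := (abs_nonneg _).trans hx
  rw [abs_le]
  constructor
  · have h3 := Real.log_le_sub_one_of_pos (inv_pos.2 hx0)
    rw [Real.log_inv] at h3
    have h4 : x⁻¹ - 1 ≤ 2 * a := by
      rw [sub_le_iff_le_add, inv_le_comm₀ hx0 (by linarith)]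
      refine le_trans ?_ (by linarith : 1 - a ≤ x)
      rw [inv_le_iff_one_le_mul₀ (by linarith)]
      nlinarith
    linarith
  · have h3 := Real.log_le_sub_one_of_pos hx0
    linarith

lemma logF_le (k : ℕ) {z : ℂ} (hz : ‖z‖ ≤ s k) : |Real.log ‖F k z‖| ≤ 2 * d k := by
  apply abs_log_le (d_le k)
  have h1 := F_near k hz
  have h2 := abs_norm_sub_norm_le (F k z) 1
  rw [norm_one] at h2
  refine h2.trans ?_
  rw [← norm_neg, neg_sub]; exact h1

lemma summable_d : Summable (fun k => 2 * d k) := by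
  unfold d
  exact ((summable_geometric_of_lt_one (by norm_num) (by norm_num)).mul_left _).mul_left _

lemma summable_log {z : ℂ} (hz : ‖z‖ < 1) : Summable (fun k => Real.log ‖F k z‖) := by
  obtain ⟨m, hm⟩ := (tendsto_s.eventually (lt_mem_nhds hz)).exists
  rw [← summable_nat_add_iff m]
  apply Summable.of_norm_bounded ((summable_nat_add_iff m).2 summable_d)
  intro k
  rw [Real.norm_eq_abs]
  exact logF_le _ (hm.le.trans (s_mono (Nat.le_add_left m k)))

/-- the function -/
noncomputable def U (z : ℂ) : ℝ := - ∑' k, Real.log ‖F k z‖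

/-- its partial sums -/
noncomputable def V (K : ℕ) (z : ℂ) : ℝ := - ∑ k ∈ Finset.range K, Real.log ‖F k z‖

lemma tail_d (K : ℕ) : ∑' k, 2 * d (k + K) = (1/2) ^ K := by
  have : ∀ k, 2 * d (k + K) = ((1/2) * (1/2) ^ K) * (1/2) ^ k := by
    intro k; unfold d; rw [pow_add]; ring
  simp only [this]
  rw [tsum_mul_left, tsum_geometric_of_lt_one (by norm_num) (by norm_num)]
  ring

lemma U_sub_V {K : ℕ} {z : ℂ} (hz : ‖z‖ ≤ s K) : |U z - V K z| ≤ (1/2) ^ K := by
  have hsum := summable_log (hz.trans_lt (s_lt_one K))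
  have h1 := hsum.sum_add_tsum_nat_add K
  have h2 : U z - V K z = - ∑' k, Real.log ‖F (k + K) z‖ := by
    unfold U V
    rw [← h1]; ring
  rw [h2, abs_neg, ← tail_d K]
  have h3 : ∀ k, |Real.log ‖F (k + K) z‖| ≤ 2 * d (k + K) := fun k =>
    logF_le _ (hz.trans (s_mono (Nat.le_add_left K k)))
  have h4 : Summable (fun k => |Real.log ‖F (k + K) z‖|) :=
    Summable.of_nonneg_of_le (fun _ => abs_nonneg _) h3 ((summable_nat_add_iff K).2 summable_d)
  calc |∑' k, Real.log ‖F (k + K) z‖| ≤ ∑' k, |Real.log ‖F (k + K) z‖| := by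
        have := norm_tsum_le_tsum_norm (f := fun k => Real.log ‖F (k + K) z‖) (by simpa using h4)
        simpa using this
    _ ≤ _ := h4.tsum_le_tsum h3 ((summable_nat_add_iff K).2 summable_d)

/-- upper bound near the circle -/
lemma U_upper {m : ℕ} {z : ℂ} (hz : z ∈ closure Om) (h1 : s m ≤ ‖z‖) (h2 : ‖z‖ < 1) :
    U z ≤ (2 - m) * Real.log 2 + 1 := by
  -- locate the ring
  have hlog2 : 0 < Real.log 2 := Real.log_pos (by norm_num)
  obtain ⟨j, hj1, hj2⟩ := exists_ring h2
  have hmj : m ≤ j := by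
    by_contra hcon
    push Not at hcon
    have := s_mono (by omega : j + 1 ≤ m)
    linarith
  have hF := (closure_Om hz).2
  have h3 := U_sub_V (K := j + 1) hj2.le
  have h4 : V (j+1) z ≤ (2 - j) * Real.log 2 := by
    unfold V
    rw [Finset.sum_range_succ, neg_add]
    have h5 : (2 * j : ℝ) * Real.log 2 ≤ ∑ k ∈ Finset.range j, Real.log ‖F k z‖ := by
      calc (2 * j : ℝ) * Real.log 2 = ∑ k ∈ Finset.range j, (2 * Real.log 2) := by
            rw [Finset.sum_const, Finset.card_range, nsmul_eq_mul]; ring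
        _ ≤ _ := by
            apply Finset.sum_le_sum
            intro k hk
            have hk' := Finset.mem_range.1 hk
            have := F_high k ((s_mono (by omega : k + 1 ≤ j)).trans hj1)
            rw [show 2 * Real.log 2 = Real.log 4 by
              rw [show (4:ℝ) = 2 ^ 2 by norm_num, Real.log_pow]; norm_num]
            exact Real.log_le_log (by norm_num) this
    have h6 : - Real.log ‖F j z‖ ≤ (j + 2) * Real.log 2 := by
      have h7 : Real.log (d j) ≤ Real.log ‖F j z‖ := Real.log_le_log (d_pos j) (hF j)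
      have h8 : Real.log (d j) = - ((j + 2) * Real.log 2) := by
        unfold d
        rw [show (1/4 : ℝ) * (1/2) ^ j = ((2:ℝ) ^ (j + 2))⁻¹ by
          rw [pow_add, one_div, one_div, inv_pow, mul_inv]; norm_num; ring]
        rw [Real.log_inv, Real.log_pow]; push_cast; ring
      linarith
    linarith
  have h5 := (abs_le.1 h3).2
  have h6 : ((1:ℝ)/2) ^ (j+1) ≤ 1 := pow_le_one₀ (by norm_num) (by norm_num)
  have h7 : (2 - (j:ℝ)) * Real.log 2 ≤ (2 - m) * Real.log 2 := by
    have : (m:ℝ) ≤ j := by exact_mod_cast hmj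
    nlinarith
  linarith

lemma V_cont {K : ℕ} {z : ℂ} (hz : ∀ m, F m z ≠ 0) : ContinuousAt (V K) z := by
  unfold V
  apply ContinuousAt.neg
  apply tendsto_finsetSum
  intro k _
  exact ((F_cont k).norm.continuousAt).log (norm_ne_zero_iff.2 (hz k))

lemma U_cont {z : ℂ} (h1 : ‖z‖ < 1) (hz : ∀ m, F m z ≠ 0) : ContinuousAt U z := by
  rw [Metric.continuousAt_iff]
  intro ε hε
  have hp : Tendsto (fun K : ℕ => (1/2 : ℝ) ^ K) atTop (𝓝 0) :=
    tendsto_pow_atTop_nhds_zero_of_lt_one (by norm_num) (by norm_num)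
  obtain ⟨K, hK1, hK2⟩ := ((tendsto_s.eventually (lt_mem_nhds h1)).and
    (hp.eventually (gt_mem_nhds (by positivity : 0 < ε / 3)))).exists
  obtain ⟨δ, hδ, hVδ⟩ := Metric.continuousAt_iff.1 (V_cont (K := K) hz) (ε / 3) (by positivity)
  refine ⟨min δ (s K - ‖z‖), lt_min hδ (by linarith), ?_⟩
  intro w hw
  have hwn : ‖w‖ ≤ s K := by
    have h3 : dist w z < s K - ‖z‖ := hw.trans_le (min_le_right _ _)
    rw [dist_eq_norm] at h3
    have := norm_le_norm_add_norm_sub' w z
    linarith
  have h4 := hVδ (hw.trans_le (min_le_left _ _))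
  have h5 := abs_le.1 (U_sub_V hwn)
  have h6 := abs_le.1 (U_sub_V hK1.le)
  rw [Real.dist_eq, abs_lt] at h4 ⊢
  constructor <;> linarith [h5.1, h5.2, h6.1, h6.2, h4.1, h4.2]

/-- maximum principle for the partial sums -/
lemma V_max {K : ℕ} {c : ℂ} {ρ : ℝ} (hρ : 0 < ρ) (hsub : closedBall c ρ ⊆ Om) {h : ℂ → ℝ}
    (hc : ContinuousOn h (closedBall c ρ)) {G : ℂ → ℂ} (hG : DifferentiableOn ℂ G (ball c ρ))
    (hGh : ∀ z ∈ ball c ρ, h z = (G z).re) (hs : ∀ z ∈ sphere c ρ, V K z ≤ h z) :
    ∀ z ∈ closedBall c ρ, V K z ≤ h z := by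
  have hne : ∀ z ∈ closedBall c ρ, ∀ m, F m z ≠ 0 := by
    intro z hz m h0
    have := (hsub hz).2 m
    rw [h0, norm_zero] at this
    linarith [d_pos m]
  have hVc : ContinuousOn (V K) (closedBall c ρ) := fun z hz =>
    (V_cont (hne z hz)).continuousWithinAt
  obtain ⟨z0, hz0, hmax⟩ := (isCompact_closedBall c ρ).exists_isMaxOn ⟨c, mem_closedBall_self hρ.le⟩
    (hVc.sub hc)
  -- the maximum is nonpositive
  have key : V K z0 - h z0 ≤ 0 := by
    by_cases hsph : z0 ∈ sphere c ρ
    · linarith [hs z0 hsph]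
    have hz0b : z0 ∈ ball c ρ := by
      rw [mem_ball]
      rw [mem_closedBall] at hz0
      rw [mem_sphere] at hsph
      exact lt_of_le_of_ne hz0 hsph
    set Q : ℂ → ℂ := fun z => Complex.exp (- G z) * ∏ k ∈ Finset.range K, (F k z)⁻¹ with hQ
    have hQd : DifferentiableOn ℂ Q (ball c ρ) := by
      apply DifferentiableOn.mul
      · exact hG.neg.cexp
      · apply DifferentiableOn.fun_finsetProd
        intro k _
        exact (F_diff k).differentiableOn.inv fun z hz => hne z (ball_subset_closedBall hz) k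
    have hQn : ∀ z ∈ ball c ρ, ‖Q z‖ = Real.exp (V K z - h z) := by
      intro z hz
      simp only [hQ, V]
      rw [norm_mul, Complex.norm_exp, Complex.neg_re, ← hGh z hz, norm_prod, sub_eq_add_neg,
        Real.exp_add, mul_comm, ← Finset.sum_neg_distrib, Real.exp_sum]
      congr 1
      apply Finset.prod_congr rfl
      intro k _
      rw [norm_inv, Real.exp_neg, Real.exp_log (norm_pos_iff.2 (hne z (ball_subset_closedBall hz) k))]
    have hmaxQ : IsMaxOn (norm ∘ Q) (ball c ρ) z0 := by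
      intro z hz
      simp only [mem_ofPred_eq, Function.comp_apply]
      rw [hQn z hz, hQn z0 hz0b]
      exact Real.exp_le_exp.2 (hmax (ball_subset_closedBall hz))
    have heq := Complex.norm_eqOn_of_isPreconnected_of_isMaxOn (convex_ball c ρ).isPreconnected
      isOpen_ball hQd hz0b hmaxQ
    have heq2 : EqOn (fun z => V K z - h z) (fun _ => V K z0 - h z0) (ball c ρ) := by
      intro z hz
      have := heq hz
      simp only [Function.comp_apply, Function.const_apply] at this
      rw [hQn z hz, hQn z0 hz0b] at this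
      exact Real.exp_injective this
    have hcl : closure (ball c ρ) = closedBall c ρ := closure_ball c hρ.ne'
    have heq3 : EqOn (fun z => V K z - h z) (fun _ => V K z0 - h z0) (closedBall c ρ) := by
      rw [← hcl] at hVc hc ⊢
      exact heq2.of_subset_closure (hVc.sub hc) continuousOn_const subset_closure subset_rfl
    have hw : c + ρ ∈ sphere c ρ := by simp [abs_of_pos hρ]
    have := heq3 (sphere_subset_closedBall hw)
    simp only at this
    rw [← this]
    linarith [hs _ hw]
  intro z hz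
  have := hmax hz
  simp only [mem_ofPred_eq, Pi.sub_apply] at this
  linarith

lemma U_max {c : ℂ} {ρ : ℝ} (hρ : 0 < ρ) (hsub : closedBall c ρ ⊆ Om) {h : ℂ → ℝ}
    (hc : ContinuousOn h (closedBall c ρ)) {G : ℂ → ℂ} (hG : DifferentiableOn ℂ G (ball c ρ))
    (hGh : ∀ z ∈ ball c ρ, h z = (G z).re) (hs : ∀ z ∈ sphere c ρ, U z ≤ h z) :
    ∀ z ∈ closedBall c ρ, U z ≤ h z := by
  -- the closed ball lies in a smaller disc
  obtain ⟨z1, hz1, hm⟩ := (isCompact_closedBall c ρ).exists_isMaxOn ⟨c, mem_closedBall_self hρ.le⟩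
    (continuous_norm.continuousOn (s := closedBall c ρ))
  have hz1' : ‖z1‖ < 1 := by simpa using (hsub hz1).1
  intro z hz
  apply le_of_forall_pos_le_add
  intro ε hε
  have hp : Tendsto (fun K : ℕ => (1/2 : ℝ) ^ K) atTop (𝓝 0) :=
    tendsto_pow_atTop_nhds_zero_of_lt_one (by norm_num) (by norm_num)
  obtain ⟨K, hK1, hK2⟩ := ((tendsto_s.eventually (lt_mem_nhds hz1')).and
    (hp.eventually (gt_mem_nhds (by positivity : 0 < ε / 2)))).exists
  have hK : ∀ w ∈ closedBall c ρ, |U w - V K w| ≤ ε / 2 := fun w hw =>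
    (U_sub_V ((hm hw : ‖w‖ ≤ ‖z1‖).trans hK1.le)).trans hK2.le
  have h1 := V_max (K := K) hρ hsub (h := fun w => h w + ε / 2) (hc.add continuousOn_const)
    (G := fun w => G w + (ε / 2 : ℝ)) (hG.add_const _) (by
      intro w hw
      simp only [Complex.add_re, Complex.ofReal_re, hGh w hw]) (by
      intro w hw
      have := abs_le.1 (hK w (sphere_subset_closedBall hw))
      have := hs w hw
      linarith) z hz
  have h2 := abs_le.1 (hK z hz)
  linarith [h2.2]

end Pool.Agent.H283R3.Hole
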