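import Pool.Agent.H283R3.Hole3

open MeasureTheory Filter Topology Set Metric
open scoped ENNReal NNReal

namespace Pool.Agent.H283R3.Hole

open Classical in
/-- the extended function -/
noncomputable def u (z : ℂ) : EReal := if ‖z‖ < 1 then ((U z : ℝ) : EReal) else ⊥

lemma u_bound {m : ℕ} {z : ℂ} (hz : z ∈ closure Om) (h1 : s m ≤ ‖z‖) :
    u z ≤ (((2 - m) * Real.log 2 + 1 : ℝ) : EReal) := by
  unfold u
  split_ifs with h
  · exact_mod_cast U_upper hz h1 h
  · exact bot_le

lemma tendsto_bound (x : ℝ) : ∃ m : ℕ, (2 - (m:ℝ)) * Real.log 2 + 1 < x := by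
  have hlog2 : 0 < Real.log 2 := Real.log_pos (by norm_num)
  obtain ⟨m, hm⟩ := exists_nat_gt ((1 - x) / Real.log 2 + 2)
  refine ⟨m, ?_⟩
  have h1 : (1 - x) / Real.log 2 < m - 2 := by linarith
  rw [div_lt_iff₀ hlog2] at h1
  nlinarith

lemma u_tendsto {ζ : ℂ} (hζ : ‖ζ‖ = 1) : Tendsto u (𝓝[closure Om] ζ) (𝓝 ⊥) := by
  rw [EReal.tendsto_nhds_bot_iff_real]
  intro x
  obtain ⟨m, hm⟩ := tendsto_bound x
  have h1 : ∀ᶠ z in 𝓝[closure Om] ζ, s m < ‖z‖ :=
    (continuous_norm.tendsto ζ).eventually (lt_mem_nhds (by rw [hζ]; exact s_lt_one m))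
      |> fun h => h.filter_mono nhdsWithin_le_nhds
  filter_upwards [h1, self_mem_nhdsWithin] with z hz1 hz2
  refine (u_bound hz2 hz1.le).trans_lt ?_
  exact_mod_cast hm

lemma u_usc : UpperSemicontinuousOn u (closure Om) := by
  intro z hz
  obtain ⟨h1, h2⟩ := closure_Om hz
  rcases eq_or_lt_of_le h1 with h | h
  · intro y hy
    have hb : u z = ⊥ := by unfold u; rw [if_neg (by linarith)]
    rw [hb] at hy
    exact (u_tendsto h).eventually (gt_mem_nhds hy)
  · have hne : ∀ m, F m z ≠ 0 := by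
      intro m h0
      have := h2 m
      rw [h0, norm_zero] at this
      linarith [d_pos m]
    have hU := U_cont h hne
    have hev : ∀ᶠ w in 𝓝 z, u w = ((U w : ℝ) : EReal) := by
      have : ∀ᶠ w in 𝓝 z, ‖w‖ < 1 := (continuous_norm.tendsto z).eventually (gt_mem_nhds h)
      filter_upwards [this] with w hw
      unfold u; rw [if_pos hw]
    have hcu : ContinuousAt u z := by
      have h3 : ContinuousAt (fun w => ((U w : ℝ) : EReal)) z :=
        (continuous_coe_real_ereal.continuousAt).comp hU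
      exact h3.congr (hev.mono fun w hw => hw.symm)
    exact hcu.upperSemicontinuousAt.upperSemicontinuousWithinAt _

theorem counterexample : ∃ (Ω : Set ℂ) (u : ℂ → EReal) (E : Set ℂ) (γ : Circle → ℂ),
      IsOpen Ω ∧ IsConnected Ω ∧ Bornology.IsBounded Ω ∧
      μH[1] (frontier Ω) < ⊤ ∧
      Continuous γ ∧ Function.Injective γ ∧
      (∀ z, z ∉ closure Ω →
          ¬ Bornology.IsBounded (connectedComponentIn (closure Ω)ᶜ z) →
          frontier (connectedComponentIn (closure Ω)ᶜ z) = Set.range γ) ∧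
      (∀ z ∈ closure Ω, u z ≠ ⊤) ∧
      UpperSemicontinuousOn u (closure Ω) ∧
      (∀ (c : ℂ) (r : ℝ), 0 < r → closedBall c r ⊆ Ω →
        ∀ h : ℂ → ℝ, ContinuousOn h (closedBall c r) →
          (∃ g : ℂ → ℂ, DifferentiableOn ℂ g (ball c r) ∧
              ∀ z ∈ ball c r, h z = (g z).re) →
          (∀ z ∈ sphere c r, u z ≤ (h z : EReal)) →
          ∀ z ∈ closedBall c r, u z ≤ (h z : EReal)) ∧
      E ⊆ Set.range γ ∧
      0 < μH[1] E ∧
      (∀ ζ ∈ E, Tendsto u (𝓝[Ω] ζ) (𝓝 ⊥)) ∧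
      ∃ z ∈ Ω, u z ≠ ⊥ := by
  have hrange : Set.range (fun z : Circle => (z : ℂ)) = sphere (0:ℂ) 1 := by
    ext z
    constructor
    · rintro ⟨w, rfl⟩
      exact mem_sphere_zero_iff_norm.2 (Circle.norm_coe w)
    · intro hz
      exact ⟨⟨z, by simpa [Submonoid.unitSphere] using hz⟩, rfl⟩
  refine ⟨Om, u, sphere 0 1, fun z => (z : ℂ), isOpen_Om, isConnected_Om,
    isBounded_ball.subset inter_subset_left, frontier_measure, continuous_subtype_val,
    Subtype.val_injective, ?_, ?_, u_usc, ?_, ?_, sphere_measure_pos, ?_, ?_⟩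
  · intro z _ hb
    rw [hrange]
    exact outer hb
  · intro z _
    unfold u
    split_ifs
    · exact EReal.coe_ne_top _
    · exact bot_ne_top
  · rintro c ρ hρ hsub h hc ⟨G, hG, hGh⟩ hs z hz
    have hu : ∀ w ∈ closedBall c ρ, u w = ((U w : ℝ) : EReal) := by
      intro w hw
      unfold u
      rw [if_pos (by simpa using (hsub hw).1)]
    rw [hu z hz]
    have := U_max hρ hsub hc hG hGh (fun w hw => by
      have h1 := hs w hw
      rw [hu w (sphere_subset_closedBall hw)] at h1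
      exact_mod_cast h1) z hz
    exact_mod_cast this
  · rw [hrange]
  · intro ζ hζ
    exact (u_tendsto (by simpa using hζ)).mono_left (nhdsWithin_mono _ subset_closure)
  · refine ⟨0, sphere_sub 0 (by rw [s_zero]; simp), ?_⟩
    unfold u
    rw [if_pos (by simp)]
    exact EReal.coe_ne_bot _

end Pool.Agent.H283R3.Hole
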