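import Mathlib

open MeasureTheory Set
open scoped ENNReal

namespace Pool.Agent.H283R3.Newt

/-- radial integral: `∫_0^ρ s/√(a²+s²) ds = √(a²+ρ²) − |a|`, as a lower integral -/
lemma rad_int (a : ℝ) {ρ : ℝ} (hρ : 0 ≤ ρ) :
    ∫⁻ s in Ioc (0:ℝ) ρ, ENNReal.ofReal (s / Real.sqrt (a ^ 2 + s ^ 2)) =
      ENNReal.ofReal (Real.sqrt (a ^ 2 + ρ ^ 2) - |a|) := by
  have hcont : ContinuousOn (fun s : ℝ => Real.sqrt (a ^ 2 + s ^ 2)) (Icc 0 ρ) := by fun_prop
  have hder : ∀ s ∈ Ioo (0:ℝ) ρ, HasDerivAt (fun s : ℝ => Real.sqrt (a ^ 2 + s ^ 2))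
      (s / Real.sqrt (a ^ 2 + s ^ 2)) s := by
    intro s hs
    have hpos : a ^ 2 + s ^ 2 ≠ 0 := by have := hs.1; positivity
    have h1 : HasDerivAt (fun s : ℝ => a ^ 2 + s ^ 2) (2 * s) s := by
      simpa using ((hasDerivAt_pow 2 s).const_add (a ^ 2))
    have h2 := h1.sqrt hpos
    convert h2 using 1
    field_simp
  have hpos : ∀ s ∈ Ioo (0:ℝ) ρ, 0 ≤ s / Real.sqrt (a ^ 2 + s ^ 2) := by
    intro s hs
    have := hs.1
    positivity
  have hint : IntegrableOn (fun s : ℝ => s / Real.sqrt (a ^ 2 + s ^ 2)) (Ioc 0 ρ) := by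
    apply intervalIntegral.integrableOn_deriv_of_nonneg hcont hder hpos
  have hI := intervalIntegral.integral_eq_sub_of_hasDeriv_right_of_le hρ hcont
    (fun s hs => (hder s hs).hasDerivWithinAt)
    ((intervalIntegrable_iff_integrableOn_Ioc_of_le hρ).2 hint)
  rw [← ofReal_integral_eq_lintegral_ofReal hint, ← intervalIntegral.integral_of_le hρ, hI]
  · congr 2
    rw [show a ^ 2 + (0:ℝ) ^ 2 = a ^ 2 by ring, Real.sqrt_sq_eq_abs]
  · rw [Filter.EventuallyLE, ae_restrict_iff' measurableSet_Ioc]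
    filter_upwards with s hs
    have := hs.1
    simp only [Pi.zero_apply]
    positivity

lemma disc_int (a : ℝ) {ρ : ℝ} (hρ : 0 ≤ ρ) :
    ∫⁻ w in Metric.ball (0:ℂ) ρ, ENNReal.ofReal ((Real.sqrt (a ^ 2 + ‖w‖ ^ 2))⁻¹) =
      ENNReal.ofReal (2 * Real.pi * (Real.sqrt (a ^ 2 + ρ ^ 2) - |a|)) := by
  rw [← lintegral_indicator Metric.isOpen_ball.measurableSet, ← Complex.lintegral_comp_polarCoord_symm]
  have h1 : ∀ p ∈ polarCoord.target, ENNReal.ofReal p.1 •
      (Metric.ball (0:ℂ) ρ).indicator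
        (fun w => ENNReal.ofReal ((Real.sqrt (a ^ 2 + ‖w‖ ^ 2))⁻¹)) (Complex.polarCoord.symm p) =
      ((Ioo (0:ℝ) ρ).indicator (fun s => ENNReal.ofReal (s / Real.sqrt (a ^ 2 + s ^ 2)))) p.1 := by
    intro p hp
    rw [polarCoord_target] at hp
    have hp1 : 0 < p.1 := hp.1
    have hn : ‖Complex.polarCoord.symm p‖ = p.1 := by
      rw [Complex.norm_polarCoord_symm, abs_of_pos hp1]
    by_cases h : p.1 < ρ
    · rw [indicator_of_mem (by rw [mem_ball_zero_iff, hn]; exact h),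
        indicator_of_mem (by exact ⟨hp1, h⟩), hn, smul_eq_mul,
        ← ENNReal.ofReal_mul hp1.le, div_eq_mul_inv]
    · rw [indicator_of_notMem (by rw [mem_ball_zero_iff, hn]; exact h),
        indicator_of_notMem (by rintro ⟨-, h2⟩; exact h h2), smul_zero]
  rw [setLIntegral_congr_fun polarCoord.open_target.measurableSet h1, polarCoord_target,
    Measure.volume_eq_prod, ← Measure.prod_restrict]
  have hmeas : Measurable ((Ioo (0:ℝ) ρ).indicator
      (fun s => ENNReal.ofReal (s / Real.sqrt (a ^ 2 + s ^ 2)))) := by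
    apply Measurable.indicator _ measurableSet_Ioo
    fun_prop
  rw [lintegral_prod _ (by fun_prop)]
  simp only [lintegral_const, Measure.restrict_apply MeasurableSet.univ, univ_inter,
    Real.volume_Ioo]
  rw [lintegral_mul_const _ hmeas, lintegral_indicator measurableSet_Ioo,
    Measure.restrict_restrict measurableSet_Ioo]
  have h3 : Ioo (0:ℝ) ρ ∩ Ioi 0 = Ioo 0 ρ := by
    ext s; simp only [mem_inter_iff, mem_Ioo, mem_Ioi]; tauto
  rw [h3, restrict_Ioo_eq_restrict_Ioc, rad_int a hρ, ← ENNReal.ofReal_mul]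
  · congr 1; ring
  · have : |a| ≤ Real.sqrt (a ^ 2 + ρ ^ 2) := by
      rw [← Real.sqrt_sq_eq_abs]
      exact Real.sqrt_le_sqrt (by nlinarith [sq_nonneg ρ])
    linarith

/-- Newton's value of the potential of the ball of radius `r` at distance `ζ` -/
noncomputable def Nn (r ζ : ℝ) : ℝ :=
  if ζ < r then 2 * Real.pi * (r ^ 2 - ζ ^ 2 / 3) else 4 * Real.pi / 3 * r ^ 3 / ζ

lemma int_abs {r ζ : ℝ} (hr : 0 < r) (hζ : 0 ≤ ζ) :
    ∫ t in (-r)..r, |t - ζ| = if ζ < r then r ^ 2 + ζ ^ 2 else 2 * r * ζ := by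
  split_ifs with h
  · rw [← intervalIntegral.integral_add_adjacent_intervals (b := ζ)
      (Continuous.intervalIntegrable (by fun_prop) _ _)
      (Continuous.intervalIntegrable (by fun_prop) _ _)]
    have h1 : ∫ t in (-r)..ζ, |t - ζ| = ∫ t in (-r)..ζ, (ζ - t) := by
      apply intervalIntegral.integral_congr
      intro t ht
      rw [uIcc_of_le (by linarith)] at ht
      simp only
      rw [abs_of_nonpos (by linarith [ht.2])]
      ring
    have h2 : ∫ t in ζ..r, |t - ζ| = ∫ t in ζ..r, (t - ζ) := by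
      apply intervalIntegral.integral_congr
      intro t ht
      rw [uIcc_of_le (by linarith)] at ht
      simp only
      rw [abs_of_nonneg (by linarith [ht.1])]
    rw [h1, h2, intervalIntegral.integral_sub (by simp) (by simp),
      intervalIntegral.integral_sub (by simp) (by simp)]
    simp only [intervalIntegral.integral_const, integral_id, smul_eq_mul]
    ring
  · push Not at h
    have h1 : ∫ t in (-r)..r, |t - ζ| = ∫ t in (-r)..r, (ζ - t) := by
      apply intervalIntegral.integral_congr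
      intro t ht
      rw [uIcc_of_le (by linarith)] at ht
      simp only
      rw [abs_of_nonpos (by linarith [ht.2])]
      ring
    rw [h1, intervalIntegral.integral_sub (by simp) (by simp)]
    simp only [intervalIntegral.integral_const, integral_id, smul_eq_mul]
    ring

lemma int_sqrt {r ζ : ℝ} (hr : 0 < r) (hζ : 0 < ζ) :
    ∫ t in (-r)..r, Real.sqrt (r ^ 2 + ζ ^ 2 - 2 * ζ * t) =
      ((r + ζ) ^ 3 - |r - ζ| ^ 3) / (3 * ζ) := by
  have hcont : ContinuousOn (fun t : ℝ => -(1 / (3 * ζ)) * (Real.sqrt (r ^ 2 + ζ ^ 2 - 2 * ζ * t)) ^ 3)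
      (Icc (-r) r) := by fun_prop
  have hder : ∀ t ∈ Ioo (-r) r, HasDerivAt
      (fun t : ℝ => -(1 / (3 * ζ)) * (Real.sqrt (r ^ 2 + ζ ^ 2 - 2 * ζ * t)) ^ 3)
      (Real.sqrt (r ^ 2 + ζ ^ 2 - 2 * ζ * t)) t := by
    intro t ht
    have hpos : 0 < r ^ 2 + ζ ^ 2 - 2 * ζ * t := by
      nlinarith [ht.2, sq_nonneg (r - ζ), mul_pos hζ (sub_pos.2 ht.2)]
    have h1 : HasDerivAt (fun t : ℝ => r ^ 2 + ζ ^ 2 - 2 * ζ * t) (-(2 * ζ)) t := by
      have := ((hasDerivAt_id t).const_mul (2 * ζ)).const_sub (r ^ 2 + ζ ^ 2)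
      rw [mul_one] at this
      exact this
    have h2 := ((h1.sqrt hpos.ne').pow 3).const_mul (-(1 / (3 * ζ)))
    have hs := Real.sqrt_pos.2 hpos
    refine h2.congr_deriv ?_
    push_cast
    field_simp
  have hI := intervalIntegral.integral_eq_sub_of_hasDeriv_right_of_le (by linarith : -r ≤ r) hcont
    (fun s hs => (hder s hs).hasDerivWithinAt)
    (Continuous.intervalIntegrable (by fun_prop) _ _)
  rw [hI, show r ^ 2 + ζ ^ 2 - 2 * ζ * r = (r - ζ) ^ 2 by ring,
    show r ^ 2 + ζ ^ 2 - 2 * ζ * (-r) = (r + ζ) ^ 2 by ring, Real.sqrt_sq_eq_abs,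
    Real.sqrt_sq (by linarith)]
  field_simp
  ring

lemma outer_int {r ζ : ℝ} (hr : 0 < r) (hζ : 0 ≤ ζ) :
    ∫ t in (-r)..r, 2 * Real.pi * (Real.sqrt (r ^ 2 + ζ ^ 2 - 2 * ζ * t) - |t - ζ|) = Nn r ζ := by
  rw [intervalIntegral.integral_const_mul, intervalIntegral.integral_sub
      (Continuous.intervalIntegrable (by fun_prop) _ _)
      (Continuous.intervalIntegrable (by fun_prop) _ _), int_abs hr hζ, Nn]
  rcases hζ.eq_or_lt with h0 | h0
  · subst h0
    simp only [mul_zero, zero_mul, sub_zero, hr, if_true]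
    simp only [ne_eq, OfNat.ofNat_ne_zero, not_false_eq_true, zero_pow, add_zero, zero_div, sub_zero]
    rw [Real.sqrt_sq hr.le]
    simp
    ring
  · rw [int_sqrt hr h0]
    split_ifs with h
    · rw [abs_of_pos (by linarith)]
      field_simp
      ring
    · rw [abs_of_nonpos (by linarith)]
      field_simp
      ring

end Pool.Agent.H283R3.Newt
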