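import Pool.Agent.H283R3.Newt1

open MeasureTheory Set
open scoped ENNReal

namespace Pool.Agent.H283R3.Newt

abbrev E3 := EuclideanSpace ℝ (Fin 3)

/-- the splitting `E3 ≃ᵐ ℝ × ℂ` -/
noncomputable def spl : E3 ≃ᵐ ℝ × ℂ :=
  ((MeasurableEquiv.toLp 2 (Fin 3 → ℝ)).symm.trans
    (MeasurableEquiv.piFinSuccAbove (fun _ : Fin 3 => ℝ) 0)).trans
    ((MeasurableEquiv.refl ℝ).prodCongr Complex.measurableEquivPi.symm)

lemma spl_mp : MeasurePreserving spl volume volume := by
  have h1 : MeasurePreserving (MeasurableEquiv.toLp 2 (Fin 3 → ℝ)).symm volume volume :=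
    EuclideanSpace.volume_preserving_symm_measurableEquiv_toLp (Fin 3)
  have h2 : MeasurePreserving (MeasurableEquiv.piFinSuccAbove (fun _ : Fin 3 => ℝ) 0)
    volume volume := volume_preserving_piFinSuccAbove (fun _ : Fin 3 => ℝ) 0
  have h3 : MeasurePreserving ((MeasurableEquiv.refl ℝ).prodCongr Complex.measurableEquivPi.symm)
    (volume : Measure (ℝ × (Fin 2 → ℝ))) (volume : Measure (ℝ × ℂ)) :=
    (MeasurePreserving.id (volume : Measure ℝ)).prod (Complex.volume_preserving_equiv_pi.symm _)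
  exact (h1.trans h2).trans h3

lemma spl_fst (y : E3) : (spl y).1 = y 0 := rfl

lemma spl_snd (y : E3) : (spl y).2 = ⟨y 1, y 2⟩ := by
  unfold spl
  apply Complex.ext
  · simp [MeasurableEquiv.prodCongr, Complex.measurableEquivPi, MeasurableEquiv.piFinSuccAbove]
    rfl
  · simp [MeasurableEquiv.prodCongr, Complex.measurableEquivPi, MeasurableEquiv.piFinSuccAbove]
    rfl

lemma spl_norm (y : E3) : ‖y‖ ^ 2 = (spl y).1 ^ 2 + ‖(spl y).2‖ ^ 2 := by
  rw [EuclideanSpace.norm_sq_eq, Fin.sum_univ_three, Complex.sq_norm, Complex.normSq_apply,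
    spl_fst, spl_snd]
  simp only [Real.norm_eq_abs, sq_abs]
  ring

lemma sqrt_ge_abs (r ζ t : ℝ) (h : t ^ 2 ≤ r ^ 2) :
    |t - ζ| ≤ Real.sqrt (r ^ 2 + ζ ^ 2 - 2 * ζ * t) := by
  rw [← Real.sqrt_sq_eq_abs]
  exact Real.sqrt_le_sqrt (by nlinarith)

/-- Newton's formula for a pole on the first axis -/
lemma ball_pot_axis {r ζ : ℝ} (hr : 0 < r) (hζ : 0 ≤ ζ) :
    ∫⁻ y in Metric.ball (0:E3) r, ENNReal.ofReal ((dist (EuclideanSpace.single (0:Fin 3) ζ) y)⁻¹) =
      ENNReal.ofReal (Nn r ζ) := by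
  set F : ℝ × ℂ → ℝ≥0∞ := {p : ℝ × ℂ | p.1 ^ 2 + ‖p.2‖ ^ 2 < r ^ 2}.indicator
    (fun p => ENNReal.ofReal ((Real.sqrt ((p.1 - ζ) ^ 2 + ‖p.2‖ ^ 2))⁻¹)) with hF
  have hset : MeasurableSet {p : ℝ × ℂ | p.1 ^ 2 + ‖p.2‖ ^ 2 < r ^ 2} :=
    (isOpen_lt (by fun_prop) (by fun_prop)).measurableSet
  have hFm : Measurable F := Measurable.indicator (by fun_prop) hset
  rw [← lintegral_indicator Metric.isOpen_ball.measurableSet]
  have h1 : ∀ y : E3, (Metric.ball (0:E3) r).indicator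
      (fun y => ENNReal.ofReal ((dist (EuclideanSpace.single (0:Fin 3) ζ) y)⁻¹)) y = F (spl y) := by
    intro y
    have hmem : y ∈ Metric.ball (0:E3) r ↔ spl y ∈ {p : ℝ × ℂ | p.1 ^ 2 + ‖p.2‖ ^ 2 < r ^ 2} := by
      rw [mem_ball_zero_iff, mem_ofPred_eq, ← spl_norm, sq_lt_sq₀ (norm_nonneg _) hr.le]
    by_cases h : y ∈ Metric.ball (0:E3) r
    · rw [indicator_of_mem h, hF, indicator_of_mem (hmem.1 h)]
      congr 2
      rw [dist_comm, dist_eq_norm, ← Real.sqrt_sq (norm_nonneg _), EuclideanSpace.norm_sq_eq,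
        Fin.sum_univ_three, spl_fst, spl_snd, Complex.sq_norm, Complex.normSq_apply]
      congr 1
      simp
      ring
    · rw [indicator_of_notMem h, hF, indicator_of_notMem (fun h' => h (hmem.2 h'))]
  simp_rw [h1]
  rw [spl_mp.lintegral_comp hFm, Measure.volume_eq_prod, lintegral_prod _ hFm.aemeasurable]
  have h2 : ∀ t : ℝ, ∫⁻ w : ℂ, F (t, w) = (Ioo (-r) r).indicator (fun t => ENNReal.ofReal
      (2 * Real.pi * (Real.sqrt (r ^ 2 + ζ ^ 2 - 2 * ζ * t) - |t - ζ|))) t := by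
    intro t
    by_cases ht : t ∈ Ioo (-r) r
    · rw [indicator_of_mem ht]
      have ht2 : t ^ 2 < r ^ 2 := sq_lt_sq' ht.1 ht.2
      have h3 : ∀ w : ℂ, F (t, w) = (Metric.ball (0:ℂ) (Real.sqrt (r ^ 2 - t ^ 2))).indicator
          (fun w => ENNReal.ofReal ((Real.sqrt ((t - ζ) ^ 2 + ‖w‖ ^ 2))⁻¹)) w := by
        intro w
        have hmem : w ∈ Metric.ball (0:ℂ) (Real.sqrt (r ^ 2 - t ^ 2)) ↔
            (t, w) ∈ {p : ℝ × ℂ | p.1 ^ 2 + ‖p.2‖ ^ 2 < r ^ 2} := by
          rw [mem_ball_zero_iff, mem_ofPred_eq, Real.lt_sqrt (norm_nonneg _)]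
          constructor <;> intro h <;> simp only at h ⊢ <;> linarith
        by_cases h : w ∈ Metric.ball (0:ℂ) (Real.sqrt (r ^ 2 - t ^ 2))
        · rw [indicator_of_mem h, hF, indicator_of_mem (hmem.1 h)]
        · rw [indicator_of_notMem h, hF, indicator_of_notMem (fun h' => h (hmem.2 h'))]
      simp_rw [h3]
      rw [lintegral_indicator Metric.isOpen_ball.measurableSet, disc_int _ (Real.sqrt_nonneg _),
        Real.sq_sqrt (by linarith),
        show (t - ζ) ^ 2 + (r ^ 2 - t ^ 2) = r ^ 2 + ζ ^ 2 - 2 * ζ * t by ring]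
    · rw [indicator_of_notMem ht]
      have h3 : ∀ w : ℂ, F (t, w) = 0 := by
        intro w
        rw [hF, indicator_of_notMem]
        intro h
        apply ht
        rw [mem_ofPred_eq] at h
        simp only at h
        have : t ^ 2 < r ^ 2 := by nlinarith [sq_nonneg ‖w‖]
        exact abs_lt.1 (by rwa [sq_lt_sq, abs_of_pos hr] at this)
      simp_rw [h3]
      simp
  simp_rw [h2]
  rw [lintegral_indicator measurableSet_Ioo, restrict_Ioo_eq_restrict_Ioc,
    ← ofReal_integral_eq_lintegral_ofReal, ← intervalIntegral.integral_of_le (by linarith),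
    outer_int hr hζ]
  · exact (Continuous.integrableOn_Ioc (by fun_prop))
  · rw [Filter.EventuallyLE, ae_restrict_iff' measurableSet_Ioc]
    filter_upwards with t ht
    have := sqrt_ge_abs r ζ t (sq_le_sq' (by linarith [ht.1]) ht.2)
    simp only [Pi.zero_apply]
    have hpi := Real.pi_pos
    apply mul_nonneg (by positivity)
    linarith

/-- Newton's formula: potential of a ball of `E3` -/
theorem ball_pot_lint {r : ℝ} (hr : 0 < r) (x : E3) :
    ∫⁻ y in Metric.ball (0:E3) r, ENNReal.ofReal ((dist x y)⁻¹) = ENNReal.ofReal (Nn r ‖x‖) := by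
  set v : E3 := EuclideanSpace.single (0:Fin 3) ‖x‖ with hv
  have hnv : ‖v‖ = ‖x‖ := by simp [hv]
  set A : E3 ≃ₗᵢ[ℝ] E3 := Submodule.reflection (ℝ ∙ (v - x))ᗮ with hA
  have hAv : A v = x := Submodule.reflection_sub hnv
  have hmp : MeasurePreserving A volume volume := A.measurePreserving
  have h1 := hmp.setLIntegral_comp_preimage (s := Metric.ball (0:E3) r)
    Metric.isOpen_ball.measurableSet (f := fun y => ENNReal.ofReal ((dist x y)⁻¹)) (by fun_prop)
  have h2 : A ⁻¹' (Metric.ball (0:E3) r) = Metric.ball (0:E3) r := by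
    ext y
    simp only [mem_preimage, mem_ball_zero_iff, LinearIsometryEquiv.norm_map]
  rw [h2] at h1
  rw [← h1, ← ball_pot_axis hr (norm_nonneg x)]
  congr 1
  ext y
  rw [← hAv, A.dist_map, hAv]

end Pool.Agent.H283R3.Newt
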