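import Pool.Agent.H283R3.Newt2

open MeasureTheory Set Filter Topology
open scoped ENNReal

namespace Pool.Agent.H283R3.Newt

lemma Nn_nonneg {r ζ : ℝ} (hr : 0 < r) (hζ : 0 ≤ ζ) : 0 ≤ Nn r ζ := by
  unfold Nn
  split_ifs with h
  · have : ζ ^ 2 ≤ r ^ 2 := by nlinarith
    have := Real.pi_pos
    apply mul_nonneg (by positivity)
    nlinarith [sq_nonneg ζ]
  · positivity

lemma Nn_le {r ζ : ℝ} (hr : 0 < r) (_hζ : 0 ≤ ζ) : Nn r ζ ≤ 2 * Real.pi * r ^ 2 := by
  unfold Nn
  have hpi := Real.pi_pos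
  split_ifs with h
  · have : r ^ 2 - ζ ^ 2 / 3 ≤ r ^ 2 := by nlinarith [sq_nonneg ζ]
    gcongr
  · push Not at h
    have hζ0 : 0 < ζ := lt_of_lt_of_le hr h
    rw [div_le_iff₀ hζ0]
    have h2 : r ^ 3 ≤ r ^ 2 * ζ := by nlinarith [sq_nonneg r, mul_pos hr hr]
    nlinarith [mul_pos hpi (mul_pos (mul_pos hr hr) hζ0)]

/-- Newton's formula with arbitrary centre, lower-integral form -/
theorem ball_pot_lint' {r : ℝ} (hr : 0 < r) (a x : E3) :
    ∫⁻ y in Metric.ball a r, ENNReal.ofReal ((dist x y)⁻¹) = ENNReal.ofReal (Nn r (dist x a)) := by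
  have h := (measurePreserving_sub_right (volume : Measure E3) a).setLIntegral_comp_preimage
      (s := Metric.ball (0:E3) r) Metric.isOpen_ball.measurableSet
      (f := fun z => ENNReal.ofReal ((dist (x - a) z)⁻¹)) (by fun_prop)
  have h2 : ((fun x => x - a) ⁻¹' Metric.ball (0:E3) r) = Metric.ball a r := by
    ext z; simp [dist_eq_norm]
  rw [h2, ball_pot_lint hr] at h
  rw [dist_eq_norm x a, ← h]
  congr 1
  ext y
  simp

lemma kern_int {r : ℝ} (hr : 0 < r) (a x : E3) :
    IntegrableOn (fun y => (dist x y)⁻¹) (Metric.ball a r) := by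
  refine ⟨by fun_prop, ?_⟩
  rw [HasFiniteIntegral]
  have : ∀ y : E3, ‖(dist x y)⁻¹‖ₑ = ENNReal.ofReal ((dist x y)⁻¹) := fun y => by
    rw [Real.enorm_of_nonneg (inv_nonneg.2 dist_nonneg)]
  simp_rw [this]
  rw [ball_pot_lint' hr]
  exact ENNReal.ofReal_lt_top

theorem ball_pot {r : ℝ} (hr : 0 < r) (a x : E3) :
    ∫ y in Metric.ball a r, (dist x y)⁻¹ = Nn r (dist x a) := by
  rw [integral_eq_lintegral_of_nonneg_ae (ae_of_all _ fun y => inv_nonneg.2 dist_nonneg)
    (by fun_prop), ball_pot_lint' hr, ENNReal.toReal_ofReal (Nn_nonneg hr dist_nonneg)]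

/-- bounded densities supported in the ball of radius `R` -/
structure Good (R : ℝ) (τ : E3 → ℝ) : Prop where
  meas : Measurable τ
  bd : ∀ y, |τ y| ≤ (Metric.ball (0:E3) R).indicator 1 y

/-- Newtonian potential -/
noncomputable def V (τ : E3 → ℝ) (x : E3) : ℝ := ∫ y, τ y * (dist x y)⁻¹

lemma Good.abs_le_one {R : ℝ} {τ : E3 → ℝ} (h : Good R τ) (y : E3) : |τ y| ≤ 1 := by
  refine (h.bd y).trans ?_
  unfold indicator
  split_ifs <;> simp

lemma Good.zero {R : ℝ} {τ : E3 → ℝ} (h : Good R τ) {y : E3} (hy : y ∉ Metric.ball (0:E3) R) :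
    τ y = 0 := by
  have := h.bd y
  rw [indicator_of_notMem hy] at this
  exact abs_nonpos_iff.1 this

lemma Good.int_mul {R : ℝ} (_hR : 0 < R) {τ : E3 → ℝ} (h : Good R τ) {k : E3 → ℝ}
    (hk : IntegrableOn k (Metric.ball 0 R)) : Integrable (fun y => τ y * k y) := by
  have h1 : Integrable ((Metric.ball (0:E3) R).indicator k) :=
    (integrable_indicator_iff Metric.isOpen_ball.measurableSet).2 hk
  have h2 : (fun y => τ y * k y) = fun y => τ y * (Metric.ball (0:E3) R).indicator k y := by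
    ext y
    by_cases hy : y ∈ Metric.ball (0:E3) R
    · rw [indicator_of_mem hy]
    · rw [indicator_of_notMem hy, h.zero hy]; simp
  rw [h2]
  exact h1.bdd_mul (c := 1) h.meas.aestronglyMeasurable
    (ae_of_all _ fun y => by simpa using h.abs_le_one y)

lemma Good.int_kern {R : ℝ} (hR : 0 < R) {τ : E3 → ℝ} (h : Good R τ) (x : E3) :
    Integrable (fun y => τ y * (dist x y)⁻¹) :=
  h.int_mul hR (kern_int hR 0 x)

lemma Good.integrable {R : ℝ} (hR : 0 < R) {τ : E3 → ℝ} (h : Good R τ) : Integrable τ := by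
  haveI : IsFiniteMeasure (volume.restrict (Metric.ball (0:E3) R)) :=
    ⟨by rw [Measure.restrict_apply_univ]; exact measure_ball_lt_top⟩
  have := h.int_mul hR (k := fun _ => 1) (integrable_const (1:ℝ))
  simpa using this

lemma Good.V_abs_le {R : ℝ} (hR : 0 < R) {τ : E3 → ℝ} (h : Good R τ) (x : E3) :
    |V τ x| ≤ Nn R ‖x‖ := by
  unfold V
  refine (abs_integral_le_integral_abs).trans ?_
  have h1 : Nn R ‖x‖ = ∫ y, (Metric.ball (0:E3) R).indicator (fun y => (dist x y)⁻¹) y := by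
    rw [integral_indicator Metric.isOpen_ball.measurableSet, ball_pot hR, dist_zero_right]
  rw [h1]
  apply integral_mono (h.int_kern hR x).abs
  · exact (integrable_indicator_iff Metric.isOpen_ball.measurableSet).2 (kern_int hR 0 x)
  intro y
  simp only
  rw [abs_mul, abs_of_nonneg (inv_nonneg.2 dist_nonneg : 0 ≤ (dist x y)⁻¹)]
  by_cases hy : y ∈ Metric.ball (0:E3) R
  · rw [indicator_of_mem hy]
    have := h.abs_le_one y
    have h2 : 0 ≤ (dist x y)⁻¹ := inv_nonneg.2 dist_nonneg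
    nlinarith
  · rw [indicator_of_notMem hy, h.zero hy]; simp

/-- truncated kernel potential -/
noncomputable def Vt (ε : ℝ) (τ : E3 → ℝ) (x : E3) : ℝ := ∫ y, τ y * (max (dist x y) ε)⁻¹

lemma Vt_cont {R : ℝ} (hR : 0 < R) {τ : E3 → ℝ} (h : Good R τ) {ε : ℝ} (hε : 0 < ε) :
    Continuous (Vt ε τ) := by
  unfold Vt
  apply continuous_of_dominated (bound := fun y => |τ y| * ε⁻¹)
  · intro x
    have := h.meas
    fun_prop
  · intro x
    refine ae_of_all _ fun y => ?_
    rw [Real.norm_eq_abs, abs_mul, abs_of_nonneg (by positivity : 0 ≤ (max (dist x y) ε)⁻¹)]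
    gcongr
    exact le_max_right _ _
  · exact (h.integrable hR).abs.mul_const _
  · refine ae_of_all _ fun y => ?_
    have : ∀ x, max (dist x y) ε ≠ 0 := fun x => (lt_of_lt_of_le hε (le_max_right _ _)).ne'
    fun_prop (disch := assumption)

lemma Vt_close {R : ℝ} (hR : 0 < R) {τ : E3 → ℝ} (h : Good R τ) {ε : ℝ} (hε : 0 < ε) (x : E3) :
    |V τ x - Vt ε τ x| ≤ 2 * Real.pi * ε ^ 2 := by
  unfold V Vt
  have hi2 : Integrable (fun y => τ y * (max (dist x y) ε)⁻¹) := by
    have h1 := (h.integrable hR).mul_const ε⁻¹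
    refine h1.abs.mono' (by have := h.meas; fun_prop) (ae_of_all _ fun y => ?_)
    rw [Real.norm_eq_abs, abs_mul, abs_mul, abs_of_nonneg (by positivity : 0 ≤ (max (dist x y) ε)⁻¹),
      abs_of_nonneg (by positivity : 0 ≤ ε⁻¹)]
    gcongr
    exact le_max_right _ _
  rw [← integral_sub (h.int_kern hR x) hi2]
  refine (abs_integral_le_integral_abs).trans ?_
  have h1 : Nn ε (dist x x) = ∫ y, (Metric.ball x ε).indicator (fun y => (dist x y)⁻¹) y := by
    rw [integral_indicator Metric.isOpen_ball.measurableSet, ball_pot hε]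
  refine le_trans ?_ (Nn_le hε (dist_nonneg (x := x) (y := x)))
  rw [h1]
  have hne : ∀ᵐ y : E3, y ≠ x := by simp [ae_iff]
  apply integral_mono_ae ((h.int_kern hR x).sub hi2).abs
  · exact (integrable_indicator_iff Metric.isOpen_ball.measurableSet).2 (kern_int hε x x)
  filter_upwards [hne] with y hyx
  show |τ y * (dist x y)⁻¹ - τ y * (max (dist x y) ε)⁻¹| ≤ _
  by_cases hy : y ∈ Metric.ball x ε
  · rw [indicator_of_mem hy, ← mul_sub, abs_mul]
    have hd : dist x y < ε := by rw [dist_comm]; exact hy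
    have hd0 : 0 < dist x y := dist_pos.2 hyx.symm
    rw [max_eq_right hd.le]
    have h3 := h.abs_le_one y
    have h4 : ε⁻¹ ≤ (dist x y)⁻¹ := inv_anti₀ hd0 hd.le
    have h5 : 0 ≤ ε⁻¹ := by positivity
    have h6 : |(dist x y)⁻¹ - ε⁻¹| = (dist x y)⁻¹ - ε⁻¹ := abs_of_nonneg (by linarith)
    rw [h6]
    nlinarith [abs_nonneg (τ y)]
  · rw [indicator_of_notMem hy]
    have hd : ε ≤ dist x y := by
      rw [Metric.mem_ball, not_lt, dist_comm] at hy; exact hy
    rw [max_eq_left hd]; simp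

lemma Good.V_cont {R : ℝ} (hR : 0 < R) {τ : E3 → ℝ} (h : Good R τ) : Continuous (V τ) := by
  have h1 : TendstoUniformly (fun (n : ℕ) => Vt (1 / ((n:ℝ) + 1)) τ) (V τ) atTop := by
    rw [Metric.tendstoUniformly_iff]
    intro δ hδ
    have h2 : Tendsto (fun n : ℕ => 2 * Real.pi * (1 / ((n:ℝ) + 1)) ^ 2) atTop (𝓝 0) := by
      have := ((tendsto_one_div_add_atTop_nhds_zero_nat (𝕜 := ℝ)).pow 2).const_mul (2 * Real.pi)
      simpa using this
    filter_upwards [h2.eventually (gt_mem_nhds hδ)] with n hn x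
    rw [Real.dist_eq]
    exact (Vt_close hR h (by positivity) x).trans_lt hn
  exact h1.continuous (Frequently.of_forall fun n => Vt_cont hR h (by positivity))

lemma Good.V_small {R : ℝ} (hR : 0 < R) {τ : E3 → ℝ} (h : Good R τ) {δ : ℝ} (hδ : 0 < δ) :
    ∃ ρ : ℝ, ∀ x : E3, ρ ≤ ‖x‖ → |V τ x| < δ := by
  refine ⟨max R (4 * Real.pi / 3 * R ^ 3 / δ + 1), fun x hx => ?_⟩
  refine (h.V_abs_le hR x).trans_lt ?_
  have h1 : R ≤ ‖x‖ := (le_max_left _ _).trans hx
  have h2 : 4 * Real.pi / 3 * R ^ 3 / δ + 1 ≤ ‖x‖ := (le_max_right _ _).trans hx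
  have h3 : 0 < ‖x‖ := lt_of_lt_of_le hR h1
  rw [Nn, if_neg (not_lt.2 h1), div_lt_iff₀ h3]
  have h4 : 4 * Real.pi / 3 * R ^ 3 / δ < ‖x‖ := by linarith
  rw [div_lt_iff₀ hδ] at h4
  linarith

/-- superlevel sets of potentials are compact -/
lemma Good.compact_ge {R : ℝ} (hR : 0 < R) {τ : E3 → ℝ} (h : Good R τ) {a : ℝ} (ha : 0 < a) :
    IsCompact {x | a ≤ V τ x} := by
  obtain ⟨ρ, hρ⟩ := h.V_small hR ha
  apply Metric.isCompact_of_isClosed_isBounded
  · exact isClosed_le continuous_const (h.V_cont hR)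
  · apply (Metric.isBounded_ball (x := (0:E3)) (r := ρ)).subset
    intro x hx
    rw [mem_ball_zero_iff]
    by_contra hc
    push Not at hc
    have := hρ x hc
    have h2 : a ≤ V τ x := hx
    linarith [le_abs_self (V τ x)]

/-- the volume of the ball of radius `r` -/
noncomputable def vb (r : ℝ) : ℝ := 4 * Real.pi / 3 * r ^ 3

lemma vb_pos {r : ℝ} (hr : 0 < r) : 0 < vb r := by unfold vb; positivity

lemma vol_ball {r : ℝ} (hr : 0 < r) (a : E3) : volume (Metric.ball a r) = ENNReal.ofReal (vb r) := by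
  rw [EuclideanSpace.volume_ball_fin_three, ← ENNReal.ofReal_pow hr.le, ← ENNReal.ofReal_mul (by positivity),
    vb]
  congr 1; ring

/-- difference between the kernel and its ball mean -/
noncomputable def kr (r ζ : ℝ) : ℝ := ζ⁻¹ - Nn r ζ / vb r

lemma kr_zero {r ζ : ℝ} (hr : 0 < r) (h : r ≤ ζ) : kr r ζ = 0 := by
  have := Real.pi_pos
  have hζ : 0 < ζ := lt_of_lt_of_le hr h
  rw [kr, Nn, if_neg (not_lt.2 h), vb]
  field_simp
  ring

lemma kr_pos {r ζ : ℝ} (hζ : 0 < ζ) (h : ζ < r) : 0 < kr r ζ := by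
  have := Real.pi_pos
  have hr : 0 < r := hζ.trans h
  rw [kr, Nn, if_pos h, vb]
  have h1 : 2 * Real.pi * (r ^ 2 - ζ ^ 2 / 3) / (4 * Real.pi / 3 * r ^ 3) =
      (3 * r ^ 2 - ζ ^ 2) / (2 * r ^ 3) := by
    field_simp
    ring
  rw [h1, sub_pos, div_lt_iff₀ (by positivity), inv_mul_eq_div, lt_div_iff₀ hζ]
  -- (3r²-ζ²)ζ < 2r³  iff (r-ζ)²(2r+ζ) > 0
  nlinarith [mul_pos (mul_pos (sub_pos.2 h) (sub_pos.2 h)) (by linarith : 0 < 2 * r + ζ)]

lemma kr_nonneg {r ζ : ℝ} (hr : 0 < r) (hζ : 0 < ζ) : 0 ≤ kr r ζ := by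
  rcases lt_or_ge ζ r with h | h
  · exact (kr_pos hζ h).le
  · exact (kr_zero hr h).ge

/-- ball mean of the potential -/
lemma Good.mean {R : ℝ} (hR : 0 < R) {τ : E3 → ℝ} (h : Good R τ) {r : ℝ} (hr : 0 < r) (x : E3) :
    ∫ z in Metric.ball x r, V τ z = ∫ y, τ y * Nn r (dist y x) := by
  unfold V
  rw [integral_integral_swap]
  · congr 1
    ext y
    rw [integral_const_mul]
    congr 1
    rw [← ball_pot hr x y]
    simp_rw [dist_comm y]
  · rw [integrable_prod_iff']
    · constructor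
      · refine ae_of_all _ fun y => ?_
        show Integrable (fun z => τ y * (dist z y)⁻¹) _
        apply Integrable.const_mul
        have := kern_int hr x y
        simp_rw [dist_comm y] at this
        exact this
      · have h1 : ∀ y : E3, ∫ z in Metric.ball x r, ‖τ y * (dist z y)⁻¹‖ = |τ y| * Nn r (dist y x) := by
          intro y
          rw [← ball_pot hr x y, ← integral_const_mul]
          congr 1
          ext z
          rw [Real.norm_eq_abs, abs_mul, abs_of_nonneg (inv_nonneg.2 dist_nonneg : 0 ≤ (dist z y)⁻¹),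
            dist_comm z]
        show Integrable (fun y => ∫ z in Metric.ball x r, ‖τ y * (dist z y)⁻¹‖)
        simp_rw [h1]
        have hm : Measurable fun y : E3 => Nn r (dist y x) := by
          unfold Nn
          apply Measurable.ite (measurableSet_lt (by fun_prop) (by fun_prop)) <;> fun_prop
        refine ((h.integrable hR).abs.mul_const (2 * Real.pi * r ^ 2)).mono' (by have := h.meas; fun_prop)
          (ae_of_all _ fun y => ?_)
        rw [Real.norm_eq_abs, abs_mul, abs_abs, abs_of_nonneg (Nn_nonneg hr dist_nonneg)]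
        gcongr
        exact Nn_le hr dist_nonneg
    · have := h.meas
      fun_prop

/-- the potential minus its ball mean -/
theorem Good.mean_diff {R : ℝ} (hR : 0 < R) {τ : E3 → ℝ} (h : Good R τ) {r : ℝ} (hr : 0 < r)
    (x : E3) :
    V τ x - (∫ z in Metric.ball x r, V τ z) / vb r = ∫ y, τ y * kr r (dist x y) := by
  rw [h.mean hR hr]
  unfold kr V
  rw [← integral_div, ← integral_sub (h.int_kern hR x)]
  · congr 1
    ext y
    rw [dist_comm y x]
    ring
  · have hm : Measurable fun y : E3 => Nn r (dist y x) := by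
      unfold Nn
      apply Measurable.ite (measurableSet_lt (by fun_prop) (by fun_prop)) <;> fun_prop
    apply Integrable.div_const
    refine ((h.integrable hR).abs.mul_const (2 * Real.pi * r ^ 2)).mono' (by have := h.meas; fun_prop)
      (ae_of_all _ fun y => ?_)
    rw [Real.norm_eq_abs, abs_mul, abs_of_nonneg (Nn_nonneg hr dist_nonneg)]
    gcongr
    exact Nn_le hr dist_nonneg

end Pool.Agent.H283R3.Newt
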