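import Pool.Agent.H283R3.Newt3

open MeasureTheory Set Filter Topology
open scoped ENNReal RealInnerProductSpace

namespace Pool.Agent.H283R3.Obs

open Pool.Agent.H283R3.Newt

/-- maximum principle for continuous functions with local ball sub-mean inequalities at positive
points of `Ω` -/
theorem maxP {h : E3 → ℝ} (hc : Continuous h) {Ω : Set E3} (hΩ : IsOpen Ω)
    (hcomp : ∀ a > 0, IsCompact {x | a ≤ h x}) (hb : ∀ x ∈ frontier Ω, h x ≤ 0)
    {e : E3} (he : e ≠ 0)
    (hsub : ∀ x ∈ Ω, 0 < h x → ∃ r₀ > 0, ∀ r, 0 < r → r < r₀ →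
      h x * vb r ≤ ∫ z in Metric.ball x r, h z) :
    ∀ x ∈ Ω, h x ≤ 0 := by
  by_contra hcon
  push Not at hcon
  obtain ⟨x1, hx1, hpos⟩ := hcon
  have hA : IsCompact ({x | h x1 ≤ h x} ∩ closure Ω) := (hcomp _ hpos).inter_right isClosed_closure
  obtain ⟨x2, hx2, hmax⟩ := hA.exists_isMaxOn
    ⟨x1, le_refl (h x1), subset_closure hx1⟩ hc.continuousOn
  have hle : ∀ y ∈ closure Ω, h y ≤ h x2 := by
    intro y hy
    by_cases h1 : h x1 ≤ h y
    · exact hmax ⟨h1, hy⟩
    · push Not at h1
      exact h1.le.trans hx2.1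
  have hm0 : 0 < h x2 := hpos.trans_le hx2.1
  have hA2 : IsCompact ({x | h x2 ≤ h x} ∩ closure Ω) := (hcomp _ hm0).inter_right isClosed_closure
  obtain ⟨x0, hx0, hmax0⟩ := hA2.exists_isMaxOn ⟨x2, le_refl (h x2), hx2.2⟩
    (f := fun x : E3 => ⟪e, x⟫) (by fun_prop)
  have hx0m : h x0 = h x2 := le_antisymm (hle _ hx0.2) hx0.1
  have hx0Ω : x0 ∈ Ω := by
    by_contra hc0
    have : x0 ∈ frontier Ω := by
      rw [hΩ.frontier_eq]; exact ⟨hx0.2, hc0⟩
    have := hb x0 this
    linarith
  obtain ⟨r1, hr1, hball⟩ := Metric.isOpen_iff.1 hΩ x0 hx0Ω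
  obtain ⟨r0, hr0, hsub0⟩ := hsub x0 hx0Ω (by rw [hx0m]; exact hm0)
  set r := min r0 r1 / 2 with hr
  have hrp : 0 < r := by
    have := lt_min hr0 hr1
    positivity
  have hrr0 : r < r0 := by
    have := min_le_left r0 r1
    have h2 := lt_min hr0 hr1
    rw [hr]; linarith
  have hrr1 : r < r1 := by
    have := min_le_right r0 r1
    have h2 := lt_min hr0 hr1
    rw [hr]; linarith
  have hin : ∀ z ∈ Metric.ball x0 r, z ∈ Ω := fun z hz => hball (Metric.ball_subset_ball hrr1.le hz)
  have hI := hsub0 r hrp hrr0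
  have hint : IntegrableOn h (Metric.ball x0 r) :=
    (hc.continuousOn.integrableOn_compact (isCompact_closedBall x0 r)).mono_set
      Metric.ball_subset_closedBall
  haveI : IsFiniteMeasure (volume.restrict (Metric.ball x0 r)) :=
    ⟨by rw [Measure.restrict_apply_univ]; exact measure_ball_lt_top⟩
  have hI2 : ∫ z in Metric.ball x0 r, (h x2 - h z) ≤ 0 := by
    rw [integral_sub (integrable_const _) hint, setIntegral_const, measureReal_def, vol_ball hrp,
      ENNReal.toReal_ofReal (vb_pos hrp).le, smul_eq_mul]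
    rw [hx0m] at hI
    linarith
  -- the function equals its maximum on the ball
  have heq : ∀ z ∈ Metric.ball x0 r, h z = h x2 := by
    intro z hz
    by_contra hne
    have hlt : h z < h x2 := lt_of_le_of_ne (hle z (subset_closure (hin z hz))) hne
    have hpos2 : 0 < ∫ z in Metric.ball x0 r, (h x2 - h z) := by
      rw [setIntegral_pos_iff_support_of_nonneg_ae]
      · have hopen : IsOpen ({z | h z < h x2} ∩ Metric.ball x0 r) :=
          (isOpen_lt hc continuous_const).inter Metric.isOpen_ball
        refine (hopen.measure_pos volume ⟨z, hlt, hz⟩).trans_le (measure_mono ?_)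
        rintro w ⟨hw1, hw2⟩
        refine ⟨?_, hw2⟩
        rw [Function.mem_support]
        have : h w < h x2 := hw1
        linarith
      · rw [Filter.EventuallyLE, ae_restrict_iff' Metric.isOpen_ball.measurableSet]
        filter_upwards with w hw
        have := hle w (subset_closure (hin w hw))
        simpa using this
      · exact (integrable_const _).sub hint
    linarith
  have hne : 0 < ‖e‖ := norm_pos_iff.2 he
  set y := x0 + (r / (2 * ‖e‖)) • e with hy
  have hyb : y ∈ Metric.ball x0 r := by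
    rw [Metric.mem_ball, dist_eq_norm, hy, add_sub_cancel_left, norm_smul,
      Real.norm_of_nonneg (by positivity)]
    have : r / (2 * ‖e‖) * ‖e‖ = r / 2 := by field_simp
    rw [this]; linarith
  have hyA : y ∈ {x | h x2 ≤ h x} ∩ closure Ω := ⟨(heq y hyb).ge, subset_closure (hin y hyb)⟩
  have h5 : ⟪e, y⟫ ≤ ⟪e, x0⟫ := hmax0 hyA
  rw [hy, inner_add_right, real_inner_smul_right, real_inner_self_eq_norm_sq] at h5
  have : 0 < r / (2 * ‖e‖) * ‖e‖ ^ 2 := by positivity
  linarith

/-- local sub-mean inequality where the density is `≤ 0` -/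
lemma sub_mean {R : ℝ} (hR : 0 < R) {η : E3 → ℝ} (h : Good R η) {x : E3} {r : ℝ} (hr : 0 < r)
    (hη : ∀ᵐ z, z ∈ Metric.ball x r → η z ≤ 0) :
    V η x * vb r ≤ ∫ z in Metric.ball x r, V η z := by
  have h1 := h.mean_diff hR hr x
  have hne : ∀ᵐ y : E3, y ≠ x := by simp [ae_iff]
  have h2 : ∫ y, η y * kr r (dist x y) ≤ 0 := by
    apply integral_nonpos_of_ae
    filter_upwards [hη, hne] with y hy hyx
    have hd : 0 < dist x y := dist_pos.2 hyx.symm
    simp only [Pi.zero_apply]
    by_cases hm : y ∈ Metric.ball x r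
    · exact mul_nonpos_of_nonpos_of_nonneg (hy hm) (kr_nonneg hr hd)
    · rw [kr_zero hr (by rw [Metric.mem_ball, not_lt, dist_comm] at hm; exact hm)]
      simp
  rw [← h1] at h2
  have hv := vb_pos hr
  have h3 : V η x ≤ (∫ z in Metric.ball x r, V η z) / vb r := by linarith
  rwa [le_div_iff₀ hv] at h3

/-- domination: if `τ = 0` a.e. where `V τ > c`, then `V τ ≤ c` -/
theorem V_le {R : ℝ} (hR : 0 < R) {τ : E3 → ℝ} (h : Good R τ) {c : ℝ} (hc : 0 < c)
    (hz : ∀ᵐ y, c < V τ y → τ y = 0) (x : E3) : V τ x ≤ c := by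
  have hcont := h.V_cont hR
  have h1 := maxP (h := fun x => V τ x - c) (hcont.sub continuous_const) isOpen_univ
    (fun a ha => by
      have : {x | a ≤ V τ x - c} = {x | a + c ≤ V τ x} := by
        ext x; simp only [mem_ofPred_eq]; constructor <;> intro h <;> linarith
      rw [this]
      exact h.compact_ge hR (by linarith))
    (by simp) (e := EuclideanSpace.single (0:Fin 3) 1) (by
      intro h0
      have := congrArg norm h0
      simp at this)
    (by
      intro x _ hx
      have hopen : IsOpen {y | c < V τ y} := isOpen_lt continuous_const hcont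
      obtain ⟨r₀, hr₀, hb⟩ := Metric.isOpen_iff.1 hopen x (by
        show c < V τ x
        linarith)
      refine ⟨r₀, hr₀, fun r hr hrr => ?_⟩
      have h2 := sub_mean hR h (x := x) hr (by
        filter_upwards [hz] with y hy hyb
        exact (hy (hb (Metric.ball_subset_ball hrr.le hyb))).le)
      have hint : IntegrableOn (V τ) (Metric.ball x r) :=
        (hcont.continuousOn.integrableOn_compact (isCompact_closedBall x r)).mono_set
          Metric.ball_subset_closedBall
      haveI : IsFiniteMeasure (volume.restrict (Metric.ball x r)) :=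
        ⟨by rw [Measure.restrict_apply_univ]; exact measure_ball_lt_top⟩
      rw [integral_sub hint (integrable_const _), setIntegral_const, measureReal_def, vol_ball hr,
        ENNReal.toReal_ofReal (vb_pos hr).le, smul_eq_mul]
      linarith)
    x (mem_univ x)
  linarith

end Pool.Agent.H283R3.Obs
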