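import Pool.Agent.H283R3.Obs1

open MeasureTheory Set Filter Topology
open scoped ENNReal RealInnerProductSpace

namespace Pool.Agent.H283R3.Obs

open Pool.Agent.H283R3.Newt

/-- weak sequential compactness of bounded sequences in `L²` -/
lemma weak_sub {μ : Measure E3} [IsFiniteMeasure μ] (F : ℕ → Lp ℝ 2 μ) (C : ℝ)
    (hF : ∀ n, ‖F n‖ ≤ C) :
    ∃ φ : ℕ → ℕ, StrictMono φ ∧ ∃ G : Lp ℝ 2 μ, ∀ g : Lp ℝ 2 μ,
      Tendsto (fun n => ⟪F (φ n), g⟫) atTop (𝓝 ⟪G, g⟫) := by
  have hfact : Fact ((2:ℝ≥0∞) ≠ ∞) := ⟨by norm_num⟩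
  have h := WeakDual.isSeqCompact_closedBall ℝ (Lp ℝ 2 μ) (0 : StrongDual ℝ (Lp ℝ 2 μ)) C
  obtain ⟨L, -, φ, hφ, hL⟩ := h (x := fun n => StrongDual.toWeakDual
    (InnerProductSpace.toDual ℝ (Lp ℝ 2 μ) (F n))) (by
      intro n
      simp only [mem_preimage, mem_closedBall_zero_iff]
      exact ((InnerProductSpace.toDual ℝ (Lp ℝ 2 μ)).norm_map (F n)).le.trans (hF n))
  refine ⟨φ, hφ, (InnerProductSpace.toDual ℝ (Lp ℝ 2 μ)).symm (WeakDual.toStrongDual L), fun g => ?_⟩
  have h1 := ((WeakDual.eval_continuous g).tendsto L).comp hL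
  have h2 : ⟪(InnerProductSpace.toDual ℝ (Lp ℝ 2 μ)).symm (WeakDual.toStrongDual L), g⟫ = L g := by
    rw [InnerProductSpace.toDual_symm_apply]
    rfl
  rw [h2]
  exact h1

/-- admissible densities -/
structure Adm (D : Set E3) (τ : E3 → ℝ) : Prop where
  meas : Measurable τ
  nonneg : ∀ y, 0 ≤ τ y
  le : ∀ y, τ y ≤ D.indicator 1 y

lemma Adm.good {D : Set E3} {R : ℝ} (hD : D ⊆ Metric.ball 0 R) {τ : E3 → ℝ} (h : Adm D τ) :
    Good R τ := by
  refine ⟨h.meas, fun y => ?_⟩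
  rw [abs_of_nonneg (h.nonneg y)]
  refine (h.le y).trans ?_
  exact indicator_le_indicator_of_subset hD (fun _ => zero_le_one) y

lemma Adm.le_one {D : Set E3} {τ : E3 → ℝ} (h : Adm D τ) (y : E3) : τ y ≤ 1 := by
  refine (h.le y).trans ?_
  unfold indicator
  split_ifs <;> simp

lemma Adm.zero {D : Set E3} {τ : E3 → ℝ} (h : Adm D τ) {y : E3} (hy : y ∉ D) : τ y = 0 := by
  have := h.le y
  rw [indicator_of_notMem hy] at this
  exact le_antisymm this (h.nonneg y)

/-- weak compactness of the set of admissible densities -/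
lemma adm_compact {D : Set E3} (hDm : MeasurableSet D) (hDf : volume D < ⊤) (t : ℕ → E3 → ℝ)
    (ht : ∀ n, Adm D (t n)) :
    ∃ φ : ℕ → ℕ, StrictMono φ ∧ ∃ τ, Adm D τ ∧ ∀ g : E3 → ℝ, Measurable g → (∃ C, ∀ y, |g y| ≤ C) →
      Tendsto (fun n => ∫ y, t (φ n) y * g y) atTop (𝓝 (∫ y, τ y * g y)) := by
  set μ : Measure E3 := volume.restrict D with hμ
  have : IsFiniteMeasure μ := ⟨by rw [hμ, Measure.restrict_apply_univ]; exact hDf⟩
  have hmem : ∀ g : E3 → ℝ, Measurable g → (∃ C, ∀ y, |g y| ≤ C) → MemLp g 2 μ := by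
    rintro g hg ⟨C, hC⟩
    exact MemLp.of_bound hg.aestronglyMeasurable C (ae_of_all _ hC)
  have htm : ∀ n, MemLp (t n) 2 μ := fun n => hmem _ (ht n).meas
    ⟨1, fun y => by rw [abs_of_nonneg ((ht n).nonneg y)]; exact (ht n).le_one y⟩
  have hbd : ∀ n, ‖(htm n).toLp‖ ≤ measureUnivNNReal μ ^ ((2:ℝ≥0∞).toReal)⁻¹ * 1 := by
    intro n
    apply Lp.norm_le_of_ae_bound zero_le_one
    filter_upwards [(htm n).coeFn_toLp] with y hy
    rw [hy, Real.norm_of_nonneg ((ht n).nonneg y)]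
    exact (ht n).le_one y
  obtain ⟨φ, hφ, G, hG⟩ := weak_sub (fun n => (htm n).toLp) _ hbd
  have hconv : ∀ g : E3 → ℝ, Measurable g → (∃ C, ∀ y, |g y| ≤ C) →
      Tendsto (fun n => ∫ y, t (φ n) y * g y ∂μ) atTop (𝓝 (∫ y, G y * g y ∂μ)) := by
    intro g hg hC
    have h1 := hG (hmem g hg hC).toLp
    simp_rw [L2.inner_def] at h1
    have h2 : ∀ F : E3 → ℝ, ∀ hF : MemLp F 2 μ, ∫ a, ⟪(hF.toLp : E3 → ℝ) a, ((hmem g hg hC).toLp : E3 → ℝ) a⟫ ∂μ =
        ∫ y, F y * g y ∂μ := by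
      intro F hF
      apply integral_congr_ae
      filter_upwards [hF.coeFn_toLp, (hmem g hg hC).coeFn_toLp] with a ha hb
      rw [ha, hb]
      simp [mul_comm]
    have h3 : ∫ a, ⟪G a, ((hmem g hg hC).toLp : E3 → ℝ) a⟫ ∂μ = ∫ y, G y * g y ∂μ := by
      apply integral_congr_ae
      filter_upwards [(hmem g hg hC).coeFn_toLp] with a hb
      rw [hb]
      simp [mul_comm]
    rw [h3] at h1
    refine h1.congr fun n => ?_
    exact h2 _ _
  have hGi : Integrable G μ := (Lp.memLp G).integrable (by norm_num)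
  have hGm : Measurable (G : E3 → ℝ) := (Lp.stronglyMeasurable G).measurable
  have hset : ∀ A : Set E3, MeasurableSet A →
      Tendsto (fun n => ∫ y in A, t (φ n) y ∂μ) atTop (𝓝 (∫ y in A, G y ∂μ)) := by
    intro A hA
    have h1 := hconv (A.indicator 1) (measurable_one.indicator hA) ⟨1, fun y => by
      unfold indicator; split_ifs <;> simp⟩
    have h2 : ∀ F : E3 → ℝ, ∫ y, F y * A.indicator 1 y ∂μ = ∫ y in A, F y ∂μ := by
      intro F
      rw [← integral_indicator hA]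
      congr 1
      ext y
      by_cases hy : y ∈ A <;> simp [hy]
    simp_rw [h2] at h1
    exact h1
  have hG0 : 0 ≤ᵐ[μ] (G : E3 → ℝ) := by
    apply ae_nonneg_of_forall_setIntegral_nonneg hGi
    intro A hA _
    exact ge_of_tendsto' (hset A hA) fun n => integral_nonneg fun y => (ht _).nonneg y
  have hG1 : (G : E3 → ℝ) ≤ᵐ[μ] fun _ => (1:ℝ) := by
    apply ae_le_of_forall_setIntegral_le hGi (integrable_const _)
    intro A hA _
    refine le_of_tendsto' (hset A hA) fun n => ?_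
    apply integral_mono_of_nonneg (ae_of_all _ fun y => (ht _).nonneg y) (integrable_const _)
    exact ae_of_all _ fun y => (ht _).le_one y
  set τ : E3 → ℝ := D.indicator (fun y => max 0 (min 1 (G y))) with hτ
  have hτA : Adm D τ := by
    refine ⟨?_, ?_, ?_⟩
    · exact (measurable_const.max (measurable_const.min hGm)).indicator hDm
    · intro y
      rw [hτ]
      exact indicator_nonneg (fun y _ => le_max_left _ _) y
    · intro y
      rw [hτ]
      apply indicator_le_indicator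
      simp
  refine ⟨φ, hφ, τ, hτA, fun g hg hC => ?_⟩
  have h1 := hconv g hg hC
  have h2 : ∀ n, ∫ y, t (φ n) y * g y ∂μ = ∫ y, t (φ n) y * g y := by
    intro n
    rw [hμ]
    apply setIntegral_eq_integral_of_forall_compl_eq_zero
    intro y hy
    rw [(ht _).zero hy, zero_mul]
  have h3 : ∫ y, G y * g y ∂μ = ∫ y, τ y * g y := by
    have : ∫ y, τ y * g y = ∫ y, τ y * g y ∂μ := by
      rw [hμ]
      symm
      apply setIntegral_eq_integral_of_forall_compl_eq_zero
      intro y hy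
      rw [hτA.zero hy, zero_mul]
    rw [this]
    apply integral_congr_ae
    have hDae : ∀ᵐ y ∂μ, y ∈ D := by
      rw [hμ]; exact ae_restrict_mem hDm
    filter_upwards [hG0, hG1, hDae] with y h0 h1 hyD
    have h0' : 0 ≤ G y := h0
    rw [hτ, indicator_of_mem hyD, min_eq_right h1, max_eq_right h0']
  simp_rw [h2, h3] at h1
  exact h1

end Pool.Agent.H283R3.Obs
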