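import Pool.Agent.H283R3.Obs2

open MeasureTheory Set Filter Topology
open scoped ENNReal RealInnerProductSpace

namespace Pool.Agent.H283R3.Obs

open Pool.Agent.H283R3.Newt

lemma pot_tendsto {D : Set E3} {R : ℝ} (hR : 0 < R) (hD : D ⊆ Metric.ball 0 R) {t : ℕ → E3 → ℝ}
    {τ : E3 → ℝ} (ht : ∀ n, Adm D (t n)) (hτ : Adm D τ)
    (hW : ∀ g : E3 → ℝ, Measurable g → (∃ C, ∀ y, |g y| ≤ C) →
      Tendsto (fun n => ∫ y, t n y * g y) atTop (𝓝 (∫ y, τ y * g y))) (x : E3) :
    Tendsto (fun n => V (t n) x) atTop (𝓝 (V τ x)) := by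
  rw [Metric.tendsto_atTop]
  intro δ hδ
  obtain ⟨ε, hε, hε2⟩ : ∃ ε : ℝ, 0 < ε ∧ 2 * Real.pi * ε ^ 2 < δ / 3 := by
    have h2 : Tendsto (fun n : ℕ => 2 * Real.pi * (1 / ((n:ℝ) + 1)) ^ 2) atTop (𝓝 0) := by
      have := ((tendsto_one_div_add_atTop_nhds_zero_nat (𝕜 := ℝ)).pow 2).const_mul (2 * Real.pi)
      simpa using this
    obtain ⟨n, hn⟩ := (h2.eventually (gt_mem_nhds (by positivity : 0 < δ / 3))).exists
    exact ⟨1 / ((n:ℝ) + 1), by positivity, hn⟩
  have h1 := hW (fun y => (max (dist x y) ε)⁻¹) (by fun_prop) ⟨ε⁻¹, fun y => by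
    rw [abs_of_nonneg (by positivity)]
    gcongr
    exact le_max_right _ _⟩
  rw [Metric.tendsto_atTop] at h1
  obtain ⟨N, hN⟩ := h1 (δ / 3) (by positivity)
  refine ⟨N, fun n hn => ?_⟩
  have h2 := Vt_close hR ((ht n).good hD) hε x
  have h3 := Vt_close hR (hτ.good hD) hε x
  have h4 := hN n hn
  rw [Real.dist_eq] at h4 ⊢
  unfold Vt at h2 h3
  rw [abs_le] at h2 h3
  rw [abs_lt] at h4 ⊢
  constructor <;> linarith [h2.1, h2.2, h3.1, h3.2, h4.1, h4.2]

lemma V_bdd {R : ℝ} (hR : 0 < R) {τ : E3 → ℝ} (h : Good R τ) (x : E3) :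
    |V τ x| ≤ 2 * Real.pi * R ^ 2 :=
  (h.V_abs_le hR x).trans (Nn_le hR (norm_nonneg x))

lemma energy_tendsto {D : Set E3} {R : ℝ} (hR : 0 < R) (hD : D ⊆ Metric.ball 0 R)
    {t : ℕ → E3 → ℝ} {τ : E3 → ℝ} (ht : ∀ n, Adm D (t n)) (hτ : Adm D τ)
    (hW : ∀ g : E3 → ℝ, Measurable g → (∃ C, ∀ y, |g y| ≤ C) →
      Tendsto (fun n => ∫ y, t n y * g y) atTop (𝓝 (∫ y, τ y * g y))) :
    Tendsto (fun n => ∫ y, t n y * V (t n) y) atTop (𝓝 (∫ y, τ y * V τ y)) := by
  have hVm : ∀ σ, Adm D σ → Measurable (V σ) := fun σ hσ => ((hσ.good hD).V_cont hR).measurable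
  have hfin : IsFiniteMeasure (volume.restrict (Metric.ball (0:E3) R)) :=
    ⟨by rw [Measure.restrict_apply_univ]; exact measure_ball_lt_top⟩
  have h1 : Tendsto (fun n => ∫ y, t n y * (V (t n) y - V τ y)) atTop (𝓝 (∫ _ : E3, (0:ℝ))) := by
    apply tendsto_integral_of_dominated_convergence
      ((Metric.ball (0:E3) R).indicator (fun _ => 4 * Real.pi * R ^ 2))
    · intro n
      have := (ht n).meas
      have := hVm _ (ht n)
      have := hVm _ hτ
      fun_prop
    · rw [integrable_indicator_iff Metric.isOpen_ball.measurableSet]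
      exact integrable_const _
    · intro n
      refine ae_of_all _ fun y => ?_
      by_cases hy : y ∈ Metric.ball (0:E3) R
      · rw [indicator_of_mem hy, Real.norm_eq_abs, abs_mul, abs_of_nonneg ((ht n).nonneg y)]
        have h2 := V_bdd hR ((ht n).good hD) y
        have h3 := V_bdd hR (hτ.good hD) y
        have h4 : |V (t n) y - V τ y| ≤ 4 * Real.pi * R ^ 2 := by
          rw [abs_le] at h2 h3 ⊢
          constructor <;> linarith [h2.1, h2.2, h3.1, h3.2]
        calc t n y * |V (t n) y - V τ y| ≤ 1 * (4 * Real.pi * R ^ 2) :=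
              mul_le_mul ((ht n).le_one y) h4 (abs_nonneg _) zero_le_one
          _ = _ := one_mul _
      · rw [indicator_of_notMem hy, (ht n).zero (fun h => hy (hD h))]
        simp
    · refine ae_of_all _ fun y => ?_
      have h2 := pot_tendsto hR hD ht hτ hW y
      have h3 : Tendsto (fun n => |V (t n) y - V τ y|) atTop (𝓝 0) := by
        have := (h2.sub_const (V τ y)).abs
        simpa using this
      apply squeeze_zero_norm (fun n => ?_) h3
      rw [Real.norm_eq_abs, abs_mul, abs_of_nonneg ((ht n).nonneg y)]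
      exact mul_le_of_le_one_left (abs_nonneg _) ((ht n).le_one y)
  have h2 := hW (V τ) (hVm _ hτ) ⟨_, V_bdd hR (hτ.good hD)⟩
  have h3 := h1.add h2
  rw [integral_zero, zero_add] at h3
  refine h3.congr fun n => ?_
  have hi : ∀ σ, Adm D σ → Integrable (fun y => t n y * V σ y) := by
    intro σ hσ
    have := (ht n).good hD
    refine this.int_mul hR ?_
    exact (((hσ.good hD).V_cont hR).continuousOn.integrableOn_compact
      (isCompact_closedBall 0 R)).mono_set Metric.ball_subset_closedBall
  rw [← integral_add]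
  · congr 1
    ext y
    ring
  · simp_rw [mul_sub]
    exact (hi _ (ht n)).sub (hi _ hτ)
  · exact hi _ hτ

/-- the energy functional -/
noncomputable def Q (c : ℝ) (τ : E3 → ℝ) : ℝ := (∫ y, τ y * V τ y) / 2 - c * ∫ y, τ y

lemma V_nonneg {τ : E3 → ℝ} (h : ∀ y, 0 ≤ τ y) (x : E3) : 0 ≤ V τ x :=
  integral_nonneg fun y => mul_nonneg (h y) (inv_nonneg.2 dist_nonneg)

lemma exists_min {D : Set E3} {R : ℝ} (hR : 0 < R) (hD : D ⊆ Metric.ball 0 R)
    (hDm : MeasurableSet D) {c : ℝ} (hc : 0 < c) :
    ∃ τ, Adm D τ ∧ ∀ σ, Adm D σ → Q c τ ≤ Q c σ := by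
  have hDf : volume D < ⊤ := (measure_mono hD).trans_lt measure_ball_lt_top
  set S : Set ℝ := {q | ∃ τ, Adm D τ ∧ q = Q c τ} with hS
  have hbdd : BddBelow S := by
    refine ⟨-(c * (volume D).toReal), ?_⟩
    rintro q ⟨τ, hτ, rfl⟩
    unfold Q
    have h1 : 0 ≤ ∫ y, τ y * V τ y :=
      integral_nonneg fun y => mul_nonneg (hτ.nonneg y) (V_nonneg hτ.nonneg y)
    have h2 : ∫ y, τ y ≤ (volume D).toReal := by
      calc ∫ y, τ y ≤ ∫ y, D.indicator 1 y := by
            apply integral_mono ((hτ.good hD).integrable hR)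
            · rw [integrable_indicator_iff hDm]
              have : IsFiniteMeasure (volume.restrict D) :=
                ⟨by rw [Measure.restrict_apply_univ]; exact hDf⟩
              exact integrable_const _
            · exact hτ.le
        _ = (volume D).toReal := by
            rw [integral_indicator_one hDm, measureReal_def]
    nlinarith
  have hne : S.Nonempty := ⟨_, 0, ⟨measurable_zero, fun _ => le_rfl, fun y => by
    simp only [Pi.zero_apply]
    exact indicator_nonneg (fun _ _ => zero_le_one) y⟩, rfl⟩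
  obtain ⟨u, -, hu, huS⟩ := exists_seq_tendsto_sInf hne hbdd
  choose t ht htq using huS
  obtain ⟨φ, hφ, τ, hτ, hW⟩ := adm_compact hDm hDf t ht
  have h1 := energy_tendsto hR hD (fun n => ht (φ n)) hτ hW
  have h2 := hW (fun _ => 1) measurable_const ⟨1, fun y => by simp⟩
  simp only [mul_one] at h2
  have h3 : Tendsto (fun n => Q c (t (φ n))) atTop (𝓝 (Q c τ)) := by
    unfold Q
    exact (h1.div_const 2).sub (h2.const_mul c)
  have h4 : Tendsto (fun n => Q c (t (φ n))) atTop (𝓝 (sInf S)) := by
    have := hu.comp hφ.tendsto_atTop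
    refine this.congr fun n => ?_
    exact htq _
  have h5 := tendsto_nhds_unique h3 h4
  refine ⟨τ, hτ, fun σ hσ => ?_⟩
  rw [h5]
  exact csInf_le hbdd ⟨σ, hσ, rfl⟩

/-- symmetry of the energy form -/
lemma energy_symm {R : ℝ} (hR : 0 < R) {σ τ : E3 → ℝ} (hσ : Good R σ) (hτ : Good R τ) :
    ∫ y, σ y * V τ y = ∫ y, τ y * V σ y := by
  unfold V
  simp_rw [← integral_const_mul]
  rw [integral_integral_swap]
  · congr 1
    ext y
    congr 1
    ext z
    rw [dist_comm]
    ring
  · have hσm := hσ.meas
    have hτm := hτ.meas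
    rw [integrable_prod_iff (by fun_prop)]
    constructor
    · refine ae_of_all _ fun y => ?_
      exact (hτ.int_kern hR y).const_mul (σ y)
    · have habs : Good R (fun y => |τ y|) := ⟨by fun_prop, fun y => by
        rw [abs_abs]; exact hτ.bd y⟩
      have h1 : ∀ y, ∫ z, ‖σ y * (τ z * (dist y z)⁻¹)‖ = |σ y| * V (fun y => |τ y|) y := by
        intro y
        unfold V
        rw [← integral_const_mul]
        congr 1
        ext z
        rw [Real.norm_eq_abs, abs_mul, abs_mul,
          abs_of_nonneg (inv_nonneg.2 dist_nonneg : 0 ≤ (dist y z)⁻¹)]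
      show Integrable (fun y => ∫ z, ‖σ y * (τ z * (dist y z)⁻¹)‖)
      simp_rw [h1]
      have hσa : Good R (fun y => |σ y|) := ⟨by fun_prop, fun y => by
        rw [abs_abs]; exact hσ.bd y⟩
      refine hσa.int_mul hR ?_
      exact ((habs.V_cont hR).continuousOn.integrableOn_compact
        (isCompact_closedBall 0 R)).mono_set Metric.ball_subset_closedBall

lemma V_add_smul {R : ℝ} (hR : 0 < R) {η τ : E3 → ℝ} (hη : Good R η) (hτ : Good R τ) (s : ℝ)
    (x : E3) : V (fun y => τ y + s * η y) x = V τ x + s * V η x := by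
  unfold V
  rw [← integral_const_mul, ← integral_add (hτ.int_kern hR x) ((hη.int_kern hR x).const_mul s)]
  congr 1
  ext y
  ring

lemma int_V {R : ℝ} (hR : 0 < R) {η τ : E3 → ℝ} (hη : Good R η) (hτ : Good R τ) :
    Integrable (fun y => η y * V τ y) :=
  hη.int_mul hR (((hτ.V_cont hR).continuousOn.integrableOn_compact
        (isCompact_closedBall 0 R)).mono_set Metric.ball_subset_closedBall)

/-- first order condition at a minimiser -/
theorem first_order {D : Set E3} {R : ℝ} (hR : 0 < R) (hD : D ⊆ Metric.ball 0 R) {c : ℝ}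
    {τ : E3 → ℝ} (hτ : Adm D τ) (hmin : ∀ σ, Adm D σ → Q c τ ≤ Q c σ) {σ : E3 → ℝ}
    (hσ : Adm D σ) : 0 ≤ ∫ y, (σ y - τ y) * (V τ y - c) := by
  have hτg := hτ.good hD
  have hσg := hσ.good hD
  set η : E3 → ℝ := fun y => σ y - τ y with hη
  have hηg : Good R η := by
    refine ⟨hσ.meas.sub hτ.meas, fun y => ?_⟩
    by_cases hy : y ∈ Metric.ball (0:E3) R
    · rw [indicator_of_mem hy, Pi.one_apply, abs_le]
      have h1 := hσ.nonneg y
      have h2 := hσ.le_one y
      have h3 := hτ.nonneg y
      have h4 := hτ.le_one y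
      constructor <;> simp only [hη] <;> linarith
    · rw [indicator_of_notMem hy]
      simp only [hη]
      rw [hσ.zero (fun h => hy (hD h)), hτ.zero (fun h => hy (hD h))]
      simp
  -- expansion of the functional
  have hexp : ∀ s : ℝ, Q c (fun y => τ y + s * η y) = Q c τ + s * (∫ y, η y * (V τ y - c)) +
      s ^ 2 * ((∫ y, η y * V η y) / 2) := by
    intro s
    unfold Q
    have e1 : ∫ y, (τ y + s * η y) * V (fun y => τ y + s * η y) y =
        (∫ y, τ y * V τ y) + s * (∫ y, τ y * V η y) + s * (∫ y, η y * V τ y) +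
          s ^ 2 * ∫ y, η y * V η y := by
      have g1 : Integrable (fun y => τ y * V τ y) := int_V hR hτg hτg
      have g2 : Integrable (fun y => s * (τ y * V η y)) := (int_V hR hτg hηg).const_mul s
      have g3 : Integrable (fun y => s * (η y * V τ y)) := (int_V hR hηg hτg).const_mul s
      have g4 : Integrable (fun y => s ^ 2 * (η y * V η y)) := (int_V hR hηg hηg).const_mul (s ^ 2)
      have g34 : Integrable (fun y => s * (η y * V τ y) + s ^ 2 * (η y * V η y)) := g3.add g4
      have g234 : Integrable (fun y => s * (τ y * V η y) +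
        (s * (η y * V τ y) + s ^ 2 * (η y * V η y))) := g2.add g34
      have hpt : ∀ y, (τ y + s * η y) * V (fun y => τ y + s * η y) y = τ y * V τ y +
          (s * (τ y * V η y) + (s * (η y * V τ y) + s ^ 2 * (η y * V η y))) := by
        intro y
        rw [V_add_smul hR hηg hτg]
        ring
      simp_rw [hpt]
      rw [integral_add g1 g234, integral_add g2 g34, integral_add g3 g4, integral_const_mul,
        integral_const_mul, integral_const_mul]
      ring
    have e2 : ∫ y, (τ y + s * η y) = (∫ y, τ y) + s * ∫ y, η y := by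
      rw [← integral_const_mul, ← integral_add (hτg.integrable hR) ((hηg.integrable hR).const_mul s)]
    have e3 : ∫ y, η y * (V τ y - c) = (∫ y, η y * V τ y) - c * ∫ y, η y := by
      rw [← integral_const_mul, ← integral_sub (int_V hR hηg hτg) ((hηg.integrable hR).const_mul c)]
      congr 1
      ext y
      ring
    rw [e1, e2, e3, energy_symm hR hτg hηg]
    ring
  set A := ∫ y, η y * (V τ y - c) with hA
  set B := (∫ y, η y * V η y) / 2 with hB
  by_contra hneg
  push Not at hneg
  have key : ∀ s : ℝ, 0 < s → s ≤ 1 → 0 ≤ s * A + s ^ 2 * B := by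
    intro s hs0 hs1
    have hadm : Adm D (fun y => τ y + s * η y) := by
      have hm := hηg.meas
      have hm2 := hτ.meas
      refine ⟨by fun_prop, fun y => ?_, fun y => ?_⟩
      · simp only [hη]
        nlinarith [hσ.nonneg y, hτ.nonneg y]
      · simp only [hη]
        nlinarith [hσ.le y, hτ.le y]
    have := hmin _ hadm
    rw [hexp s] at this
    linarith
  have hBpos : 0 < B := by
    have := key 1 one_pos le_rfl
    linarith
  set s := min 1 (-A / (2 * B)) with hs
  have hs0 : 0 < s := lt_min one_pos (by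
    apply div_pos <;> linarith)
  have h1 := key s hs0 (min_le_left _ _)
  have h2 : s * B ≤ -A / 2 := by
    have : s ≤ -A / (2 * B) := min_le_right _ _
    calc s * B ≤ -A / (2 * B) * B := by gcongr
      _ = -A / 2 := by field_simp
  nlinarith

/-- the bang-bang structure off the coincidence set -/
theorem bang {D : Set E3} {R : ℝ} (hR : 0 < R) (hD : D ⊆ Metric.ball 0 R)
    (hDm : MeasurableSet D) {c : ℝ}
    {τ : E3 → ℝ} (hτ : Adm D τ) (hmin : ∀ σ, Adm D σ → Q c τ ≤ Q c σ) :
    ∀ᵐ y, (V τ y < c → τ y = D.indicator 1 y) ∧ (c < V τ y → τ y = 0) := by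
  have hτg := hτ.good hD
  have hcont := hτg.V_cont hR
  set σ : E3 → ℝ := fun y => if V τ y < c then D.indicator 1 y else if c < V τ y then 0 else τ y
    with hσ
  have hσA : Adm D σ := by
    refine ⟨?_, fun y => ?_, fun y => ?_⟩
    · apply Measurable.ite (measurableSet_lt hcont.measurable measurable_const)
      · exact measurable_one.indicator hDm
      · exact Measurable.ite (measurableSet_lt measurable_const hcont.measurable) measurable_const
          hτ.meas
    · simp only [hσ]
      split_ifs
      · exact indicator_nonneg (fun _ _ => zero_le_one) y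
      · exact le_rfl
      · exact hτ.nonneg y
    · simp only [hσ]
      split_ifs
      · exact le_rfl
      · exact indicator_nonneg (fun _ _ => zero_le_one) y
      · exact hτ.le y
  have h1 := first_order hR hD hτ hmin hσA
  have hpt : ∀ y, (σ y - τ y) * (V τ y - c) ≤ 0 := by
    intro y
    simp only [hσ]
    split_ifs with h h'
    · exact mul_nonpos_of_nonneg_of_nonpos (by linarith [hτ.le y]) (by linarith)
    · exact mul_nonpos_of_nonpos_of_nonneg (by linarith [hτ.nonneg y]) (by linarith)
    · simp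
  have hint : Integrable (fun y => (σ y - τ y) * (V τ y - c)) := by
    have hηg : Good R (fun y => σ y - τ y) := by
      refine ⟨hσA.meas.sub hτ.meas, fun y => ?_⟩
      by_cases hy : y ∈ Metric.ball (0:E3) R
      · rw [indicator_of_mem hy, Pi.one_apply, abs_le]
        have h1 := hσA.nonneg y
        have h2 := hσA.le_one y
        have h3 := hτ.nonneg y
        have h4 := hτ.le_one y
        constructor <;> linarith
      · rw [indicator_of_notMem hy, hσA.zero (fun h => hy (hD h)), hτ.zero (fun h => hy (hD h))]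
        simp
    refine hηg.int_mul hR ?_
    exact ((hcont.sub continuous_const).continuousOn.integrableOn_compact
        (isCompact_closedBall 0 R)).mono_set Metric.ball_subset_closedBall
  have h2 : (fun y => -((σ y - τ y) * (V τ y - c))) =ᵐ[volume] 0 := by
    have hint' : Integrable (fun y => -((σ y - τ y) * (V τ y - c))) := hint.neg
    rw [← integral_eq_zero_iff_of_nonneg (fun y => by
      simp only [Pi.zero_apply]; linarith [hpt y]) hint', integral_neg]
    have := integral_nonpos (μ := (volume : Measure E3)) (f := fun y => (σ y - τ y) * (V τ y - c))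
      (fun y => hpt y)
    linarith
  filter_upwards [h2] with y hy
  simp only [Pi.zero_apply, neg_eq_zero, mul_eq_zero] at hy
  constructor
  · intro hlt
    rcases hy with hy | hy
    · have : σ y = D.indicator 1 y := by simp only [hσ]; rw [if_pos hlt]
      rw [← this]; linarith
    · linarith
  · intro hlt
    rcases hy with hy | hy
    · have : σ y = 0 := by
        simp only [hσ]; rw [if_neg (not_lt.2 hlt.le), if_pos hlt]
      linarith
    · linarith

end Pool.Agent.H283R3.Obs
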