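import Pool.Agent.H283R3.Obs3

open MeasureTheory Set Filter Topology
open scoped ENNReal RealInnerProductSpace

namespace Pool.Agent.H283R3.Obs

open Pool.Agent.H283R3.Newt

/-- reflection in the plane `⟪e, x⟫ = l` (for a unit vector `e`) -/
noncomputable def sr (e : E3) (l : ℝ) (x : E3) : E3 := x - (2 * (⟪e, x⟫ - l)) • e

lemma sr_inner {e : E3} (he : ‖e‖ = 1) (l : ℝ) (x : E3) : ⟪e, sr e l x⟫ = 2 * l - ⟪e, x⟫ := by
  rw [sr, inner_sub_right, real_inner_smul_right, real_inner_self_eq_norm_sq, he]
  ring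

lemma sr_sr {e : E3} (he : ‖e‖ = 1) (l : ℝ) (x : E3) : sr e l (sr e l x) = x := by
  have h := sr_inner he l x
  conv_lhs => rw [sr]
  rw [h]
  rw [sr, sub_sub, ← add_smul]
  have : 2 * (⟪e, x⟫ - l) + 2 * (2 * l - ⟪e, x⟫ - l) = 0 := by ring
  rw [this, zero_smul, sub_zero]

lemma sr_dist {e : E3} (he : ‖e‖ = 1) (l : ℝ) (x y : E3) : dist (sr e l x) (sr e l y) = dist x y := by
  rw [dist_eq_norm, dist_eq_norm]
  have h1 : sr e l x - sr e l y = (x - y) - (2 * ⟪e, x - y⟫) • e := by
    unfold sr
    rw [inner_sub_right]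
    module
  have h2 : ‖sr e l x - sr e l y‖ ^ 2 = ‖x - y‖ ^ 2 := by
    rw [h1, norm_sub_sq_real, real_inner_smul_right, norm_smul, he, real_inner_comm,
      Real.norm_eq_abs, mul_one, sq_abs]
    ring
  exact (sq_eq_sq₀ (norm_nonneg _) (norm_nonneg _)).1 h2

/-- the reflection as an isometry equivalence -/
noncomputable def srE (e : E3) (he : ‖e‖ = 1) (l : ℝ) : E3 ≃ᵢ E3 where
  toFun := sr e l
  invFun := sr e l
  left_inv := sr_sr he l
  right_inv := sr_sr he l
  isometry_toFun := Isometry.of_dist_eq (sr_dist he l)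

lemma sr_mp {e : E3} (he : ‖e‖ = 1) (l : ℝ) : MeasurePreserving (sr e l) volume volume := by
  have h1 : (sr e l) = (fun x => x + (2 * l) • e) ∘ (Submodule.reflection (ℝ ∙ e)ᗮ) := by
    ext1 x
    simp only [Function.comp]
    rw [Submodule.reflection_orthogonal_apply, Submodule.reflection_singleton_apply, he]
    unfold sr
    simp only [RCLike.ofReal_one, one_pow, div_one]
    module
  rw [h1]
  exact (measurePreserving_add_right volume _).comp
    (LinearIsometryEquiv.measurePreserving (Submodule.reflection (ℝ ∙ e)ᗮ))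

lemma V_sr {e : E3} (he : ‖e‖ = 1) (l : ℝ) (τ : E3 → ℝ) (x : E3) :
    V (fun y => τ (sr e l y)) x = V τ (sr e l x) := by
  unfold V
  rw [← (sr_mp he l).integral_comp (srE e he l).toHomeomorph.measurableEmbedding
    (fun z => τ z * (dist (sr e l x) z)⁻¹)]
  congr 1
  ext y
  rw [sr_dist he]

lemma sr_cont (e : E3) (l : ℝ) : Continuous (sr e l) := by
  unfold sr; fun_prop

/-- moving planes comparison -/
theorem moving {D : Set E3} {R : ℝ} (hR : 0 < R) (hD : D ⊆ Metric.ball 0 R)
    {τ : E3 → ℝ} (hτ : Adm D τ) {c : ℝ}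
    (hbang : ∀ᵐ y, V τ y < c → τ y = D.indicator 1 y) (hle : ∀ x, V τ x ≤ c)
    {e : E3} (he : ‖e‖ = 1) {l : ℝ} (hrefl : ∀ z ∈ D, l < ⟪e, z⟫ → sr e l z ∈ D) :
    ∀ x, l ≤ ⟪e, x⟫ → V τ x ≤ V τ (sr e l x) := by
  have hτg := hτ.good hD
  set η : E3 → ℝ := fun y => τ y - τ (sr e l y) with hη
  have hR' : 0 < R + 2 * |l| := by positivity
  have hsm : Measurable (sr e l) := (sr_cont e l).measurable
  have hηg : Good (R + 2 * |l|) η := by
    have hm := hτ.meas
    refine ⟨by fun_prop, fun y => ?_⟩
    have h1 := hτ.nonneg y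
    have h2 := hτ.le_one y
    have h3 := hτ.nonneg (sr e l y)
    have h4 := hτ.le_one (sr e l y)
    by_cases hy : y ∈ Metric.ball (0:E3) (R + 2 * |l|)
    · rw [indicator_of_mem hy, Pi.one_apply, abs_le]
      constructor <;> simp only [hη] <;> linarith
    · rw [indicator_of_notMem hy]
      simp only [hη]
      have hn : R + 2 * |l| ≤ ‖y‖ := by
        rw [mem_ball_zero_iff, not_lt] at hy; exact hy
      rw [hτ.zero (fun h => ?_), hτ.zero (fun h => ?_)]
      · simp
      · have h5 := hD h
        rw [mem_ball_zero_iff] at h5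
        have h6 : ‖y‖ ≤ ‖sr e l y‖ + 2 * |l| := by
          have h7 := sr_dist he l y (sr e l 0)
          rw [sr_sr he, dist_zero_right] at h7
          have h8 : sr e l 0 = (2 * l) • e := by
            unfold sr; rw [inner_zero_right]; module
          have h9 : ‖sr e l 0‖ = 2 * |l| := by
            rw [h8, norm_smul, he, mul_one, Real.norm_eq_abs, abs_mul, abs_two]
          have h10 : ‖y‖ ≤ dist y (sr e l 0) + ‖sr e l 0‖ := by
            rw [dist_eq_norm]
            have := norm_add_le (y - sr e l 0) (sr e l 0)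
            rwa [sub_add_cancel] at this
          rw [← h7] at h10
          linarith
        linarith
      · have h5 := hD h
        rw [mem_ball_zero_iff] at h5
        have := abs_nonneg l
        linarith
  have hVη : ∀ x, V η x = V τ x - V τ (sr e l x) := by
    intro x
    rw [← V_sr he]
    unfold V
    rw [← integral_sub]
    · congr 1
      ext y
      simp only [hη]
      ring
    · exact hτg.int_kern hR x
    · have h1 := ((sr_mp he l).integrable_comp_emb
        (srE e he l).toHomeomorph.measurableEmbedding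
        (g := fun z => τ z * (dist (sr e l x) z)⁻¹)).2 (hτg.int_kern hR _)
      refine h1.congr (ae_of_all _ fun y => ?_)
      simp only [Function.comp]
      rw [sr_dist he]
  have hcont := hηg.V_cont hR'
  have hτc := hτg.V_cont hR
  have hΩ : IsOpen {x : E3 | l < ⟪e, x⟫} := isOpen_lt continuous_const (by fun_prop)
  have hbang' : ∀ᵐ z, V τ (sr e l z) < c → τ (sr e l z) = D.indicator 1 (sr e l z) :=
    (sr_mp he l).quasiMeasurePreserving.ae hbang
  have key := maxP hcont hΩ (fun a ha => hηg.compact_ge hR' ha) (by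
    intro x hx
    have h1 : ⟪e, x⟫ = l := by
      have h2 := frontier_lt_subset_eq continuous_const (by fun_prop : Continuous fun x : E3 => ⟪e, x⟫) hx
      exact h2.symm
    have h3 : sr e l x = x := by
      unfold sr; rw [h1]; simp
    rw [hVη, h3, sub_self]) (e := e) (by
      intro h0; rw [h0] at he; simp at he)
    (by
      intro x hx hpos
      rw [hVη] at hpos
      have hlt : V τ (sr e l x) < c := by linarith [hle x]
      have hopen : IsOpen ({z | V τ (sr e l z) < c} ∩ {x : E3 | l < ⟪e, x⟫}) :=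
        (isOpen_lt (hτc.comp (sr_cont e l)) continuous_const).inter hΩ
      obtain ⟨r₀, hr₀, hb⟩ := Metric.isOpen_iff.1 hopen x ⟨hlt, hx⟩
      refine ⟨r₀, hr₀, fun r hr hrr => ?_⟩
      apply sub_mean hR' hηg hr
      filter_upwards [hbang'] with z hz hzb
      have hz2 := hb (Metric.ball_subset_ball hrr.le hzb)
      have hz3 := hz hz2.1
      simp only [hη]
      rw [hz3]
      by_cases hzD : z ∈ D
      · rw [indicator_of_mem (hrefl z hzD hz2.2), Pi.one_apply]
        linarith [hτ.le_one z]
      · rw [hτ.zero hzD]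
        have : (0:ℝ) ≤ D.indicator 1 (sr e l z) := indicator_nonneg (fun _ _ => zero_le_one) _
        linarith)
  intro x hx
  rcases hx.eq_or_lt with h0 | h0
  · have h3 : sr e l x = x := by
      unfold sr; rw [← h0]; simp
    rw [h3]
  · have := key x h0
    rw [hVη] at this
    linarith

end Pool.Agent.H283R3.Obs
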