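import Pool.Agent.H283R3.Obs4

open MeasureTheory Set Filter Topology
open scoped ENNReal RealInnerProductSpace

namespace Pool.Agent.H283R3.Obs

open Pool.Agent.H283R3.Newt

/-- the outer domain: a cube truncated by a ball -/
def Dm : Set E3 := {x | (∀ i, |x i| < 1) ∧ ‖x‖ < 23 / 20}

lemma Dm_open : IsOpen Dm := by
  have : Dm = (⋂ i : Fin 3, {x : E3 | |x i| < 1}) ∩ {x | ‖x‖ < 23 / 20} := by
    ext x; simp [Dm]
  rw [this]
  apply IsOpen.inter
  · exact isOpen_iInter_of_finite fun i => isOpen_lt (by fun_prop) continuous_const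
  · exact isOpen_lt continuous_norm continuous_const

lemma Dm_sub : Dm ⊆ Metric.ball 0 (23 / 20) := fun x hx => by
  rw [mem_ball_zero_iff]; exact hx.2

lemma Dm_meas : MeasurableSet Dm := Dm_open.measurableSet

lemma abs_coord_le (x : E3) (i : Fin 3) : |x i| ≤ ‖x‖ := by
  have := PiLp.norm_apply_le x i
  simpa using this

lemma ball_sub_Dm : Metric.ball (0:E3) 1 ⊆ Dm := fun x hx => by
  rw [mem_ball_zero_iff] at hx
  exact ⟨fun i => (abs_coord_le x i).trans_lt hx, by linarith⟩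

/-- shrinking the closed version of the domain lands in the open domain -/
lemma Dm_smul {x : E3} (h1 : ∀ i, |x i| ≤ 1) (h2 : ‖x‖ ≤ 23 / 20) {t : ℝ} (ht0 : 0 ≤ t)
    (ht1 : t < 1) : t • x ∈ Dm := by
  refine ⟨fun i => ?_, ?_⟩
  · rw [PiLp.smul_apply, smul_eq_mul, abs_mul, abs_of_nonneg ht0]
    have := h1 i
    have := abs_nonneg (x i)
    nlinarith
  · rw [norm_smul, Real.norm_of_nonneg ht0]
    have := norm_nonneg x
    nlinarith

lemma closure_Dm {x : E3} (hx : x ∈ closure Dm) : (∀ i, |x i| ≤ 1) ∧ ‖x‖ ≤ 23 / 20 := by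
  have hcl : IsClosed ((⋂ i : Fin 3, {x : E3 | |x i| ≤ 1}) ∩ {x | ‖x‖ ≤ 23 / 20}) := by
    apply IsClosed.inter
    · exact isClosed_iInter fun i => isClosed_le (by fun_prop) continuous_const
    · exact isClosed_le continuous_norm continuous_const
  have hsub : Dm ⊆ (⋂ i : Fin 3, {x : E3 | |x i| ≤ 1}) ∩ {x | ‖x‖ ≤ 23 / 20} := by
    intro y hy
    refine ⟨mem_iInter.2 fun i => ?_, ?_⟩
    · exact (hy.1 i).le
    · exact hy.2.le
  have := closure_minimal hsub hcl hx
  exact ⟨fun i => mem_iInter.1 this.1 i, this.2⟩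

lemma sr_norm_le {e : E3} (he : ‖e‖ = 1) {l : ℝ} (hl : 0 ≤ l) {z : E3} (hz : l ≤ ⟪e, z⟫) :
    ‖sr e l z‖ ≤ ‖z‖ := by
  have h2 : ‖sr e l z‖ ^ 2 = ‖z‖ ^ 2 - 4 * l * (⟪e, z⟫ - l) := by
    unfold sr
    rw [norm_sub_sq_real, real_inner_smul_right, norm_smul, he, real_inner_comm,
      Real.norm_eq_abs, mul_one, sq_abs]
    ring
  have h3 : ‖sr e l z‖ ^ 2 ≤ ‖z‖ ^ 2 := by
    rw [h2]
    nlinarith [mul_nonneg hl (sub_nonneg.2 hz)]
  exact (sq_le_sq₀ (norm_nonneg _) (norm_nonneg _)).1 h3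

/-- coordinate direction with sign -/
noncomputable def ei (i : Fin 3) (s : ℝ) : E3 := EuclideanSpace.single i s

lemma ei_norm (i : Fin 3) {s : ℝ} (hs : |s| = 1) : ‖ei i s‖ = 1 := by
  simp [ei, hs]

lemma ei_inner (i : Fin 3) (s : ℝ) (z : E3) : ⟪ei i s, z⟫ = s * z i := by
  rw [ei, real_inner_comm]
  simp [PiLp.inner_apply]

lemma sr_ei_apply (i : Fin 3) {s : ℝ} (hs : s * s = 1) (l : ℝ) (z : E3) (k : Fin 3) :
    sr (ei i s) l z k = if k = i then 2 * s * l - z i else z k := by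
  unfold sr
  rw [ei_inner]
  simp only [ei, PiLp.sub_apply, PiLp.smul_apply, PiLp.single_apply, smul_eq_mul]
  split_ifs with h
  · subst h
    linear_combination (-2 * z k) * hs
  · ring

lemma refl_ei (i : Fin 3) {s : ℝ} (hs : |s| = 1) {l : ℝ} (hl : 0 ≤ l) {z : E3} (hz : z ∈ Dm)
    (hlz : l < ⟪ei i s, z⟫) : sr (ei i s) l z ∈ Dm := by
  have hss : s * s = 1 := by
    rw [← abs_mul_abs_self, hs, one_mul]
  refine ⟨fun k => ?_, (sr_norm_le (ei_norm i hs) hl hlz.le).trans_lt hz.2⟩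
  rw [sr_ei_apply i hss]
  split_ifs with h
  · rw [ei_inner] at hlz
    have h1 := hz.1 i
    have h2 : |2 * s * l - z i| = |2 * l - s * z i| := by
      have : 2 * s * l - z i = s * (2 * l - s * z i) := by linear_combination (z i) * hss
      rw [this, abs_mul, hs, one_mul]
    have h3 : |s * z i| < 1 := by rw [abs_mul, hs, one_mul]; exact h1
    rw [h2, abs_lt] at *
    constructor <;> linarith [h3.1, h3.2]
  · exact hz.1 k

/-- diagonal direction -/
noncomputable def eij (i j : Fin 3) : E3 := (Real.sqrt 2)⁻¹ • (ei i 1 - ei j 1)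

lemma eij_inner (i j : Fin 3) (z : E3) : ⟪eij i j, z⟫ = (Real.sqrt 2)⁻¹ * (z i - z j) := by
  rw [eij, real_inner_smul_left, inner_sub_left, ei_inner, ei_inner]
  ring

lemma eij_norm {i j : Fin 3} (h : i ≠ j) : ‖eij i j‖ = 1 := by
  have h1 : ‖eij i j‖ ^ 2 = 1 := by
    rw [← real_inner_self_eq_norm_sq, eij_inner]
    simp only [eij, ei, PiLp.sub_apply, PiLp.smul_apply, PiLp.single_apply, smul_eq_mul]
    rw [if_neg h, if_neg h.symm]
    simp only [if_true]
    have h2 : (Real.sqrt 2)⁻¹ * (Real.sqrt 2)⁻¹ = 1 / 2 := by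
      rw [← mul_inv, Real.mul_self_sqrt (by norm_num)]; norm_num
    linear_combination 2 * h2
  have h3 : ‖eij i j‖ ^ 2 = 1 ^ 2 := by rw [h1]; norm_num
  exact (sq_eq_sq₀ (norm_nonneg _) zero_le_one).1 h3

lemma sr_eij_apply {i j : Fin 3} (h : i ≠ j) (l : ℝ) (z : E3) (k : Fin 3) :
    sr (eij i j) l z k = if k = i then z j + Real.sqrt 2 * l
      else if k = j then z i - Real.sqrt 2 * l else z k := by
  unfold sr
  rw [eij_inner]
  simp only [eij, ei, PiLp.sub_apply, PiLp.smul_apply, PiLp.single_apply, smul_eq_mul]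
  have h2 : (Real.sqrt 2)⁻¹ * (Real.sqrt 2)⁻¹ = 1 / 2 := by
    rw [← mul_inv, Real.mul_self_sqrt (by norm_num)]; norm_num
  have h3 : 2 * (Real.sqrt 2)⁻¹ = Real.sqrt 2 := by
    have h4 : Real.sqrt 2 ≠ 0 := by positivity
    field_simp
    rw [Real.sq_sqrt (by norm_num)]
  split_ifs with h5 h6 h6
  · exact absurd (h5.symm.trans h6) h
  · subst h5
    linear_combination (-2 * (z k - z j)) * h2 + l * h3
  · subst h6
    linear_combination (2 * (z i - z k)) * h2 - l * h3
  · ring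

lemma refl_eij {i j : Fin 3} (h : i ≠ j) {l : ℝ} (hl : 0 ≤ l) {z : E3} (hz : z ∈ Dm)
    (hlz : l < ⟪eij i j, z⟫) : sr (eij i j) l z ∈ Dm := by
  refine ⟨fun k => ?_, (sr_norm_le (eij_norm h) hl hlz.le).trans_lt hz.2⟩
  rw [sr_eij_apply h]
  rw [eij_inner] at hlz
  have h4 : 0 < Real.sqrt 2 := by positivity
  have h5 : Real.sqrt 2 * l < z i - z j := by
    calc Real.sqrt 2 * l < Real.sqrt 2 * ((Real.sqrt 2)⁻¹ * (z i - z j)) := by gcongr
      _ = z i - z j := by field_simp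
  have h6 : 0 ≤ Real.sqrt 2 * l := by positivity
  have hi := abs_lt.1 (hz.1 i)
  have hj := abs_lt.1 (hz.1 j)
  split_ifs with h7 h8
  · rw [abs_lt]; constructor <;> linarith [hi.1, hi.2, hj.1, hj.2]
  · rw [abs_lt]; constructor <;> linarith [hi.1, hi.2, hj.1, hj.2]
  · exact hz.1 k

/-- everything we use about the solution of the obstacle problem -/
structure Sol (τ : E3 → ℝ) (c : ℝ) : Prop where
  adm : Adm Dm τ
  bang1 : ∀ᵐ y, V τ y < c → τ y = Dm.indicator 1 y
  le : ∀ x, V τ x ≤ c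

lemma exists_sol {c : ℝ} (hc : 0 < c) : ∃ τ, Sol τ c := by
  obtain ⟨τ, hτ, hmin⟩ := exists_min (by norm_num : (0:ℝ) < 23 / 20) Dm_sub Dm_meas hc
  have h := bang (by norm_num : (0:ℝ) < 23 / 20) Dm_sub Dm_meas hτ hmin
  refine ⟨τ, hτ, ?_, ?_⟩
  · filter_upwards [h] with y hy using hy.1
  · apply V_le (by norm_num : (0:ℝ) < 23 / 20) (hτ.good Dm_sub) hc
    filter_upwards [h] with y hy using hy.2

/-- the coincidence set -/
def K (τ : E3 → ℝ) (c : ℝ) : Set E3 := {x | V τ x = c}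

section

variable {τ : E3 → ℝ} {c : ℝ}

lemma Sol.good (h : Sol τ c) : Good (23 / 20) τ := h.adm.good Dm_sub

lemma Sol.refl_mem (h : Sol τ c) {e : E3} (he : ‖e‖ = 1) {l : ℝ}
    (hrefl : ∀ z ∈ Dm, l < ⟪e, z⟫ → sr e l z ∈ Dm) {x : E3} (hx : x ∈ K τ c) (hl : l ≤ ⟪e, x⟫) :
    sr e l x ∈ K τ c := by
  have h1 := moving (by norm_num : (0:ℝ) < 23 / 20) Dm_sub h.adm h.bang1 h.le he hrefl x hl
  have h2 : V τ x = c := hx
  rw [h2] at h1
  exact le_antisymm (h.le _) h1

/-- one coordinate may be replaced by any value of smaller absolute value -/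
lemma Sol.K1 (h : Sol τ c) {x : E3} (hx : x ∈ K τ c) (i : Fin 3) {y : E3}
    (hy : ∀ k, k ≠ i → y k = x k) (hyi : |y i| ≤ |x i|) : y ∈ K τ c := by
  rcases le_total 0 (x i) with h0 | h0
  · rw [abs_of_nonneg h0] at hyi
    have h1 := abs_le.1 hyi
    have hm := h.refl_mem (ei_norm i (s := 1) (by simp)) (l := (y i + x i) / 2)
      (fun z hz hlz => refl_ei i (by simp) (by linarith [h1.1]) hz hlz) hx (by
        rw [ei_inner]; linarith [h1.2])
    have : sr (ei i 1) ((y i + x i) / 2) x = y := by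
      ext k
      rw [sr_ei_apply i (by norm_num)]
      split_ifs with hk
      · rw [hk]; ring
      · exact (hy k hk).symm
    rwa [this] at hm
  · rw [abs_of_nonpos h0] at hyi
    have h1 := abs_le.1 hyi
    have hm := h.refl_mem (ei_norm i (s := -1) (by simp)) (l := -(y i + x i) / 2)
      (fun z hz hlz => refl_ei i (by simp) (by linarith [h1.2]) hz hlz) hx (by
        rw [ei_inner]; linarith [h1.1])
    have : sr (ei i (-1)) (-(y i + x i) / 2) x = y := by
      ext k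
      rw [sr_ei_apply i (by norm_num)]
      split_ifs with hk
      · rw [hk]; ring
      · exact (hy k hk).symm
    rwa [this] at hm

/-- mass transfer from a larger to a smaller coordinate -/
lemma Sol.K2 (h : Sol τ c) {x : E3} (hx : x ∈ K τ c) {i j : Fin 3} (hij : i ≠ j) {u : ℝ}
    (hu0 : 0 ≤ u) (hu : u ≤ x i - x j) {y : E3} (hy : ∀ k, k ≠ i → k ≠ j → y k = x k)
    (hyi : y i = x i - u) (hyj : y j = x j + u) : y ∈ K τ c := by
  have h4 : 0 < Real.sqrt 2 := by positivity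
  have h5 : Real.sqrt 2 * (Real.sqrt 2)⁻¹ = 1 := by field_simp
  have hm := h.refl_mem (eij_norm hij) (l := (Real.sqrt 2)⁻¹ * (x i - x j - u))
      (fun z hz hlz => refl_eij hij (by
        apply mul_nonneg (by positivity); linarith) hz hlz) hx (by
        rw [eij_inner]
        exact mul_le_mul_of_nonneg_left (by linarith) (by positivity))
  have : sr (eij i j) ((Real.sqrt 2)⁻¹ * (x i - x j - u)) x = y := by
    ext k
    rw [sr_eij_apply hij]
    have h6 : Real.sqrt 2 * ((Real.sqrt 2)⁻¹ * (x i - x j - u)) = x i - x j - u := by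
      rw [← mul_assoc, h5, one_mul]
    rw [h6]
    split_ifs with hk hk2
    · rw [hk, hyi]; ring
    · rw [hk2, hyj]; ring
    · exact (hy k hk hk2).symm
  rwa [this] at hm

lemma Sol.box (h : Sol τ c) {z : E3} (hz : z ∈ K τ c) {y : E3} (hy : ∀ k, |y k| ≤ |z k|) :
    y ∈ K τ c := by
  set z1 : E3 := WithLp.toLp 2 ![y 0, z 1, z 2] with hz1
  set z2 : E3 := WithLp.toLp 2 ![y 0, y 1, z 2] with hz2
  have e1 : z1 ∈ K τ c := h.K1 hz 0 (by
    intro k hk; fin_cases k <;> simp_all) (by simpa [hz1] using hy 0)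
  have e2 : z2 ∈ K τ c := h.K1 e1 1 (by
    intro k hk; fin_cases k <;> simp_all) (by simpa [hz1, hz2] using hy 1)
  exact h.K1 e2 2 (by
    intro k hk; fin_cases k <;> simp_all) (by simpa [hz1, hz2] using hy 2)

lemma Sol.step (h : Sol τ c) {z : E3} (hz : z ∈ K τ c) (hz0 : ∀ k, 0 ≤ z k) {m i : Fin 3}
    (hmi : m ≠ i) {δ : ℝ} (hδ : 0 < δ) (hδm : δ ≤ z m) :
    ∃ z' ∈ K τ c, z m - δ ≤ z' m ∧ 0 < z' i ∧ (∀ k, k ≠ m → z k ≤ z' k) ∧ ∀ k, 0 ≤ z' k := by
  by_cases hi : 0 < z i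
  · exact ⟨z, hz, by linarith, hi, fun k _ => le_rfl, hz0⟩
  · have hi0 : z i = 0 := le_antisymm (not_lt.1 hi) (hz0 i)
    set y : E3 := WithLp.toLp 2 (fun k => if k = m then z m - δ else if k = i then z i + δ else z k)
      with hy
    have hym : y m = z m - δ := by simp [hy]
    have hyi : y i = z i + δ := by simp [hy, hmi.symm]
    have hyk : ∀ k, k ≠ m → k ≠ i → y k = z k := by
      intro k h1 h2; simp [hy, h1, h2]
    refine ⟨y, h.K2 hz hmi hδ.le (by rw [hi0]; linarith) hyk hym hyi, hym.ge, ?_, ?_, ?_⟩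
    · rw [hyi, hi0]; linarith
    · intro k hk
      by_cases hki : k = i
      · rw [hki, hyi]; linarith
      · rw [hyk k hk hki]
    · intro k
      by_cases hkm : k = m
      · rw [hkm, hym]; linarith
      · by_cases hki : k = i
        · rw [hki, hyi, hi0]; linarith
        · rw [hyk k hkm hki]; exact hz0 k

/-- strict star-shapedness of the coincidence set -/
theorem Sol.star (h : Sol τ c) {x : E3} (hx : x ∈ K τ c) (hx0 : x ≠ 0) {t : ℝ} (ht0 : 0 ≤ t)
    (ht1 : t < 1) : t • x ∈ interior (K τ c) := by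
  -- absolute values
  set a : E3 := WithLp.toLp 2 (fun k => |x k|) with ha
  have hak : ∀ k, a k = |x k| := fun k => rfl
  have haK : a ∈ K τ c := h.box hx (fun k => by rw [hak, abs_abs])
  have ha0 : ∀ k, 0 ≤ a k := fun k => by rw [hak]; positivity
  obtain ⟨m, hm⟩ : ∃ m, 0 < a m := by
    by_contra hcon
    push Not at hcon
    apply hx0
    ext k
    have := hcon k
    rw [hak] at this
    simpa using abs_nonpos_iff.1 this
  set δ := (1 - t) * a m / 4 with hδ
  have hδ0 : 0 < δ := by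
    have : 0 < 1 - t := by linarith
    positivity
  have hδm : 4 * δ ≤ a m := by rw [hδ]; nlinarith
  have hm1 : m ≠ m + 1 := by fin_cases m <;> decide
  have hm2 : m ≠ m + 2 := by fin_cases m <;> decide
  have hm12 : m + 1 ≠ m := hm1.symm
  obtain ⟨b, hbK, hbm, hb1, hbk, hb0⟩ := h.step haK ha0 hm1 hδ0 (by linarith)
  obtain ⟨z, hzK, hzm, hz2, hzk, hz0⟩ := h.step hbK hb0 hm2 hδ0 (by linarith)
  have hz : ∀ k, t * |x k| < z k := by
    intro k
    rw [← hak]
    have hcases : k = m ∨ k = m + 1 ∨ k = m + 2 := by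
      fin_cases k <;> fin_cases m <;> decide
    have hgen : ∀ k, k ≠ m → 0 < z k → t * a k < z k := by
      intro k hkm hpos
      have h1 : a k ≤ z k := (hbk k hkm).trans (hzk k hkm)
      rcases (ha0 k).eq_or_lt with h0 | h0
      · rw [← h0, mul_zero]; exact hpos
      · nlinarith
    rcases hcases with hk | hk | hk
    · rw [hk]
      have : z m ≥ a m - 2 * δ := by linarith
      have h3 : t * a m < a m - 2 * δ := by
        rw [hδ]; nlinarith
      linarith
    · rw [hk]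
      exact hgen _ hm12 (hb1.trans_le (hzk _ hm12))
    · rw [hk]
      exact hgen _ hm2.symm hz2
  rw [mem_interior]
  refine ⟨⋂ k : Fin 3, {y : E3 | |y k| < z k}, ?_, ?_, ?_⟩
  · intro y hy
    refine h.box hzK (fun k => ?_)
    have := mem_iInter.1 hy k
    rw [abs_of_nonneg (hz0 k)]
    exact (show |y k| < z k from this).le
  · exact isOpen_iInter_of_finite fun i => isOpen_lt (by fun_prop) continuous_const
  · rw [mem_iInter]
    intro k
    show |(t • x) k| < z k
    rw [PiLp.smul_apply, smul_eq_mul, abs_mul, abs_of_nonneg ht0]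
    exact hz k

end

end Pool.Agent.H283R3.Obs
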