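import Pool.Agent.H283R3.Obs5

open MeasureTheory Set Filter Topology
open scoped ENNReal RealInnerProductSpace Pointwise

namespace Pool.Agent.H283R3.Obs

open Pool.Agent.H283R3.Newt

/-- open bounded sets that are strictly star-shaped about the origin -/
structure Star (W : Set E3) : Prop where
  isOpen : IsOpen W
  bdd : Bornology.IsBounded W
  zero : (0:E3) ∈ W
  star : ∀ x ∈ closure W, ∀ t : ℝ, 0 ≤ t → t < 1 → t • x ∈ W

variable {W : Set E3}

lemma Star.connected (h : Star W) : IsConnected W := by
  have hs : StarConvex ℝ 0 W := by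
    rw [starConvex_zero_iff]
    intro x hx a ha0 ha1
    rcases ha1.eq_or_lt with h1 | h1
    · rw [h1, one_smul]; exact hx
    · exact h.star x (subset_closure hx) a ha0 h1
  exact (hs.isPathConnected h.zero).isConnected

lemma Star.mem_frontier (h : Star W) {x : E3} : x ∈ frontier W ↔ x ∈ closure W ∧ x ∉ W := by
  rw [h.isOpen.frontier_eq]; rfl

lemma Star.homeo (h : Star W) :
    Nonempty (frontier W ≃ₜ Metric.sphere (0 : E3) 1) := by
  have hcomp : CompactSpace (frontier W) := by
    rw [← isCompact_iff_compactSpace]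
    exact Metric.isCompact_of_isClosed_isBounded isClosed_frontier
      (h.bdd.closure.subset frontier_subset_closure)
  have hne : ∀ x : frontier W, (x : E3) ≠ 0 := by
    intro x h0
    have := (h.mem_frontier.1 x.2).2
    rw [h0] at this
    exact this h.zero
  have hpos : ∀ x : frontier W, 0 < ‖(x : E3)‖ := fun x => norm_pos_iff.2 (hne x)
  set φ : frontier W → Metric.sphere (0 : E3) 1 := fun x => ⟨‖(x : E3)‖⁻¹ • (x : E3), by
    rw [mem_sphere_zero_iff_norm, norm_smul, norm_inv, norm_norm, inv_mul_cancel₀ (hpos x).ne']⟩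
    with hφ
  have hcont : Continuous φ := by
    apply Continuous.subtype_mk
    have hc1 : Continuous fun x : frontier W => ‖(x : E3)‖⁻¹ :=
      Continuous.inv₀ (by fun_prop) (fun x => (hpos x).ne')
    exact hc1.smul continuous_subtype_val
  have hinj : Function.Injective φ := by
    have aux : ∀ x y : frontier W, φ x = φ y → ‖(x : E3)‖ ≤ ‖(y : E3)‖ → x = y := by
      intro x y hxy hle
      have h1 : ‖(x : E3)‖⁻¹ • (x : E3) = ‖(y : E3)‖⁻¹ • (y : E3) := congrArg Subtype.val hxy
      have h2 : (x : E3) = (‖(x : E3)‖ / ‖(y : E3)‖) • (y : E3) := by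
        rw [div_eq_mul_inv, ← smul_smul, ← h1, smul_smul, mul_inv_cancel₀ (hpos x).ne', one_smul]
      rcases hle.eq_or_lt with h3 | h3
      · rw [h3, div_self (hpos y).ne', one_smul] at h2
        exact Subtype.ext h2
      · exfalso
        have h4 := h.star y (h.mem_frontier.1 y.2).1 (‖(x : E3)‖ / ‖(y : E3)‖) (by positivity)
          (by rw [div_lt_one (hpos y)]; exact h3)
        rw [← h2] at h4
        exact (h.mem_frontier.1 x.2).2 h4
    intro x y hxy
    rcases le_total ‖(x : E3)‖ ‖(y : E3)‖ with h1 | h1
    · exact aux x y hxy h1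
    · exact (aux y x hxy.symm h1).symm
  have hsurj : Function.Surjective φ := by
    intro u
    have hu : ‖(u : E3)‖ = 1 := by simp
    obtain ⟨M, hM⟩ := h.bdd.closure.subset_closedBall (0:E3)
    set S : Set ℝ := {t | 0 ≤ t ∧ t • (u : E3) ∈ closure W} with hS
    have hSc : IsCompact S := by
      apply Metric.isCompact_of_isClosed_isBounded
      · exact isClosed_Ici.inter (isClosed_closure.preimage (by fun_prop))
      · apply (Metric.isBounded_Icc (0:ℝ) M).subset
        rintro t ⟨ht0, ht⟩
        refine ⟨ht0, ?_⟩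
        have := hM ht
        rw [mem_closedBall_zero_iff, norm_smul, hu, mul_one, Real.norm_of_nonneg ht0] at this
        exact this
    have hSne : S.Nonempty := ⟨0, le_rfl, by rw [zero_smul]; exact subset_closure h.zero⟩
    obtain ⟨t, ⟨ht0, htc⟩, htmax⟩ := hSc.exists_isGreatest hSne
    have hnW : t • (u : E3) ∉ W := by
      intro hW
      obtain ⟨ε, hε, hb⟩ := Metric.isOpen_iff.1 h.isOpen _ hW
      have h1 : (t + ε / 2) • (u : E3) ∈ W := by
        apply hb
        rw [Metric.mem_ball, dist_eq_norm, ← sub_smul, norm_smul, hu, add_sub_cancel_left, mul_one,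
          Real.norm_of_nonneg (by positivity)]
        linarith
      have h2 := htmax (show t + ε / 2 ∈ S from ⟨by positivity, subset_closure h1⟩)
      linarith
    have htpos : 0 < t := by
      rcases ht0.eq_or_lt with h0 | h0
      · exfalso
        apply hnW
        rw [← h0, zero_smul]
        exact h.zero
      · exact h0
    refine ⟨⟨t • (u : E3), h.mem_frontier.2 ⟨htc, hnW⟩⟩, ?_⟩
    apply Subtype.ext
    show ‖t • (u : E3)‖⁻¹ • (t • (u : E3)) = u
    rw [norm_smul, hu, mul_one, Real.norm_of_nonneg ht0, smul_smul, inv_mul_cancel₀ htpos.ne',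
      one_smul]
  exact ⟨Continuous.homeoOfEquivCompactToT2 (f := Equiv.ofBijective φ ⟨hinj, hsurj⟩) hcont⟩

lemma Star.null (h : Star W) : volume (frontier W) = 0 := by
  by_contra hne
  have hpos : 0 < volume (frontier W) := pos_iff_ne_zero.2 hne
  set t : ℕ → ℝ := fun n => 1 - 1 / ((n:ℝ) + 2) with ht
  have ht1 : ∀ n, t n < 1 := fun n => by
    have : 0 < 1 / ((n:ℝ) + 2) := by positivity
    simp only [ht]; linarith
  have ht2 : ∀ n, 1 / 2 ≤ t n := fun n => by
    have : 1 / ((n:ℝ) + 2) ≤ 1 / 2 := by
      apply one_div_le_one_div_of_le (by norm_num)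
      have : (0:ℝ) ≤ n := by positivity
      linarith
    simp only [ht]; linarith
  have hmono : StrictMono t := by
    intro a b hab
    have hab' : (a:ℝ) < b := by exact_mod_cast hab
    have : 1 / ((b:ℝ) + 2) < 1 / ((a:ℝ) + 2) := by
      apply one_div_lt_one_div_of_lt (by positivity)
      linarith
    simp only [ht]; linarith
  have hFm : MeasurableSet (frontier W) := isClosed_frontier.measurableSet
  have hsub : ∀ n, t n • frontier W ⊆ W := by
    rintro n _ ⟨x, hx, rfl⟩
    exact h.star x (h.mem_frontier.1 hx).1 _ (by linarith [ht2 n]) (ht1 n)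
  have hdisj : Pairwise (Function.onFun Disjoint fun n => t n • frontier W) := by
    have aux : ∀ a b, a < b → Disjoint (t a • frontier W) (t b • frontier W) := by
      intro a b hab
      rw [Set.disjoint_left]
      rintro _ ⟨x, hx, rfl⟩ ⟨y, hy, hxy⟩
      have hta : 0 < t a := by linarith [ht2 a]
      have htb : 0 < t b := by linarith [ht2 b]
      have h1 : (t a / t b) • x = y := by
        have h2 : t b • y = t a • x := hxy
        rw [div_eq_inv_mul, ← smul_smul, ← h2, smul_smul, inv_mul_cancel₀ htb.ne', one_smul]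
      have h3 := h.star x (h.mem_frontier.1 hx).1 (t a / t b) (by positivity)
        (by rw [div_lt_one htb]; exact hmono hab)
      rw [h1] at h3
      exact (h.mem_frontier.1 hy).2 h3
    intro a b hab
    rcases lt_or_gt_of_ne hab with h1 | h1
    · exact aux a b h1
    · exact (aux b a h1).symm
  have hfin := Measure.finite_const_le_meas_of_disjoint_iUnion (volume : Measure E3)
    (ε := ENNReal.ofReal (1 / 8) * volume (frontier W))
    (ENNReal.mul_pos (by simp) hne)
    (As := fun n => t n • frontier W) (fun n => hFm.const_smul₀ (t n)) hdisj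
    (((measure_mono (iUnion_subset hsub)).trans_lt h.bdd.measure_lt_top).ne)
  have huniv : {i | ENNReal.ofReal (1 / 8) * volume (frontier W) ≤ volume (t i • frontier W)} =
      univ := by
    rw [eq_univ_iff_forall]
    intro n
    show ENNReal.ofReal (1 / 8) * volume (frontier W) ≤ volume (t n • frontier W)
    rw [Measure.addHaar_smul]
    gcongr
    have h1 := ht2 n
    rw [abs_of_nonneg (by positivity), finrank_euclideanSpace_fin]
    calc (1:ℝ) / 8 = (1 / 2) ^ 3 := by norm_num
      _ ≤ t n ^ 3 := by gcongr
  rw [huniv] at hfin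
  exact Set.infinite_univ hfin

end Pool.Agent.H283R3.Obs
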