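import Pool.Agent.H283R3.Obs6

open MeasureTheory Set Filter Topology
open scoped ENNReal RealInnerProductSpace Pointwise

namespace Pool.Agent.H283R3.Obs

open Pool.Agent.H283R3.Newt

variable {τ : E3 → ℝ}

/-- the level -/
noncomputable def c0 : ℝ := 99 / 50 * Real.pi

lemma c0_pos : 0 < c0 := by unfold c0; have := Real.pi_pos; positivity

lemma Nn_lt {ζ : ℝ} (hζ : 1 ≤ ζ) : Nn (23 / 20) ζ < c0 := by
  have hpi := Real.pi_pos
  unfold Nn c0
  split_ifs with h
  · have hX : (23 / 20 : ℝ) ^ 2 - ζ ^ 2 / 3 ≤ 1187 / 1200 := by nlinarith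
    have h2 : 2 * Real.pi * ((23 / 20 : ℝ) ^ 2 - ζ ^ 2 / 3) ≤ 2 * Real.pi * (1187 / 1200) := by
      gcongr
    linarith
  · rw [div_lt_iff₀ (by linarith)]
    push Not at h
    nlinarith

lemma Sol.K_sub (h : Sol τ c0) : K τ c0 ⊆ Dm := by
  intro x hx
  by_contra hD
  have h1 : 1 ≤ ‖x‖ := by
    by_contra hc
    push Not at hc
    exact hD (ball_sub_Dm (by rwa [mem_ball_zero_iff]))
  have h2 := h.good.V_abs_le (by norm_num : (0:ℝ) < 23 / 20) x
  have h3 := Nn_lt h1
  have h4 : V τ x = c0 := hx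
  rw [h4] at h2
  linarith [le_abs_self c0]

lemma Sol.K_closed (h : Sol τ c0) : IsClosed (K τ c0) :=
  isClosed_eq (h.good.V_cont (by norm_num : (0:ℝ) < 23 / 20)) continuous_const

lemma Sol.exists_ne (h : Sol τ c0) : ∃ x ∈ K τ c0, x ≠ 0 := by
  by_contra hcon
  push Not at hcon
  have hlt : ∀ x : E3, x ≠ 0 → V τ x < c0 := fun x hx =>
    lt_of_le_of_ne (h.le x) (fun he => hx (hcon x he))
  have hne : ∀ᵐ y : E3, y ≠ 0 := by simp [ae_iff]
  have h1 : V τ 0 = ∫ y, Dm.indicator (fun y => (dist (0:E3) y)⁻¹) y := by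
    unfold V
    apply integral_congr_ae
    filter_upwards [h.bang1, hne] with y hy hy0
    rw [hy (hlt y hy0)]
    by_cases hyD : y ∈ Dm
    · rw [indicator_of_mem hyD, indicator_of_mem hyD]; simp
    · rw [indicator_of_notMem hyD, indicator_of_notMem hyD]; simp
  have h2 : 2 * Real.pi ≤ V τ 0 := by
    have h3 := ball_pot one_pos (0:E3) 0
    rw [dist_self, Nn, if_pos one_pos] at h3
    have h4 : ∫ y in Metric.ball (0:E3) 1, (dist (0:E3) y)⁻¹ ≤ ∫ y in Dm, (dist (0:E3) y)⁻¹ := by
      apply setIntegral_mono_set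
      · exact (kern_int (by norm_num : (0:ℝ) < 23 / 20) 0 0).mono_set Dm_sub
      · exact ae_of_all _ fun y => inv_nonneg.2 dist_nonneg
      · exact (ball_sub_Dm).eventuallyLE
    rw [h1, integral_indicator Dm_meas]
    refine le_trans ?_ h4
    rw [h3]
    norm_num
  have h5 := h.le 0
  unfold c0 at h5
  linarith [Real.pi_pos]

lemma Sol.zero_mem (h : Sol τ c0) : (0:E3) ∈ interior (K τ c0) := by
  obtain ⟨x, hx, hx0⟩ := h.exists_ne
  have := h.star hx hx0 le_rfl zero_lt_one
  rwa [zero_smul] at this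

lemma Sol.star_int (h : Sol τ c0) : Star (interior (K τ c0)) := by
  refine ⟨isOpen_interior, ?_, h.zero_mem, ?_⟩
  · exact (Metric.isBounded_ball.subset Dm_sub).subset (interior_subset.trans h.K_sub)
  · intro x hx t ht0 ht1
    have hxK : x ∈ K τ c0 := by
      have := closure_mono interior_subset hx
      rwa [h.K_closed.closure_eq] at this
    by_cases hx0 : x = 0
    · rw [hx0, smul_zero]; exact h.zero_mem
    · exact h.star hxK hx0 ht0 ht1

lemma Sol.closure_int (h : Sol τ c0) : closure (interior (K τ c0)) = K τ c0 := by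
  apply subset_antisymm
  · have := closure_mono (interior_subset : interior (K τ c0) ⊆ K τ c0)
    rwa [h.K_closed.closure_eq] at this
  · intro x hx
    by_cases hx0 : x = 0
    · rw [hx0]; exact subset_closure h.zero_mem
    · have h1 : Tendsto (fun n : ℕ => (1 - 1 / ((n:ℝ) + 1)) • x) atTop (𝓝 x) := by
        have h2 : Tendsto (fun n : ℕ => (1 - 1 / ((n:ℝ) + 1))) atTop (𝓝 (1 - 0)) :=
          tendsto_const_nhds.sub (tendsto_one_div_add_atTop_nhds_zero_nat (𝕜 := ℝ))
        have h3 := h2.smul_const x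
        rwa [sub_zero, one_smul] at h3
      apply mem_closure_of_tendsto h1
      refine Eventually.of_forall fun n => ?_
      have h4 : 0 < 1 / ((n:ℝ) + 1) := by positivity
      have h5 : 1 / ((n:ℝ) + 1) ≤ 1 := by
        rw [div_le_one (by positivity)]
        have : (0:ℝ) ≤ n := by positivity
        linarith
      exact h.star hx hx0 (by linarith) (by linarith)

lemma star_Dm : Star Dm := by
  refine ⟨Dm_open, Metric.isBounded_ball.subset Dm_sub,
    ball_sub_Dm (Metric.mem_ball_self one_pos), ?_⟩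
  intro x hx t ht0 ht1
  obtain ⟨h1, h2⟩ := closure_Dm hx
  exact Dm_smul h1 h2 ht0 ht1

/-- inside the coincidence set the density vanishes -/
lemma Sol.zero_int (h : Sol τ c0) : ∀ᵐ y, y ∈ interior (K τ c0) → τ y = 0 := by
  have hR : (0:ℝ) < 23 / 20 := by norm_num
  rw [ae_iff]
  have hset : {y | ¬ (y ∈ interior (K τ c0) → τ y = 0)} = {y | y ∈ interior (K τ c0) ∧ τ y ≠ 0} := by
    ext y; simp
  rw [hset]
  apply measure_null_of_locally_null
  rintro x ⟨hx, -⟩
  obtain ⟨r, hr, hb⟩ := Metric.isOpen_iff.1 isOpen_interior x hx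
  refine ⟨Metric.ball x r ∩ {y | τ y ≠ 0}, ?_, ?_⟩
  · rw [mem_nhdsWithin]
    exact ⟨Metric.ball x r, Metric.isOpen_ball, Metric.mem_ball_self hr,
      fun y hy => ⟨hy.1, hy.2.2⟩⟩
  · have h1 := h.good.mean_diff hR hr x
    have h2 : ∫ z in Metric.ball x r, V τ z = vb r * c0 := by
      have : ∫ z in Metric.ball x r, V τ z = ∫ z in Metric.ball x r, c0 := by
        apply setIntegral_congr_fun Metric.isOpen_ball.measurableSet
        intro z hz
        have hzK : z ∈ K τ c0 := interior_subset (hb hz)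
        exact hzK
      rw [this, setIntegral_const, measureReal_def, vol_ball hr, ENNReal.toReal_ofReal (vb_pos hr).le,
        smul_eq_mul]
    have h3' : x ∈ K τ c0 := interior_subset hx
    have h3 : V τ x = c0 := h3'
    have h4 : ∫ y, τ y * kr r (dist x y) = 0 := by
      rw [← h1, h2, h3]
      have := (vb_pos hr).ne'
      field_simp
      ring
    have hne : ∀ᵐ y : E3, y ≠ x := by simp [ae_iff]
    have hint : Integrable (fun y => τ y * kr r (dist x y)) := by
      have hi1 := h.good.int_kern hR x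
      have hm : Measurable fun y : E3 => Nn r (dist x y) := by
        unfold Nn
        apply Measurable.ite (measurableSet_lt (by fun_prop) (by fun_prop)) <;> fun_prop
      have hi2 : Integrable (fun y => τ y * (Nn r (dist x y) / vb r)) := by
        refine ((h.good.integrable hR).abs.mul_const (2 * Real.pi * r ^ 2 / vb r)).mono'
          (by have := h.adm.meas; fun_prop) (ae_of_all _ fun y => ?_)
        rw [Real.norm_eq_abs, abs_mul, abs_of_nonneg (div_nonneg (Nn_nonneg hr dist_nonneg)
          (vb_pos hr).le)]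
        have := Nn_le hr (dist_nonneg (x := x) (y := y))
        have := vb_pos hr
        gcongr
      refine (hi1.sub hi2).congr (ae_of_all _ fun y => ?_)
      simp only [Pi.sub_apply, kr]
      ring
    have h5 : (fun y => τ y * kr r (dist x y)) =ᵐ[volume] 0 := by
      rw [← integral_eq_zero_iff_of_nonneg_ae ?_ hint]
      · exact h4
      · filter_upwards [hne] with y hy
        exact mul_nonneg (h.adm.nonneg y) (kr_nonneg hr (dist_pos.2 (Ne.symm hy)))
    have h6 : ∀ᵐ y, ¬ (y ∈ Metric.ball x r ∩ {y | τ y ≠ 0}) := by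
      filter_upwards [h5, hne] with y hy hyx
      rintro ⟨hyb, hy0⟩
      have h7 : τ y * kr r (dist x y) = 0 := hy
      have h8 := kr_pos (dist_pos.2 (Ne.symm hyx)) (by rw [dist_comm]; exact hyb : dist x y < r)
      rcases mul_eq_zero.1 h7 with h9 | h9
      · exact hy0 h9
      · linarith
    rw [ae_iff] at h6
    exact measure_mono_null (fun y hy => not_not.2 hy) h6

/-- the density is the indicator of the shell -/
lemma Sol.ae_eq (h : Sol τ c0) :
    ∀ᵐ y, τ y = (Dm \ K τ c0).indicator 1 y := by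
  have h1 : ∀ᵐ y : E3, y ∉ frontier (interior (K τ c0)) := by
    rw [ae_iff]
    simpa using h.star_int.null
  filter_upwards [h.bang1, h.zero_int, h1] with y hy1 hy2 hy3
  by_cases hyK : y ∈ K τ c0
  · have hyi : y ∈ interior (K τ c0) := by
      by_contra hni
      apply hy3
      rw [h.star_int.mem_frontier]
      refine ⟨?_, hni⟩
      rw [h.closure_int]; exact hyK
    rw [hy2 hyi, indicator_of_notMem]
    intro hh
    exact hh.2 hyK
  · have hlt : V τ y < c0 := lt_of_le_of_ne (h.le y) hyK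
    rw [hy1 hlt]
    by_cases hyD : y ∈ Dm
    · have hyDK : y ∈ Dm \ K τ c0 := ⟨hyD, hyK⟩
      rw [indicator_of_mem hyD, indicator_of_mem hyDK]
    · rw [indicator_of_notMem hyD, indicator_of_notMem (fun hh => hyD hh.1)]

lemma Sol.potential (h : Sol τ c0) {P : E3} (hP : P ∈ interior (K τ c0)) :
    ∫ M in Dm \ closure (interior (K τ c0)), (dist P M)⁻¹ = c0 := by
  have h1' : P ∈ K τ c0 := interior_subset hP
  have h1 : V τ P = c0 := h1'
  have hm : MeasurableSet (Dm \ K τ c0) := Dm_meas.diff h.K_closed.measurableSet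
  rw [h.closure_int, ← integral_indicator hm]
  refine Eq.trans ?_ h1
  unfold V
  apply integral_congr_ae
  filter_upwards [h.ae_eq] with y hy
  rw [hy]
  by_cases hyD : y ∈ Dm \ K τ c0
  · rw [indicator_of_mem hyD, indicator_of_mem hyD]; simp
  · rw [indicator_of_notMem hyD, indicator_of_notMem hyD]; simp

/-- the outer boundary contains a segment, so it is not an affine image of a sphere -/
lemma not_affine (f : E3 ≃ᵃ[ℝ] E3) (h : frontier Dm = f '' Metric.sphere (0:E3) 1) : False := by
  have hmem : ∀ s : ℝ, 0 ≤ s → s ≤ 1 / 2 →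
      (WithLp.toLp 2 ![1, s, 0] : E3) ∈ frontier Dm := by
    intro s hs0 hs1
    rw [star_Dm.mem_frontier]
    constructor
    · have h1 : Tendsto (fun n : ℕ => (1 - 1 / ((n:ℝ) + 1)) • (WithLp.toLp 2 ![1, s, 0] : E3)) atTop
          (𝓝 (WithLp.toLp 2 ![1, s, 0] : E3)) := by
        have h2 : Tendsto (fun n : ℕ => (1 - 1 / ((n:ℝ) + 1))) atTop (𝓝 (1 - 0)) :=
          tendsto_const_nhds.sub (tendsto_one_div_add_atTop_nhds_zero_nat (𝕜 := ℝ))
        have h3 := h2.smul_const (WithLp.toLp 2 ![1, s, 0] : E3)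
        rwa [sub_zero, one_smul] at h3
      apply mem_closure_of_tendsto h1
      refine Eventually.of_forall fun n => ?_
      have h4 : 0 < 1 / ((n:ℝ) + 1) := by positivity
      have h5 : 1 / ((n:ℝ) + 1) ≤ 1 := by
        rw [div_le_one (by positivity)]
        have : (0:ℝ) ≤ n := by positivity
        linarith
      apply Dm_smul _ _ (by linarith) (by linarith)
      · intro i
        fin_cases i
        · simp
        · simp [abs_of_nonneg hs0]; linarith
        · simp
      · have hsq : ‖(WithLp.toLp 2 ![1, s, 0] : E3)‖ ^ 2 ≤ (23 / 20) ^ 2 := by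
          rw [EuclideanSpace.norm_sq_eq, Fin.sum_univ_three]
          simp
          nlinarith
        exact (sq_le_sq₀ (norm_nonneg _) (by norm_num)).1 hsq
    · intro hD
      have := hD.1 0
      simp at this
  set p : E3 := WithLp.toLp 2 ![1, 0, 0] with hp
  set q : E3 := WithLp.toLp 2 ![1, 1 / 2, 0] with hq
  set m : E3 := WithLp.toLp 2 ![1, 1 / 4, 0] with hm
  have hpF : p ∈ frontier Dm := hmem 0 le_rfl (by norm_num)
  have hqF : q ∈ frontier Dm := hmem (1 / 2) (by norm_num) le_rfl
  have hmF : m ∈ frontier Dm := hmem (1 / 4) (by norm_num) (by norm_num)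
  rw [h] at hpF hqF hmF
  obtain ⟨a, ha, hap⟩ := hpF
  obtain ⟨b, hb, hbq⟩ := hqF
  obtain ⟨d, hd, hdm⟩ := hmF
  have hmid : m = midpoint ℝ p q := by
    rw [midpoint_eq_smul_add]
    ext i
    fin_cases i <;> simp [hm, hp, hq] <;> norm_num
  have hdab : d = midpoint ℝ a b := by
    apply f.injective
    rw [hdm, hmid, ← hap, ← hbq]
    exact ((f : E3 →ᵃ[ℝ] E3).map_midpoint a b).symm
  have hab : a ≠ b := by
    intro hab
    rw [hab, hbq] at hap
    have := congrArg (fun x : E3 => x 1) hap
    simp [hp, hq] at this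
  rw [mem_sphere_zero_iff_norm] at ha hb hd
  rw [midpoint_eq_smul_add] at hdab
  have h1 : ‖a + b‖ = 2 := by
    have : ‖d‖ = ‖(⅟2:ℝ) • (a + b)‖ := by rw [hdab]
    rw [hd, norm_smul] at this
    simp at this
    linarith
  have h2 := parallelogram_law_with_norm ℝ a b
  rw [h1, ha, hb] at h2
  have h3 : ‖a - b‖ * ‖a - b‖ = 0 := by linarith
  have h4 : ‖a - b‖ = 0 := by simpa using h3
  exact hab (sub_eq_zero.1 (norm_eq_zero.1 h4))

end Pool.Agent.H283R3.Obs
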