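import Mathlib

open MeasureTheory Filter Topology Set
open scoped ENNReal

namespace Pool.Agent.H283R3.Polar

/-- the Riesz kernel -/
noncomputable def f (s : ℝ) (d : ℝ) : ℝ≥0∞ := (ENNReal.ofReal |d|) ^ (-s)

/-- the polarization constant -/
noncomputable def P (s : ℝ) (K : Set ℝ) (N : ℕ) : ℝ≥0∞ :=
  ⨆ (x : Fin N → ℝ) (_ : ∀ i, x i ∈ K), ⨅ y ∈ K, ∑ j, f s (y - x j)

lemma f_anti {s : ℝ} (hs : 0 ≤ s) {a b : ℝ} (h : |a| ≤ |b|) : f s b ≤ f s a := by
  unfold f
  rw [ENNReal.rpow_neg, ENNReal.rpow_neg, ENNReal.inv_le_inv]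
  exact ENNReal.rpow_le_rpow (ENNReal.ofReal_le_ofReal h) hs

lemma f_scale {s : ℝ} (hs : 0 < s) {c : ℝ} (hc : 0 < c) (d : ℝ) :
    f s (c * d) = (ENNReal.ofReal c) ^ (-s) * f s d := by
  unfold f
  rw [abs_mul, abs_of_pos hc, ENNReal.ofReal_mul hc.le, ENNReal.rpow_neg, ENNReal.rpow_neg,
    ENNReal.rpow_neg, ENNReal.mul_rpow_of_nonneg _ _ hs.le, ENNReal.mul_inv]
  · left
    simp [ENNReal.rpow_eq_zero_iff, hc]
  · left
    exact ENNReal.rpow_ne_top_of_nonneg hs.le ENNReal.ofReal_ne_top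

lemma le_P {s : ℝ} {K : Set ℝ} (hK : K.Nonempty) (m : Multiset ℝ) (hm : ∀ x ∈ m, x ∈ K) (M : ℕ)
    (hc : m.card ≤ M) (B : ℝ≥0∞)
    (h : ∀ y ∈ K, B ≤ (m.map (fun x => f s (y - x))).sum) : B ≤ P s K M := by
  obtain ⟨k0, hk0⟩ := hK
  obtain ⟨l, hl⟩ : ∃ l : List ℝ, (l : Multiset ℝ) = m + Multiset.replicate (M - m.card) k0 :=
    Quotient.exists_rep _
  have hlen : l.length = M := by
    have := congrArg Multiset.card hl
    simp at this
    omega
  subst hlen
  have hmem : ∀ x ∈ l, x ∈ K := by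
    intro x hx
    have : x ∈ (l : Multiset ℝ) := hx
    rw [hl, Multiset.mem_add] at this
    rcases this with h1 | h1
    · exact hm x h1
    · rw [Multiset.eq_of_mem_replicate h1]
      exact hk0
  unfold P
  refine le_iSup_of_le (fun i => l[i.1]) (le_iSup_of_le (fun i => hmem _ (List.getElem_mem _)) ?_)
  refine le_iInf₂ fun y hy => (h y hy).trans ?_
  have h1 : ∑ j : Fin l.length, f s (y - l[j.1]) = (l.map (fun x => f s (y - x))).sum :=
    Fin.sum_univ_fun_getElem l (fun x => f s (y - x))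
  rw [h1]
  have h2 : (l.map (fun x => f s (y - x))).sum
      = ((l : Multiset ℝ).map (fun x => f s (y - x))).sum := by simp
  rw [h2, hl, Multiset.map_add, Multiset.sum_add]
  exact le_self_add

/-! ### Upper bound by contraction of the gaps -/

/-- distribution function of the length of `K` -/
noncomputable def F (K : Set ℝ) (x : ℝ) : ℝ := (volume (K ∩ Iic x)).toReal

section upper
variable {K : Set ℝ} (hK : IsCompact K)
include hK

lemma fin_F (x : ℝ) : volume (K ∩ Iic x) ≠ ⊤ :=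
  ((measure_mono inter_subset_left).trans_lt hK.measure_lt_top).ne

lemma F_mono {x y : ℝ} (h : x ≤ y) : F K x ≤ F K y :=
  ENNReal.toReal_mono (fin_F hK y) (measure_mono (inter_subset_inter_right _ (Iic_subset_Iic.2 h)))

lemma F_sub {x y : ℝ} (h : x ≤ y) : F K y ≤ F K x + (y - x) := by
  have h1 : volume (K ∩ Iic y) ≤ volume (K ∩ Iic x) + volume (Ioc x y) := by
    refine (measure_mono ?_).trans (measure_union_le _ _)
    rintro z ⟨h1, h2⟩
    by_cases h3 : z ≤ x
    · exact Or.inl ⟨h1, h3⟩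
    · exact Or.inr ⟨not_le.1 h3, h2⟩
  rw [Real.volume_Ioc] at h1
  have h2 := ENNReal.toReal_mono (by simp [fin_F hK x]) h1
  rw [ENNReal.toReal_add (fin_F hK x) (by simp), ENNReal.toReal_ofReal (by linarith)] at h2
  exact h2

lemma F_lip (x y : ℝ) : |F K x - F K y| ≤ |x - y| := by
  rcases le_total x y with h | h
  · have h1 := F_mono hK h
    have h2 := F_sub hK h
    rw [abs_of_nonpos (by linarith), abs_of_nonpos (by linarith)]
    linarith
  · have h1 := F_mono hK h
    have h2 := F_sub hK h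
    rw [abs_of_nonneg (by linarith), abs_of_nonneg (by linarith)]
    linarith

lemma F_cont : Continuous (F K) := by
  have : LipschitzWith 1 (F K) := by
    apply LipschitzWith.of_dist_le_mul
    intro x y
    rw [Real.dist_eq, Real.dist_eq]
    simpa using F_lip hK x y
  exact this.continuous

lemma F_surj (h01 : K ⊆ Icc 0 1) (hne : K.Nonempty) {u : ℝ} (hu0 : 0 ≤ u)
    (hu1 : u ≤ (volume K).toReal) : ∃ y ∈ K, F K y = u := by
  have h0 : F K (-1) = 0 := by
    unfold F
    have : K ∩ Iic (-1) = ∅ := by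
      ext z
      simp only [mem_inter_iff, mem_Iic, mem_empty_iff_false, iff_false, not_and]
      intro hz
      have := (h01 hz).1
      linarith
    rw [this]; simp
  have h1 : F K 1 = (volume K).toReal := by
    unfold F
    have : K ∩ Iic 1 = K := by
      ext z
      simp only [mem_inter_iff, mem_Iic, and_iff_left_iff_imp]
      intro hz
      exact (h01 hz).2
    rw [this]
  obtain ⟨z, -, hz⟩ := intermediate_value_Icc (by norm_num : (-1 : ℝ) ≤ 1)
    (F_cont hK).continuousOn (⟨by rw [h0]; exact hu0, by rw [h1]; exact hu1⟩ :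
      u ∈ Icc (F K (-1)) (F K 1))
  rcases (K ∩ Iic z).eq_empty_or_nonempty with he | hn
  · have hu : u = 0 := by
      rw [← hz]; unfold F; rw [he]; simp
    obtain ⟨y, hy⟩ := hK.exists_isLeast hne
    refine ⟨y, hy.1, ?_⟩
    have : K ∩ Iic y = {y} := by
      ext w
      simp only [mem_inter_iff, mem_Iic, mem_singleton_iff]
      constructor
      · rintro ⟨h1, h2⟩
        exact le_antisymm h2 (hy.2 h1)
      · rintro rfl
        exact ⟨hy.1, le_rfl⟩
    unfold F
    rw [this, hu]; simp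
  · obtain ⟨y, hy⟩ := (hK.inter_right isClosed_Iic).exists_isGreatest hn
    refine ⟨y, hy.1.1, ?_⟩
    rw [← hz]
    unfold F
    congr 2
    ext w
    simp only [mem_inter_iff, mem_Iic, and_congr_right_iff]
    intro hw
    constructor
    · intro h
      exact h.trans hy.1.2
    · intro h
      exact hy.2 ⟨hw, h⟩

theorem P_le {s : ℝ} (hs : 0 < s) (h01 : K ⊆ Icc 0 1) (hne : K.Nonempty)
    (hpos : 0 < (volume K).toReal) (N : ℕ) :
    P s K N ≤ (ENNReal.ofReal (volume K).toReal) ^ (-s) * P s (Icc 0 1) N := by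
  set lam := (volume K).toReal with hlam
  set c : ℝ≥0∞ := (ENNReal.ofReal lam) ^ (-s) with hc
  have hc0 : c ≠ 0 := by
    rw [hc, ENNReal.rpow_neg]
    exact ENNReal.inv_ne_zero.2 (ENNReal.rpow_ne_top_of_nonneg hs.le ENNReal.ofReal_ne_top)
  have hct : c ≠ ⊤ := by
    rw [hc, ENNReal.rpow_neg]
    apply ENNReal.inv_ne_top.2
    have : ENNReal.ofReal lam ≠ 0 := by
      rw [Ne, ENNReal.ofReal_eq_zero]; linarith
    exact (ENNReal.rpow_pos (pos_iff_ne_zero.2 this) ENNReal.ofReal_ne_top).ne'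
  have hF1 : ∀ x, F K x ≤ lam := fun x =>
    ENNReal.toReal_mono hK.measure_lt_top.ne (measure_mono inter_subset_left)
  have hF0 : ∀ x, 0 ≤ F K x := fun x => ENNReal.toReal_nonneg
  unfold P
  refine iSup₂_le fun x hx => ?_
  set B := ⨅ y ∈ K, ∑ j, f s (y - x j) with hB
  have key : c⁻¹ * B ≤ ⨅ t ∈ Icc (0:ℝ) 1, ∑ j, f s (t - F K (x j) / lam) := by
    refine le_iInf₂ fun t ht => ?_
    obtain ⟨y, hy, hyt⟩ := F_surj hK h01 hne (mul_nonneg hpos.le ht.1)
      (mul_le_of_le_one_right hpos.le ht.2 : lam * t ≤ lam)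
    have h1 : B ≤ ∑ j, f s (y - x j) := iInf₂_le y hy
    have h2 : ∑ j, f s (y - x j) ≤ ∑ j, f s (lam * (t - F K (x j) / lam)) := by
      apply Finset.sum_le_sum
      intro j _
      apply f_anti hs.le
      have : lam * (t - F K (x j) / lam) = F K y - F K (x j) := by
        rw [hyt]; field_simp
      rw [this]
      exact F_lip hK _ _
    have h3 : ∑ j, f s (lam * (t - F K (x j) / lam)) = c * ∑ j, f s (t - F K (x j) / lam) := by
      rw [Finset.mul_sum]
      exact Finset.sum_congr rfl fun j _ => f_scale hs hpos _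
    calc c⁻¹ * B ≤ c⁻¹ * (c * ∑ j, f s (t - F K (x j) / lam)) := by
          gcongr
          exact h1.trans (h2.trans h3.le)
      _ = _ := by rw [← mul_assoc, ENNReal.inv_mul_cancel hc0 hct, one_mul]
  have key2 : c⁻¹ * B ≤ ⨆ (x : Fin N → ℝ) (_ : ∀ i, x i ∈ Icc (0:ℝ) 1),
      ⨅ y ∈ Icc (0:ℝ) 1, ∑ j, f s (y - x j) := by
    refine key.trans (le_iSup_of_le (fun j => F K (x j) / lam) (le_iSup_of_le ?_ le_rfl))
    intro j
    exact ⟨div_nonneg (hF0 _) hpos.le, (div_le_one hpos).2 (hF1 _)⟩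
  calc B = c * (c⁻¹ * B) := by rw [← mul_assoc, ENNReal.mul_inv_cancel hc0 hct, one_mul]
    _ ≤ _ := by gcongr

end upper

end Pool.Agent.H283R3.Polar
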