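import Pool.Agent.H283R3.Polar1

open MeasureTheory Filter Topology Set
open scoped ENNReal

namespace Pool.Agent.H283R3.Polar

lemma f_meas (s : ℝ) : Measurable (f s) := by
  unfold f
  fun_prop

lemma lint_Ioi {s : ℝ} (hs : 1 < s) {δ : ℝ} (hδ : 0 < δ) :
    ∫⁻ u in Ioi δ, f s u = ENNReal.ofReal (δ ^ (1 - s) / (s - 1)) := by
  have h1 : ∫⁻ u in Ioi δ, f s u = ∫⁻ u in Ioi δ, ENNReal.ofReal (u ^ (-s)) := by
    apply setLIntegral_congr_fun measurableSet_Ioi
    intro u hu
    have hu' : 0 < u := hδ.trans hu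
    simp only [f]
    rw [abs_of_pos hu', ENNReal.ofReal_rpow_of_pos hu']
  rw [h1, ← ofReal_integral_eq_lintegral_ofReal
    (integrableOn_Ioi_rpow_of_lt (by linarith) hδ)]
  · rw [integral_Ioi_rpow_of_lt (by linarith) hδ]
    congr 1
    have : -s + 1 = -(s - 1) := by ring
    rw [this, div_neg, neg_div, neg_neg]
    congr 2
    ring
  · filter_upwards [ae_restrict_mem measurableSet_Ioi] with u hu
    have hu' : 0 < u := hδ.trans hu
    exact Real.rpow_nonneg hu'.le _

lemma f_neg (s u : ℝ) : f s (-u) = f s u := by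
  unfold f; rw [abs_neg]

lemma lint_Iio {s : ℝ} (hs : 1 < s) {δ : ℝ} (hδ : 0 < δ) :
    ∫⁻ u in Iio (-δ), f s u = ENNReal.ofReal (δ ^ (1 - s) / (s - 1)) := by
  rw [← lint_Ioi hs hδ]
  have h := (Measure.measurePreserving_neg (volume : Measure ℝ)).setLIntegral_comp_preimage
    (measurableSet_Ioi (a := δ)) (f_meas s)
  rw [← h]
  have h2 : (Neg.neg ⁻¹' Ioi δ : Set ℝ) = Iio (-δ) := by
    ext x; simp only [mem_preimage, mem_Ioi, mem_Iio]; constructor <;> intro h <;> linarith
  rw [h2]
  exact lintegral_congr fun x => (f_neg s x).symm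

lemma lint_far {s : ℝ} (hs : 1 < s) {δ : ℝ} (hδ : 0 < δ) (a : ℝ) :
    ∫⁻ y in {y : ℝ | δ < |y - a|}, f s (y - a) ≤ ENNReal.ofReal (2 * δ ^ (1 - s) / (s - 1)) := by
  have h := (measurePreserving_sub_right (volume : Measure ℝ) a).setLIntegral_comp_preimage
    (s := {u : ℝ | δ < |u|}) (measurableSet_lt measurable_const (by fun_prop)) (f_meas s)
  have h2 : ((fun x => x - a) ⁻¹' {u : ℝ | δ < |u|}) = {y : ℝ | δ < |y - a|} := rfl
  rw [h2] at h
  rw [h]
  have h3 : {u : ℝ | δ < |u|} ⊆ Iio (-δ) ∪ Ioi δ := by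
    intro u hu
    simp only [mem_ofPred_eq] at hu
    rcases lt_abs.1 hu with h | h
    · exact Or.inr h
    · left; simp only [mem_Iio]; linarith
  calc ∫⁻ u in {u : ℝ | δ < |u|}, f s u ≤ ∫⁻ u in Iio (-δ) ∪ Ioi δ, f s u :=
        lintegral_mono_set h3
    _ ≤ (∫⁻ u in Iio (-δ), f s u) + ∫⁻ u in Ioi δ, f s u := lintegral_union_le _ _ _
    _ = _ := by
        rw [lint_Ioi hs hδ, lint_Iio hs hδ, ← ENNReal.ofReal_add (by
          apply div_nonneg (Real.rpow_nonneg hδ.le _) (by linarith)) (by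
          apply div_nonneg (Real.rpow_nonneg hδ.le _) (by linarith))]
        congr 1; ring

/-- the polarization constants of the unit interval are `O(N^s)` -/
theorem P_fin {s : ℝ} (hs : 1 < s) {N : ℕ} (hN : 1 ≤ N) :
    P s (Icc 0 1) N ≤ ENNReal.ofReal (4 ^ s / (s - 1)) * (N : ℝ≥0∞) ^ s := by
  unfold P
  refine iSup₂_le fun x hx => ?_
  set B := ⨅ y ∈ Icc (0:ℝ) 1, ∑ j, f s (y - x j) with hB
  have hN' : (0:ℝ) < N := by exact_mod_cast hN
  set δ : ℝ := 1 / (4 * N) with hδ
  have hδ0 : 0 < δ := by positivity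
  set G : Set ℝ := Icc 0 1 \ ⋃ j, Icc (x j - δ) (x j + δ) with hG
  have hGm : MeasurableSet G := measurableSet_Icc.diff (MeasurableSet.iUnion fun j => measurableSet_Icc)
  have hvol : ENNReal.ofReal (1/2) ≤ volume G := by
    have h1 : volume (Icc (0:ℝ) 1) - volume (⋃ j, Icc (x j - δ) (x j + δ)) ≤ volume G :=
      le_measure_sdiff
    have h2 : volume (⋃ j, Icc (x j - δ) (x j + δ)) ≤ ENNReal.ofReal (1/2) := by
      calc volume (⋃ j, Icc (x j - δ) (x j + δ)) ≤ ∑ j : Fin N, volume (Icc (x j - δ) (x j + δ)) :=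
            measure_iUnion_fintype_le _ _
        _ = ∑ j : Fin N, ENNReal.ofReal (2 * δ) := by
            apply Finset.sum_congr rfl; intro j _
            rw [Real.volume_Icc]; congr 1; ring
        _ = ENNReal.ofReal (1/2) := by
            rw [Finset.sum_const, Finset.card_univ, Fintype.card_fin, nsmul_eq_mul,
              ← ENNReal.ofReal_natCast, ← ENNReal.ofReal_mul (by positivity)]
            congr 1
            rw [hδ]; field_simp; norm_num
    refine le_trans ?_ h1
    rw [Real.volume_Icc]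
    calc ENNReal.ofReal (1/2) = ENNReal.ofReal (1 - 0) - ENNReal.ofReal (1/2) := by
          rw [← ENNReal.ofReal_sub _ (by norm_num)]; norm_num
      _ ≤ _ := tsub_le_tsub_left h2 _
  have h3 : B * volume G ≤ ∑ j : Fin N, ∫⁻ y in {y : ℝ | δ < |y - x j|}, f s (y - x j) := by
    calc B * volume G = ∫⁻ y in G, B := by rw [setLIntegral_const]
      _ ≤ ∫⁻ y in G, ∑ j, f s (y - x j) := by
          apply setLIntegral_mono' hGm
          intro y hy
          exact iInf₂_le y hy.1
      _ = ∑ j, ∫⁻ y in G, f s (y - x j) := by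
          rw [lintegral_finsetSum]
          intro j _
          exact (f_meas s).comp (measurable_id.sub_const _)
      _ ≤ _ := by
          apply Finset.sum_le_sum
          intro j _
          apply lintegral_mono_set
          intro y hy
          simp only [mem_ofPred_eq]
          by_contra hcon
          push Not at hcon
          apply hy.2
          rw [mem_iUnion]
          refine ⟨j, ?_⟩
          rw [abs_le] at hcon
          constructor <;> linarith [hcon.1, hcon.2]
  have h4 : B * ENNReal.ofReal (1/2) ≤ N * ENNReal.ofReal (2 * δ ^ (1 - s) / (s - 1)) := by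
    calc B * ENNReal.ofReal (1/2) ≤ B * volume G := by gcongr
      _ ≤ _ := h3
      _ ≤ ∑ j : Fin N, ENNReal.ofReal (2 * δ ^ (1 - s) / (s - 1)) :=
          Finset.sum_le_sum fun j _ => lint_far hs hδ0 _
      _ = _ := by rw [Finset.sum_const, Finset.card_univ, Fintype.card_fin, nsmul_eq_mul]
  have h5 : B = (B * ENNReal.ofReal (1/2)) * 2 := by
    rw [mul_assoc]
    have : ENNReal.ofReal (1/2) * 2 = 1 := by
      have : (2 : ℝ≥0∞) = ENNReal.ofReal 2 := by simp
      rw [this, ← ENNReal.ofReal_mul (by norm_num)]; norm_num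
    rw [this, mul_one]
  rw [h5]
  calc (B * ENNReal.ofReal (1/2)) * 2 ≤ (N * ENNReal.ofReal (2 * δ ^ (1 - s) / (s - 1))) * 2 := by
        gcongr
    _ = ENNReal.ofReal (4 ^ s / (s - 1)) * (N : ℝ≥0∞) ^ s := by
        have e1 : (2 : ℝ≥0∞) = ENNReal.ofReal 2 := by simp
        have e2 : (N : ℝ≥0∞) = ENNReal.ofReal N := by simp
        have hs1 : 0 < s - 1 := by linarith
        rw [e1, e2, ENNReal.ofReal_rpow_of_pos hN', ← ENNReal.ofReal_mul hN'.le,
          ← ENNReal.ofReal_mul (by positivity), ← ENNReal.ofReal_mul (by positivity)]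
        congr 1
        have e3 : δ ^ (1 - s) = (4 * N) ^ (s - 1) := by
          rw [hδ, one_div, Real.inv_rpow (by positivity), ← Real.rpow_neg (by positivity)]
          congr 1; ring
        rw [e3, Real.mul_rpow (by norm_num) hN'.le, Real.rpow_sub (by norm_num),
          Real.rpow_sub hN', Real.rpow_one, Real.rpow_one]
        field_simp
        ring

end Pool.Agent.H283R3.Polar
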