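import Pool.Agent.H283R3.Polar2

open MeasureTheory Filter Topology Set
open scoped ENNReal

namespace Pool.Agent.H283R3.Polar

section rep
variable {K : Set ℝ}

open Classical in
/-- representative on the left -/
noncomputable def lo (K : Set ℝ) (p : ℝ) : ℝ :=
  if (K ∩ Iic p).Nonempty then sSup (K ∩ Iic p) else sInf K

open Classical in
/-- representative on the right -/
noncomputable def up (K : Set ℝ) (p : ℝ) : ℝ :=
  if (K ∩ Ici p).Nonempty then sInf (K ∩ Ici p) else sSup K

open Classical in
/-- points replacing `p` -/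
noncomputable def rep (K : Set ℝ) (p : ℝ) : Multiset ℝ :=
  if p ∈ K then {p} else {lo K p, up K p}

lemma lo_mem (hK : IsCompact K) (hne : K.Nonempty) (p : ℝ) : lo K p ∈ K := by
  unfold lo
  split_ifs with h
  · exact ((hK.inter_right isClosed_Iic).sSup_mem h).1
  · exact hK.sInf_mem hne

lemma up_mem (hK : IsCompact K) (hne : K.Nonempty) (p : ℝ) : up K p ∈ K := by
  unfold up
  split_ifs with h
  · exact ((hK.inter_right isClosed_Ici).sInf_mem h).1
  · exact hK.sSup_mem hne

lemma lo_close (hK : IsCompact K) {p y : ℝ} (hy : y ∈ K) (h : y ≤ p) : |y - lo K p| ≤ |y - p| := by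
  have hn : (K ∩ Iic p).Nonempty := ⟨y, hy, h⟩
  have hc := hK.inter_right (isClosed_Iic (a := p))
  have h1 : lo K p ≤ p := by
    unfold lo; rw [if_pos hn]; exact (hc.sSup_mem hn).2
  have h2 : y ≤ lo K p := by
    unfold lo; rw [if_pos hn]; exact le_csSup hc.bddAbove ⟨hy, h⟩
  rw [abs_of_nonpos (by linarith), abs_of_nonpos (by linarith)]
  linarith

lemma up_close (hK : IsCompact K) {p y : ℝ} (hy : y ∈ K) (h : p ≤ y) : |y - up K p| ≤ |y - p| := by
  have hn : (K ∩ Ici p).Nonempty := ⟨y, hy, h⟩
  have hc := hK.inter_right (isClosed_Ici (a := p))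
  have h1 : p ≤ up K p := by
    unfold up; rw [if_pos hn]; exact (hc.sInf_mem hn).2
  have h2 : up K p ≤ y := by
    unfold up; rw [if_pos hn]; exact csInf_le hc.bddBelow ⟨hy, h⟩
  rw [abs_of_nonneg (by linarith), abs_of_nonneg (by linarith)]
  linarith

lemma rep_mem (hK : IsCompact K) (hne : K.Nonempty) (p : ℝ) : ∀ x ∈ rep K p, x ∈ K := by
  intro x hx
  unfold rep at hx
  split_ifs at hx with h
  · simp at hx; rw [hx]; exact h
  · simp at hx
    rcases hx with rfl | rfl
    · exact lo_mem hK hne p
    · exact up_mem hK hne p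

lemma rep_sum (hK : IsCompact K) {s : ℝ} (hs : 0 ≤ s) (p y : ℝ) (hy : y ∈ K) :
    f s (y - p) ≤ ((rep K p).map (fun x => f s (y - x))).sum := by
  unfold rep
  split_ifs with h
  · simp
  · simp only [Multiset.insert_eq_cons, Multiset.map_cons, Multiset.map_singleton,
      Multiset.sum_cons, Multiset.sum_singleton]
    rcases le_total y p with h1 | h1
    · exact (f_anti hs (lo_close hK hy h1)).trans le_self_add
    · exact (f_anti hs (up_close hK hy h1)).trans le_add_self

lemma rep_card (p : ℝ) : ((rep K p).card : ℝ) = 2 - K.indicator (fun _ => (1:ℝ)) p := by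
  unfold rep
  split_ifs with h
  · simp [h]; norm_num
  · simp [h]

end rep

/-- existence of a good translate -/
lemma exists_shift {K : Set ℝ} (hKm : MeasurableSet K) (h01 : K ⊆ Icc 0 1) {N : ℕ} (x : Fin N → ℝ)
    (hx : ∀ i, x i ∈ Icc (0:ℝ) 1) {h : ℝ} (hh : 0 < h) {m : ℕ} (hm : 1 ≤ m * h) :
    ∃ t ∈ Icc (0:ℝ) h, (N : ℝ) * (volume K).toReal / h ≤
      ∑ i, ∑ k ∈ Finset.range (m + 1), K.indicator (fun _ => (1:ℝ)) (t + (k - 1) * h + h * x i) := by
  classical
  have hmono : ∀ a b : ℝ, IntervalIntegrable (K.indicator (fun _ => (1:ℝ))) volume a b := by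
    intro a b
    refine (intervalIntegrable_const (c := (1:ℝ))).mono_fun ?_ ?_
    · exact (measurable_const.indicator hKm).aestronglyMeasurable
    · refine Eventually.of_forall fun z => ?_
      by_cases hz : z ∈ K <;> simp [hz]
  set Φ : ℝ → ℝ := fun t => ∑ i, ∑ k ∈ Finset.range (m + 1),
    K.indicator (fun _ => (1:ℝ)) (t + (k - 1) * h + h * x i) with hΦ
  have hint : ∀ (i : Fin N) (k : ℕ), IntervalIntegrable
      (fun t => K.indicator (fun _ => (1:ℝ)) (t + (k - 1) * h + h * x i)) volume 0 h := by
    intro i k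
    have := (hmono (0 + ((k - 1) * h + h * x i)) (h + ((k - 1) * h + h * x i))).comp_add_right
      ((k - 1) * h + h * x i)
    simpa [add_assoc] using this
  have hint2 : ∀ i : Fin N, IntervalIntegrable (fun t => ∑ k ∈ Finset.range (m + 1),
      K.indicator (fun _ => (1:ℝ)) (t + (k - 1) * h + h * x i)) volume 0 h := by
    intro i
    have := IntervalIntegrable.sum (Finset.range (m+1)) fun k _ => hint i k
    have e : (∑ k ∈ Finset.range (m + 1), fun t : ℝ =>
        K.indicator (fun _ => (1:ℝ)) (t + ((k:ℝ) - 1) * h + h * x i)) = (fun t => ∑ k ∈ Finset.range (m + 1),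
        K.indicator (fun _ => (1:ℝ)) (t + (k - 1) * h + h * x i)) := by
      ext t; simp
    rw [e] at this
    exact this
  have hval : ∫ t in (0:ℝ)..h, Φ t = N * (volume K).toReal := by
    rw [hΦ]
    rw [intervalIntegral.integral_finsetSum]
    swap
    · intro i _
      exact hint2 i
    have : ∀ i ∈ (Finset.univ : Finset (Fin N)), ∫ t in (0:ℝ)..h, ∑ k ∈ Finset.range (m + 1),
        K.indicator (fun _ => (1:ℝ)) (t + (k - 1) * h + h * x i) = (volume K).toReal := by
      intro i _
      rw [intervalIntegral.integral_finsetSum fun k _ => hint i k]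
      have h1 : ∀ k ∈ Finset.range (m+1), ∫ t in (0:ℝ)..h,
          K.indicator (fun _ => (1:ℝ)) (t + ((k:ℝ) - 1) * h + h * x i) =
          ∫ t in (((k:ℝ) - 1) * h + h * x i)..(((k+1:ℕ):ℝ) - 1) * h + h * x i,
            K.indicator (fun _ => (1:ℝ)) t := by
        intro k _
        have := intervalIntegral.integral_comp_add_right (a := 0) (b := h)
          (K.indicator (fun _ => (1:ℝ))) (((k:ℝ) - 1) * h + h * x i)
        rw [zero_add] at this
        have e : h + (((k:ℝ) - 1) * h + h * x i) = (((k+1:ℕ):ℝ) - 1) * h + h * x i := by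
          push_cast; ring
        rw [e] at this
        rw [← this]
        congr 1; ext t; congr 1; ring
      rw [Finset.sum_congr rfl h1]
      rw [intervalIntegral.sum_integral_adjacent_intervals
        (a := fun k : ℕ => ((k:ℝ) - 1) * h + h * x i) (fun k _ => hmono _ _)]
      simp only [Nat.cast_zero, zero_sub]
      have hle : -1 * h + h * x i ≤ ((m + 1 : ℕ) : ℝ) * h - h + h * x i := by
        push_cast; nlinarith
      have e2 : (((m + 1 : ℕ) : ℝ) - 1) * h + h * x i = m * h + h * x i := by push_cast; ring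
      rw [e2, intervalIntegral.integral_of_le (by push_cast at hle; nlinarith)]
      rw [integral_indicator hKm]
      simp only [integral_const, MeasurableSet.univ, measureReal_restrict_apply, univ_inter,
        smul_eq_mul, mul_one]
      rw [measureReal_def, Measure.restrict_apply hKm]
      congr 1
      apply measure_congr
      have hx0 := (hx i).1
      have hx1 := (hx i).2
      have hsub : K ∩ Ioc (-1 * h + h * x i) (m * h + h * x i) ⊆ K := inter_subset_left
      have hsup : K ⊆ (K ∩ Ioc (-1 * h + h * x i) (m * h + h * x i)) ∪ {0} := by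
        intro z hz
        by_cases hz0 : z = 0
        · right; exact hz0
        · left
          have h2 := h01 hz
          have h3 : 0 < z := lt_of_le_of_ne h2.1 (Ne.symm hz0)
          exact ⟨hz, by nlinarith, by nlinarith [h2.2]⟩
      apply (ae_eq_set (μ := volume)).2
      constructor
      · rw [sdiff_eq_empty.2 hsub]; simp
      · refine measure_mono_null (t := {0}) ?_ (by simp)
        rintro z ⟨hz1, hz2⟩
        rcases hsup hz1 with h | h
        · exact absurd h hz2
        · exact h
    rw [Finset.sum_congr rfl this]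
    simp
  have hIO : IntegrableOn Φ (Icc 0 h) volume := by
    rw [← intervalIntegrable_iff_integrableOn_Icc_of_le hh.le]
    have := IntervalIntegrable.sum Finset.univ fun i _ => hint2 i
    have e : (∑ i : Fin N, fun t : ℝ => ∑ k ∈ Finset.range (m + 1),
        K.indicator (fun _ => (1:ℝ)) (t + ((k:ℝ) - 1) * h + h * x i)) = Φ := by
      ext t; simp [hΦ]
    rw [e] at this
    exact this
  obtain ⟨t, ht, hle⟩ := exists_setAverage_le (μ := (volume : Measure ℝ)) (s := Icc 0 h)
    (by simp [hh]) (by simp) hIO
  refine ⟨t, ht, ?_⟩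
  rw [setAverage_eq, measureReal_def, Real.volume_Icc, sub_zero, ENNReal.toReal_ofReal hh.le,
    integral_Icc_eq_integral_Ioc, ← intervalIntegral.integral_of_le hh.le, hval, smul_eq_mul] at hle
  calc (N : ℝ) * (volume K).toReal / h = h⁻¹ * (N * (volume K).toReal) := by ring
    _ ≤ _ := hle

end Pool.Agent.H283R3.Polar
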