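import Pool.Agent.H283R3.Polar3

open MeasureTheory Filter Topology Set
open scoped ENNReal

namespace Pool.Agent.H283R3.Polar

lemma msum_map {ι : Type*} (S : Finset ι) (g : ℝ → ℝ≥0∞) (R : ι → Multiset ℝ) :
    ((∑ k ∈ S, R k).map g).sum = ∑ k ∈ S, ((R k).map g).sum := by
  classical
  induction S using Finset.induction_on with
  | empty => simp
  | insert a s ha ih => rw [Finset.sum_insert ha, Finset.sum_insert ha, Multiset.map_add,
      Multiset.sum_add, ih]

lemma exists_config {K : Set ℝ} (hK : IsCompact K) (hne : K.Nonempty) (h01 : K ⊆ Icc 0 1)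
    {s : ℝ} (hs : 0 < s) {N : ℕ} (x : Fin N → ℝ) (hx : ∀ i, x i ∈ Icc (0:ℝ) 1) (A : ℝ≥0∞)
    (hA : ∀ y ∈ Icc (0:ℝ) 1, A ≤ ∑ j, f s (y - x j)) {h : ℝ} (hh : 0 < h) :
    ∃ m : Multiset ℝ, (∀ z ∈ m, z ∈ K) ∧
      (m.card : ℝ) ≤ N * (2 * (volume (Metric.cthickening h K)).toReal - (volume K).toReal) / h ∧
      ∀ y ∈ K, (ENNReal.ofReal h) ^ (-s) * A ≤ (m.map (fun z => f s (y - z))).sum := by
  classical
  set m0 : ℕ := ⌈1 / h⌉₊ + 1 with hm0
  have hm0h : 1 + h ≤ m0 * h := by
    have : 1 / h ≤ (⌈1 / h⌉₊ : ℝ) := Nat.le_ceil _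
    have h2 : 1 ≤ (⌈1 / h⌉₊ : ℝ) * h := by
      calc 1 = (1 / h) * h := by field_simp
        _ ≤ _ := by gcongr
    rw [hm0]; push_cast; linarith
  obtain ⟨t, ht, hcount⟩ := exists_shift hK.measurableSet h01 x hx hh (m := m0) (by linarith)
  set p : ℕ → Fin N → ℝ := fun k i => t + ((k:ℝ) - 1) * h + h * x i with hp
  set S : Finset ℕ := (Finset.range (m0 + 1)).filter
    (fun k => ∃ z ∈ K, z ∈ Icc (t + ((k:ℝ) - 1) * h) (t + (k:ℝ) * h)) with hS
  have hSvol : (S.card : ℝ) * h ≤ (volume (Metric.cthickening h K)).toReal := by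
    have hfin : volume (Metric.cthickening h K) ≠ ⊤ :=
      (hK.isBounded.cthickening.measure_lt_top).ne
    have h1 : volume (⋃ k ∈ S, Ico (t + ((k:ℝ) - 1) * h) (t + (k:ℝ) * h)) =
        ∑ k ∈ S, volume (Ico (t + ((k:ℝ) - 1) * h) (t + (k:ℝ) * h)) := by
      apply measure_biUnion_finset
      · intro a _ b _ hab
        show Disjoint (Ico (t + ((a:ℝ) - 1) * h) (t + (a:ℝ) * h)) (Ico (t + ((b:ℝ) - 1) * h) (t + (b:ℝ) * h))
        rw [Set.disjoint_left]
        rintro z ⟨h1, h2⟩ ⟨h3, h4⟩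
        rcases lt_or_gt_of_ne hab with hlt | hlt
        · have : (a:ℝ) + 1 ≤ b := by exact_mod_cast hlt
          nlinarith
        · have : (b:ℝ) + 1 ≤ a := by exact_mod_cast hlt
          nlinarith
      · intro b _; exact measurableSet_Ico
    have h2 : (⋃ k ∈ S, Ico (t + ((k:ℝ) - 1) * h) (t + (k:ℝ) * h)) ⊆ Metric.cthickening h K := by
      intro w hw
      simp only [mem_iUnion] at hw
      obtain ⟨k, hk, hw1, hw2⟩ := hw
      rw [hS, Finset.mem_filter] at hk
      obtain ⟨-, z, hz, hz1, hz2⟩ := hk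
      apply Metric.mem_cthickening_of_dist_le w z h K hz
      rw [Real.dist_eq, abs_le]
      constructor <;> nlinarith
    have h3 := measure_mono (μ := volume) h2
    rw [h1] at h3
    have h4 : ∑ k ∈ S, volume (Ico (t + ((k:ℝ) - 1) * h) (t + (k:ℝ) * h)) =
        ENNReal.ofReal (S.card * h) := by
      rw [Finset.sum_congr rfl (g := fun _ => ENNReal.ofReal h)]
      · rw [Finset.sum_const, nsmul_eq_mul, ENNReal.ofReal_mul (by positivity)]
        simp
      · intro k _
        rw [Real.volume_Ico]; congr 1; ring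
    rw [h4] at h3
    have h5 := ENNReal.toReal_mono hfin h3
    rwa [ENNReal.toReal_ofReal (by positivity)] at h5
  refine ⟨∑ k ∈ S, ∑ i, rep K (p k i), ?_, ?_, ?_⟩
  · intro z hz
    rw [Multiset.mem_sum] at hz
    obtain ⟨k, -, hz⟩ := hz
    rw [Multiset.mem_sum] at hz
    obtain ⟨i, -, hz⟩ := hz
    exact rep_mem hK hne _ z hz
  · have h1 : (((∑ k ∈ S, ∑ i, rep K (p k i)).card : ℕ) : ℝ) =
        ∑ k ∈ S, ∑ i, (2 - K.indicator (fun _ => (1:ℝ)) (p k i)) := by
      rw [Multiset.card_sum]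
      push_cast
      refine Finset.sum_congr rfl fun k _ => ?_
      rw [Multiset.card_sum]
      push_cast
      exact Finset.sum_congr rfl fun i _ => rep_card _
    rw [h1]
    have h2 : ∑ k ∈ S, ∑ i, (2 - K.indicator (fun _ => (1:ℝ)) (p k i)) =
        2 * N * S.card - ∑ k ∈ S, ∑ i, K.indicator (fun _ => (1:ℝ)) (p k i) := by
      simp only [Finset.sum_sub_distrib, Finset.sum_const, Finset.card_univ, Fintype.card_fin,
        nsmul_eq_mul]
      ring
    have h3 : ∑ k ∈ S, ∑ i, K.indicator (fun _ => (1:ℝ)) (p k i) =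
        ∑ i, ∑ k ∈ Finset.range (m0 + 1), K.indicator (fun _ => (1:ℝ)) (p k i) := by
      rw [Finset.sum_comm]
      refine Finset.sum_congr rfl fun i _ => ?_
      apply Finset.sum_subset (Finset.filter_subset _ _)
      intro k hk hkS
      apply indicator_of_notMem
      intro hpk
      apply hkS
      rw [Finset.mem_filter]
      refine ⟨hk, p k i, hpk, ?_, ?_⟩
      · simp only [hp]; nlinarith [(hx i).1]
      · simp only [hp]; nlinarith [(hx i).2]
    rw [h2, h3]
    have h4 : 2 * (N:ℝ) * S.card ≤ 2 * N * ((volume (Metric.cthickening h K)).toReal / h) := by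
      gcongr
      rwa [le_div_iff₀ hh]
    have h5 : (N:ℝ) * (2 * (volume (Metric.cthickening h K)).toReal - (volume K).toReal) / h =
      2 * N * ((volume (Metric.cthickening h K)).toReal / h) - N * (volume K).toReal / h := by
      ring
    rw [h5]
    linarith
  · intro y hy
    have hy01 := h01 hy
    rw [msum_map]
    have h0 : ∀ k, ((∑ i, rep K (p k i)).map (fun z => f s (y - z))).sum =
        ∑ i, ((rep K (p k i)).map (fun z => f s (y - z))).sum := fun k => msum_map _ _ _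
    simp only [h0]
    -- the cell of y
    obtain ⟨k, hk⟩ : ∃ k : ℕ, (k : ℤ) = ⌊(y - t) / h⌋ + 1 := by
      apply Int.eq_ofNat_of_zero_le _ |>.imp
      · intro a ha; exact ha.symm
      · have : (-1 : ℤ) ≤ ⌊(y - t) / h⌋ := by
          rw [Int.le_floor]
          push_cast
          rw [le_div_iff₀ hh]
          linarith [ht.2, hy01.1]
        linarith
    have hk' : (k:ℝ) = ⌊(y - t) / h⌋ + 1 := by exact_mod_cast hk
    have hfl := Int.floor_le ((y - t) / h)
    have hfl2 := Int.lt_floor_add_one ((y - t) / h)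
    have e1 : t + ((k:ℝ) - 1) * h ≤ y := by
      rw [hk']
      have := (le_div_iff₀ hh).1 hfl
      linarith
    have e2 : y < t + (k:ℝ) * h := by
      rw [hk']
      have := (div_lt_iff₀ hh).1 hfl2
      linarith
    have hkm : k < m0 + 1 := by
      have : ((k:ℝ) - 1) * h < m0 * h := by linarith [ht.1, hy01.2]
      have h3 := lt_of_mul_lt_mul_right this hh.le
      have : (k:ℝ) < m0 + 1 := by linarith
      exact_mod_cast this
    have hkS : k ∈ S := by
      rw [hS, Finset.mem_filter]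
      exact ⟨Finset.mem_range.2 hkm, y, hy, e1, e2.le⟩
    have h1 : ∑ i, ((rep K (p k i)).map (fun z => f s (y - z))).sum ≤
      ∑ k ∈ S, ∑ i, ((rep K (p k i)).map (fun z => f s (y - z))).sum :=
      Finset.single_le_sum (f := fun k => ∑ i, ((rep K (p k i)).map (fun z => f s (y - z))).sum)
        (fun _ _ => bot_le) hkS
    refine le_trans ?_ h1
    have h2 : ∑ i, f s (y - p k i) ≤ ∑ i, ((rep K (p k i)).map (fun z => f s (y - z))).sum :=
      Finset.sum_le_sum fun i _ => rep_sum hK hs.le _ _ hy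
    refine le_trans ?_ h2
    set y' : ℝ := (y - (t + ((k:ℝ) - 1) * h)) / h with hy'
    have hy'I : y' ∈ Icc (0:ℝ) 1 := by
      constructor
      · apply div_nonneg _ hh.le; linarith
      · rw [hy', div_le_one hh]; linarith
    have h3 : ∀ i, f s (y - p k i) = (ENNReal.ofReal h) ^ (-s) * f s (y' - x i) := by
      intro i
      rw [← f_scale hs hh]
      congr 1
      simp only [hp, hy']
      field_simp
      ring
    simp only [h3]
    rw [← Finset.mul_sum]
    gcongr
    exact hA y' hy'I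

theorem tendsto_P {K : Set ℝ} (hK : IsCompact K) (hne : K.Nonempty) (h01 : K ⊆ Icc 0 1)
    (hvol : 0 < volume K) {s : ℝ} (hs : 1 < s) :
    ∃ L : ℝ≥0∞, L ≠ ⊤ ∧ Tendsto (fun N : ℕ => P s K N / (N : ℝ≥0∞) ^ s) atTop (𝓝 L) := by
  have hs0 : 0 < s := by linarith
  set lam := (volume K).toReal with hlam
  have hlam0 : 0 < lam := ENNReal.toReal_pos hvol.ne' hK.measure_lt_top.ne
  set c : ℝ≥0∞ := (ENNReal.ofReal lam) ^ (-s) with hc
  set L0 : ℝ≥0∞ := ⨆ (N : ℕ) (_ : 1 ≤ N), P s (Icc 0 1) N / (N : ℝ≥0∞) ^ s with hL0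
  have hct : c ≠ ⊤ := by
    rw [hc, ENNReal.rpow_neg]
    apply ENNReal.inv_ne_top.2
    have : ENNReal.ofReal lam ≠ 0 := by
      rw [Ne, ENNReal.ofReal_eq_zero]; linarith
    exact (ENNReal.rpow_pos (pos_iff_ne_zero.2 this) ENNReal.ofReal_ne_top).ne'
  have hNs : ∀ N : ℕ, 1 ≤ N → (N : ℝ≥0∞) ^ s ≠ 0 ∧ (N : ℝ≥0∞) ^ s ≠ ⊤ := by
    intro N hN
    constructor
    · have : (N : ℝ≥0∞) ≠ 0 := by
        simp; omega
      exact (ENNReal.rpow_pos (pos_iff_ne_zero.2 this) (by simp)).ne'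
    · exact ENNReal.rpow_ne_top_of_nonneg hs0.le (by simp)
  have hL0t : L0 ≠ ⊤ := by
    have : L0 ≤ ENNReal.ofReal (4 ^ s / (s - 1)) := by
      refine iSup₂_le fun N hN => ?_
      rw [ENNReal.div_le_iff (hNs N hN).1 (hNs N hN).2]
      exact P_fin hs hN
    exact (this.trans_lt ENNReal.ofReal_lt_top).ne
  refine ⟨c * L0, ENNReal.mul_ne_top hct hL0t, ?_⟩
  rw [tendsto_order]
  constructor
  · intro b hb
    rw [hL0, ENNReal.mul_iSup] at hb
    obtain ⟨N, hb⟩ := lt_iSup_iff.1 hb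
    rw [ENNReal.mul_iSup] at hb
    obtain ⟨hN, hb⟩ := lt_iSup_iff.1 hb
    have hb' : b < c * ((N : ℝ≥0∞) ^ s)⁻¹ * P s (Icc 0 1) N := by
      rwa [div_eq_mul_inv, mul_comm (P s _ N), ← mul_assoc] at hb
    unfold P at hb'
    rw [ENNReal.mul_iSup] at hb'
    obtain ⟨x, hb'⟩ := lt_iSup_iff.1 hb'
    rw [ENNReal.mul_iSup] at hb'
    obtain ⟨hx, hb'⟩ := lt_iSup_iff.1 hb'
    set A := ⨅ y ∈ Icc (0:ℝ) 1, ∑ j, f s (y - x j) with hA
    have hAt : A ≠ ⊤ := by
      have h1 : A ≤ P s (Icc 0 1) N := by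
        unfold P
        exact le_iSup_of_le x (le_iSup_of_le hx le_rfl)
      refine (h1.trans_lt ((P_fin hs hN).trans_lt ?_)).ne
      exact ENNReal.mul_lt_top ENNReal.ofReal_lt_top (lt_top_iff_ne_top.2 (hNs N hN).2)
    have hN0 : (0:ℝ) < N := by exact_mod_cast hN
    -- choose ε
    have hcont : Tendsto (fun e : ℝ => (ENNReal.ofReal (lam + e)) ^ (-s) * (((N : ℝ≥0∞) ^ s)⁻¹ * A))
        (𝓝[>] 0) (𝓝 (c * (((N : ℝ≥0∞) ^ s)⁻¹ * A))) := by
      apply ENNReal.Tendsto.mul_const
      · have h1 : Tendsto (fun e : ℝ => lam + e) (𝓝[>] 0) (𝓝 lam) := by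
          have : Tendsto (fun e : ℝ => lam + e) (𝓝 0) (𝓝 (lam + 0)) := by
            exact (continuous_const.add continuous_id).tendsto 0
          rw [add_zero] at this
          exact this.mono_left nhdsWithin_le_nhds
        exact ((ENNReal.continuous_rpow_const (y := -s)).tendsto _).comp
          ((ENNReal.continuous_ofReal.tendsto _).comp h1)
      · right
        exact ENNReal.mul_ne_top (ENNReal.inv_ne_top.2 (hNs N hN).1) hAt
    rw [mul_assoc] at hb'
    obtain ⟨ε, hbε, hε⟩ := ((hcont.eventually (lt_mem_nhds hb')).and self_mem_nhdsWithin).exists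
    have hε : 0 < ε := hε
    -- small h
    have hth : Tendsto (fun h : ℝ => (volume (Metric.cthickening h K)).toReal) (𝓝 0) (𝓝 lam) :=
      (ENNReal.tendsto_toReal hK.measure_lt_top.ne).comp
        (tendsto_measure_cthickening_of_isCompact hK)
    have hev : ∀ᶠ h in 𝓝 (0:ℝ), 2 * (volume (Metric.cthickening h K)).toReal - lam < lam + ε := by
      have : Tendsto (fun h : ℝ => 2 * (volume (Metric.cthickening h K)).toReal - lam) (𝓝 0)
          (𝓝 (2 * lam - lam)) := (hth.const_mul 2).sub_const _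
      exact this.eventually (gt_mem_nhds (by linarith))
    have hM : Tendsto (fun M : ℕ => (N:ℝ) * (lam + ε) / M) atTop (𝓝 0) :=
      tendsto_const_div_atTop_nhds_zero_nat _
    filter_upwards [hM.eventually hev, eventually_ge_atTop 1] with M hMh hM1
    have hM0 : (0:ℝ) < M := by exact_mod_cast hM1
    set h : ℝ := (N:ℝ) * (lam + ε) / M with hh
    have hhp : 0 < h := by positivity
    obtain ⟨m, hm1, hm2, hm3⟩ := exists_config hK hne h01 hs0 x hx A
      (fun y hy => iInf₂_le y hy) hhp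
    have hcard : m.card ≤ M := by
      have : (m.card : ℝ) ≤ M := by
        calc (m.card : ℝ) ≤ _ := hm2
          _ ≤ N * (lam + ε) / h := by gcongr
          _ = M := by rw [hh]; field_simp
      exact_mod_cast this
    have hP := le_P hne m hm1 M hcard _ hm3
    calc b < _ := hbε
      _ = ((ENNReal.ofReal h) ^ (-s) * A) / (M : ℝ≥0∞) ^ s := by
          have e1 : ENNReal.ofReal h = ENNReal.ofReal N * ENNReal.ofReal (lam + ε) * (ENNReal.ofReal M)⁻¹ := by
            rw [← ENNReal.ofReal_inv_of_pos hM0, ← ENNReal.ofReal_mul (by positivity),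
              ← ENNReal.ofReal_mul (by positivity)]
            congr 1
          have e2 : (ENNReal.ofReal h) ^ (-s) = ((N:ℝ≥0∞) ^ s)⁻¹ * (ENNReal.ofReal (lam + ε)) ^ (-s) *
              (M : ℝ≥0∞) ^ s := by
            rw [hh]
            have n1 : (N : ℝ≥0∞) = ENNReal.ofReal N := by simp
            have n2 : (M : ℝ≥0∞) = ENNReal.ofReal M := by simp
            rw [n1, n2, ENNReal.ofReal_rpow_of_pos (by positivity), ENNReal.ofReal_rpow_of_pos hN0,
              ENNReal.ofReal_rpow_of_pos (by positivity), ENNReal.ofReal_rpow_of_pos hM0,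
              ← ENNReal.ofReal_inv_of_pos (by positivity), ← ENNReal.ofReal_mul (by positivity),
              ← ENNReal.ofReal_mul (by positivity)]
            congr 1
            rw [Real.div_rpow (by positivity) hM0.le, Real.mul_rpow hN0.le (by positivity),
              Real.rpow_neg hN0.le, Real.rpow_neg hM0.le]
            field_simp
          rw [e2, div_eq_mul_inv]
          have hMs := hNs M hM1
          calc (ENNReal.ofReal (lam + ε)) ^ (-s) * (((N:ℝ≥0∞) ^ s)⁻¹ * A)
              = ((N:ℝ≥0∞) ^ s)⁻¹ * (ENNReal.ofReal (lam + ε)) ^ (-s) * A * 1 := by ring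
            _ = ((N:ℝ≥0∞) ^ s)⁻¹ * (ENNReal.ofReal (lam + ε)) ^ (-s) * A *
                ((M : ℝ≥0∞) ^ s * ((M : ℝ≥0∞) ^ s)⁻¹) := by
                rw [ENNReal.mul_inv_cancel hMs.1 hMs.2]
            _ = _ := by ring
      _ ≤ _ := by gcongr
  · intro b hb
    filter_upwards [eventually_ge_atTop 1] with M hM1
    refine lt_of_le_of_lt ?_ hb
    have h1 := P_le hK hs0 h01 hne hlam0 M
    calc P s K M / (M:ℝ≥0∞)^s ≤ (c * P s (Icc 0 1) M) / (M:ℝ≥0∞)^s := by gcongr
      _ = c * (P s (Icc 0 1) M / (M:ℝ≥0∞)^s) := by rw [mul_div_assoc]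
      _ ≤ c * L0 := by
          gcongr
          exact le_iSup₂_of_le M hM1 le_rfl

end Pool.Agent.H283R3.Polar
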