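import Mathlib

open Set Filter Topology

namespace Pool.Agent.H283R3.Tre

/-- contraction ratio -/
noncomputable def l : ℝ := 1 / 1000

lemma l_pos : 0 < l := by unfold l; norm_num
lemma l_le : l ≤ 1 / 1000 := le_refl _

abbrev Th := List Bool → ℝ

/-- subtree -/
def sub (θ : Th) (b : Bool) : Th := fun v => θ (b :: v)

/-- leaf position -/
noncomputable def pos : List Bool → Th → ℝ
  | [], _ => 0
  | b :: w, θ => (if b then Real.exp (θ []) else 0) + l * pos w (sub θ b)

/-- averages over words of length `s` -/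
noncomputable def A : ℕ → (List Bool → ℝ) → ℝ
  | 0, F => F []
  | s + 1, F => (A s (fun w => F (false :: w)) + A s (fun w => F (true :: w))) / 2

lemma A_mono {s : ℕ} {F G : List Bool → ℝ} (h : ∀ w, w.length = s → F w ≤ G w) :
    A s F ≤ A s G := by
  induction s generalizing F G with
  | zero => exact h [] rfl
  | succ s ih =>
    have h1 := ih (F := fun w => F (false :: w)) (G := fun w => G (false :: w))
      (fun w hw => h _ (by simp [hw]))
    have h2 := ih (F := fun w => F (true :: w)) (G := fun w => G (true :: w))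
      (fun w hw => h _ (by simp [hw]))
    simp only [A]
    linarith

lemma A_congr {s : ℕ} {F G : List Bool → ℝ} (h : ∀ w, w.length = s → F w = G w) :
    A s F = A s G :=
  le_antisymm (A_mono fun w hw => (h w hw).le) (A_mono fun w hw => (h w hw).ge)

lemma A_add (s : ℕ) (F G : List Bool → ℝ) : A s (fun w => F w + G w) = A s F + A s G := by
  induction s generalizing F G with
  | zero => rfl
  | succ s ih => simp only [A, ih]; ring

lemma A_smul (s : ℕ) (k : ℝ) (F : List Bool → ℝ) : A s (fun w => k * F w) = k * A s F := by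
  induction s generalizing F with
  | zero => rfl
  | succ s ih => simp only [A, ih]; ring

lemma A_const (s : ℕ) (k : ℝ) : A s (fun _ => k) = k := by
  induction s with
  | zero => rfl
  | succ s ih => simp only [A, ih]; ring

lemma A_sub (s : ℕ) (F G : List Bool → ℝ) : A s (fun w => F w - G w) = A s F - A s G := by
  have h := A_add s F (fun w => (-1) * G w)
  rw [A_smul] at h
  have : (fun w => F w - G w) = fun w => F w + (-1) * G w := by ext w; ring
  rw [this, h]; ring

lemma A_abs_le {s : ℕ} {F : List Bool → ℝ} {C : ℝ} (h : ∀ w, w.length = s → |F w| ≤ C) :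
    |A s F| ≤ C := by
  rw [abs_le]
  constructor
  · have := A_mono (s := s) (F := fun _ => -C) (G := F) (fun w hw => (abs_le.1 (h w hw)).1)
    rwa [A_const] at this
  · have := A_mono (s := s) (F := F) (G := fun _ => C) (fun w hw => (abs_le.1 (h w hw)).2)
    rwa [A_const] at this

lemma A_le {s : ℕ} {F : List Bool → ℝ} {C : ℝ} (h : ∀ w, w.length = s → F w ≤ C) :
    A s F ≤ C := by
  have := A_mono (s := s) (F := F) (G := fun _ => C) h
  rwa [A_const] at this

lemma le_A {s : ℕ} {F : List Bool → ℝ} {C : ℝ} (h : ∀ w, w.length = s → C ≤ F w) :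
    C ≤ A s F := by
  have := A_mono (s := s) (F := fun _ => C) (G := F) h
  rwa [A_const] at this

/-- bounded labels -/
def Bd (θ : Th) : Prop := ∀ u, |θ u| ≤ 1 / 10

lemma Bd.sub {θ : Th} (h : Bd θ) (b : Bool) : Bd (sub θ b) := fun _ => h _

lemma exp_lo {t : ℝ} (h : |t| ≤ 1 / 10) : 9 / 10 ≤ Real.exp t := by
  have h1 := Real.add_one_le_exp t
  have h2 := (abs_le.1 h).1
  linarith

lemma exp_hi {t : ℝ} (h : |t| ≤ 1 / 10) : Real.exp t ≤ 10 / 9 := by
  have h1 := Real.add_one_le_exp (-t)
  have h2 := (abs_le.1 h).2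
  have h3 : 9 / 10 ≤ Real.exp (-t) := by linarith
  rw [Real.exp_neg] at h3
  have h4 := Real.exp_pos t
  rw [le_inv_comm₀ (by norm_num) h4] at h3
  linarith [h3]

lemma pos_nonneg (w : List Bool) (θ : Th) : 0 ≤ pos w θ := by
  induction w generalizing θ with
  | nil => exact le_rfl
  | cons b w ih =>
    rw [pos]
    have h1 := ih (sub θ b)
    have h2 := l_pos
    have h3 := (Real.exp_pos (θ [])).le
    split_ifs <;> positivity

lemma pos_le {θ : Th} (h : Bd θ) (w : List Bool) : pos w θ ≤ 9 / 8 := by
  induction w generalizing θ with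
  | nil => simp only [pos]; norm_num
  | cons b w ih =>
    rw [pos]
    have h1 := ih (h.sub b)
    have h2 := l_pos
    have h3 := l_le
    have h4 := exp_hi (h [])
    have h5 : l * pos w (sub θ b) ≤ 1 / 1000 * (9 / 8) := by
      apply mul_le_mul h3 h1 (pos_nonneg _ _) (by norm_num)
    split_ifs <;> linarith

/-- sign of a bit -/
def sg (b : Bool) : ℝ := if b then 1 else -1

lemma sg_abs (b : Bool) : |sg b| = 1 := by cases b <;> simp [sg]
lemma sg_not (b : Bool) : sg (!b) = - sg b := by cases b <;> simp [sg]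

/-- signed distance between the two children parts -/
noncomputable def cr (θ : Th) (b : Bool) (p q : ℝ) : ℝ := Real.exp (θ []) + sg b * l * (p - q)

lemma cross (θ : Th) (b : Bool) (w w' : List Bool) :
    sg b * (pos (b :: w) θ - pos ((!b) :: w') θ) =
      cr θ b (pos w (sub θ b)) (pos w' (sub θ (!b))) := by
  cases b <;> simp [pos, cr, sg] <;> ring

lemma cr_lo {θ : Th} (h : Bd θ) (b : Bool) {p q : ℝ} (hp0 : 0 ≤ p) (hp : p ≤ 9 / 8) (hq0 : 0 ≤ q)
    (hq : q ≤ 9 / 8) : 8 / 9 ≤ cr θ b p q := by
  unfold cr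
  have h1 := exp_lo (h [])
  have h2 : |sg b * l * (p - q)| ≤ 1 / 1000 * (9 / 8) := by
    rw [abs_mul, abs_mul, sg_abs, one_mul, abs_of_pos l_pos]
    apply mul_le_mul l_le _ (abs_nonneg _) (by norm_num)
    rw [abs_le]; constructor <;> linarith
  have h3 := (abs_le.1 h2).1
  linarith

lemma cr_hi {θ : Th} (h : Bd θ) (b : Bool) {p q : ℝ} (hp0 : 0 ≤ p) (hp : p ≤ 9 / 8) (hq0 : 0 ≤ q)
    (hq : q ≤ 9 / 8) : cr θ b p q ≤ 9 / 8 := by
  unfold cr
  have h1 := exp_hi (h [])
  have h2 : |sg b * l * (p - q)| ≤ 1 / 1000 * (9 / 8) := by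
    rw [abs_mul, abs_mul, sg_abs, one_mul, abs_of_pos l_pos]
    apply mul_le_mul l_le _ (abs_nonneg _) (by norm_num)
    rw [abs_le]; constructor <;> linarith
  have h3 := (abs_le.1 h2).2
  linarith

lemma cross_abs {θ : Th} (h : Bd θ) (b : Bool) (w w' : List Bool) :
    |pos (b :: w) θ - pos ((!b) :: w') θ| =
      cr θ b (pos w (sub θ b)) (pos w' (sub θ (!b))) := by
  have h1 := cross θ b w w'
  have h2 := cr_lo h b (pos_nonneg w (sub θ b)) (pos_le (h.sub b) w) (pos_nonneg w' (sub θ (!b)))
    (pos_le (h.sub (!b)) w')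
  have h3 : |sg b * (pos (b :: w) θ - pos ((!b) :: w') θ)| =
      |cr θ b (pos w (sub θ b)) (pos w' (sub θ (!b)))| := by rw [h1]
  rw [abs_mul, sg_abs, one_mul] at h3
  rw [h3, abs_of_pos (by linarith)]

lemma same_child (θ : Th) (b : Bool) (w w' : List Bool) :
    pos (b :: w) θ - pos (b :: w') θ = l * (pos w (sub θ b) - pos w' (sub θ b)) := by
  simp only [pos]; ring

/-- positions separate words of the same length -/
lemma pos_ne {θ : Th} (h : Bd θ) {w w' : List Bool} (hl : w.length = w'.length) (hne : w ≠ w') :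
    pos w θ ≠ pos w' θ := by
  induction w generalizing θ w' with
  | nil =>
    cases w' with
    | nil => exact absurd rfl hne
    | cons => simp at hl
  | cons b w ih =>
    cases w' with
    | nil => simp at hl
    | cons b' w' =>
      by_cases hb : b = b'
      · subst hb
        intro heq
        have h1 := same_child θ b w w'
        rw [heq, sub_self] at h1
        have h2 := mul_eq_zero.1 h1.symm
        rcases h2 with h2 | h2
        · exact absurd h2 l_pos.ne'
        · exact ih (h.sub b) (by simpa using hl) (fun he => hne (by rw [he])) (sub_eq_zero.1 h2)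
      · have hb' : b' = !b := by cases b <;> cases b' <;> simp_all
        subst hb'
        intro heq
        have h1 := cross_abs h b w w'
        rw [heq, sub_self, abs_zero] at h1
        have h2 := cr_lo h b (pos_nonneg w (sub θ b)) (pos_le (h.sub b) w)
          (pos_nonneg w' (sub θ (!b))) (pos_le (h.sub (!b)) w')
        linarith

end Pool.Agent.H283R3.Tre
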