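import Pool.Agent.H283R3.Tre1

open Set Filter Topology

namespace Pool.Agent.H283R3.Tre

lemma log_lip {x y : ℝ} (hx : 1 / 2 ≤ x) (hy : 1 / 2 ≤ y) :
    |Real.log x - Real.log y| ≤ 2 * |x - y| := by
  have aux : ∀ {x y : ℝ}, 1 / 2 ≤ x → 1 / 2 ≤ y → Real.log x - Real.log y ≤ 2 * |x - y| := by
    intro x y hx hy
    have hx0 : 0 < x := by linarith
    have hy0 : 0 < y := by linarith
    rw [← Real.log_div hx0.ne' hy0.ne']
    have h1 := Real.log_le_sub_one_of_pos (div_pos hx0 hy0)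
    have h2 : x / y - 1 = (x - y) / y := by field_simp
    rw [h2] at h1
    refine h1.trans ?_
    rw [div_le_iff₀ hy0]
    have h3 := le_abs_self (x - y)
    have h4 := abs_nonneg (x - y)
    nlinarith
  rw [abs_le]
  constructor
  · have := aux hy hx
    rw [abs_sub_comm] at this
    linarith
  · exact aux hx hy

lemma log_quot {Y1 Y2 Z1 Z2 : ℝ} (h1 : |Y1| ≤ 1 / 100) (h2 : |Y2| ≤ 1 / 100)
    (h3 : |Z1| ≤ 1 / 100) (h4 : |Z2| ≤ 1 / 100) :
    |(Real.log (1 + Y1) - Real.log (1 + Y2)) - (Real.log (1 + Z1) - Real.log (1 + Z2))| ≤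
      21 / 10 * |(Y1 - Y2) - (Z1 - Z2)| + 21 / 10 * (|Z1 - Z2| * |Y2 - Z2|) := by
  rw [abs_le] at h1 h2 h3 h4
  have p1 : 0 < 1 + Y1 := by linarith
  have p2 : 0 < 1 + Y2 := by linarith
  have p3 : 0 < 1 + Z1 := by linarith
  have p4 : 0 < 1 + Z2 := by linarith
  rw [← Real.log_div p1.ne' p2.ne', ← Real.log_div p3.ne' p4.ne']
  have hr1 : 1 / 2 ≤ (1 + Y1) / (1 + Y2) := by rw [le_div_iff₀ p2]; linarith
  have hr2 : 1 / 2 ≤ (1 + Z1) / (1 + Z2) := by rw [le_div_iff₀ p4]; linarith
  refine (log_lip hr1 hr2).trans ?_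
  have hd : (1 + Y1) / (1 + Y2) - (1 + Z1) / (1 + Z2) =
      (((Y1 - Y2) - (Z1 - Z2)) * (1 + Z2) - (Z1 - Z2) * (Y2 - Z2)) / ((1 + Y2) * (1 + Z2)) := by
    field_simp
    ring
  rw [hd, abs_div, abs_of_pos (mul_pos p2 p4)]
  have hden : 49 / 50 ≤ (1 + Y2) * (1 + Z2) := by nlinarith
  have hnum : |((Y1 - Y2) - (Z1 - Z2)) * (1 + Z2) - (Z1 - Z2) * (Y2 - Z2)| ≤
      |(Y1 - Y2) - (Z1 - Z2)| * (101 / 100) + |Z1 - Z2| * |Y2 - Z2| := by
    refine (abs_sub _ _).trans ?_
    rw [abs_mul, abs_mul, abs_of_pos p4]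
    have := abs_nonneg ((Y1 - Y2) - (Z1 - Z2))
    nlinarith
  rw [← mul_div_assoc, div_le_iff₀ (by linarith)]
  set X := |(Y1 - Y2) - (Z1 - Z2)| with hX
  set W := |Z1 - Z2| * |Y2 - Z2| with hW
  have hX0 : 0 ≤ X := abs_nonneg _
  have hW0 : 0 ≤ W := mul_nonneg (abs_nonneg _) (abs_nonneg _)
  nlinarith

lemma exp_lip {x y : ℝ} (hx : |x| ≤ 1 / 10) (hy : |y| ≤ 1 / 10) :
    |Real.exp x - Real.exp y| ≤ 10 / 9 * |x - y| := by
  have aux : ∀ {x y : ℝ}, |x| ≤ 1 / 10 → Real.exp x - Real.exp y ≤ 10 / 9 * |x - y| := by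
    intro x y hx
    have h1 : Real.exp y = Real.exp x * Real.exp (y - x) := by rw [← Real.exp_add]; congr 1; ring
    have h2 := Real.add_one_le_exp (y - x)
    have h3 := exp_hi hx
    have h4 := Real.exp_pos x
    have h5 := le_abs_self (x - y)
    have h6 := abs_nonneg (x - y)
    rw [h1]
    nlinarith
  rw [abs_le]
  constructor
  · have := aux (x := y) (y := x) hy
    rw [abs_sub_comm] at this
    linarith
  · exact aux hx

/-- relative correction at the root -/
noncomputable def Yr (θ : Th) (b : Bool) (p q : ℝ) : ℝ := sg b * l * Real.exp (-(θ [])) * (p - q)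

noncomputable def fr (θ : Th) (b : Bool) (p q : ℝ) : ℝ := Real.log (1 + Yr θ b p q)

lemma cr_eq (θ : Th) (b : Bool) (p q : ℝ) : cr θ b p q = Real.exp (θ []) * (1 + Yr θ b p q) := by
  unfold cr Yr
  have h : Real.exp (θ []) * Real.exp (-(θ [])) = 1 := by rw [← Real.exp_add]; simp
  linear_combination (-(sg b * l * (p - q))) * h

lemma Yr_abs {θ : Th} (h : Bd θ) (b : Bool) {p q : ℝ} (hpq : |p - q| ≤ 9 / 8) :
    |Yr θ b p q| ≤ 5 / 4 * l := by
  unfold Yr
  have h1 := exp_hi (t := -(θ [])) (by rw [abs_neg]; exact h [])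
  have h2 := Real.exp_pos (-(θ []))
  rw [abs_mul, abs_mul, abs_mul, sg_abs, one_mul, abs_of_pos l_pos, abs_of_pos h2]
  have h3 := l_pos
  calc l * Real.exp (-(θ [])) * |p - q| ≤ l * (10 / 9) * (9 / 8) := by gcongr
    _ = 5 / 4 * l := by ring

lemma Yr_small {θ : Th} (h : Bd θ) (b : Bool) {p q : ℝ} (hpq : |p - q| ≤ 9 / 8) :
    |Yr θ b p q| ≤ 1 / 100 := by
  have h1 := Yr_abs h b hpq
  have h2 := l_le
  linarith

lemma log_cr {θ : Th} (h : Bd θ) (b : Bool) {p q : ℝ} (hpq : |p - q| ≤ 9 / 8) :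
    Real.log (cr θ b p q) = θ [] + fr θ b p q := by
  rw [cr_eq, Real.log_mul (Real.exp_pos _).ne', Real.log_exp, fr]
  have := (abs_le.1 (Yr_small h b hpq)).1
  linarith

lemma pos_sub_abs {θ η : Th} (h : Bd θ) (h' : Bd η) (w w' : List Bool) :
    |pos w θ - pos w' η| ≤ 9 / 8 := by
  have h1 := pos_nonneg w θ
  have h2 := pos_le h w
  have h3 := pos_nonneg w' η
  have h4 := pos_le h' w'
  rw [abs_le]; constructor <;> linarith

lemma fr_abs {θ : Th} (h : Bd θ) (b : Bool) {p q : ℝ} (hpq : |p - q| ≤ 9 / 8) :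
    |fr θ b p q| ≤ 3 * l := by
  unfold fr
  have h1 := (abs_le.1 (Yr_small h b hpq)).1
  have h2 := log_lip (x := 1 + Yr θ b p q) (y := 1) (by linarith) (by norm_num)
  rw [Real.log_one, sub_zero, add_sub_cancel_left] at h2
  have h3 := Yr_abs h b hpq
  have := l_pos
  linarith

lemma fr_osc {θ : Th} (h : Bd θ) (b : Bool) {p p' q : ℝ} (hpq : |p - q| ≤ 9 / 8)
    (hpq' : |p' - q| ≤ 9 / 8) : |fr θ b p q - fr θ b p' q| ≤ 3 * l * |p - p'| := by
  unfold fr
  have h1 := (abs_le.1 (Yr_small h b hpq)).1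
  have h1' := (abs_le.1 (Yr_small h b hpq')).1
  refine (log_lip (by linarith) (by linarith)).trans ?_
  have h2 : (1 + Yr θ b p q) - (1 + Yr θ b p' q) = sg b * l * Real.exp (-(θ [])) * (p - p') := by
    unfold Yr; ring
  have h3 := exp_hi (t := -(θ [])) (by rw [abs_neg]; exact h [])
  have h4 := Real.exp_pos (-(θ []))
  have h5 := l_pos
  rw [h2, abs_mul, abs_mul, abs_mul, sg_abs, one_mul, abs_of_pos l_pos, abs_of_pos h4]
  calc 2 * (l * Real.exp (-(θ [])) * |p - p'|) ≤ 2 * (l * (10 / 9) * |p - p'|) := by gcongr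
    _ ≤ 3 * l * |p - p'| := by
      have := mul_nonneg h5.le (abs_nonneg (p - p'))
      linarith

/-- averaged root correction -/
noncomputable def G (s : ℕ) (θ : Th) (b : Bool) (w : List Bool) : ℝ :=
  A s (fun w' => fr θ b (pos w (sub θ b)) (pos w' (sub θ (!b))))

/-- total correction -/
noncomputable def c : ℕ → Th → List Bool → ℝ
  | 0, _, _ => 0
  | _ + 1, _, [] => 0
  | s + 1, θ, b :: w => (G s θ b w + c s (sub θ b) w) / 2

lemma G_abs {θ : Th} (h : Bd θ) (s : ℕ) (b : Bool) (w : List Bool) : |G s θ b w| ≤ 3 * l :=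
  A_abs_le fun _ _ => fr_abs h b (pos_sub_abs (h.sub b) (h.sub (!b)) _ _)

lemma c_abs {θ : Th} (h : Bd θ) (s : ℕ) (w : List Bool) : |c s θ w| ≤ 3 * l := by
  have hl := l_pos
  induction s generalizing θ w with
  | zero => simp only [c, abs_zero]; positivity
  | succ s ih =>
    cases w with
    | nil => simp only [c, abs_zero]; positivity
    | cons b w =>
      simp only [c]
      have h1 := abs_le.1 (G_abs h s b w)
      have h2 := abs_le.1 (ih (h.sub b) w)
      rw [abs_le]; constructor <;> linarith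

/-- positions with a common beginning -/
lemma pos_osc {θ : Th} (h : Bd θ) (v x y : List Bool) :
    |pos (v ++ x) θ - pos (v ++ y) θ| ≤ l ^ v.length * (9 / 8) := by
  induction v generalizing θ with
  | nil => simpa using pos_sub_abs h h x y
  | cons b v ih =>
    rw [List.cons_append, List.cons_append, same_child, abs_mul, abs_of_pos l_pos]
    have := ih (h.sub b)
    have hl := l_pos
    calc l * |pos (v ++ x) (sub θ b) - pos (v ++ y) (sub θ b)| ≤ l * (l ^ v.length * (9 / 8)) := by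
          gcongr
      _ = l ^ (b :: v).length * (9 / 8) := by rw [List.length_cons]; ring

lemma G_osc {θ : Th} (h : Bd θ) (s : ℕ) (b : Bool) (v x y : List Bool) :
    |G s θ b (v ++ x) - G s θ b (v ++ y)| ≤ 4 * l ^ (v.length + 1) := by
  unfold G
  rw [← A_sub]
  apply A_abs_le
  intro w _
  refine (fr_osc h b (pos_sub_abs (h.sub b) (h.sub (!b)) _ _)
    (pos_sub_abs (h.sub b) (h.sub (!b)) _ _)).trans ?_
  have h1 := pos_osc (h.sub b) v x y
  have hl := l_pos
  calc 3 * l * |pos (v ++ x) (sub θ b) - pos (v ++ y) (sub θ b)|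
      ≤ 3 * l * (l ^ v.length * (9 / 8)) := by gcongr
    _ ≤ 4 * l ^ (v.length + 1) := by
      have : 0 < l ^ (v.length + 1) := by positivity
      have h2 : 3 * l * (l ^ v.length * (9 / 8)) = 27 / 8 * l ^ (v.length + 1) := by ring
      rw [h2]; linarith

lemma c_osc {θ : Th} (h : Bd θ) (m : ℕ) (v x y : List Bool) :
    |c (v.length + m) θ (v ++ x) - c (v.length + m) θ (v ++ y)| ≤
      l * (16 - 8 * (2 * l) ^ v.length) / 2 ^ v.length := by
  have hl := l_pos
  have hl2 := l_le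
  induction v generalizing θ with
  | nil =>
    simp only [List.length_nil, List.nil_append, pow_zero, zero_add]
    have h1 := abs_le.1 (c_abs h m x)
    have h2 := abs_le.1 (c_abs h m y)
    rw [abs_le]; constructor <;> linarith
  | cons b v ih =>
    have e1 : (b :: v).length + m = (v.length + m) + 1 := by rw [List.length_cons]; ring
    rw [e1, List.cons_append, List.cons_append]
    simp only [c]
    have h1 := G_osc h (v.length + m) b v x y
    have h2 := ih (h.sub b)
    have h3 : |(G (v.length + m) θ b (v ++ x) + c (v.length + m) (sub θ b) (v ++ x)) / 2 -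
        (G (v.length + m) θ b (v ++ y) + c (v.length + m) (sub θ b) (v ++ y)) / 2| ≤
        (4 * l ^ (v.length + 1) + l * (16 - 8 * (2 * l) ^ v.length) / 2 ^ v.length) / 2 := by
      rw [abs_le] at h1 h2 ⊢
      constructor <;> linarith [h1.1, h1.2, h2.1, h2.2]
    refine h3.trans ?_
    rw [List.length_cons]
    have hp : (0:ℝ) < 2 ^ v.length := by positivity
    have e2 : (4 * l ^ (v.length + 1) + l * (16 - 8 * (2 * l) ^ v.length) / 2 ^ v.length) / 2 =
        l * (16 - 4 * (2 * l) ^ v.length) / 2 ^ (v.length + 1) := by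
      rw [mul_pow, pow_succ, pow_succ]
      field_simp
      ring
    rw [e2]
    have hq : 0 < (2 * l) ^ v.length := by positivity
    have hk : (2 * l) ^ (v.length + 1) = (2 * l) ^ v.length * (2 * l) := pow_succ _ _
    have key : 8 * (2 * l) ^ (v.length + 1) ≤ 4 * (2 * l) ^ v.length := by rw [hk]; nlinarith
    apply div_le_div_of_nonneg_right _ (by positivity)
    apply mul_le_mul_of_nonneg_left _ hl.le
    linarith

/-! differences of two labelings -/

lemma pos_diff {θ η : Th} (h : Bd θ) (h' : Bd η) {δ : ℝ} (hδ : ∀ u, |θ u - η u| ≤ δ)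
    (w : List Bool) : |pos w θ - pos w η| ≤ 9 / 8 * δ := by
  have hl := l_pos
  have hl2 := l_le
  have hδ0 : 0 ≤ δ := (abs_nonneg _).trans (hδ [])
  induction w generalizing θ η with
  | nil => simp only [pos, sub_self, abs_zero]; positivity
  | cons b w ih =>
    have h1 := ih (h.sub b) (h'.sub b) (fun u => hδ (b :: u))
    have h2 := (exp_lip (h []) (h' [])).trans (mul_le_mul_of_nonneg_left (hδ []) (by norm_num))
    have h3 : |l * (pos w (sub θ b) - pos w (sub η b))| ≤ 1 / 1000 * (9 / 8 * δ) := by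
      rw [abs_mul, abs_of_pos hl]
      apply mul_le_mul hl2 h1 (abs_nonneg _) (by norm_num)
    simp only [pos]
    rw [abs_le] at h2 h3 ⊢
    split_ifs <;> constructor <;> linarith [h2.1, h2.2, h3.1, h3.2]

lemma pos_osc_diff {θ η : Th} (h : Bd θ) (h' : Bd η) {δ : ℝ} (hδ : ∀ u, |θ u - η u| ≤ δ)
    (v x y : List Bool) :
    |(pos (v ++ x) θ - pos (v ++ y) θ) - (pos (v ++ x) η - pos (v ++ y) η)| ≤
      l ^ v.length * (9 / 4 * δ) := by
  induction v generalizing θ η with
  | nil =>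
    have h1 := abs_le.1 (pos_diff h h' hδ x)
    have h2 := abs_le.1 (pos_diff h h' hδ y)
    simp only [List.nil_append, List.length_nil, pow_zero, one_mul]
    rw [abs_le]; constructor <;> linarith [h1.1, h1.2, h2.1, h2.2]
  | cons b v ih =>
    rw [List.cons_append, List.cons_append, same_child, same_child, ← mul_sub, abs_mul,
      abs_of_pos l_pos]
    have := ih (h.sub b) (h'.sub b) (fun u => hδ (b :: u))
    have hl := l_pos
    calc l * |(pos (v ++ x) (sub θ b) - pos (v ++ y) (sub θ b)) -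
          (pos (v ++ x) (sub η b) - pos (v ++ y) (sub η b))| ≤ l * (l ^ v.length * (9 / 4 * δ)) := by
          gcongr
      _ = l ^ (b :: v).length * (9 / 4 * δ) := by rw [List.length_cons]; ring

lemma prod_diff {a a' x x' : ℝ} : a * x - a' * x' = a * (x - x') + (a - a') * x' := by ring

lemma Yr_diff {θ η : Th} (h : Bd θ) (h' : Bd η) {δ : ℝ} (hδ : ∀ u, |θ u - η u| ≤ δ) (b : Bool)
    {X X' K : ℝ} (_hK : 0 ≤ K) (hX : |X - X'| ≤ K * (9 / 4 * δ)) (hX' : |X'| ≤ K * (9 / 8)) :
    |sg b * l * Real.exp (-(θ [])) * X - sg b * l * Real.exp (-(η [])) * X'| ≤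
      15 / 4 * l * K * δ := by
  have hl := l_pos
  have e1 := exp_lip (x := -(θ [])) (y := -(η [])) (by rw [abs_neg]; exact h [])
    (by rw [abs_neg]; exact h' [])
  have e2 : |-(θ []) - -(η [])| ≤ δ := by
    rw [show -(θ []) - -(η []) = -(θ [] - η []) by ring, abs_neg]; exact hδ []
  have e3 := exp_hi (t := -(θ [])) (by rw [abs_neg]; exact h [])
  have e4 := Real.exp_pos (-(θ []))
  have e5 : sg b * l * Real.exp (-(θ [])) * X - sg b * l * Real.exp (-(η [])) * X' =
      sg b * l * (Real.exp (-(θ [])) * (X - X') + (Real.exp (-(θ [])) - Real.exp (-(η []))) * X') := by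
    ring
  rw [e5, abs_mul, abs_mul, sg_abs, one_mul, abs_of_pos hl]
  have hδ0 : 0 ≤ δ := (abs_nonneg _).trans (hδ [])
  have e6 : |Real.exp (-(θ [])) * (X - X') + (Real.exp (-(θ [])) - Real.exp (-(η []))) * X'| ≤
      10 / 9 * (K * (9 / 4 * δ)) + 10 / 9 * δ * (K * (9 / 8)) := by
    refine (abs_add_le _ _).trans ?_
    rw [abs_mul, abs_mul, abs_of_pos e4]
    gcongr
    exact e1.trans (by gcongr)
  calc l * |Real.exp (-(θ [])) * (X - X') + (Real.exp (-(θ [])) - Real.exp (-(η []))) * X'|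
      ≤ l * (10 / 9 * (K * (9 / 4 * δ)) + 10 / 9 * δ * (K * (9 / 8))) := by gcongr
    _ = 15 / 4 * l * K * δ := by ring

lemma fr_diff {θ η : Th} (h : Bd θ) (h' : Bd η) {δ : ℝ} (hδ : ∀ u, |θ u - η u| ≤ δ) (b : Bool)
    (w w' : List Bool) :
    |fr θ b (pos w (sub θ b)) (pos w' (sub θ (!b))) -
      fr η b (pos w (sub η b)) (pos w' (sub η (!b)))| ≤ 8 * l * δ := by
  have k1 := Yr_small h b (pos_sub_abs (h.sub b) (h.sub (!b)) w w')
  have k2 := Yr_small h' b (pos_sub_abs (h'.sub b) (h'.sub (!b)) w w')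
  unfold fr
  have := (abs_le.1 k1).1
  have := (abs_le.1 k2).1
  refine (log_lip (by linarith) (by linarith)).trans ?_
  have h1 := abs_le.1 (pos_diff (h.sub b) (h'.sub b) (fun u => hδ (b :: u)) w)
  have h2 := abs_le.1 (pos_diff (h.sub (!b)) (h'.sub (!b)) (fun u => hδ ((!b) :: u)) w')
  have h3 := Yr_diff h h' hδ b (X := pos w (sub θ b) - pos w' (sub θ (!b)))
    (X' := pos w (sub η b) - pos w' (sub η (!b))) zero_le_one (by
      rw [abs_le]; constructor <;> linarith [h1.1, h1.2, h2.1, h2.2])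
    (by rw [one_mul]; exact pos_sub_abs (h'.sub b) (h'.sub (!b)) w w')
  have h4 : (1 + Yr θ b (pos w (sub θ b)) (pos w' (sub θ (!b)))) -
      (1 + Yr η b (pos w (sub η b)) (pos w' (sub η (!b)))) =
      sg b * l * Real.exp (-(θ [])) * (pos w (sub θ b) - pos w' (sub θ (!b))) -
      sg b * l * Real.exp (-(η [])) * (pos w (sub η b) - pos w' (sub η (!b))) := by
    unfold Yr; ring
  rw [h4]
  have hδ0 : 0 ≤ δ := (abs_nonneg _).trans (hδ [])
  have : 0 ≤ l * δ := mul_nonneg l_pos.le hδ0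
  linarith

lemma c_diff {θ η : Th} (h : Bd θ) (h' : Bd η) {δ : ℝ} (hδ : ∀ u, |θ u - η u| ≤ δ) (s : ℕ)
    (w : List Bool) : |c s θ w - c s η w| ≤ 8 * l * δ := by
  have hl := l_pos
  have hδ0 : 0 ≤ δ := (abs_nonneg _).trans (hδ [])
  induction s generalizing θ η w with
  | zero => simp only [c, sub_self, abs_zero]; positivity
  | succ s ih =>
    cases w with
    | nil => simp only [c, sub_self, abs_zero]; positivity
    | cons b w =>
      simp only [c]
      have h1 : |G s θ b w - G s η b w| ≤ 8 * l * δ := by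
        unfold G
        rw [← A_sub]
        exact A_abs_le fun w' _ => fr_diff h h' hδ b w w'
      have h2 := ih (h.sub b) (h'.sub b) (fun u => hδ (b :: u)) w
      rw [abs_le] at h1 h2 ⊢
      constructor <;> linarith [h1.1, h1.2, h2.1, h2.2]

lemma fr_osc_diff {θ η : Th} (h : Bd θ) (h' : Bd η) {δ : ℝ} (hδ : ∀ u, |θ u - η u| ≤ δ) (b : Bool)
    (v x y w' : List Bool) :
    |(fr θ b (pos (v ++ x) (sub θ b)) (pos w' (sub θ (!b))) -
        fr θ b (pos (v ++ y) (sub θ b)) (pos w' (sub θ (!b)))) -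
      (fr η b (pos (v ++ x) (sub η b)) (pos w' (sub η (!b))) -
        fr η b (pos (v ++ y) (sub η b)) (pos w' (sub η (!b))))| ≤ 8 * l ^ (v.length + 1) * δ := by
  have hl := l_pos
  have hl2 := l_le
  have hδ0 : 0 ≤ δ := (abs_nonneg _).trans (hδ [])
  unfold fr
  refine (log_quot (Yr_small h b (pos_sub_abs (h.sub b) (h.sub (!b)) _ _))
    (Yr_small h b (pos_sub_abs (h.sub b) (h.sub (!b)) _ _))
    (Yr_small h' b (pos_sub_abs (h'.sub b) (h'.sub (!b)) _ _))
    (Yr_small h' b (pos_sub_abs (h'.sub b) (h'.sub (!b)) _ _))).trans ?_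
  have hK : 0 < l ^ v.length := by positivity
  -- first term
  have a1 := Yr_diff h h' hδ b (X := pos (v ++ x) (sub θ b) - pos (v ++ y) (sub θ b))
    (X' := pos (v ++ x) (sub η b) - pos (v ++ y) (sub η b)) hK.le
    (pos_osc_diff (h.sub b) (h'.sub b) (fun u => hδ (b :: u)) v x y)
    (pos_osc (h'.sub b) v x y)
  have b1 : (Yr θ b (pos (v ++ x) (sub θ b)) (pos w' (sub θ (!b))) -
      Yr θ b (pos (v ++ y) (sub θ b)) (pos w' (sub θ (!b)))) -
      (Yr η b (pos (v ++ x) (sub η b)) (pos w' (sub η (!b))) -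
      Yr η b (pos (v ++ y) (sub η b)) (pos w' (sub η (!b)))) =
      sg b * l * Real.exp (-(θ [])) * (pos (v ++ x) (sub θ b) - pos (v ++ y) (sub θ b)) -
      sg b * l * Real.exp (-(η [])) * (pos (v ++ x) (sub η b) - pos (v ++ y) (sub η b)) := by
    unfold Yr; ring
  rw [b1]
  -- second term
  have a2 : |Yr η b (pos (v ++ x) (sub η b)) (pos w' (sub η (!b))) -
      Yr η b (pos (v ++ y) (sub η b)) (pos w' (sub η (!b)))| ≤ 5 / 4 * l ^ (v.length + 1) := by
    have b2 : Yr η b (pos (v ++ x) (sub η b)) (pos w' (sub η (!b))) -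
      Yr η b (pos (v ++ y) (sub η b)) (pos w' (sub η (!b))) =
      sg b * l * Real.exp (-(η [])) * (pos (v ++ x) (sub η b) - pos (v ++ y) (sub η b)) := by
      unfold Yr; ring
    have e3 := exp_hi (t := -(η [])) (by rw [abs_neg]; exact h' [])
    have e4 := Real.exp_pos (-(η []))
    rw [b2, abs_mul, abs_mul, abs_mul, sg_abs, one_mul, abs_of_pos hl, abs_of_pos e4]
    have := pos_osc (h'.sub b) v x y
    calc l * Real.exp (-(η [])) * |pos (v ++ x) (sub η b) - pos (v ++ y) (sub η b)|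
        ≤ l * (10 / 9) * (l ^ v.length * (9 / 8)) := by gcongr
      _ = 5 / 4 * l ^ (v.length + 1) := by ring
  have a3 : |Yr θ b (pos (v ++ y) (sub θ b)) (pos w' (sub θ (!b))) -
      Yr η b (pos (v ++ y) (sub η b)) (pos w' (sub η (!b)))| ≤ 15 / 4 * l * δ := by
    have h1 := abs_le.1 (pos_diff (h.sub b) (h'.sub b) (fun u => hδ (b :: u)) (v ++ y))
    have h2 := abs_le.1 (pos_diff (h.sub (!b)) (h'.sub (!b)) (fun u => hδ ((!b) :: u)) w')
    have h3 := Yr_diff h h' hδ b (X := pos (v ++ y) (sub θ b) - pos w' (sub θ (!b)))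
      (X' := pos (v ++ y) (sub η b) - pos w' (sub η (!b))) zero_le_one (by
        rw [abs_le]; constructor <;> linarith [h1.1, h1.2, h2.1, h2.2])
      (by rw [one_mul]; exact pos_sub_abs (h'.sub b) (h'.sub (!b)) _ w')
    rw [mul_one] at h3
    exact h3
  have hp : 0 < l ^ (v.length + 1) := by positivity
  calc 21 / 10 * |sg b * l * Real.exp (-(θ [])) * (pos (v ++ x) (sub θ b) - pos (v ++ y) (sub θ b)) -
      sg b * l * Real.exp (-(η [])) * (pos (v ++ x) (sub η b) - pos (v ++ y) (sub η b))| +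
      21 / 10 * (|Yr η b (pos (v ++ x) (sub η b)) (pos w' (sub η (!b))) -
      Yr η b (pos (v ++ y) (sub η b)) (pos w' (sub η (!b)))| *
      |Yr θ b (pos (v ++ y) (sub θ b)) (pos w' (sub θ (!b))) -
      Yr η b (pos (v ++ y) (sub η b)) (pos w' (sub η (!b)))|)
      ≤ 21 / 10 * (15 / 4 * l * l ^ v.length * δ) +
        21 / 10 * ((5 / 4 * l ^ (v.length + 1)) * (15 / 4 * l * δ)) := by gcongr
    _ = (63 / 8 + 315 / 32 * l) * (l ^ (v.length + 1) * δ) := by ring
    _ ≤ 8 * (l ^ (v.length + 1) * δ) := by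
        apply mul_le_mul_of_nonneg_right _ (by positivity)
        linarith
    _ = 8 * l ^ (v.length + 1) * δ := by ring

lemma c_osc_diff {θ η : Th} (h : Bd θ) (h' : Bd η) {δ : ℝ} (hδ : ∀ u, |θ u - η u| ≤ δ) (m : ℕ)
    (v x y : List Bool) :
    |(c (v.length + m) θ (v ++ x) - c (v.length + m) θ (v ++ y)) -
      (c (v.length + m) η (v ++ x) - c (v.length + m) η (v ++ y))| ≤
      l * δ * (48 - 24 * (2 * l) ^ v.length) / 2 ^ v.length := by
  have hl := l_pos
  have hl2 := l_le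
  have hδ0 : 0 ≤ δ := (abs_nonneg _).trans (hδ [])
  induction v generalizing θ η with
  | nil =>
    simp only [List.length_nil, List.nil_append, pow_zero, zero_add]
    have h1 := abs_le.1 (c_diff h h' hδ m x)
    have h2 := abs_le.1 (c_diff h h' hδ m y)
    have : 0 ≤ l * δ := by positivity
    rw [abs_le]; constructor <;> linarith [h1.1, h1.2, h2.1, h2.2]
  | cons b v ih =>
    have e1 : (b :: v).length + m = (v.length + m) + 1 := by rw [List.length_cons]; ring
    rw [e1, List.cons_append, List.cons_append]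
    simp only [c]
    have h1 : |(G (v.length + m) θ b (v ++ x) - G (v.length + m) θ b (v ++ y)) -
        (G (v.length + m) η b (v ++ x) - G (v.length + m) η b (v ++ y))| ≤
        8 * l ^ (v.length + 1) * δ := by
      unfold G
      rw [← A_sub, ← A_sub, ← A_sub]
      exact A_abs_le fun w' _ => fr_osc_diff h h' hδ b v x y w'
    have h2 := ih (h.sub b) (h'.sub b) (fun u => hδ (b :: u))
    have h3 : |((G (v.length + m) θ b (v ++ x) + c (v.length + m) (sub θ b) (v ++ x)) / 2 -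
        (G (v.length + m) θ b (v ++ y) + c (v.length + m) (sub θ b) (v ++ y)) / 2) -
        ((G (v.length + m) η b (v ++ x) + c (v.length + m) (sub η b) (v ++ x)) / 2 -
        (G (v.length + m) η b (v ++ y) + c (v.length + m) (sub η b) (v ++ y)) / 2)| ≤
        (8 * l ^ (v.length + 1) * δ + l * δ * (48 - 24 * (2 * l) ^ v.length) / 2 ^ v.length) / 2 := by
      rw [abs_le] at h1 h2 ⊢
      constructor <;> linarith [h1.1, h1.2, h2.1, h2.2]
    refine h3.trans ?_
    rw [List.length_cons]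
    have hp : (0:ℝ) < 2 ^ v.length := by positivity
    have e2 : (8 * l ^ (v.length + 1) * δ + l * δ * (48 - 24 * (2 * l) ^ v.length) / 2 ^ v.length) / 2 =
        l * δ * (48 - 16 * (2 * l) ^ v.length) / 2 ^ (v.length + 1) := by
      rw [mul_pow, pow_succ, pow_succ]
      field_simp
      ring
    rw [e2]
    have hq : 0 < (2 * l) ^ v.length := by positivity
    have hk : (2 * l) ^ (v.length + 1) = (2 * l) ^ v.length * (2 * l) := pow_succ _ _
    have key : 24 * (2 * l) ^ (v.length + 1) ≤ 16 * (2 * l) ^ v.length := by rw [hk]; nlinarith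
    apply div_le_div_of_nonneg_right _ (by positivity)
    apply mul_le_mul_of_nonneg_left _ (by positivity)
    linarith

end Pool.Agent.H283R3.Tre
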