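import Pool.Agent.H283R3.Tre2

open Set Filter Topology

namespace Pool.Agent.H283R3.Tre

lemma exists_fix (Φ : Th → Th) (h1 : ∀ θ, Bd θ → Bd (Φ θ))
    (h2 : ∀ θ η δ, Bd θ → Bd η → (∀ u, |θ u - η u| ≤ δ) → ∀ u, |Φ θ u - Φ η u| ≤ δ / 2) :
    ∃ θ, Bd θ ∧ ∀ u, Φ θ u = θ u := by
  set t : ℕ → Th := fun n => Φ^[n] (fun _ => 0) with ht
  have ht1 : ∀ n, t (n + 1) = Φ (t n) := fun n => Function.iterate_succ_apply' _ _ _
  have hB : ∀ n, Bd (t n) := by
    intro n
    induction n with
    | zero => intro u; simp [ht]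
    | succ n ih => rw [ht1]; exact h1 _ ih
  have hd : ∀ n u, |t n u - t (n + 1) u| ≤ 1 / 10 * (1 / 2) ^ n := by
    intro n
    induction n with
    | zero =>
      intro u
      have h3 := hB 1 u
      have h4 : t 0 u = 0 := rfl
      rw [h4, zero_sub, abs_neg]
      simpa using h3
    | succ n ih =>
      intro u
      have h3 := h2 _ _ _ (hB n) (hB (n + 1)) ih u
      rw [← ht1, ← ht1] at h3
      refine h3.trans (le_of_eq ?_)
      rw [pow_succ]; ring
  have hdist : ∀ u n, dist (t n u) (t (n + 1) u) ≤ 1 / 10 * (1 / 2) ^ n := by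
    intro u n; rw [Real.dist_eq]; exact hd n u
  have hlim : ∀ u, ∃ a, Tendsto (fun n => t n u) atTop (𝓝 a) := by
    intro u
    exact cauchySeq_tendsto_of_complete
      (cauchySeq_of_le_geometric (1 / 2) (1 / 10) (by norm_num) (hdist u))
  choose θ hθ using hlim
  have hclose : ∀ n u, |t n u - θ u| ≤ 1 / 5 * (1 / 2) ^ n := by
    intro n u
    have h3 := dist_le_of_le_geometric_of_tendsto (1 / 2) (1 / 10) (by norm_num) (hdist u) (hθ u) n
    rw [Real.dist_eq] at h3
    refine h3.trans (le_of_eq ?_)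
    ring
  have hBθ : Bd θ := by
    intro u
    exact le_of_tendsto' (hθ u).abs fun n => hB n u
  refine ⟨θ, hBθ, fun u => ?_⟩
  have h5 : ∀ n : ℕ, |Φ θ u - θ u| ≤ 2 / 5 * (1 / 2) ^ n := by
    intro n
    have h6 := h2 θ (t n) _ hBθ (hB n) (fun u => by rw [abs_sub_comm]; exact hclose n u) u
    have h7 := hclose (n + 1) u
    rw [ht1] at h7
    have h8 : |Φ θ u - θ u| ≤ |Φ θ u - Φ (t n) u| + |Φ (t n) u - θ u| := abs_sub_le _ _ _
    rw [pow_succ] at h7
    have h9 : (0:ℝ) < (1 / 2) ^ n := by positivity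
    linarith
  have h10 : Tendsto (fun n : ℕ => 2 / 5 * (1 / 2 : ℝ) ^ n) atTop (𝓝 0) := by
    have := (tendsto_pow_atTop_nhds_zero_of_lt_one (r := (1 / 2 : ℝ)) (by norm_num)
      (by norm_num)).const_mul (2 / 5)
    simpa using this
  have h11 := ge_of_tendsto' h10 h5
  exact sub_eq_zero.1 (abs_nonpos_iff.1 h11)

/-- block of zeros -/
def zs (m : ℕ) : List Bool := List.replicate m false

/-- the map whose fixed point balances the potentials -/
noncomputable def Phi (s : ℕ) (θ : Th) : Th := fun u =>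
  if u.getLast? = some true ∧ u.length < s then
    -(2:ℝ) ^ (u.length + 1) * (c s θ (u ++ zs (s - u.length)) -
      c s θ (u.dropLast ++ zs (s - u.length + 1)))
  else 0

lemma Phi_true (s : ℕ) (θ : Th) (v : List Bool) (m : ℕ) (hs : s = v.length + 1 + (m + 1)) :
    Phi s θ (v ++ [true]) = -(2:ℝ) ^ (v.length + 2) * (c s θ (v ++ true :: zs (m + 1)) -
      c s θ (v ++ false :: zs (m + 1))) := by
  unfold Phi
  have h1 : (v ++ [true]).getLast? = some true := by simp
  have h2 : (v ++ [true]).length = v.length + 1 := by simp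
  rw [if_pos ⟨h1, by rw [h2]; omega⟩, h2]
  have h3 : s - (v.length + 1) = m + 1 := by omega
  rw [h3]
  have h4 : (v ++ [true]).dropLast = v := by simp
  rw [h4]
  have h5 : v ++ [true] ++ zs (m + 1) = v ++ true :: zs (m + 1) := by simp
  have h6 : zs (m + 1 + 1) = false :: zs (m + 1) := rfl
  rw [h5, h6]

lemma Phi_false (s : ℕ) (θ : Th) (v : List Bool) : Phi s θ (v ++ [false]) = 0 := by
  unfold Phi
  rw [if_neg]
  rintro ⟨h, -⟩
  simp at h

lemma Phi_nil (s : ℕ) (θ : Th) : Phi s θ [] = 0 := by
  unfold Phi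
  rw [if_neg]
  rintro ⟨h, -⟩
  simp at h

lemma Phi_long (s : ℕ) (θ : Th) (u : List Bool) (hu : s ≤ u.length) : Phi s θ u = 0 := by
  unfold Phi
  rw [if_neg]
  rintro ⟨-, h⟩
  omega

lemma Phi_bd (s : ℕ) {θ : Th} (h : Bd θ) : Bd (Phi s θ) := by
  intro u
  rcases List.eq_nil_or_concat u with hu | ⟨v, b, hu⟩
  · rw [hu, Phi_nil]; norm_num
  · rw [hu, List.concat_eq_append]
    cases b
    · rw [Phi_false]; norm_num
    · by_cases hs : s ≤ (v ++ [true]).length
      · rw [Phi_long s θ _ hs]; norm_num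
      · have hlen : (v ++ [true]).length = v.length + 1 := by simp
        rw [hlen] at hs
        obtain ⟨m, hm⟩ : ∃ m, s = v.length + 1 + (m + 1) := ⟨s - v.length - 2, by omega⟩
        rw [Phi_true s θ v m hm, abs_mul, abs_neg, abs_of_pos (by positivity)]
        have hs2 : s = v.length + (m + 2) := by omega
        have h1 := c_osc h (m + 2) v (true :: zs (m + 1)) (false :: zs (m + 1))
        rw [← hs2] at h1
        have hp : (0:ℝ) < 2 ^ v.length := by positivity
        have hq : 0 < (2 * l) ^ v.length := by have := l_pos; positivity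
        have hl := l_pos
        have hl2 := l_le
        calc (2:ℝ) ^ (v.length + 2) * |c s θ (v ++ true :: zs (m + 1)) -
              c s θ (v ++ false :: zs (m + 1))|
            ≤ (2:ℝ) ^ (v.length + 2) * (l * (16 - 8 * (2 * l) ^ v.length) / 2 ^ v.length) := by
              gcongr
          _ = 4 * (l * (16 - 8 * (2 * l) ^ v.length)) := by
              rw [pow_add]; field_simp; ring
          _ ≤ 4 * (l * 16) := by
              have : 16 - 8 * (2 * l) ^ v.length ≤ 16 := by linarith
              gcongr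
          _ ≤ 1 / 10 := by linarith

lemma Phi_contr (s : ℕ) (θ η : Th) (δ : ℝ) (h : Bd θ) (h' : Bd η) (hδ : ∀ u, |θ u - η u| ≤ δ)
    (u : List Bool) : |Phi s θ u - Phi s η u| ≤ δ / 2 := by
  have hδ0 : 0 ≤ δ := (abs_nonneg _).trans (hδ [])
  rcases List.eq_nil_or_concat u with hu | ⟨v, b, hu⟩
  · rw [hu, Phi_nil, Phi_nil, sub_zero, abs_zero]; positivity
  · rw [hu, List.concat_eq_append]
    cases b
    · rw [Phi_false, Phi_false, sub_zero, abs_zero]; positivity
    · by_cases hs : s ≤ (v ++ [true]).length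
      · rw [Phi_long s θ _ hs, Phi_long s η _ hs, sub_zero, abs_zero]; positivity
      · have hlen : (v ++ [true]).length = v.length + 1 := by simp
        rw [hlen] at hs
        obtain ⟨m, hm⟩ : ∃ m, s = v.length + 1 + (m + 1) := ⟨s - v.length - 2, by omega⟩
        rw [Phi_true s θ v m hm, Phi_true s η v m hm, ← mul_sub, abs_mul, abs_neg,
          abs_of_pos (by positivity)]
        have hs2 : s = v.length + (m + 2) := by omega
        have h1 := c_osc_diff h h' hδ (m + 2) v (true :: zs (m + 1)) (false :: zs (m + 1))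
        rw [← hs2] at h1
        have hp : (0:ℝ) < 2 ^ v.length := by positivity
        have hq : 0 < (2 * l) ^ v.length := by have := l_pos; positivity
        have hl := l_pos
        have hl2 := l_le
        calc (2:ℝ) ^ (v.length + 2) * |c s θ (v ++ true :: zs (m + 1)) -
              c s θ (v ++ false :: zs (m + 1)) - (c s η (v ++ true :: zs (m + 1)) -
              c s η (v ++ false :: zs (m + 1)))|
            ≤ (2:ℝ) ^ (v.length + 2) * (l * δ * (48 - 24 * (2 * l) ^ v.length) / 2 ^ v.length) := by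
              gcongr
          _ = 4 * (l * δ * (48 - 24 * (2 * l) ^ v.length)) := by
              rw [pow_add]; field_simp; ring
          _ ≤ 4 * (l * δ * 48) := by
              have : 48 - 24 * (2 * l) ^ v.length ≤ 48 := by linarith
              have : 0 ≤ l * δ := by positivity
              gcongr
          _ ≤ δ / 2 := by nlinarith

/-- discrete potential of the other leaves -/
noncomputable def D : ℕ → Th → List Bool → ℝ
  | 0, _, _ => 0
  | _ + 1, _, [] => 0
  | s + 1, θ, b :: w => ((1 - (1 / 2) ^ s) * Real.log l + D s (sub θ b) w) / 2 +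
      (A s (fun w' => Real.log |pos (b :: w) θ - pos ((!b) :: w') θ|)) / 2

noncomputable def S : List Bool → Th → ℝ
  | [], _ => 0
  | b :: w, θ => (θ [] + S w (sub θ b)) / 2

noncomputable def Kc : ℕ → ℝ
  | 0 => 0
  | s + 1 => ((1 - (1 / 2) ^ s) * Real.log l + Kc s) / 2

lemma A_cross {θ : Th} (h : Bd θ) (s : ℕ) (b : Bool) (w : List Bool) :
    A s (fun w' => Real.log |pos (b :: w) θ - pos ((!b) :: w') θ|) = θ [] + G s θ b w := by
  unfold G
  have h1 : A s (fun w' => Real.log |pos (b :: w) θ - pos ((!b) :: w') θ|) =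
      A s (fun w' => θ [] + fr θ b (pos w (sub θ b)) (pos w' (sub θ (!b)))) := by
    apply A_congr
    intro w' _
    rw [cross_abs h, log_cr h b (pos_sub_abs (h.sub b) (h.sub (!b)) _ _)]
  rw [h1, A_add, A_const]

lemma D_eq {θ : Th} (h : Bd θ) (s : ℕ) (w : List Bool) (hw : w.length = s) :
    D s θ w = Kc s + S w θ + c s θ w := by
  induction s generalizing θ w with
  | zero =>
    have : w = [] := List.eq_nil_of_length_eq_zero hw
    subst this
    simp [D, Kc, S, c]
  | succ s ih =>
    cases w with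
    | nil => simp at hw
    | cons b w =>
      have h1 := ih (h.sub b) w (by simpa using hw)
      simp only [D, Kc, S, c]
      rw [h1, A_cross h]
      ring

lemma S_snoc (v : List Bool) (b : Bool) (θ : Th) :
    S (v ++ [b]) θ = S v θ + (1 / 2) ^ (v.length + 1) * θ v := by
  induction v generalizing θ with
  | nil => simp [S]; ring
  | cons b' v ih =>
    rw [List.cons_append]
    simp only [S, ih, List.length_cons, sub]
    ring

lemma fix_S {s : ℕ} {θ : Th} (hfix : ∀ u, Phi s θ u = θ u) (v : List Bool) (hv : v.length < s) :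
    S v θ + (1 / 2) ^ (v.length + 1) * θ v = c s θ (zs s) - c s θ (v ++ zs (s - v.length)) := by
  induction v using List.reverseRecOn with
  | nil =>
    rw [← hfix, Phi_nil]
    simp [S]
  | append_singleton v b ih =>
    have hlen : (v ++ [b]).length = v.length + 1 := by simp
    rw [hlen] at hv
    have h1 := ih (by omega)
    rw [S_snoc, h1, hlen]
    obtain ⟨m, hm⟩ : ∃ m, s = v.length + 1 + (m + 1) := ⟨s - v.length - 2, by omega⟩
    have e1 : s - v.length = m + 1 + 1 := by omega
    have e2 : s - (v.length + 1) = m + 1 := by omega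
    have e3 : zs (m + 1 + 1) = false :: zs (m + 1) := rfl
    rw [e1, e2, e3]
    rw [← hfix (v ++ [b])]
    cases b
    · rw [Phi_false]
      have : v ++ [false] ++ zs (m + 1) = v ++ false :: zs (m + 1) := by simp
      rw [this]; ring
    · rw [Phi_true s θ v m hm]
      have : v ++ [true] ++ zs (m + 1) = v ++ true :: zs (m + 1) := by simp
      rw [this]
      have h2 : (1 / 2 : ℝ) ^ (v.length + 1 + 1) * -(2:ℝ) ^ (v.length + 2) = -1 := by
        rw [one_div, inv_pow]
        have : (2:ℝ) ^ (v.length + 2) ≠ 0 := by positivity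
        rw [show v.length + 1 + 1 = v.length + 2 from rfl]
        field_simp
      rw [← mul_assoc, h2]
      ring

/-- existence of balanced finite trees -/
theorem level {s : ℕ} (hs : 1 ≤ s) :
    ∃ θ, Bd θ ∧ ∃ κ, ∀ w : List Bool, w.length = s → |D s θ w - κ| ≤ (1 / 2) ^ s := by
  obtain ⟨θ, hB, hfix⟩ := exists_fix (Phi s) (fun θ h => Phi_bd s h)
    (fun θ η δ h h' hδ => Phi_contr s θ η δ h h' hδ)
  refine ⟨θ, hB, Kc s + c s θ (zs s), fun w hw => ?_⟩
  rcases List.eq_nil_or_concat w with hu | ⟨v, b, hu⟩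
  · rw [hu] at hw; simp at hw; omega
  · rw [List.concat_eq_append] at hu
    subst hu
    have hv : v.length + 1 = s := by simpa using hw
    rw [D_eq hB s _ hw, S_snoc]
    have h1 := fix_S hfix v (by omega)
    have e1 : s - v.length = 1 := by omega
    have e2 : zs 1 = [false] := rfl
    rw [e1, e2] at h1
    rw [h1]
    have h2 := c_osc hB 1 v [b] [false]
    rw [hv] at h2
    have e3 : Kc s + (c s θ (zs s) - c s θ (v ++ [false])) + c s θ (v ++ [b]) -
        (Kc s + c s θ (zs s)) = c s θ (v ++ [b]) - c s θ (v ++ [false]) := by ring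
    rw [e3]
    refine h2.trans ?_
    have hl := l_pos
    have hl2 := l_le
    have hq : 0 < (2 * l) ^ v.length := by positivity
    rw [← hv, pow_succ, one_div, inv_pow, div_eq_mul_inv]
    have hp : (0:ℝ) < (2 ^ v.length)⁻¹ := by positivity
    have h3 : l * (16 - 8 * (2 * l) ^ v.length) ≤ 2⁻¹ := by
      have : l * (2 * l) ^ v.length ≥ 0 := by positivity
      nlinarith
    calc l * (16 - 8 * (2 * l) ^ v.length) * (2 ^ v.length)⁻¹ ≤ 2⁻¹ * (2 ^ v.length)⁻¹ := by gcongr
      _ = (2 ^ v.length)⁻¹ * 2⁻¹ := by ring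

end Pool.Agent.H283R3.Tre
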