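import Pool.Agent.H283R3.Tre3

open Set Filter Topology

namespace Pool.Agent.H283R3.Tre

/-- logarithmic potential of the leaves at a complex point -/
noncomputable def V (s : ℕ) (θ : Th) (z : ℂ) : ℝ := A s (fun w => Real.log ‖z - (pos w θ : ℂ)‖)

noncomputable def L : ℝ := -Real.log l

lemma L_ge : 6 ≤ L := by
  unfold L l
  rw [Real.log_div one_ne_zero (by norm_num), Real.log_one, zero_sub, neg_neg,
    Real.le_log_iff_exp_le (by norm_num)]
  have h1 := Real.exp_one_lt_d9
  have h2 : Real.exp 6 = (Real.exp 1) ^ 6 := by rw [← Real.exp_nat_mul]; norm_num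
  rw [h2]
  calc (Real.exp 1) ^ 6 ≤ (2.7182818286 : ℝ) ^ 6 := by
        have := (Real.exp_pos 1).le
        gcongr
    _ ≤ 1000 := by norm_num

lemma log_l : Real.log l = -L := by unfold L; ring

lemma A_succ (s : ℕ) (F : List Bool → ℝ) (b : Bool) :
    A (s + 1) F = (A s (fun w => F (b :: w)) + A s (fun w => F ((!b) :: w))) / 2 := by
  cases b
  · rfl
  · simp only [A, Bool.not_true]; ring

/-- the point seen from the child `b` -/
noncomputable def zc (θ : Th) (b : Bool) (z : ℂ) : ℂ :=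
  (z - ((if b then Real.exp (θ []) else 0 : ℝ) : ℂ)) / (l : ℂ)

lemma zc_eq (θ : Th) (b : Bool) (z : ℂ) (w : List Bool) :
    ‖z - (pos (b :: w) θ : ℂ)‖ = l * ‖zc θ b z - (pos w (sub θ b) : ℂ)‖ := by
  have hl := l_pos
  have hlc : (l : ℂ) ≠ 0 := by exact_mod_cast hl.ne'
  have h1 : z - (pos (b :: w) θ : ℂ) = (l : ℂ) * (zc θ b z - (pos w (sub θ b) : ℂ)) := by
    unfold zc
    simp only [pos]
    push_cast
    field_simp
    ring
  rw [h1, norm_mul, Complex.norm_real, Real.norm_of_nonneg hl.le]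

lemma V_succ {θ : Th} (s : ℕ) (b : Bool) {z : ℂ}
    (hz : ∀ w : List Bool, w.length = s + 1 → z ≠ (pos w θ : ℂ)) :
    V (s + 1) θ z = (Real.log l + V s (sub θ b) (zc θ b z)) / 2 +
      A s (fun w' => Real.log ‖z - (pos ((!b) :: w') θ : ℂ)‖) / 2 := by
  unfold V
  rw [A_succ s _ b]
  have h1 : A s (fun w => Real.log ‖z - (pos (b :: w) θ : ℂ)‖) =
      A s (fun w => Real.log l + Real.log ‖zc θ b z - (pos w (sub θ b) : ℂ)‖) := by
    apply A_congr
    intro w hw
    have h2 : 0 < ‖z - (pos (b :: w) θ : ℂ)‖ :=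
      norm_pos_iff.2 (sub_ne_zero.2 (hz (b :: w) (by simp [hw])))
    rw [zc_eq] at h2 ⊢
    have h3 : ‖zc θ b z - (pos w (sub θ b) : ℂ)‖ ≠ 0 := by
      intro h0; rw [h0, mul_zero] at h2; exact lt_irrefl _ h2
    rw [Real.log_mul l_pos.ne' h3]
  rw [h1, A_add, A_const]
  ring

lemma zc_ne {θ : Th} {s : ℕ} {b : Bool} {z : ℂ}
    (hz : ∀ w : List Bool, w.length = s + 1 → z ≠ (pos w θ : ℂ)) :
    ∀ w : List Bool, w.length = s → zc θ b z ≠ (pos w (sub θ b) : ℂ) := by
  intro w hw h0
  have h1 := zc_eq θ b z w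
  rw [h0, sub_self, norm_zero, mul_zero] at h1
  exact hz (b :: w) (by simp [hw]) (sub_eq_zero.1 (norm_eq_zero.1 h1))

/-! the exponent and the comparison function -/

noncomputable def al : ℝ := Real.log 2 / L

lemma L_pos : 0 < L := by linarith [L_ge]

lemma al_pos : 0 < al := div_pos (Real.log_pos (by norm_num)) L_pos

lemma al_le : al ≤ 1 := by
  unfold al
  rw [div_le_one L_pos]
  have := Real.log_two_lt_d9
  linarith [L_ge]

lemma l_rpow : l ^ al = 1 / 2 := by
  rw [Real.rpow_def_of_pos l_pos, log_l, al]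
  have := L_pos.ne'
  rw [show -L * (Real.log 2 / L) = -Real.log 2 by field_simp, Real.exp_neg,
    Real.exp_log (by norm_num)]
  norm_num

lemma div_l_rpow {δ : ℝ} (hδ : 0 ≤ δ) : (δ / l) ^ al = 2 * δ ^ al := by
  rw [Real.div_rpow hδ l_pos.le, l_rpow]
  ring

noncomputable def Fn (δ : ℝ) : ℝ :=
  if δ ≤ 1 then 2 * (L + 3) * δ ^ al - δ else L + 2 + Real.log δ

lemma Fn_nonneg {δ : ℝ} (hδ : 0 < δ) : 0 ≤ Fn δ := by
  unfold Fn
  have hL := L_ge
  split_ifs with h
  · have h1 : δ ≤ δ ^ al := by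
      have := Real.rpow_le_rpow_of_exponent_ge hδ h al_le
      rwa [Real.rpow_one] at this
    have h2 : 0 ≤ δ ^ al := by positivity
    nlinarith
  · push Not at h
    have := Real.log_pos h
    linarith

lemma Fn_le {δ : ℝ} (hδ : 0 ≤ δ) (h1 : δ ≤ 1) : Fn δ ≤ 2 * (L + 3) * δ ^ al := by
  unfold Fn
  rw [if_pos h1]
  linarith

lemma Fn_rec {δ : ℝ} (hδ : 0 < δ) :
    Fn (δ / l) / 2 + Real.log (1 + 9 / 8 * δ) / 2 ≤ Fn δ := by
  have hL := L_ge
  have hl := l_pos
  have hlog : Real.log (δ / l) = Real.log δ + L := by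
    rw [Real.log_div hδ.ne' hl.ne', log_l]; ring
  have h0 : Real.log (1 + 9 / 8 * δ) ≤ 9 / 8 * δ := by
    have := Real.log_le_sub_one_of_pos (show 0 < 1 + 9 / 8 * δ by positivity)
    linarith
  rcases le_or_gt δ l with h | h
  · -- small
    have h1 : δ / l ≤ 1 := by rw [div_le_one hl]; exact h
    have h2 : δ ≤ 1 := by linarith [l_le]
    unfold Fn
    rw [if_pos h1, if_pos h2, div_l_rpow hδ.le]
    have h3 : 1000 * δ ≤ δ / l := by
      unfold l; linarith
    nlinarith
  · have h1 : ¬ δ / l ≤ 1 := by rw [div_le_one hl]; exact not_le.2 h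
    rcases le_or_gt δ 1 with h2 | h2
    · unfold Fn
      rw [if_neg h1, if_pos h2, hlog]
      have h3 : (1:ℝ) / 2 ≤ δ ^ al := by
        rw [← l_rpow]
        exact Real.rpow_le_rpow hl.le h.le al_pos.le
      have h4 := Real.log_nonpos hδ.le h2
      nlinarith
    · unfold Fn
      rw [if_neg h1, if_neg (not_le.2 h2), hlog]
      have h3 : Real.log (1 + 9 / 8 * δ) ≤ Real.log δ + 9 / 8 := by
        have h4 : 1 + 9 / 8 * δ ≤ δ * (17 / 8) := by linarith
        have h5 : Real.log (1 + 9 / 8 * δ) ≤ Real.log (δ * (17 / 8)) :=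
          Real.log_le_log (by positivity) h4
        rw [Real.log_mul hδ.ne' (by norm_num)] at h5
        have h6 := Real.log_le_sub_one_of_pos (show (0:ℝ) < 17 / 8 by norm_num)
        linarith
      linarith

/-- upper estimate -/
theorem upper {θ : Th} (h : Bd θ) (s : ℕ) (w : List Bool) (hw : w.length = s) {z : ℂ}
    (hz : ∀ w : List Bool, w.length = s → z ≠ (pos w θ : ℂ)) :
    V s θ z - D s θ w - (1 / 2) ^ s * Real.log ‖z - (pos w θ : ℂ)‖ ≤
      Fn ‖z - (pos w θ : ℂ)‖ := by
  induction s generalizing θ w z with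
  | zero =>
    have : w = [] := List.eq_nil_of_length_eq_zero hw
    subst this
    have h1 : 0 < ‖z - (pos [] θ : ℂ)‖ := norm_pos_iff.2 (sub_ne_zero.2 (hz [] rfl))
    have := Fn_nonneg h1
    simp only [V, A, D, pow_zero, one_mul, sub_zero, sub_self]
    exact this
  | succ s ih =>
    cases w with
    | nil => simp at hw
    | cons b w =>
      have hw' : w.length = s := by simpa using hw
      have hz' := zc_ne (b := b) hz
      have h1 := ih (h.sub b) w hw' hz'
      set δ := ‖z - (pos (b :: w) θ : ℂ)‖ with hδ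
      have hδ0 : 0 < δ := norm_pos_iff.2 (sub_ne_zero.2 (hz (b :: w) hw))
      have hl := l_pos
      have hd : ‖zc θ b z - (pos w (sub θ b) : ℂ)‖ = δ / l := by
        rw [hδ, zc_eq]; field_simp
      rw [hd] at h1
      have hlog : Real.log (δ / l) = Real.log δ - Real.log l := Real.log_div hδ0.ne' hl.ne'
      rw [hlog] at h1
      have h2 : A s (fun w' => Real.log ‖z - (pos ((!b) :: w') θ : ℂ)‖) -
          A s (fun w' => Real.log |pos (b :: w) θ - pos ((!b) :: w') θ|) ≤
          Real.log (1 + 9 / 8 * δ) := by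
        rw [← A_sub]
        apply A_le
        intro w' hw''
        have hcr := cr_lo h b (pos_nonneg w (sub θ b)) (pos_le (h.sub b) w)
          (pos_nonneg w' (sub θ (!b))) (pos_le (h.sub (!b)) w')
        rw [← cross_abs h] at hcr
        set d := |pos (b :: w) θ - pos ((!b) :: w') θ| with hdd
        have hd0 : 0 < d := by linarith
        have h3 : ‖z - (pos ((!b) :: w') θ : ℂ)‖ ≤ δ + d := by
          have h4 : z - (pos ((!b) :: w') θ : ℂ) = (z - (pos (b :: w) θ : ℂ)) +
              ((pos (b :: w) θ - pos ((!b) :: w') θ : ℝ) : ℂ) := by push_cast; ring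
          rw [h4]
          refine (norm_add_le _ _).trans ?_
          rw [Complex.norm_real, Real.norm_eq_abs]
        have h5 : 0 < ‖z - (pos ((!b) :: w') θ : ℂ)‖ :=
          norm_pos_iff.2 (sub_ne_zero.2 (hz ((!b) :: w') (by simp [hw''])))
        have h6 : Real.log ‖z - (pos ((!b) :: w') θ : ℂ)‖ ≤ Real.log (d * (1 + 9 / 8 * δ)) := by
          apply Real.log_le_log h5
          nlinarith
        rw [Real.log_mul hd0.ne' (by positivity)] at h6
        linarith
      have h3 := V_succ s b hz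
      have h4 := Fn_rec hδ0
      simp only [D]
      rw [h3]
      have h5 : (1 / 2 : ℝ) ^ (s + 1) = (1 / 2) ^ s / 2 := by rw [pow_succ]; ring
      rw [h5]
      linarith

end Pool.Agent.H283R3.Tre
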