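import Pool.Agent.H283R3.Tre4

open Set Filter Topology

namespace Pool.Agent.H283R3.Tre

/-- energy bound -/
lemma energy {θ : Th} (h : Bd θ) (s : ℕ) :
    A s (fun w => D s θ w) ≤ -L * (1 - ((s:ℝ) + 1) * (1 / 2) ^ s) + 1 / 8 := by
  induction s generalizing θ with
  | zero => simp only [A, D]; norm_num
  | succ s ih =>
    have key : ∀ b, A s (fun w => D (s + 1) θ (b :: w)) ≤
        -L * (1 - ((s:ℝ) + 2) * (1 / 2) ^ (s + 1)) + 1 / 8 := by
      intro b
      have h1 : A s (fun w => D (s + 1) θ (b :: w)) =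
          (1 - (1 / 2) ^ s) * Real.log l / 2 + A s (fun w => D s (sub θ b) w) / 2 +
          A s (fun w => A s (fun w' => Real.log |pos (b :: w) θ - pos ((!b) :: w') θ|)) / 2 := by
        simp only [D]
        have e1 : (fun w => ((1 - (1 / 2 : ℝ) ^ s) * Real.log l + D s (sub θ b) w) / 2 +
            (A s (fun w' => Real.log |pos (b :: w) θ - pos ((!b) :: w') θ|)) / 2) =
            fun w => ((1 - (1 / 2 : ℝ) ^ s) * Real.log l / 2 + (1 / 2) * D s (sub θ b) w) +
            (1 / 2) * (A s (fun w' => Real.log |pos (b :: w) θ - pos ((!b) :: w') θ|)) := by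
          ext w; ring
        rw [e1, A_add, A_add, A_const, A_smul, A_smul]
        ring
      have h2 : A s (fun w => A s (fun w' => Real.log |pos (b :: w) θ - pos ((!b) :: w') θ|)) ≤
          1 / 8 := by
        apply A_le
        intro w _
        apply A_le
        intro w' _
        have hcr := cr_lo h b (pos_nonneg w (sub θ b)) (pos_le (h.sub b) w)
          (pos_nonneg w' (sub θ (!b))) (pos_le (h.sub (!b)) w')
        have hcr2 := cr_hi h b (pos_nonneg w (sub θ b)) (pos_le (h.sub b) w)
          (pos_nonneg w' (sub θ (!b))) (pos_le (h.sub (!b)) w')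
        rw [← cross_abs h] at hcr hcr2
        have h3 := Real.log_le_sub_one_of_pos (show 0 < |pos (b :: w) θ - pos ((!b) :: w') θ| by
          linarith)
        linarith
      have h3 := ih (h.sub b)
      rw [h1, log_l]
      have h5 : (1 / 2 : ℝ) ^ (s + 1) = (1 / 2) ^ s / 2 := by rw [pow_succ]; ring
      rw [h5]
      linarith
    have k1 := key false
    have k2 := key true
    rw [A_succ s _ false]
    push_cast
    have e : ((s:ℝ) + 1 + 1) = (s:ℝ) + 2 := by ring
    rw [e]
    simp only [Bool.not_false]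
    linarith

/-- potential minus the average discrete potential of a cluster -/
noncomputable def J (m : ℕ) (θ : Th) (v : List Bool) (z : ℂ) : ℝ :=
  V (v.length + m) θ z - A m (fun w => D (v.length + m) θ (v ++ w))

lemma J_succ {θ : Th} (m : ℕ) (b : Bool) (v : List Bool) {z : ℂ}
    (hz : ∀ w : List Bool, w.length = v.length + m + 1 → z ≠ (pos w θ : ℂ)) :
    J m θ (b :: v) z = J m (sub θ b) v (zc θ b z) / 2 + (1 / 2) ^ (v.length + m) * Real.log l / 2 +
      A m (fun w => A (v.length + m) (fun w' => Real.log ‖z - (pos ((!b) :: w') θ : ℂ)‖ -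
        Real.log |pos (b :: (v ++ w)) θ - pos ((!b) :: w') θ|)) / 2 := by
  unfold J
  have e1 : (b :: v).length + m = (v.length + m) + 1 := by rw [List.length_cons]; ring
  rw [e1, V_succ _ b hz]
  simp only [List.cons_append, D]
  have e2 : (fun w => ((1 - (1 / 2 : ℝ) ^ (v.length + m)) * Real.log l +
        D (v.length + m) (sub θ b) (v ++ w)) / 2 +
      (A (v.length + m) (fun w' => Real.log |pos (b :: (v ++ w)) θ - pos ((!b) :: w') θ|)) / 2) =
      fun w => ((1 - (1 / 2 : ℝ) ^ (v.length + m)) * Real.log l / 2 +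
        (1 / 2) * D (v.length + m) (sub θ b) (v ++ w)) +
      (1 / 2) * (A (v.length + m) (fun w' => Real.log |pos (b :: (v ++ w)) θ - pos ((!b) :: w') θ|)) := by
    ext w; ring
  rw [e2, A_add, A_add, A_const, A_smul, A_smul]
  have e3 : (fun w => A (v.length + m) (fun w' => Real.log ‖z - (pos ((!b) :: w') θ : ℂ)‖ -
        Real.log |pos (b :: (v ++ w)) θ - pos ((!b) :: w') θ|)) =
      fun w => A (v.length + m) (fun w' => Real.log ‖z - (pos ((!b) :: w') θ : ℂ)‖) -
        A (v.length + m) (fun w' => Real.log |pos (b :: (v ++ w)) θ - pos ((!b) :: w') θ|) := by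
    ext w; rw [A_sub]
  rw [e3, A_sub, A_const]
  ring

lemma norm_zc {θ : Th} (b : Bool) (z : ℂ) (w : List Bool) :
    ‖zc θ b z - (pos w (sub θ b) : ℂ)‖ = ‖z - (pos (b :: w) θ : ℂ)‖ / l := by
  rw [zc_eq]
  have := l_pos.ne'
  field_simp

/-- triangle inequality comparison -/
lemma near_abs {θ : Th} (h : Bd θ) (v r w w'' : List Bool) (z : ℂ) :
    abs (‖z - (pos w'' θ : ℂ)‖ - abs (pos (v ++ w) θ - pos w'' θ)) ≤
      ‖z - (pos (v ++ r) θ : ℂ)‖ + l ^ v.length * (9 / 8) := by
  have h1 : abs (‖z - (pos w'' θ : ℂ)‖ - abs (pos (v ++ w) θ - pos w'' θ)) ≤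
      ‖z - (pos (v ++ w) θ : ℂ)‖ := by
    have h2 := abs_norm_sub_norm_le (z - (pos w'' θ : ℂ)) (((pos (v ++ w) θ - pos w'' θ : ℝ) : ℂ))
    rw [Complex.norm_real, Real.norm_eq_abs] at h2
    refine h2.trans (le_of_eq ?_)
    congr 1
    push_cast
    ring
  refine h1.trans ?_
  have h3 : z - (pos (v ++ w) θ : ℂ) = (z - (pos (v ++ r) θ : ℂ)) +
      ((pos (v ++ r) θ - pos (v ++ w) θ : ℝ) : ℂ) := by push_cast; ring
  rw [h3]
  refine (norm_add_le _ _).trans ?_
  rw [Complex.norm_real, Real.norm_eq_abs]
  have := pos_osc h v r w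
  linarith

/-- lower estimate, recursive form -/
theorem lower_rec {θ : Th} (h : Bd θ) (m : ℕ) (v r : List Bool) (hr : r.length = m) (hv : v ≠ [])
    {z : ℂ} (hz : ∀ w : List Bool, w.length = v.length + m → z ≠ (pos w θ : ℂ))
    (hmin : ∀ w : List Bool, w.length = v.length + m →
      ‖z - (pos (v ++ r) θ : ℂ)‖ ≤ ‖z - (pos w θ : ℂ)‖)
    (h1 : l ^ v.length < ‖z - (pos (v ++ r) θ : ℂ)‖)
    (h2 : ‖z - (pos (v ++ r) θ : ℂ)‖ ≤ l ^ (v.length - 1)) :
    (3 + (2 * l) ^ (v.length - 1)) / 2 ^ v.length -
      L * ((v.length + m : ℕ) + 1) * (1 / 2) ^ (v.length + m) ≤ J m θ v z := by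
  have hl := l_pos
  have hl2 := l_le
  have hL := L_ge
  induction v generalizing θ z with
  | nil => exact absurd rfl hv
  | cons b v ih =>
    have hz1 : ∀ w : List Bool, w.length = (v.length + m) + 1 → z ≠ (pos w θ : ℂ) := by
      intro w hw; apply hz; rw [List.length_cons]; omega
    have hz' := zc_ne (b := b) hz1
    have hmin' : ∀ w : List Bool, w.length = v.length + m →
        ‖zc θ b z - (pos (v ++ r) (sub θ b) : ℂ)‖ ≤ ‖zc θ b z - (pos w (sub θ b) : ℂ)‖ := by
      intro w hw
      rw [norm_zc, norm_zc]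
      have := hmin (b :: w) (by simp [hw]; ring)
      rw [List.cons_append] at this
      gcongr
    rw [J_succ m b v hz1]
    set δ := ‖z - (pos ((b :: v) ++ r) θ : ℂ)‖ with hδ
    have hδ0 : 0 ≤ δ := norm_nonneg _
    have hδ' : ‖zc θ b z - (pos (v ++ r) (sub θ b) : ℂ)‖ = δ / l := by rw [norm_zc]; rfl
    -- the pointwise comparison
    have hpt : ∀ w w' : List Bool, w.length = m → w'.length = v.length + m →
        8 / 9 ≤ |pos (b :: (v ++ w)) θ - pos ((!b) :: w') θ| ∧
        abs (‖z - (pos ((!b) :: w') θ : ℂ)‖ - abs (pos (b :: (v ++ w)) θ - pos ((!b) :: w') θ)) ≤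
          δ + l ^ (v.length + 1) * (9 / 8) ∧ δ ≤ ‖z - (pos ((!b) :: w') θ : ℂ)‖ := by
      intro w w' hw hw'
      have hcr := cr_lo h b (pos_nonneg (v ++ w) (sub θ b)) (pos_le (h.sub b) _)
          (pos_nonneg w' (sub θ (!b))) (pos_le (h.sub (!b)) w')
      rw [← cross_abs h] at hcr
      refine ⟨hcr, ?_, hmin ((!b) :: w') (by simp [hw']; ring)⟩
      have := near_abs h (b :: v) r w ((!b) :: w') z
      rw [List.length_cons, List.cons_append] at this
      exact this
    cases v with
    | nil =>
      -- one-letter cluster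
      simp only [List.length_nil, List.length_cons, zero_add, List.nil_append, pow_zero,
        Nat.sub_self] at *
      rw [pow_one] at h1
      have hA : -1 ≤ A m (fun w => A m (fun w' => Real.log ‖z - (pos ((!b) :: w') θ : ℂ)‖ -
          Real.log |pos (b :: w) θ - pos ((!b) :: w') θ|)) := by
        apply le_A
        intro w hw
        apply le_A
        intro w' hw'
        obtain ⟨p1, p2, p3⟩ := hpt w w' hw hw'
        set a := ‖z - (pos ((!b) :: w') θ : ℂ)‖ with ha
        set d := |pos (b :: w) θ - pos ((!b) :: w') θ| with hd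
        have p4 := (abs_le.1 p2).1
        have hd0 : 0 < d := by linarith
        have p5 : 49 / 100 * d ≤ a := by linarith
        have p6 : Real.log (49 / 100 * d) ≤ Real.log a := Real.log_le_log (by positivity) p5
        rw [Real.log_mul (by norm_num) hd0.ne'] at p6
        have p7 : -1 ≤ Real.log (49 / 100) := by
          rw [Real.le_log_iff_exp_le (by norm_num), Real.exp_neg, inv_le_comm₀ (Real.exp_pos 1)
            (by norm_num)]
          have := Real.exp_one_gt_d9
          norm_num
          linarith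
        linarith
      have hV : 0 ≤ V m (sub θ b) (zc θ b z) := by
        unfold V
        apply le_A
        intro w hw
        apply Real.log_nonneg
        have q1 := hmin' w hw
        rw [hδ'] at q1
        refine le_trans ?_ q1
        rw [le_div_iff₀ hl]
        linarith
      have hE := energy (h.sub b) m
      unfold J
      simp only [List.length_nil, zero_add, List.nil_append]
      rw [log_l]
      have h5 : (1 / 2 : ℝ) ^ (1 + m) = (1 / 2) ^ m / 2 := by rw [pow_add]; ring
      rw [h5]
      push_cast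
      linarith
    | cons b' v =>
      have hIH := ih (h.sub b) (by simp) hz' hmin'
        (by
          rw [hδ', lt_div_iff₀ hl]
          calc l ^ (b' :: v).length * l = l ^ (b :: b' :: v).length := by
                rw [List.length_cons (a := b), pow_succ]
            _ < δ := h1)
        (by
          rw [hδ', div_le_iff₀ hl]
          refine h2.trans (le_of_eq ?_)
          simp only [List.length_cons, Nat.add_sub_cancel]
          rw [pow_succ])
      set k := (b' :: v).length with hk
      have hk1 : 1 ≤ k := by rw [hk, List.length_cons]; omega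
      have hlen : (b :: b' :: v).length = k + 1 := by rw [List.length_cons]
      rw [hlen] at h1 h2 ⊢
      rw [Nat.add_sub_cancel] at h2 ⊢
      have hlk : l ^ k ≤ l := by
        calc l ^ k ≤ l ^ 1 := pow_le_pow_of_le_one hl.le (by linarith) hk1
          _ = l := pow_one l
      have hlk0 : 0 < l ^ k := by positivity
      have hA : -3 * l ^ k ≤ A m (fun w => A (k + m) (fun w' =>
          Real.log ‖z - (pos ((!b) :: w') θ : ℂ)‖ -
          Real.log |pos (b :: (b' :: v ++ w)) θ - pos ((!b) :: w') θ|)) := by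
        apply le_A
        intro w hw
        apply le_A
        intro w' hw'
        obtain ⟨p1, p2, p3⟩ := hpt w w' hw hw'
        set a := ‖z - (pos ((!b) :: w') θ : ℂ)‖ with ha
        set d := |pos (b :: (b' :: v ++ w)) θ - pos ((!b) :: w') θ| with hd
        have hs : l ^ (k + 1) = l ^ k * l := pow_succ _ _
        rw [hs] at p2
        have p2' : |a - d| ≤ 3 / 2 * l ^ k := by
          refine p2.trans ?_
          nlinarith
        have p4 := (abs_le.1 p2').1
        have p5 := log_lip (x := a) (y := d) (by linarith) (by linarith)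
        have p6 := (abs_le.1 p5).1
        linarith
      have hfin : (3 + (2 * l) ^ k) / 2 ^ (k + 1) + 3 / 2 * l ^ k ≤
          (3 + (2 * l) ^ (k - 1)) / 2 ^ k / 2 := by
        obtain ⟨j, hj⟩ : ∃ j, k = j + 1 := ⟨k - 1, by omega⟩
        rw [hj, Nat.add_sub_cancel]
        have q1 : (2 * l) ^ (j + 1) = (2 * l) ^ j * (2 * l) := pow_succ _ _
        have q2 : l ^ (j + 1) * 2 ^ (j + 1) = (2 * l) ^ (j + 1) := by rw [← mul_pow]; ring
        have q3 : (3 + (2 * l) ^ j) / 2 ^ (j + 1) / 2 = (3 + (2 * l) ^ j) / 2 ^ (j + 1 + 1) := by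
          rw [pow_succ 2 (j + 1), div_div]
        rw [q3]
        have q4 : 3 / 2 * l ^ (j + 1) = 3 * (2 * l) ^ (j + 1) / 2 ^ (j + 1 + 1) := by
          rw [← q2, pow_succ 2 (j + 1)]
          field_simp
        rw [q4, ← add_div]
        apply div_le_div_of_nonneg_right _ (by positivity)
        rw [q1]
        have q5 : 0 < (2 * l) ^ j := by positivity
        nlinarith
      have hcast : (((k + m : ℕ) : ℝ)) = (k : ℝ) + m := by push_cast; ring
      have hcast2 : (((k + 1 + m : ℕ) : ℝ)) = (k : ℝ) + m + 1 := by push_cast; ring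
      have hpw : (1 / 2 : ℝ) ^ (k + 1 + m) = (1 / 2) ^ (k + m) / 2 := by
        rw [show k + 1 + m = (k + m) + 1 by ring, pow_succ]; ring
      rw [log_l, hcast2, hpw]
      rw [hcast] at hIH
      linarith

end Pool.Agent.H283R3.Tre
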