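import Pool.Agent.H283R3.Tre5

open Set Filter Topology

namespace Pool.Agent.H283R3.Tre

/-- words of length `s` -/
def words : ℕ → Finset (List Bool)
  | 0 => {[]}
  | s + 1 => (words s).image (fun w => false :: w) ∪ (words s).image (fun w => true :: w)

lemma mem_words {s : ℕ} {w : List Bool} : w ∈ words s ↔ w.length = s := by
  induction s generalizing w with
  | zero => simp [words]
  | succ s ih =>
    simp only [words, Finset.mem_union, Finset.mem_image]
    constructor
    · rintro (⟨a, ha, rfl⟩ | ⟨a, ha, rfl⟩) <;> simp [ih.1 ha]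
    · intro h
      cases w with
      | nil => simp at h
      | cons b w =>
        have hw : w ∈ words s := ih.2 (by simpa using h)
        cases b
        · exact Or.inl ⟨w, hw, rfl⟩
        · exact Or.inr ⟨w, hw, rfl⟩

lemma words_disj (s : ℕ) : Disjoint ((words s).image (fun w => false :: w))
    ((words s).image (fun w => true :: w)) := by
  rw [Finset.disjoint_left]
  intro a h1 h2
  obtain ⟨x, -, rfl⟩ := Finset.mem_image.1 h1
  obtain ⟨y, -, hy⟩ := Finset.mem_image.1 h2
  simp at hy

lemma card_words (s : ℕ) : (words s).card = 2 ^ s := by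
  induction s with
  | zero => rfl
  | succ s ih =>
    rw [words, Finset.card_union_of_disjoint (words_disj s),
      Finset.card_image_of_injective _ (List.cons_injective),
      Finset.card_image_of_injective _ (List.cons_injective), ih]
    ring

lemma A_sum (s : ℕ) (F : List Bool → ℝ) : ∑ w ∈ words s, F w = 2 ^ s * A s F := by
  induction s generalizing F with
  | zero => simp [words, A]
  | succ s ih =>
    rw [words, Finset.sum_union (words_disj s), Finset.sum_image (by
      intro a _ b _ h; exact List.cons_injective h), Finset.sum_image (by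
      intro a _ b _ h; exact List.cons_injective h), ih, ih]
    simp only [A]
    ring

lemma A_one (s : ℕ) (w : List Bool) (hw : w.length = s) (k : ℝ) :
    A s (fun w' => if w' = w then k else 0) = (1 / 2) ^ s * k := by
  have h1 := A_sum s (fun w' => if w' = w then k else 0)
  rw [Finset.sum_ite_eq' (words s) w (fun _ => k), if_pos (mem_words.2 hw)] at h1
  calc A s (fun w' => if w' = w then k else 0)
      = (1 / 2) ^ s * (2 ^ s * A s (fun w' => if w' = w then k else 0)) := by
        rw [← mul_assoc, ← mul_pow]; norm_num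
    _ = (1 / 2) ^ s * k := by rw [← h1]

/-- the discrete potential as a plain average (the diagonal term is `log 0 = 0`) -/
lemma D_avg {θ : Th} (h : Bd θ) (s : ℕ) (w : List Bool) (hw : w.length = s) :
    D s θ w = A s (fun w' => Real.log |pos w θ - pos w' θ|) := by
  induction s generalizing θ w with
  | zero =>
    have : w = [] := List.eq_nil_of_length_eq_zero hw
    subst this
    simp [D, A]
  | succ s ih =>
    cases w with
    | nil => simp at hw
    | cons b w =>
      have hw' : w.length = s := by simpa using hw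
      rw [A_succ s _ b]
      simp only [D]
      have h1 : A s (fun w' => Real.log |pos (b :: w) θ - pos (b :: w') θ|) =
          A s (fun w' => (Real.log l + Real.log |pos w (sub θ b) - pos w' (sub θ b)|) -
            (if w' = w then Real.log l else 0)) := by
        apply A_congr
        intro w' hw''
        rw [same_child, abs_mul, abs_of_pos l_pos]
        by_cases he : w' = w
        · subst he
          simp
        · rw [if_neg he, Real.log_mul l_pos.ne' (abs_pos.2 (sub_ne_zero.2
            (pos_ne (h.sub b) (by rw [hw', hw'']) (Ne.symm he)))).ne', sub_zero]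
      rw [h1, A_sub, A_add, A_const, A_one s w hw', ← ih (h.sub b) w hw']
      ring

lemma prod_erase {θ : Th} (h : Bd θ) (s : ℕ) (w : List Bool) (hw : w.length = s) :
    ∏ w' ∈ (words s).erase w, |pos w θ - pos w' θ| = Real.exp (2 ^ s * D s θ w) := by
  have hpos : ∀ w' ∈ (words s).erase w, 0 < |pos w θ - pos w' θ| := by
    intro w' hw'
    rw [Finset.mem_erase, mem_words] at hw'
    exact abs_pos.2 (sub_ne_zero.2 (pos_ne h (by rw [hw, hw'.2]) (Ne.symm hw'.1)))
  rw [← Real.exp_log (Finset.prod_pos hpos), Real.log_prod (fun w' hw' => (hpos w' hw').ne')]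
  congr 1
  rw [D_avg h s w hw, ← A_sum]
  have h1 : Real.log |pos w θ - pos w θ| = 0 := by simp
  rw [← Finset.add_sum_erase (words s) _ (mem_words.2 hw), h1, zero_add]

/-- the monic polynomial with zeros at the leaves -/
noncomputable def P (s : ℕ) (θ : Th) : Polynomial ℂ :=
  ∏ w ∈ words s, (Polynomial.X - Polynomial.C (pos w θ : ℂ))

lemma P_deg (s : ℕ) (θ : Th) : (P s θ).natDegree = 2 ^ s := by
  unfold P
  rw [Polynomial.natDegree_prod_of_monic _ _ (fun w _ => Polynomial.monic_X_sub_C _)]
  simp [card_words]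

lemma P_norm {θ : Th} (s : ℕ) {z : ℂ} (hz : ∀ w : List Bool, w.length = s → z ≠ (pos w θ : ℂ)) :
    ‖(P s θ).eval z‖ = Real.exp (2 ^ s * V s θ z) := by
  unfold P
  rw [Polynomial.eval_prod, norm_prod]
  have hpos : ∀ w ∈ words s, 0 < ‖(Polynomial.X - Polynomial.C (pos w θ : ℂ)).eval z‖ := by
    intro w hw
    simp only [Polynomial.eval_sub, Polynomial.eval_X, Polynomial.eval_C]
    exact norm_pos_iff.2 (sub_ne_zero.2 (hz w (mem_words.1 hw)))
  rw [← Real.exp_log (Finset.prod_pos hpos), Real.log_prod (fun w' hw' => (hpos w' hw').ne')]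
  congr 1
  unfold V
  rw [← A_sum]
  apply Finset.sum_congr rfl
  intro w _
  simp

lemma P_zero {θ : Th} (s : ℕ) {z : ℂ} {w : List Bool} (hw : w.length = s)
    (hz : z = (pos w θ : ℂ)) : (P s θ).eval z = 0 := by
  unfold P
  rw [Polynomial.eval_prod]
  apply Finset.prod_eq_zero (mem_words.2 hw)
  simp [hz]

/-- Lagrange interpolation bound -/
theorem lagr {θ : Th} (h : Bd θ) {s : ℕ} {κ : ℝ}
    (hκ : ∀ w : List Bool, w.length = s → |D s θ w - κ| ≤ (1 / 2) ^ s)
    {q : Polynomial ℂ} (hq : q.natDegree < 2 ^ s) {M δ : ℝ}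
    (hM : ∀ w : List Bool, w.length = s → ‖q.eval (pos w θ : ℂ)‖ ≤ M) (hδ : 0 < δ) {z : ℂ}
    (hz : ∀ w : List Bool, w.length = s → δ ≤ ‖z - (pos w θ : ℂ)‖) :
    ‖q.eval z‖ ≤ 2 ^ s * (M * (Real.exp (2 ^ s * (V s θ z - κ) + 1) / δ)) := by
  have hz' : ∀ w : List Bool, w.length = s → z ≠ (pos w θ : ℂ) := by
    intro w hw h0
    have := hz w hw
    rw [h0, sub_self, norm_zero] at this
    linarith
  have hinj : Set.InjOn (fun w => (pos w θ : ℂ)) (words s : Set (List Bool)) := by
    intro w hw w' hw' he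
    by_contra hne
    have h1 := mem_words.1 (Finset.mem_coe.1 hw)
    have h2 := mem_words.1 (Finset.mem_coe.1 hw')
    have he' : (pos w θ : ℂ) = (pos w' θ : ℂ) := he
    exact pos_ne h (by rw [h1, h2]) hne (by exact_mod_cast he')
  have hdeg : q.degree < (words s).card := by
    rw [card_words]
    exact lt_of_le_of_lt Polynomial.degree_le_natDegree (by exact_mod_cast hq)
  have hI := Lagrange.eq_interpolate hinj hdeg
  have hM0 : 0 ≤ M := (norm_nonneg _).trans (hM (zs s) (by simp [zs]))
  rw [hI, Lagrange.interpolate_apply, Polynomial.eval_finsetSum]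
  refine (norm_sum_le _ _).trans ?_
  have hterm : ∀ w ∈ words s, ‖(Polynomial.C (q.eval (pos w θ : ℂ)) *
      Lagrange.basis (words s) (fun w => (pos w θ : ℂ)) w).eval z‖ ≤
      M * (Real.exp (2 ^ s * (V s θ z - κ) + 1) / δ) := by
    intro w hw
    have hwl := mem_words.1 hw
    rw [Polynomial.eval_mul, Polynomial.eval_C, norm_mul]
    apply mul_le_mul (hM w hwl) _ (norm_nonneg _) hM0
    unfold Lagrange.basis Lagrange.basisDivisor
    rw [Polynomial.eval_prod, norm_prod]
    have h1 : ∀ w' ∈ (words s).erase w, ‖(Polynomial.C ((pos w θ : ℂ) - (pos w' θ : ℂ))⁻¹ *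
        (Polynomial.X - Polynomial.C (pos w' θ : ℂ))).eval z‖ =
        |pos w θ - pos w' θ|⁻¹ * ‖z - (pos w' θ : ℂ)‖ := by
      intro w' _
      simp only [Polynomial.eval_mul, Polynomial.eval_C, Polynomial.eval_sub, Polynomial.eval_X,
        norm_mul, norm_inv]
      rw [← Complex.ofReal_sub, Complex.norm_real, Real.norm_eq_abs]
    rw [Finset.prod_congr rfl h1, Finset.prod_mul_distrib, Finset.prod_inv_distrib,
      prod_erase h s w hwl]
    have h2 : ∏ w' ∈ (words s).erase w, ‖z - (pos w' θ : ℂ)‖ =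
        Real.exp (2 ^ s * V s θ z) / ‖z - (pos w θ : ℂ)‖ := by
      have hne : ‖z - (pos w θ : ℂ)‖ ≠ 0 := (hδ.trans_le (hz w hwl)).ne'
      rw [eq_div_iff hne, Finset.prod_erase_mul (words s) _ hw, ← P_norm s hz', P,
        Polynomial.eval_prod, norm_prod]
      apply Finset.prod_congr rfl
      intro w' _
      simp
    rw [h2, ← Real.exp_neg, ← mul_div_assoc, ← Real.exp_add]
    have h3 : Real.exp (-(2 ^ s * D s θ w) + 2 ^ s * V s θ z) ≤
        Real.exp (2 ^ s * (V s θ z - κ) + 1) := by
      apply Real.exp_le_exp.2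
      have h4 := (abs_le.1 (hκ w hwl)).1
      have h5 : (2:ℝ) ^ s * (1 / 2) ^ s = 1 := by rw [← mul_pow]; norm_num
      have h6 : (0:ℝ) < 2 ^ s := by positivity
      nlinarith
    have h7 := hz w hwl
    have h8 := Real.exp_pos (2 ^ s * (V s θ z - κ) + 1)
    exact div_le_div₀ h8.le h3 hδ h7
  refine (Finset.sum_le_sum hterm).trans ?_
  rw [Finset.sum_const, card_words, nsmul_eq_mul]
  push_cast
  exact le_rfl

/-- finite-level upper bound -/
lemma up {θ : Th} (h : Bd θ) {s : ℕ} {κ : ℝ}
    (hκ : ∀ w : List Bool, w.length = s → |D s θ w - κ| ≤ (1 / 2) ^ s)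
    {z : ℂ} (hz : ∀ w : List Bool, w.length = s → z ≠ (pos w θ : ℂ)) {w : List Bool}
    (hw : w.length = s) (h1 : ‖z - (pos w θ : ℂ)‖ ≤ 1) :
    V s θ z ≤ κ + (1 / 2) ^ s + 2 * (L + 3) * ‖z - (pos w θ : ℂ)‖ ^ al := by
  have h2 := upper h s w hw hz
  have h3 := Fn_le (norm_nonneg _) h1
  have h4 := (abs_le.1 (hκ w hw)).2
  have h5 := Real.log_nonpos (norm_nonneg _) h1
  have h6 : (1 / 2 : ℝ) ^ s * Real.log ‖z - (pos w θ : ℂ)‖ ≤ 0 :=
    mul_nonpos_of_nonneg_of_nonpos (by positivity) h5
  linarith

/-- finite-level lower bound -/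
lemma low {θ : Th} (h : Bd θ) {s : ℕ} {κ : ℝ}
    (hκ : ∀ w : List Bool, w.length = s → |D s θ w - κ| ≤ (1 / 2) ^ s)
    {z : ℂ} {δ : ℝ} (hδ : l ^ s < δ) (hz : ∀ w : List Bool, w.length = s → δ ≤ ‖z - (pos w θ : ℂ)‖)
    {w : List Bool} (hw : w.length = s) (h1 : ‖z - (pos w θ : ℂ)‖ ≤ 1) :
    κ + 3 / 2 * δ ^ al - (L * (s + 1) + 1) * (1 / 2) ^ s ≤ V s θ z := by
  have hl := l_pos
  have hl2 := l_le
  have hL := L_ge
  -- nearest leaf
  obtain ⟨u, hu, humin⟩ := Finset.exists_min_image (words s) (fun w => ‖z - (pos w θ : ℂ)‖)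
    ⟨w, mem_words.2 hw⟩
  have hul := mem_words.1 hu
  set d := ‖z - (pos u θ : ℂ)‖ with hd
  have hd1 : d ≤ 1 := (humin w (mem_words.2 hw)).trans h1
  have hδd : δ ≤ d := hz u hul
  have hδ0 : 0 < δ := lt_trans (by positivity) hδ
  have hz' : ∀ w : List Bool, w.length = s → z ≠ (pos w θ : ℂ) := by
    intro w hw h0
    have := hz w hw
    rw [h0, sub_self, norm_zero] at this
    linarith
  -- scale
  have hex : ∃ k, l ^ k < d := ⟨s, hδ.trans_le hδd⟩
  classical
  set k := Nat.find hex with hk
  have hk1 : l ^ k < d := Nat.find_spec hex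
  have hks : k ≤ s := Nat.find_min' hex (hδ.trans_le hδd)
  have hk0 : k ≠ 0 := by
    intro h0
    rw [h0, pow_zero] at hk1
    linarith
  have hk2 : d ≤ l ^ (k - 1) := by
    have := Nat.find_min hex (show k - 1 < Nat.find hex by omega)
    exact not_lt.1 this
  have hsplit : u.take k ++ u.drop k = u := List.take_append_drop k u
  have hlt : (u.take k).length = k := by rw [List.length_take, hul]; omega
  have hld : (u.drop k).length = s - k := by rw [List.length_drop, hul]
  have hsum : (u.take k).length + (s - k) = s := by rw [hlt]; omega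
  have h2 := lower_rec h (s - k) (u.take k) (u.drop k) hld (by
      intro h0
      rw [h0] at hlt
      exact hk0 hlt.symm) (z := z) (by rw [hsum]; exact hz')
    (by
      rw [hsum, hsplit]
      intro w hw
      exact humin w (mem_words.2 hw))
    (by rw [hsplit, hlt]; exact hk1)
    (by rw [hsplit, hlt]; exact hk2)
  unfold J at h2
  rw [hsum, hlt] at h2
  have h3 : A (s - k) (fun w => D s θ (u.take k ++ w)) ≥ κ - (1 / 2) ^ s := by
    apply le_A
    intro w hw
    have := (abs_le.1 (hκ (u.take k ++ w) (by rw [List.length_append, hlt, hw]; omega))).1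
    linarith
  have h4 : (3 / 2) * δ ^ al ≤ (3 + (2 * l) ^ (k - 1)) / 2 ^ k := by
    have h5 : δ ^ al ≤ (1 / 2) ^ (k - 1) := by
      calc δ ^ al ≤ (l ^ (k - 1)) ^ al :=
            Real.rpow_le_rpow hδ0.le (hδd.trans hk2) al_pos.le
        _ = (l ^ al) ^ (k - 1) := by
            rw [← Real.rpow_natCast l, ← Real.rpow_mul hl.le, mul_comm, Real.rpow_mul hl.le,
              Real.rpow_natCast]
        _ = (1 / 2) ^ (k - 1) := by rw [l_rpow]
    have h6 : (3:ℝ) / 2 ^ k = 3 / 2 * (1 / 2) ^ (k - 1) := by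
      obtain ⟨j, hj⟩ : ∃ j, k = j + 1 := ⟨k - 1, by omega⟩
      rw [hj, Nat.add_sub_cancel, pow_succ, one_div, inv_pow]
      field_simp
    have h7 : (3:ℝ) / 2 ^ k ≤ (3 + (2 * l) ^ (k - 1)) / 2 ^ k := by
      have : 0 ≤ (2 * l) ^ (k - 1) := by positivity
      gcongr
      linarith
    linarith
  linarith

end Pool.Agent.H283R3.Tre
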