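import Pool.Agent.H283R3.Tre6

open Set Filter Topology

namespace Pool.Agent.H283R3.Tre

lemma pos_close {θ η : Th} (h : Bd θ) (h' : Bd η) {δ : ℝ} (hδ0 : 0 ≤ δ) {N : ℕ}
    (hδ : ∀ u : List Bool, u.length < N → |θ u - η u| ≤ δ) (w : List Bool) :
    |pos w θ - pos w η| ≤ 9 / 8 * δ + 9 / 8 * l ^ N := by
  have hl := l_pos
  have hl2 := l_le
  induction w generalizing θ η N with
  | nil => simp only [pos, sub_self, abs_zero]; positivity
  | cons b w ih =>
    cases N with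
    | zero =>
      have := pos_sub_abs h h' (b :: w) (b :: w)
      rw [pow_zero]
      linarith
    | succ N =>
      have h1 := ih (h.sub b) (h'.sub b) (N := N) (fun u hu => hδ (b :: u) (by simp; omega))
      have h2 := (exp_lip (h []) (h' [])).trans
        (mul_le_mul_of_nonneg_left (hδ [] (by simp)) (by norm_num))
      have h3 : |l * (pos w (sub θ b) - pos w (sub η b))| ≤ l * (9 / 8 * δ + 9 / 8 * l ^ N) := by
        rw [abs_mul, abs_of_pos hl]
        gcongr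
      have h4 : l * (9 / 8 * δ + 9 / 8 * l ^ N) ≤ 1 / 1000 * (9 / 8 * δ) + 9 / 8 * l ^ (N + 1) := by
        rw [pow_succ]
        nlinarith
      simp only [pos]
      rw [abs_le] at h2 h3 ⊢
      split_ifs <;> constructor <;> linarith [h2.1, h2.2, h3.1, h3.2]

lemma pos_zs (m : ℕ) (θ : Th) : pos (zs m) θ = 0 := by
  induction m generalizing θ with
  | zero => rfl
  | succ m ih =>
    have : zs (m + 1) = false :: zs m := rfl
    rw [this, pos, ih]
    simp

lemma pos_append_zs (w : List Bool) (m : ℕ) (θ : Th) : pos (w ++ zs m) θ = pos w θ := by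
  induction w generalizing θ with
  | nil => rw [List.nil_append, pos_zs]; rfl
  | cons b w ih => rw [List.cons_append, pos, pos, ih]

lemma trunc {θ : Th} (h : Bd θ) (w0 : List Bool) (s : ℕ) :
    ∃ w : List Bool, w.length = s ∧ |pos w0 θ - pos w θ| ≤ 9 / 8 * l ^ s := by
  by_cases hs : s ≤ w0.length
  · refine ⟨w0.take s, by rw [List.length_take]; omega, ?_⟩
    have h1 := pos_osc h (w0.take s) (w0.drop s) []
    rw [List.take_append_drop, List.append_nil, List.length_take, min_eq_left hs] at h1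
    linarith
  · refine ⟨w0 ++ zs (s - w0.length), by simp [zs]; omega, ?_⟩
    rw [pos_append_zs, sub_self, abs_zero]
    have := l_pos
    positivity

lemma subseq (t : ℕ → Th) (ht : ∀ n, Bd (t n)) :
    ∃ φ : ℕ → ℕ, StrictMono φ ∧ ∃ θ, Bd θ ∧ ∀ u, Tendsto (fun n => t (φ n) u) atTop (𝓝 (θ u)) := by
  have hc : IsCompact (Set.univ.pi (fun _ : List Bool => Icc (-(1 / 10) : ℝ) (1 / 10))) :=
    isCompact_univ_pi fun _ => isCompact_Icc
  obtain ⟨θ, hθ, φ, hφ, hlim⟩ := hc.tendsto_subseq (x := t) (fun n u _ => abs_le.1 (ht n u))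
  refine ⟨φ, hφ, θ, fun u => abs_le.2 (hθ u (mem_univ u)), fun u => ?_⟩
  exact (tendsto_pi_nhds.1 hlim) u

lemma unif {t : ℕ → Th} (ht : ∀ n, Bd (t n)) {θ : Th} (h : Bd θ)
    (hlim : ∀ u, Tendsto (fun n => t n u) atTop (𝓝 (θ u))) {η : ℝ} (hη : 0 < η) :
    ∀ᶠ n in atTop, ∀ w, |pos w (t n) - pos w θ| ≤ η := by
  have hl := l_pos
  obtain ⟨N, hN⟩ : ∃ N : ℕ, 9 / 8 * l ^ N < η / 2 := by
    have h1 : Tendsto (fun N : ℕ => 9 / 8 * l ^ N) atTop (𝓝 0) := by
      have := (tendsto_pow_atTop_nhds_zero_of_lt_one hl.le (by linarith [l_le] : l < 1)).const_mul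
        (9 / 8)
      simpa using this
    exact (h1.eventually (gt_mem_nhds (by positivity))).exists
  have h2 : ∀ᶠ n in atTop, ∀ u ∈ (Finset.range N).biUnion words, |t n u - θ u| ≤ 4 / 9 * η := by
    rw [Filter.eventually_all_finset]
    intro u _
    have h3 := (hlim u).sub_const (θ u)
    rw [sub_self] at h3
    have h4 := h3.abs
    rw [abs_zero] at h4
    filter_upwards [h4.eventually (gt_mem_nhds (by positivity : 0 < 4 / 9 * η))] with n hn using hn.le
  filter_upwards [h2] with n hn w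
  have h5 := pos_close (ht n) h (by positivity : 0 ≤ 4 / 9 * η) (N := N) (fun u hu => hn u (by
    rw [Finset.mem_biUnion]
    exact ⟨u.length, Finset.mem_range.2 hu, mem_words.2 rfl⟩)) w
  linarith

/-- the data produced by the construction -/
structure Dat where
  s : ℕ → ℕ
  t : ℕ → Th
  κ : ℕ → ℝ
  θ : Th
  hs : Tendsto s atTop atTop
  ht : ∀ n, Bd (t n)
  hκ : ∀ n, ∀ w : List Bool, w.length = s n → |D (s n) (t n) w - κ n| ≤ (1 / 2) ^ (s n)
  h : Bd θ
  lim : ∀ u, Tendsto (fun n => t n u) atTop (𝓝 (θ u))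

lemma exists_dat : Nonempty Dat := by
  choose t ht κ hκ using fun n : ℕ => level (show 1 ≤ n + 1 by omega)
  obtain ⟨φ, hφ, θ, hθ, hlim⟩ := subseq t ht
  exact ⟨⟨fun n => φ n + 1, fun n => t (φ n), fun n => κ (φ n), θ,
    (tendsto_add_atTop_nat 1).comp hφ.tendsto_atTop, fun n => ht _, fun n => hκ _, hθ, hlim⟩⟩

/-- the Cantor set -/
def K (d : Dat) : Set ℝ := closure (range fun w => pos w d.θ)

lemma K_compact (d : Dat) : IsCompact (K d) := by
  apply isCompact_Icc.of_isClosed_subset isClosed_closure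
    (closure_minimal _ (isClosed_Icc (a := (0:ℝ)) (b := 9 / 8)))
  rintro _ ⟨w, rfl⟩
  exact ⟨pos_nonneg _ _, pos_le d.h _⟩

lemma K_nonempty (d : Dat) : (K d).Nonempty := ⟨_, subset_closure ⟨[], rfl⟩⟩

/-- complex version -/
def KC (d : Dat) : Set ℂ := (fun x : ℝ => (x : ℂ)) '' K d

lemma KC_compact (d : Dat) : IsCompact (KC d) := (K_compact d).image Complex.continuous_ofReal

/-- closeness of level `n` leaves and `K` -/
structure Cl (d : Dat) (n : ℕ) (η : ℝ) : Prop where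
  a : ∀ w, |pos w (d.t n) - pos w d.θ| ≤ η
  b : 9 / 8 * l ^ (d.s n) ≤ η

lemma ev_Cl (d : Dat) {η : ℝ} (hη : 0 < η) : ∀ᶠ n in atTop, Cl d n η := by
  have hl := l_pos
  have h1 : Tendsto (fun N : ℕ => 9 / 8 * l ^ N) atTop (𝓝 0) := by
    have := (tendsto_pow_atTop_nhds_zero_of_lt_one hl.le (by linarith [l_le] : l < 1)).const_mul
      (9 / 8)
    simpa using this
  have h2 := (h1.comp d.hs).eventually (gt_mem_nhds hη)
  filter_upwards [unif d.ht d.h d.lim hη, h2] with n hn hn2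
  exact ⟨hn, hn2.le⟩

lemma Cl.leaf {d : Dat} {n : ℕ} {η : ℝ} (h : Cl d n η) (hη : 0 < η) {x : ℝ} (hx : x ∈ K d) :
    ∃ w : List Bool, w.length = d.s n ∧ |x - pos w (d.t n)| ≤ 3 * η := by
  obtain ⟨_, ⟨w0, rfl⟩, hw0⟩ := Metric.mem_closure_iff.1 hx η hη
  obtain ⟨w, hw, hw1⟩ := trunc d.h w0 (d.s n)
  refine ⟨w, hw, ?_⟩
  rw [Real.dist_eq] at hw0
  have h1 := h.a w
  have h2 := h.b
  rw [abs_lt] at hw0
  rw [abs_le] at hw1 h1 ⊢
  constructor <;> linarith [hw0.1, hw0.2, hw1.1, hw1.2, h1.1, h1.2]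

lemma Cl.far {d : Dat} {n : ℕ} {η : ℝ} (h : Cl d n η) (z : ℂ) (w : List Bool) :
    Metric.infDist z (KC d) - η ≤ ‖z - (pos w (d.t n) : ℂ)‖ := by
  have h1 : Metric.infDist z (KC d) ≤ dist z (pos w d.θ : ℂ) :=
    Metric.infDist_le_dist_of_mem ⟨_, subset_closure ⟨w, rfl⟩, rfl⟩
  rw [dist_eq_norm] at h1
  have h2 : ‖z - (pos w d.θ : ℂ)‖ ≤ ‖z - (pos w (d.t n) : ℂ)‖ + η := by
    have h3 : z - (pos w d.θ : ℂ) = (z - (pos w (d.t n) : ℂ)) +
      ((pos w (d.t n) - pos w d.θ : ℝ) : ℂ) := by push_cast; ring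
    rw [h3]
    refine (norm_add_le _ _).trans ?_
    rw [Complex.norm_real, Real.norm_eq_abs]
    have := h.a w
    linarith
  linarith

lemma Cl.near {d : Dat} {n : ℕ} {η : ℝ} (h : Cl d n η) (hη : 0 < η) (z : ℂ) :
    ∃ w : List Bool, w.length = d.s n ∧
      ‖z - (pos w (d.t n) : ℂ)‖ ≤ Metric.infDist z (KC d) + 4 * η := by
  have hne : (KC d).Nonempty := (K_nonempty d).image _
  obtain ⟨_, ⟨x, hx, rfl⟩, hxd⟩ := (Metric.infDist_lt_iff hne).1
    (show Metric.infDist z (KC d) < Metric.infDist z (KC d) + η by linarith)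
  obtain ⟨w, hw, hw1⟩ := h.leaf hη hx
  refine ⟨w, hw, ?_⟩
  rw [dist_eq_norm] at hxd
  have h3 : z - (pos w (d.t n) : ℂ) = (z - (x : ℂ)) + ((x - pos w (d.t n) : ℝ) : ℂ) := by
    push_cast; ring
  rw [h3]
  refine (norm_add_le _ _).trans ?_
  rw [Complex.norm_real, Real.norm_eq_abs]
  have hxd' : ‖z - (x : ℂ)‖ < Metric.infDist z (KC d) + η := hxd
  linarith

lemma lim_half (d : Dat) (a b : ℝ) :
    Tendsto (fun n => (a * (d.s n : ℝ) + b) * (1 / 2) ^ (d.s n)) atTop (𝓝 0) := by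
  have h1 : Tendsto (fun s : ℕ => (s : ℝ) * (1 / 2) ^ s) atTop (𝓝 0) :=
    tendsto_self_mul_const_pow_of_lt_one (by norm_num) (by norm_num)
  have h2 : Tendsto (fun s : ℕ => (1 / 2 : ℝ) ^ s) atTop (𝓝 0) :=
    tendsto_pow_atTop_nhds_zero_of_lt_one (by norm_num) (by norm_num)
  have h3 := (h1.const_mul a).add (h2.const_mul b)
  simp only [mul_zero, add_zero] at h3
  have h4 : (fun s : ℕ => a * ((s : ℝ) * (1 / 2) ^ s) + b * (1 / 2 : ℝ) ^ s) =
      fun s : ℕ => (a * (s : ℝ) + b) * (1 / 2) ^ s := by ext s; ring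
  rw [h4] at h3
  exact h3.comp d.hs

lemma rpow_cont (a : ℝ) : Continuous fun x : ℝ => (a + x) ^ al := by
  have := al_pos
  exact (continuous_const.add continuous_id).rpow_const (fun _ => Or.inr this.le)

/-- lower half of the statement -/
theorem lower_final (d : Dat) {z : ℂ} (h0 : 0 < Metric.infDist z (KC d))
    (h1 : Metric.infDist z (KC d) < 1 / 2) {t : ℝ} (ht : t < 1 * (Metric.infDist z (KC d)) ^ al) :
    ∃ p : Polynomial ℂ, 1 ≤ p.natDegree ∧ (∀ x ∈ K d, ‖p.eval (x : ℂ)‖ ≤ 1) ∧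
      t < Real.log ‖p.eval z‖ / (p.natDegree : ℝ) := by
  set δ := Metric.infDist z (KC d) with hδ
  have hL := L_ge
  have hal := al_pos
  -- choice of η
  have hcont : Tendsto (fun η : ℝ => 3 / 2 * (δ + (-η)) ^ al - 2 * (L + 3) * (0 + 3 * η) ^ al)
      (𝓝[>] 0) (𝓝 (3 / 2 * (δ + (-0)) ^ al - 2 * (L + 3) * (0 + 3 * 0) ^ al)) := by
    apply tendsto_nhdsWithin_of_tendsto_nhds
    have c1 : Continuous fun η : ℝ => 3 / 2 * (δ + (-η)) ^ al - 2 * (L + 3) * (0 + 3 * η) ^ al :=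
      (continuous_const.mul ((rpow_cont δ).comp continuous_neg)).sub
        (continuous_const.mul ((rpow_cont 0).comp (continuous_const.mul continuous_id)))
    exact c1.tendsto 0
  have hval : 3 / 2 * (δ + (-0)) ^ al - 2 * (L + 3) * (0 + 3 * 0) ^ al = 3 / 2 * δ ^ al := by
    rw [neg_zero, add_zero, mul_zero, add_zero, Real.zero_rpow hal.ne']; ring
  rw [hval] at hcont
  have hpos : 0 < δ ^ al := Real.rpow_pos_of_pos h0 _
  have ev1 := hcont.eventually (lt_mem_nhds (show t < 3 / 2 * δ ^ al by linarith))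
  have ev2 : ∀ᶠ η : ℝ in 𝓝[>] 0, η < min (δ / 2) (1 / 16) :=
    mem_nhdsWithin_of_mem_nhds (gt_mem_nhds (by positivity))
  obtain ⟨η, hη1, hη2, hη0⟩ := (ev1.and (ev2.and self_mem_nhdsWithin)).exists
  have hη0' : 0 < η := hη0
  have hηδ : η < δ / 2 := hη2.trans_le (min_le_left _ _)
  have hη16 : η < 1 / 16 := hη2.trans_le (min_le_right _ _)
  rw [zero_add] at hη1
  -- choice of the level
  have ev3 := (lim_half d L (L + 2)).eventually
    (gt_mem_nhds (sub_pos.2 hη1))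
  have ev4 : ∀ᶠ n in atTop, l ^ (d.s n) < δ / 2 := by
    have := (tendsto_pow_atTop_nhds_zero_of_lt_one l_pos.le (by linarith [l_le] : l < 1)).comp d.hs
    exact this.eventually (gt_mem_nhds (by positivity))
  obtain ⟨n, hn1, hn2, hn3⟩ := (ev3.and (ev4.and (ev_Cl d hη0'))).exists
  have hz : ∀ w : List Bool, w.length = d.s n → δ + -η ≤ ‖z - (pos w (d.t n) : ℂ)‖ :=
    fun w _ => by have := hn3.far z w; linarith
  have hz' : ∀ w : List Bool, w.length = d.s n → z ≠ (pos w (d.t n) : ℂ) := by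
    intro w hw he
    have := hz w hw
    rw [he, sub_self, norm_zero] at this
    linarith
  obtain ⟨w, hw, hw1⟩ := hn3.near hη0' z
  have hlow := low (d.ht n) (d.hκ n) (δ := δ + -η) (by linarith) hz hw (by linarith)
  set B := d.κ n + (1 / 2) ^ (d.s n) + 2 * (L + 3) * (3 * η) ^ al with hB
  have h2s : (0:ℝ) < 2 ^ (d.s n) := by positivity
  refine ⟨Polynomial.C ((Real.exp (-(2 ^ (d.s n) * B)) : ℝ) : ℂ) * P (d.s n) (d.t n), ?_, ?_, ?_⟩
  · rw [Polynomial.natDegree_C_mul (by exact_mod_cast (Real.exp_pos _).ne'), P_deg]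
    exact Nat.one_le_two_pow
  · intro x hx
    rw [Polynomial.eval_mul, Polynomial.eval_C, norm_mul, Complex.norm_real,
      Real.norm_of_nonneg (Real.exp_pos _).le]
    by_cases hleaf : ∃ w : List Bool, w.length = d.s n ∧ (x : ℂ) = (pos w (d.t n) : ℂ)
    · obtain ⟨w, hw, he⟩ := hleaf
      rw [P_zero _ hw he, norm_zero, mul_zero]
      exact zero_le_one
    · push Not at hleaf
      rw [P_norm _ hleaf, ← Real.exp_add]
      apply Real.exp_le_one_iff.2
      obtain ⟨w, hw, hw1⟩ := hn3.leaf hη0' hx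
      have hnorm : ‖(x : ℂ) - (pos w (d.t n) : ℂ)‖ = |x - pos w (d.t n)| := by
        rw [← Complex.ofReal_sub, Complex.norm_real, Real.norm_eq_abs]
      have hup := up (d.ht n) (d.hκ n) hleaf hw (by rw [hnorm]; linarith)
      rw [hnorm] at hup
      have h3 : |x - pos w (d.t n)| ^ al ≤ (3 * η) ^ al :=
        Real.rpow_le_rpow (abs_nonneg _) hw1 hal.le
      have h4 : V (d.s n) (d.t n) x ≤ B := by
        rw [hB]
        have : 2 * (L + 3) * |x - pos w (d.t n)| ^ al ≤ 2 * (L + 3) * (3 * η) ^ al := by gcongr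
        linarith
      nlinarith
  · rw [Polynomial.natDegree_C_mul (by exact_mod_cast (Real.exp_pos _).ne'), P_deg,
      Polynomial.eval_mul, Polynomial.eval_C, norm_mul, Complex.norm_real,
      Real.norm_of_nonneg (Real.exp_pos _).le, P_norm _ hz', ← Real.exp_add, Real.log_exp]
    push_cast
    rw [lt_div_iff₀ h2s]
    have h5 : t < V (d.s n) (d.t n) z - B := by
      rw [hB]
      linarith
    nlinarith

lemma floor_lim (d : Dat) {N : ℕ} (hN : 1 ≤ N) :
    Tendsto (fun n => (((2 ^ (d.s n) - 1) / N : ℕ) : ℝ) / 2 ^ (d.s n)) atTop (𝓝 (1 / (N:ℝ))) := by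
  have hN0 : (0:ℝ) < N := by exact_mod_cast hN
  have h2 : Tendsto (fun n => (1 / 2 : ℝ) ^ (d.s n)) atTop (𝓝 0) :=
    (tendsto_pow_atTop_nhds_zero_of_lt_one (by norm_num) (by norm_num)).comp d.hs
  have h3 : Tendsto (fun n => 1 / (N:ℝ) - 2 * (1 / 2 : ℝ) ^ (d.s n)) atTop (𝓝 (1 / (N:ℝ))) := by
    have := (h2.const_mul 2).const_sub (1 / (N:ℝ))
    simpa using this
  apply tendsto_of_tendsto_of_tendsto_of_le_of_le h3 tendsto_const_nhds
  · intro n
    simp only
    have hp : (0:ℝ) < 2 ^ (d.s n) := by positivity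
    rw [le_div_iff₀ hp]
    have h4 : 2 ^ (d.s n) ≤ N * ((2 ^ (d.s n) - 1) / N) + N := by
      have h5 := Nat.lt_mul_div_succ (2 ^ (d.s n) - 1) (show 0 < N by omega)
      have h6 : 1 ≤ 2 ^ (d.s n) := Nat.one_le_two_pow
      rw [mul_add, mul_one] at h5
      omega
    have h4' : (2:ℝ) ^ (d.s n) ≤ N * (((2 ^ (d.s n) - 1) / N : ℕ) : ℝ) + N := by exact_mod_cast h4
    have h7 : (1 / 2 : ℝ) ^ (d.s n) * 2 ^ (d.s n) = 1 := by rw [← mul_pow]; norm_num
    have h8 : (1 / (N:ℝ) - 2 * (1 / 2 : ℝ) ^ (d.s n)) * 2 ^ (d.s n) = 2 ^ (d.s n) / N - 2 := by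
      rw [sub_mul, mul_assoc, h7]; ring
    rw [h8]
    have h9 : (2:ℝ) ^ (d.s n) / N ≤ (((2 ^ (d.s n) - 1) / N : ℕ) : ℝ) + 1 := by
      rw [div_le_iff₀ hN0]; linarith
    linarith
  · intro n
    simp only
    have hp : (0:ℝ) < 2 ^ (d.s n) := by positivity
    rw [div_le_iff₀ hp]
    have h4 : N * ((2 ^ (d.s n) - 1) / N) ≤ 2 ^ (d.s n) :=
      (Nat.mul_div_le _ _).trans (Nat.sub_le _ _)
    have h4' : N * (((2 ^ (d.s n) - 1) / N : ℕ) : ℝ) ≤ (2:ℝ) ^ (d.s n) := by exact_mod_cast h4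
    rw [one_div, inv_mul_eq_div, le_div_iff₀ hN0]
    linarith

/-- upper half with a tolerance -/
lemma upper_tol (d : Dat) {z : ℂ} (h0 : 0 < Metric.infDist z (KC d))
    (h1 : Metric.infDist z (KC d) < 1 / 2) {p : Polynomial ℂ} (hp : 1 ≤ p.natDegree)
    (hpK : ∀ x ∈ K d, ‖p.eval (x : ℂ)‖ ≤ 1) (hpz : p.eval z ≠ 0) {ρ : ℝ} (hρ : 0 < ρ)
    (hρ1 : ρ < 1 / 16) :
    Real.log ‖p.eval z‖ / (p.natDegree : ℝ) ≤
      Real.log (1 + ρ) / (p.natDegree : ℝ) + 2 * (L + 3) * (Metric.infDist z (KC d) + 4 * ρ) ^ al := by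
  set δ := Metric.infDist z (KC d) with hδ
  set N := p.natDegree with hN
  have hL := L_ge
  -- tolerance of p
  have hopen : IsOpen {y : ℂ | ‖p.eval y‖ < 1 + ρ} :=
    isOpen_lt (by fun_prop) continuous_const
  obtain ⟨η1, hη1, hthick⟩ := (KC_compact d).exists_thickening_subset_open hopen (by
    rintro _ ⟨x, hx, rfl⟩
    have := hpK x hx
    show ‖p.eval (x : ℂ)‖ < 1 + ρ
    linarith)
  set η := min (η1 / 2) (min ρ (δ / 2)) with hη
  have hη0 : 0 < η := by positivity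
  have hηη1 : η < η1 := lt_of_le_of_lt (min_le_left _ _) (by linarith)
  have hηρ : η ≤ ρ := (min_le_right _ _).trans (min_le_left _ _)
  have hηδ : η ≤ δ / 2 := (min_le_right _ _).trans (min_le_right _ _)
  -- inequality at level n
  have hlev : ∀ᶠ n in atTop, (((2 ^ (d.s n) - 1) / N : ℕ) : ℝ) / 2 ^ (d.s n) *
      (Real.log ‖p.eval z‖ - Real.log (1 + ρ)) ≤
      (Real.log 2 * (d.s n : ℝ) + (2 - Real.log (δ / 2))) * (1 / 2) ^ (d.s n) +
        2 * (L + 3) * (δ + 4 * ρ) ^ al := by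
    filter_upwards [ev_Cl d hη0] with n hn
    set s := d.s n with hs
    set j := (2 ^ s - 1) / N with hj
    have hz : ∀ w : List Bool, w.length = s → δ / 2 ≤ ‖z - (pos w (d.t n) : ℂ)‖ :=
      fun w _ => by have := hn.far z w; linarith
    have hz' : ∀ w : List Bool, w.length = s → z ≠ (pos w (d.t n) : ℂ) := by
      intro w hw he
      have := hz w hw
      rw [he, sub_self, norm_zero] at this
      linarith
    obtain ⟨w, hw, hw1⟩ := hn.near hη0 z
    have hup := up (d.ht n) (d.hκ n) hz' hw (by linarith)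
    have hM : ∀ w : List Bool, w.length = s →
        ‖(p ^ j).eval (pos w (d.t n) : ℂ)‖ ≤ (1 + ρ) ^ j := by
      intro w _
      rw [Polynomial.eval_pow, norm_pow]
      have h3 : ‖p.eval (pos w (d.t n) : ℂ)‖ < 1 + ρ := by
        apply hthick
        rw [Metric.mem_thickening_iff]
        refine ⟨(pos w d.θ : ℂ), ⟨_, subset_closure ⟨w, rfl⟩, rfl⟩, ?_⟩
        rw [dist_eq_norm, ← Complex.ofReal_sub, Complex.norm_real, Real.norm_eq_abs]
        exact (hn.a w).trans_lt hηη1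
      gcongr
    have hdeg : (p ^ j).natDegree < 2 ^ s := by
      rw [Polynomial.natDegree_pow]
      have h4 : j * N ≤ 2 ^ s - 1 := Nat.div_mul_le_self (2 ^ s - 1) N
      have h5 : 1 ≤ 2 ^ s := Nat.one_le_two_pow
      rw [← hN]
      exact lt_of_le_of_lt h4 (by omega)
    have hlag := lagr (d.ht n) (d.hκ n) hdeg hM (by positivity : 0 < δ / 2) hz
    rw [Polynomial.eval_pow, norm_pow] at hlag
    have hpz0 : 0 < ‖p.eval z‖ := norm_pos_iff.2 hpz
    have hlog := Real.log_le_log (by positivity) hlag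
    have hδ2 : 0 < δ / 2 := by positivity
    rw [Real.log_pow, Real.log_mul (by positivity) (by positivity), Real.log_pow,
      Real.log_mul (by positivity) (by positivity), Real.log_pow,
      Real.log_div (by positivity) hδ2.ne', Real.log_exp] at hlog
    have h2s : (0:ℝ) < 2 ^ s := by positivity
    have h7 : (1 / 2 : ℝ) ^ s * 2 ^ s = 1 := by rw [← mul_pow]; norm_num
    have h8 : ‖z - (pos w (d.t n) : ℂ)‖ ^ al ≤ (δ + 4 * ρ) ^ al :=
      Real.rpow_le_rpow (norm_nonneg _) (by linarith) al_pos.le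
    have h9 : V s (d.t n) z - d.κ n ≤ (1 / 2) ^ s + 2 * (L + 3) * (δ + 4 * ρ) ^ al := by
      have : 2 * (L + 3) * ‖z - (pos w (d.t n) : ℂ)‖ ^ al ≤ 2 * (L + 3) * (δ + 4 * ρ) ^ al := by
        gcongr
      linarith
    have h10 : 2 ^ s * (V s (d.t n) z - d.κ n) ≤
        2 ^ s * ((1 / 2) ^ s + 2 * (L + 3) * (δ + 4 * ρ) ^ al) := by gcongr
    rw [div_mul_eq_mul_div, div_le_iff₀ h2s]
    have h11 : ((Real.log 2 * (s : ℝ) + (2 - Real.log (δ / 2))) * (1 / 2) ^ s +
        2 * (L + 3) * (δ + 4 * ρ) ^ al) * 2 ^ s =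
        (Real.log 2 * (s : ℝ) + (2 - Real.log (δ / 2))) + 2 ^ s * (2 * (L + 3) * (δ + 4 * ρ) ^ al) := by
      rw [add_mul, mul_assoc _ ((1 / 2 : ℝ) ^ s), h7]; ring
    rw [h11]
    have h12 : 2 ^ s * ((1 / 2 : ℝ) ^ s + 2 * (L + 3) * (δ + 4 * ρ) ^ al) =
        1 + 2 ^ s * (2 * (L + 3) * (δ + 4 * ρ) ^ al) := by
      rw [mul_add, mul_comm ((2:ℝ) ^ s) ((1 / 2) ^ s), h7]
    rw [h12] at h10
    linarith
  have hlim1 := (floor_lim d hp).mul_const (Real.log ‖p.eval z‖ - Real.log (1 + ρ))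
  have hlim2 := (lim_half d (Real.log 2) (2 - Real.log (δ / 2))).add_const
    (2 * (L + 3) * (δ + 4 * ρ) ^ al)
  have hfin := le_of_tendsto_of_tendsto hlim1 hlim2 hlev
  rw [zero_add] at hfin
  have : 1 / (N:ℝ) * (Real.log ‖p.eval z‖ - Real.log (1 + ρ)) =
      Real.log ‖p.eval z‖ / N - Real.log (1 + ρ) / N := by ring
  rw [this] at hfin
  linarith

/-- upper half of the statement -/
theorem upper_final (d : Dat) {z : ℂ} (h0 : 0 < Metric.infDist z (KC d))
    (h1 : Metric.infDist z (KC d) < 1 / 2) {p : Polynomial ℂ} (hp : 1 ≤ p.natDegree)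
    (hpK : ∀ x ∈ K d, ‖p.eval (x : ℂ)‖ ≤ 1) :
    Real.log ‖p.eval z‖ / (p.natDegree : ℝ) ≤ 2 * (L + 3) * (Metric.infDist z (KC d)) ^ al := by
  have hL := L_ge
  by_cases hpz : p.eval z = 0
  · rw [hpz, norm_zero, Real.log_zero, zero_div]
    positivity
  set δ := Metric.infDist z (KC d) with hδ
  have hc : Tendsto (fun ρ : ℝ => Real.log (1 + ρ) / (p.natDegree : ℝ) +
      2 * (L + 3) * (δ + 4 * ρ) ^ al) (𝓝[>] 0)
      (𝓝 (Real.log (1 + 0) / (p.natDegree : ℝ) + 2 * (L + 3) * (δ + 4 * 0) ^ al)) := by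
    apply tendsto_nhdsWithin_of_tendsto_nhds
    apply Tendsto.add
    · apply Tendsto.div_const
      exact ((Real.continuousAt_log (by norm_num : (1:ℝ) + 0 ≠ 0)).comp
        (continuous_const.add continuous_id).continuousAt).tendsto
    · exact (continuous_const.mul ((rpow_cont δ).comp
        (continuous_const.mul continuous_id))).tendsto 0
  have h2 : Real.log (1 + 0) / (p.natDegree : ℝ) + 2 * (L + 3) * (δ + 4 * 0) ^ al =
      2 * (L + 3) * δ ^ al := by simp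
  rw [h2] at hc
  apply ge_of_tendsto hc
  have ev : ∀ᶠ ρ : ℝ in 𝓝[>] 0, ρ < 1 / 16 :=
    mem_nhdsWithin_of_mem_nhds (gt_mem_nhds (by norm_num))
  filter_upwards [ev, self_mem_nhdsWithin] with ρ h3 h4
  exact upper_tol d h0 h1 hp hpK hpz h4 h3

end Pool.Agent.H283R3.Tre
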