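import Mathlib

open MeasureTheory Set intervalIntegral

namespace Pool.Agent.H283R3.Wid

lemma cos_level_countable (s : ℝ) : {θ : ℝ | Real.cos θ = s}.Countable := by
  by_cases hs : ∃ θ₀, Real.cos θ₀ = s
  · obtain ⟨θ₀, h0⟩ := hs
    have hsub : {θ : ℝ | Real.cos θ = s} ⊆
        (Set.range fun k : ℤ => 2 * (k:ℝ) * Real.pi + θ₀) ∪
          (Set.range fun k : ℤ => 2 * (k:ℝ) * Real.pi - θ₀) := by
      intro θ hθ
      have h1 : Real.cos θ₀ = Real.cos θ := by rw [h0]; exact hθ.symm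
      rw [Real.cos_eq_cos_iff] at h1
      obtain ⟨k, hk | hk⟩ := h1
      · exact Or.inl ⟨k, hk.symm⟩
      · exact Or.inr ⟨k, hk.symm⟩
    exact ((Set.countable_range _).union (Set.countable_range _)).mono hsub
  · have : {θ : ℝ | Real.cos θ = s} = ∅ := by
      ext θ
      simp only [mem_ofPred_eq, mem_empty_iff_false, iff_false]
      intro h
      exact hs ⟨θ, h⟩
    rw [this]
    exact Set.countable_empty

lemma ae_cos_ne (t : ℝ) : ∀ᵐ θ : ℝ, t - 2 * Real.cos θ ≠ 0 := by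
  have h := (cos_level_countable (t / 2)).ae_notMem (volume : Measure ℝ)
  filter_upwards [h] with θ hθ h0
  apply hθ
  show Real.cos θ = t / 2
  linarith

lemma log_eq_sum {t : ℝ} {a : ℂ} (ha : a ≠ 0) (hat : a + a⁻¹ = t) {θ : ℝ}
    (hne : t - 2 * Real.cos θ ≠ 0) :
    Real.log (abs (t - 2 * Real.cos θ)) =
      Real.log ‖circleMap 0 1 θ - a‖ + Real.log ‖circleMap 0 1 θ - a⁻¹‖ := by
  set z : ℂ := circleMap 0 1 θ with hz
  have hz1 : z = Complex.exp (θ * Complex.I) := by simp [hz, circleMap]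
  have hz0 : z ≠ 0 := by rw [hz1]; exact Complex.exp_ne_zero _
  have hzn : ‖z‖ = 1 := by rw [hz1]; exact Complex.norm_exp_ofReal_mul_I θ
  have hcos : (2 * Complex.cos θ : ℂ) = z + z⁻¹ := by
    rw [hz1, ← Complex.exp_neg, Complex.cos]
    ring_nf
  have key : ((t - 2 * Real.cos θ : ℝ) : ℂ) = -((z - a) * (z - a⁻¹)) * z⁻¹ := by
    push_cast
    rw [hcos, ← hat]
    field_simp
    ring
  have hn : abs (t - 2 * Real.cos θ) = ‖z - a‖ * ‖z - a⁻¹‖ := by
    have h2 : ‖((t - 2 * Real.cos θ : ℝ) : ℂ)‖ = abs (t - 2 * Real.cos θ) := by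
      rw [Complex.norm_real, Real.norm_eq_abs]
    rw [← h2, key, norm_mul, norm_neg, norm_mul, norm_inv, hzn]
    simp
  have hpos : 0 < ‖z - a‖ * ‖z - a⁻¹‖ := by
    rw [← hn]; exact abs_pos.2 hne
  have h1 : ‖z - a‖ ≠ 0 := left_ne_zero_of_mul hpos.ne'
  have h2 : ‖z - a⁻¹‖ ≠ 0 := right_ne_zero_of_mul hpos.ne'
  rw [hn, Real.log_mul h1 h2]

lemma circ {t : ℝ} {a : ℂ} (ha : a ≠ 0) (hat : a + a⁻¹ = t) :
    IntervalIntegrable (fun θ => Real.log (abs (t - 2 * Real.cos θ))) volume 0 (2 * Real.pi) ∧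
    ∫ θ in (0:ℝ)..(2 * Real.pi), Real.log (abs (t - 2 * Real.cos θ)) =
      2 * Real.pi * (Real.posLog ‖a‖ + Real.posLog ‖a⁻¹‖) := by
  have hi : ∀ b : ℂ, IntervalIntegrable (fun θ => Real.log ‖circleMap 0 1 θ - b‖) volume 0
      (2 * Real.pi) := fun b => circleIntegrable_log_norm_sub_const (a := b) (c := 0) 1
  have hv : ∀ b : ℂ, ∫ θ in (0:ℝ)..(2 * Real.pi), Real.log ‖circleMap 0 1 θ - b‖ =
      2 * Real.pi * Real.posLog ‖b‖ := by
    intro b
    have h := circleAverage_log_norm_sub_const_eq_posLog (a := b)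
    rw [Real.circleAverage] at h
    rw [smul_eq_mul] at h
    have hp := Real.pi_pos
    rw [← h]
    field_simp
  have hae : ∀ᵐ θ : ℝ, Real.log (abs (t - 2 * Real.cos θ)) =
      Real.log ‖circleMap 0 1 θ - a‖ + Real.log ‖circleMap 0 1 θ - a⁻¹‖ := by
    filter_upwards [ae_cos_ne t] with θ hθ using log_eq_sum ha hat hθ
  constructor
  · refine ((hi a).add (hi a⁻¹)).congr_ae ?_
    exact ae_restrict_of_ae (by filter_upwards [hae] with θ hθ using hθ.symm)
  · rw [intervalIntegral.integral_congr_ae (g := fun θ => Real.log ‖circleMap 0 1 θ - a‖ +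
      Real.log ‖circleMap 0 1 θ - a⁻¹‖) (by filter_upwards [hae] with θ hθ _ using hθ)]
    rw [intervalIntegral.integral_add (hi a) (hi a⁻¹), hv, hv]
    ring

lemma half {t : ℝ} {a : ℂ} (ha : a ≠ 0) (hat : a + a⁻¹ = t) :
    IntervalIntegrable (fun θ => Real.log (abs (t - 2 * Real.cos θ))) volume 0 Real.pi ∧
    ∫ θ in (0:ℝ)..Real.pi, Real.log (abs (t - 2 * Real.cos θ)) =
      Real.pi * (Real.posLog ‖a‖ + Real.posLog ‖a⁻¹‖) := by
  obtain ⟨h1, h2⟩ := circ ha hat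
  have hp := Real.pi_pos
  have i1 : IntervalIntegrable (fun θ => Real.log (abs (t - 2 * Real.cos θ))) volume 0 Real.pi := by
    apply h1.mono_set
    rw [uIcc_of_le hp.le, uIcc_of_le (by linarith)]
    exact Icc_subset_Icc le_rfl (by linarith)
  have i2 : IntervalIntegrable (fun θ => Real.log (abs (t - 2 * Real.cos θ))) volume Real.pi
      (2 * Real.pi) := by
    apply h1.mono_set
    rw [uIcc_of_le (by linarith), uIcc_of_le (by linarith)]
    exact Icc_subset_Icc hp.le le_rfl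
  refine ⟨i1, ?_⟩
  have h3 := intervalIntegral.integral_add_adjacent_intervals i1 i2
  have h4 : ∫ θ in Real.pi..(2 * Real.pi), Real.log (abs (t - 2 * Real.cos θ)) =
      ∫ θ in (0:ℝ)..Real.pi, Real.log (abs (t - 2 * Real.cos θ)) := by
    have := intervalIntegral.integral_comp_sub_left (a := 0) (b := Real.pi)
      (fun θ => Real.log (abs (t - 2 * Real.cos θ))) (2 * Real.pi)
    rw [show 2 * Real.pi - Real.pi = Real.pi by ring, sub_zero] at this
    rw [← this]
    apply intervalIntegral.integral_congr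
    intro θ _
    show Real.log (abs (t - 2 * Real.cos (2 * Real.pi - θ))) = Real.log (abs (t - 2 * Real.cos θ))
    rw [Real.cos_two_pi_sub]
  rw [h4, h2] at h3
  linarith

theorem J_in {t : ℝ} (h1 : -2 ≤ t) (h2 : t ≤ 2) :
    IntervalIntegrable (fun θ => Real.log (abs (t - 2 * Real.cos θ))) volume 0 Real.pi ∧
    ∫ θ in (0:ℝ)..Real.pi, Real.log (abs (t - 2 * Real.cos θ)) = 0 := by
  set φ := Real.arccos (t / 2) with hφ
  have hc : Real.cos φ = t / 2 := Real.cos_arccos (by linarith) (by linarith)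
  set a : ℂ := Complex.exp (φ * Complex.I) with ha
  have ha0 : a ≠ 0 := Complex.exp_ne_zero _
  have hn : ‖a‖ = 1 := Complex.norm_exp_ofReal_mul_I φ
  have hat : a + a⁻¹ = t := by
    have : (t : ℂ) = 2 * Real.cos φ := by rw [hc]; push_cast; ring
    rw [this, ha, ← Complex.exp_neg, Complex.ofReal_cos, Complex.cos]
    ring_nf
  obtain ⟨i, e⟩ := half ha0 hat
  refine ⟨i, ?_⟩
  rw [e, norm_inv, hn]
  simp

theorem J_out {t : ℝ} (h1 : t ≤ -2) :
    IntervalIntegrable (fun θ => Real.log (abs (t - 2 * Real.cos θ))) volume 0 Real.pi ∧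
    ∫ θ in (0:ℝ)..Real.pi, Real.log (abs (t - 2 * Real.cos θ)) =
      Real.pi * Real.log ((-t + Real.sqrt (t ^ 2 - 4)) / 2) := by
  set r := Real.sqrt (t ^ 2 - 4) with hr
  have hr0 : 0 ≤ r := Real.sqrt_nonneg _
  have hr2 : r ^ 2 = t ^ 2 - 4 := Real.sq_sqrt (by nlinarith)
  have ha1 : 1 ≤ (-t + r) / 2 := by linarith
  have hane : (t - r) / 2 ≠ 0 := by linarith
  set a : ℂ := (((t - r) / 2 : ℝ) : ℂ) with ha
  have ha0 : a ≠ 0 := by rw [ha]; exact_mod_cast hane
  have hinv : a⁻¹ = (((t + r) / 2 : ℝ) : ℂ) := by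
    rw [ha, ← Complex.ofReal_inv]
    congr 1
    rw [inv_eq_iff_eq_inv, eq_comm, inv_eq_iff_eq_inv, eq_comm]
    refine inv_eq_of_mul_eq_one_left ?_
    nlinarith
  have hat : a + a⁻¹ = t := by
    rw [hinv, ha]
    push_cast
    ring
  obtain ⟨i, e⟩ := half ha0 hat
  refine ⟨i, ?_⟩
  have hn : ‖a‖ = (-t + r) / 2 := by
    rw [ha, Complex.norm_real, Real.norm_eq_abs, abs_of_nonpos (by linarith)]
    ring
  rw [e, norm_inv, hn, Real.posLog_eq_log (by rw [abs_of_nonneg (by linarith)]; exact ha1)]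
  have h3 : Real.posLog ((-t + r) / 2)⁻¹ = 0 := by
    rw [Real.posLog_eq_zero_iff, abs_of_nonneg (by positivity)]
    exact inv_le_one_of_one_le₀ ha1
  rw [h3, add_zero]

end Pool.Agent.H283R3.Wid
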