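import Mathlib
import Pool.Agent.H283R3.Wid1

open MeasureTheory Set

namespace Pool.Agent.H283R3.Wid

/-- the cubic whose preimage of `[-2,2]` is the two-band set -/
noncomputable def T (x : ℝ) : ℝ := 125 / 9 * (x + 1 / 2) ^ 2 * (x - 9 / 10) + 2

noncomputable def Rr (x : ℝ) : ℝ := (x + 9 / 10) * (x - 1 / 10) * (x - 7 / 10) * (x - 9 / 10)

/-- `π` times the density of the equilibrium measure -/
noncomputable def w (x : ℝ) : ℝ := abs (x - 13 / 30) / Real.sqrt (-Rr x)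

noncomputable def f (x : ℝ) : ℝ := Real.arccos (T x / 2)

lemma continuous_T : Continuous T := by unfold T; fun_prop

lemma T_sub (x y : ℝ) : T y - T x = 125 / 9 * ((y - x) *
    (x ^ 2 + x * y + y ^ 2 + (x + y) / 10 - 13 / 20)) := by
  unfold T; ring

lemma T_mono0 : StrictMonoOn T (Icc (-9/10) (-1/2)) := by
  intro x hx y hy hxy
  have h := T_sub x y
  have hq : 0 < x ^ 2 + x * y + y ^ 2 + (x + y) / 10 - 13 / 20 := by
    obtain ⟨p, hp⟩ : ∃ p, p = -1/2 - x := ⟨_, rfl⟩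
    obtain ⟨q, hq⟩ : ∃ q, q = -1/2 - y := ⟨_, rfl⟩
    have hx' : x = -1/2 - p := by linarith
    have hy' : y = -1/2 - q := by linarith
    have hp0 : 0 < p := by have := hy.2; linarith
    have hq0 : 0 ≤ q := by have := hy.2; linarith
    subst hx' hy'
    nlinarith [mul_nonneg hp0.le hq0, sq_nonneg p, sq_nonneg q]
  have := mul_pos (sub_pos.2 hxy) hq
  linarith

lemma T_anti1 : StrictAntiOn T (Icc (-1/2) (1/10)) := by
  intro x hx y hy hxy
  have h := T_sub x y
  have hq : x ^ 2 + x * y + y ^ 2 + (x + y) / 10 - 13 / 20 < 0 := by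
    obtain ⟨p, hp⟩ : ∃ p, p = x + 1/2 := ⟨_, rfl⟩
    obtain ⟨q, hq⟩ : ∃ q, q = y + 1/2 := ⟨_, rfl⟩
    have hx' : x = p - 1/2 := by linarith
    have hy' : y = q - 1/2 := by linarith
    have hp0 : 0 ≤ p := by have := hx.1; linarith
    have hq0 : 0 < q := by have := hx.1; linarith
    have hp1 : p ≤ 3/5 := by have := hx.2; linarith
    have hq1 : q ≤ 3/5 := by have := hy.2; linarith
    subst hx' hy'
    nlinarith [mul_nonneg hp0 (sub_nonneg.2 hq1), mul_nonneg hp0 (sub_nonneg.2 hp1),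
      mul_nonneg hq0.le (sub_nonneg.2 hq1), mul_nonneg hq0.le (sub_nonneg.2 hp1)]
  have := mul_neg_of_pos_of_neg (sub_pos.2 hxy) hq
  linarith

lemma T_mono2 : StrictMonoOn T (Icc (7/10) (9/10)) := by
  intro x hx y hy hxy
  have h := T_sub x y
  have hq : 0 < x ^ 2 + x * y + y ^ 2 + (x + y) / 10 - 13 / 20 := by
    have h1 := hx.1
    have h2 := hy.1
    nlinarith [mul_nonneg (sub_nonneg.2 h1) (sub_nonneg.2 h2)]
  have := mul_pos (sub_pos.2 hxy) hq
  linarith

lemma T_a : T (-9/10) = -2 := by unfold T; norm_num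
lemma T_b : T (-1/2) = 2 := by unfold T; norm_num
lemma T_c : T (1/10) = -2 := by unfold T; norm_num
lemma T_d : T (7/10) = -2 := by unfold T; norm_num
lemma T_e : T (9/10) = 2 := by unfold T; norm_num

/-- the three open monotonicity intervals -/
def s0 : Set ℝ := Ioo (-9/10) (-1/2)
def s1 : Set ℝ := Ioo (-1/2) (1/10)
def s2 : Set ℝ := Ioo (7/10) (9/10)

lemma T_mem0 {x : ℝ} (hx : x ∈ s0) : T x ∈ Ioo (-2:ℝ) 2 := by
  have h1 := T_mono0 (left_mem_Icc.2 (by norm_num)) ⟨hx.1.le, hx.2.le⟩ hx.1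
  have h2 := T_mono0 ⟨hx.1.le, hx.2.le⟩ (right_mem_Icc.2 (by norm_num)) hx.2
  rw [T_a] at h1
  rw [T_b] at h2
  exact ⟨h1, h2⟩

lemma T_mem1 {x : ℝ} (hx : x ∈ s1) : T x ∈ Ioo (-2:ℝ) 2 := by
  have h1 := T_anti1 (left_mem_Icc.2 (by norm_num)) ⟨hx.1.le, hx.2.le⟩ hx.1
  have h2 := T_anti1 ⟨hx.1.le, hx.2.le⟩ (right_mem_Icc.2 (by norm_num)) hx.2
  rw [T_b] at h1
  rw [T_c] at h2
  exact ⟨h2, h1⟩

lemma T_mem2 {x : ℝ} (hx : x ∈ s2) : T x ∈ Ioo (-2:ℝ) 2 := by
  have h1 := T_mono2 (left_mem_Icc.2 (by norm_num)) ⟨hx.1.le, hx.2.le⟩ hx.1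
  have h2 := T_mono2 ⟨hx.1.le, hx.2.le⟩ (right_mem_Icc.2 (by norm_num)) hx.2
  rw [T_d] at h1
  rw [T_e] at h2
  exact ⟨h1, h2⟩

/-- on the two closed bands `T` takes values in `[-2,2]` -/
lemma T_mem_K {x : ℝ} (hx : x ∈ Icc (-9/10:ℝ) (1/10) ∪ Icc (7/10) (9/10)) :
    -2 ≤ T x ∧ T x ≤ 2 := by
  have e1 : T x + 2 = 125 / 9 * ((x + 9/10) * ((x - 1/10) * (x - 7/10))) := by unfold T; ring
  have e2 : 2 - T x = 125 / 9 * ((x + 1/2)^2 * (9/10 - x)) := by unfold T; ring
  have h1 : 0 ≤ (x + 9/10) * ((x - 1/10) * (x - 7/10)) := by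
    rcases hx with h | h
    · exact mul_nonneg (by linarith [h.1]) (mul_nonneg_of_nonpos_of_nonpos (by linarith [h.2])
        (by linarith [h.2]))
    · exact mul_nonneg (by linarith [h.1]) (mul_nonneg (by linarith [h.1]) (by linarith [h.1]))
  have h2 : 0 ≤ (x + 1/2)^2 * (9/10 - x) := by
    rcases hx with h | h
    · exact mul_nonneg (sq_nonneg _) (by linarith [h.2])
    · exact mul_nonneg (sq_nonneg _) (by linarith [h.2])
  constructor <;> linarith

lemma negR_pos {x : ℝ} (hx : x ∈ Ioo (-9/10:ℝ) (1/10) ∪ Ioo (7/10) (9/10)) : 0 < -Rr x := by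
  have e : -Rr x = ((x + 9/10) * ((x - 1/10) * (x - 7/10))) * (9/10 - x) := by unfold Rr; ring
  rw [e]
  rcases hx with h | h
  · exact mul_pos (mul_pos (by linarith [h.1]) (mul_pos_of_neg_of_neg (by linarith [h.2])
        (by linarith [h.2]))) (by linarith [h.2])
  · exact mul_pos (mul_pos (by linarith [h.1]) (mul_pos (by linarith [h.1]) (by linarith [h.1])))
      (by linarith [h.2])

/-- the derivative of `f` -/
noncomputable def f' (x : ℝ) : ℝ :=
  -(1 / Real.sqrt (1 - (T x / 2) ^ 2)) * ((125 / 3 * (x + 1 / 2) * (x - 13 / 30)) / 2)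

lemma hasDerivAt_T (x : ℝ) : HasDerivAt T (125 / 3 * (x + 1 / 2) * (x - 13 / 30)) x := by
  have h1 : HasDerivAt (fun x : ℝ => (x + 1/2)^2) (2 * (x + 1/2)) x := by
    have := ((hasDerivAt_id' x).add_const (1/2:ℝ)).fun_pow 2
    simpa using this
  have h2 : HasDerivAt (fun x : ℝ => x - 9/10) 1 x := (hasDerivAt_id x).sub_const (9/10:ℝ)
  have h3 := ((h1.const_mul (125/9:ℝ)).mul h2).add_const 2
  have e : (125 / 3 * (x + 1 / 2) * (x - 13 / 30)) =
      125 / 9 * (2 * (x + 1 / 2)) * (x - 9/10) + 125 / 9 * (x + 1/2)^2 * 1 := by ring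
  rw [e]
  exact h3

lemma hasDerivAt_f {x : ℝ} (hT : T x ∈ Ioo (-2:ℝ) 2) : HasDerivAt f (f' x) x := by
  have h1 : T x / 2 ≠ -1 := by have := hT.1; intro h; linarith
  have h2 : T x / 2 ≠ 1 := by have := hT.2; intro h; linarith
  exact (Real.hasDerivAt_arccos h1 h2).comp x ((hasDerivAt_T x).div_const 2)

lemma abs_f' {x : ℝ} (hx : x ∈ Ioo (-9/10:ℝ) (1/10) ∪ Ioo (7/10) (9/10)) (hx2 : x ≠ -1/2) :
    abs (f' x) = 3 * w x := by
  have hR := negR_pos hx
  have hR' : 0 < Real.sqrt (-Rr x) := Real.sqrt_pos.2 hR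
  have hx3 : 0 < abs (x + 1/2) := abs_pos.2 (by intro h; apply hx2; linarith)
  have e : 1 - (T x / 2)^2 = (125/18 * abs (x + 1/2))^2 * (-Rr x) := by
    rw [mul_pow, sq_abs]
    unfold T Rr
    ring
  have e2 : Real.sqrt (1 - (T x / 2)^2) = 125/18 * abs (x + 1/2) * Real.sqrt (-Rr x) := by
    rw [e, Real.sqrt_mul (sq_nonneg _), Real.sqrt_sq (by positivity)]
  unfold f' w
  rw [e2, abs_mul, abs_neg,
    abs_of_pos (show (0:ℝ) < 1 / (125/18 * abs (x + 1/2) * Real.sqrt (-Rr x)) by positivity),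
    abs_div, abs_mul, abs_mul]
  rw [abs_of_pos (show (0:ℝ) < 125/3 by norm_num), abs_of_pos (show (0:ℝ) < 2 by norm_num)]
  clear e e2 hR
  generalize abs (x + 1/2) = A at hx3 ⊢
  generalize abs (x - 13/30) = B
  generalize Real.sqrt (-Rr x) = C at hR' ⊢
  field_simp
  ring

lemma abs_f'0 {x : ℝ} (hx : x ∈ s0) : abs (f' x) = 3 * w x :=
  abs_f' (Or.inl ⟨hx.1, by linarith [hx.2]⟩) (by linarith [hx.2] : x < -1/2).ne
lemma abs_f'1 {x : ℝ} (hx : x ∈ s1) : abs (f' x) = 3 * w x :=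
  abs_f' (Or.inl ⟨by linarith [hx.1], hx.2⟩) (by linarith [hx.1] : -1/2 < x).ne'
lemma abs_f'2 {x : ℝ} (hx : x ∈ s2) : abs (f' x) = 3 * w x :=
  abs_f' (Or.inr hx) (by linarith [hx.1] : -1/2 < x).ne'

lemma f_mem {x : ℝ} (hT : T x ∈ Ioo (-2:ℝ) 2) : f x ∈ Ioo 0 Real.pi := by
  unfold f
  constructor
  · rw [Real.arccos_pos]; linarith [hT.2]
  · rw [Real.arccos_lt_pi]; linarith [hT.1]

lemma two_cos_mem {θ : ℝ} (hθ : θ ∈ Ioo 0 Real.pi) : 2 * Real.cos θ ∈ Ioo (-2:ℝ) 2 := by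
  have h1 : Real.cos θ < 1 := by
    have := Real.cos_lt_cos_of_nonneg_of_le_pi le_rfl hθ.2.le hθ.1
    simpa using this
  have h2 : -1 < Real.cos θ := by
    have := Real.cos_lt_cos_of_nonneg_of_le_pi hθ.1.le le_rfl hθ.2
    simpa using this
  constructor <;> linarith

lemma f_of_T {x θ : ℝ} (hθ : θ ∈ Ioo 0 Real.pi) (h : T x = 2 * Real.cos θ) : f x = θ := by
  unfold f
  rw [h, mul_div_cancel_left₀ _ (two_ne_zero), Real.arccos_cos hθ.1.le hθ.2.le]

lemma T_of_f {x θ : ℝ} (hT : T x ∈ Ioo (-2:ℝ) 2) (h : f x = θ) : T x = 2 * Real.cos θ := by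
  rw [← h, f, Real.cos_arccos (by linarith [hT.1]) (by linarith [hT.2])]
  ring

/-! the general statement for one branch -/

structure Branch (s : Set ℝ) : Prop where
  meas : MeasurableSet s
  sub : s ⊆ Ioo (-9/10:ℝ) (1/10) ∪ Ioo (7/10) (9/10)
  ne : ∀ x ∈ s, x ≠ -1/2
  maps : ∀ x ∈ s, T x ∈ Ioo (-2:ℝ) 2
  inj : InjOn T s
  surj : Ioo (-2:ℝ) 2 ⊆ T '' s
  mono : StrictMonoOn T s ∨ StrictAntiOn T s

lemma branch0 : Branch s0 where
  meas := measurableSet_Ioo
  sub := fun x hx => Or.inl ⟨hx.1, by linarith [hx.2]⟩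
  ne := fun x hx => (by linarith [hx.2] : x < -1/2).ne
  maps := fun x hx => T_mem0 hx
  inj := (T_mono0.injOn).mono Ioo_subset_Icc_self
  surj := by
    have := intermediate_value_Ioo (show (-9/10:ℝ) ≤ -1/2 by norm_num) continuous_T.continuousOn
    rw [T_a, T_b] at this
    exact this
  mono := Or.inl (T_mono0.mono Ioo_subset_Icc_self)

lemma branch1 : Branch s1 where
  meas := measurableSet_Ioo
  sub := fun x hx => Or.inl ⟨by linarith [hx.1], hx.2⟩
  ne := fun x hx => (by linarith [hx.1] : -1/2 < x).ne'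
  maps := fun x hx => T_mem1 hx
  inj := (T_anti1.injOn).mono Ioo_subset_Icc_self
  surj := by
    have := intermediate_value_Ioo' (show (-1/2:ℝ) ≤ 1/10 by norm_num) continuous_T.continuousOn
    rw [T_b, T_c] at this
    exact this
  mono := Or.inr (T_anti1.mono Ioo_subset_Icc_self)

lemma branch2 : Branch s2 where
  meas := measurableSet_Ioo
  sub := fun x hx => Or.inr hx
  ne := fun x hx => (by linarith [hx.1] : -1/2 < x).ne'
  maps := fun x hx => T_mem2 hx
  inj := (T_mono2.injOn).mono Ioo_subset_Icc_self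
  surj := by
    have := intermediate_value_Ioo (show (7/10:ℝ) ≤ 9/10 by norm_num) continuous_T.continuousOn
    rw [T_d, T_e] at this
    exact this
  mono := Or.inl (T_mono2.mono Ioo_subset_Icc_self)

variable {s : Set ℝ}

lemma Branch.injf (b : Branch s) : InjOn f s := by
  intro x hx y hy h
  apply b.inj hx hy
  rw [T_of_f (b.maps x hx) rfl, T_of_f (b.maps y hy) rfl, h]

lemma Branch.image (b : Branch s) : f '' s = Ioo 0 Real.pi := by
  ext θ
  constructor
  · rintro ⟨x, hx, rfl⟩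
    exact f_mem (b.maps x hx)
  · intro hθ
    obtain ⟨x, hx, h⟩ := b.surj (two_cos_mem hθ)
    exact ⟨x, hx, f_of_T hθ h⟩

/-- the inverse branch -/
noncomputable def xi (s : Set ℝ) (θ : ℝ) : ℝ := Function.invFunOn f s θ

lemma Branch.xi_mem (b : Branch s) {θ : ℝ} (hθ : θ ∈ Ioo 0 Real.pi) : xi s θ ∈ s := by
  rw [← b.image] at hθ
  exact Function.invFunOn_mem hθ

lemma Branch.f_xi (b : Branch s) {θ : ℝ} (hθ : θ ∈ Ioo 0 Real.pi) : f (xi s θ) = θ := by
  rw [← b.image] at hθ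
  exact Function.invFunOn_eq hθ

lemma Branch.T_xi (b : Branch s) {θ : ℝ} (hθ : θ ∈ Ioo 0 Real.pi) : T (xi s θ) = 2 * Real.cos θ :=
  T_of_f (b.maps _ (b.xi_mem hθ)) (b.f_xi hθ)

lemma Branch.xi_f (b : Branch s) {x : ℝ} (hx : x ∈ s) : xi s (f x) = x := by
  have hθ := f_mem (b.maps x hx)
  exact b.injf (b.xi_mem hθ) hx (b.f_xi hθ)

lemma Branch.aemeas (b : Branch s) :
    AEMeasurable (xi s) (volume.restrict (Ioo 0 Real.pi)) := by
  rcases b.mono with h | h
  · apply aemeasurable_restrict_of_antitoneOn measurableSet_Ioo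
    intro θ₁ h₁ θ₂ h₂ h12
    by_contra hc
    push Not at hc
    have h3 := h (b.xi_mem h₁) (b.xi_mem h₂) hc
    rw [b.T_xi h₁, b.T_xi h₂] at h3
    have h4 := Real.cos_le_cos_of_nonneg_of_le_pi h₁.1.le h₂.2.le h12
    linarith
  · apply aemeasurable_restrict_of_monotoneOn measurableSet_Ioo
    intro θ₁ h₁ θ₂ h₂ h12
    by_contra hc
    push Not at hc
    have h3 := h (b.xi_mem h₂) (b.xi_mem h₁) hc
    rw [b.T_xi h₁, b.T_xi h₂] at h3
    have h4 := Real.cos_le_cos_of_nonneg_of_le_pi h₁.1.le h₂.2.le h12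
    linarith

lemma Branch.lint (b : Branch s) (g : ℝ → ENNReal) :
    ∫⁻ θ in Ioo 0 Real.pi, g (xi s θ) = ∫⁻ x in s, ENNReal.ofReal (3 * w x) * g x := by
  rw [← b.image, lintegral_image_eq_lintegral_abs_deriv_mul b.meas
    (fun x hx => (hasDerivAt_f (b.maps x hx)).hasDerivWithinAt) b.injf]
  apply setLIntegral_congr_fun b.meas
  intro x hx
  show ENNReal.ofReal (abs (f' x)) * g (xi s (f x)) = ENNReal.ofReal (3 * w x) * g x
  rw [b.xi_f hx, abs_f' (b.sub hx) (b.ne x hx)]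

/-- the two-band set -/
def KK : Set ℝ := Icc (-9/10) (1/10) ∪ Icc (7/10) (9/10)

lemma KK_ae : KK =ᵐ[volume] (s0 ∪ s1 ∪ s2 : Set ℝ) := by
  have hsub : s0 ∪ s1 ∪ s2 ⊆ KK := by
    rintro x ((h | h) | h)
    · exact Or.inl ⟨h.1.le, by linarith [h.2]⟩
    · exact Or.inl ⟨by linarith [h.1], h.2.le⟩
    · exact Or.inr ⟨h.1.le, h.2.le⟩
  have hd : KK \ (s0 ∪ s1 ∪ s2) ⊆ ({-9/10, -1/2, 1/10, 7/10, 9/10} : Set ℝ) := by
    rintro x ⟨hx, hn⟩
    simp only [mem_insert_iff, mem_singleton_iff]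
    by_contra hc
    push Not at hc
    obtain ⟨c1, c2, c3, c4, c5⟩ := hc
    apply hn
    rcases hx with h | h
    · rcases lt_or_gt_of_ne c2 with h2 | h2
      · exact Or.inl (Or.inl ⟨lt_of_le_of_ne h.1 (Ne.symm c1), h2⟩)
      · exact Or.inl (Or.inr ⟨h2, lt_of_le_of_ne h.2 c3⟩)
    · exact Or.inr ⟨lt_of_le_of_ne h.1 (Ne.symm c4), lt_of_le_of_ne h.2 c5⟩
  have h0 : volume (KK \ (s0 ∪ s1 ∪ s2)) = 0 :=
    measure_mono_null hd (Set.Finite.measure_zero (by simp) _)
  apply (ae_eq_set).2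
  refine ⟨h0, ?_⟩
  rw [sdiff_eq_empty.2 hsub]
  exact measure_empty

/-- the measure with density `w/π` on the bands -/
noncomputable def muK : Measure ℝ :=
  (volume.restrict KK).withDensity (fun x => ENNReal.ofReal (w x / Real.pi))

lemma measurable_w : Measurable w := by
  unfold w Rr
  fun_prop

theorem lint_muK {g : ℝ → ENNReal} (hg : Measurable g) :
    ∫⁻ x, g x ∂muK = ENNReal.ofReal (1 / (3 * Real.pi)) *
      ∫⁻ θ in Ioo 0 Real.pi, (g (xi s0 θ) + g (xi s1 θ) + g (xi s2 θ)) := by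
  have hpi := Real.pi_pos
  have hm : Measurable (fun x => ENNReal.ofReal (w x / Real.pi)) :=
    ENNReal.measurable_ofReal.comp (measurable_w.div_const _)
  unfold muK
  rw [lintegral_withDensity_eq_lintegral_mul _ hm hg]
  have hr : volume.restrict KK = volume.restrict (s0 ∪ s1 ∪ s2) := Measure.restrict_congr_set KK_ae
  rw [hr]
  have hd1 : Disjoint s0 s1 := by
    rw [Set.disjoint_left]
    intro x h1 h2
    linarith [h1.2, h2.1]
  have hd2 : Disjoint (s0 ∪ s1) s2 := by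
    rw [Set.disjoint_left]
    rintro x (h1 | h1) h2
    · linarith [h1.2, h2.1]
    · linarith [h1.2, h2.1]
  rw [lintegral_union branch2.meas hd2, lintegral_union branch1.meas hd1]
  have key : ∀ s : Set ℝ, Branch s → ∫⁻ x in s, ((fun x => ENNReal.ofReal (w x / Real.pi)) * g) x =
      ENNReal.ofReal (1 / (3 * Real.pi)) * ∫⁻ θ in Ioo 0 Real.pi, g (xi s θ) := by
    intro s b
    rw [b.lint, ← lintegral_const_mul]
    · apply setLIntegral_congr_fun b.meas
      intro x hx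
      show ENNReal.ofReal (w x / Real.pi) * g x =
        ENNReal.ofReal (1 / (3 * Real.pi)) * (ENNReal.ofReal (3 * w x) * g x)
      rw [← mul_assoc, ← ENNReal.ofReal_mul (by positivity)]
      congr 2
      field_simp
    · exact (ENNReal.measurable_ofReal.comp (measurable_w.const_mul 3)).mul hg
  rw [key s0 branch0, key s1 branch1, key s2 branch2, ← mul_add, ← mul_add]
  congr 1
  rw [lintegral_add_left', lintegral_add_left']
  · exact hg.comp_aemeasurable branch0.aemeas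
  · exact (hg.comp_aemeasurable branch0.aemeas).add (hg.comp_aemeasurable branch1.aemeas)

/-- Vieta relations between the three preimages -/
lemma vieta {x y z u : ℝ} (hx : T x = u) (hy : T y = u) (hz : T z = u) (hxy : x ≠ y) (hxz : x ≠ z)
    (hyz : y ≠ z) : x + y + z = -1/10 ∧ x * y + x * z + y * z = -13/20 ∧
    ∀ v, T v - u = 125/9 * ((v - x) * (v - y) * (v - z)) := by
  have h1 : x ^ 2 + x * y + y ^ 2 + (x + y) / 10 - 13 / 20 = 0 := by
    have h := T_sub x y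
    rw [hx, hy, sub_self] at h
    rcases mul_eq_zero.1 h.symm with h | h
    · norm_num at h
    · rcases mul_eq_zero.1 h with h | h
      · exact absurd (sub_eq_zero.1 h).symm hxy
      · exact h
  have h2 : x ^ 2 + x * z + z ^ 2 + (x + z) / 10 - 13 / 20 = 0 := by
    have h := T_sub x z
    rw [hx, hz, sub_self] at h
    rcases mul_eq_zero.1 h.symm with h | h
    · norm_num at h
    · rcases mul_eq_zero.1 h with h | h
      · exact absurd (sub_eq_zero.1 h).symm hxz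
      · exact h
  have h3 : (y - z) * (x + y + z + 1/10) = 0 := by linear_combination h1 - h2
  have h4 : x + y + z = -1/10 := by
    rcases mul_eq_zero.1 h3 with h | h
    · exact absurd (sub_eq_zero.1 h) hyz
    · linarith
  have hz' : z = -1/10 - x - y := by linarith
  have h5 : x * y + x * z + y * z = -13/20 := by
    subst hz'
    linear_combination -h1
  refine ⟨h4, h5, ?_⟩
  intro v
  have h6 : u = 125/9 * (x * y * z) + (2 - 125/9 * (9/40)) := by
    rw [← hx]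
    subst hz'
    unfold T
    linear_combination (125/9 * x) * h1
  rw [h6]
  unfold T
  have e : 125/9 * ((v - x) * (v - y) * (v - z)) =
      125/9 * (v^3 - (x + y + z) * v^2 + (x * y + x * z + y * z) * v - x * y * z) := by ring
  rw [e, h4, h5]
  ring

end Pool.Agent.H283R3.Wid
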