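import Mathlib
import Pool.Agent.H283R3.Wid2
import Pool.Agent.Helper68.PD

open MeasureTheory Set

namespace Pool.Agent.H283R3.Wid

open Pool.Agent.Helper68.LC (Lam)

/-- mutual energy for the kernel `Lam` -/
noncomputable abbrev LEn (μ ν : Measure ℝ) : ENNReal := Pool.Agent.Helper68.LC.LE μ ν

noncomputable def kap (x y : ℝ) : ENNReal :=
  ENNReal.ofReal (2 * Real.log 2 - 2 * Real.log (abs (x - y)))

lemma measurable_kap (x : ℝ) : Measurable (kap x) := by
  unfold kap
  apply ENNReal.measurable_ofReal.comp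
  apply measurable_const.sub
  apply Measurable.const_mul
  apply Real.measurable_log.comp
  fun_prop

lemma term_nonneg {x y : ℝ} (h : abs (x - y) ≤ 2) (hne : x ≠ y) :
    0 ≤ 2 * Real.log 2 - 2 * Real.log (abs (x - y)) := by
  have h1 : 0 < abs (x - y) := abs_pos.2 (sub_ne_zero.2 hne)
  have := Real.log_le_log h1 h
  linarith

lemma xi_facts {θ : ℝ} (hθ : θ ∈ Ioo 0 Real.pi) :
    xi s0 θ + xi s1 θ + xi s2 θ = -1/10 ∧
    xi s0 θ * xi s1 θ + xi s0 θ * xi s2 θ + xi s1 θ * xi s2 θ = -13/20 ∧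
    ∀ v, T v - 2 * Real.cos θ = 125/9 * ((v - xi s0 θ) * (v - xi s1 θ) * (v - xi s2 θ)) := by
  have h0 := branch0.xi_mem hθ
  have h1 := branch1.xi_mem hθ
  have h2 := branch2.xi_mem hθ
  apply vieta (branch0.T_xi hθ) (branch1.T_xi hθ) (branch2.T_xi hθ)
  · exact (h0.2.trans h1.1).ne
  · exact (by linarith [h0.2, h2.1] : xi s0 θ < xi s2 θ).ne
  · exact (by linarith [h1.2, h2.1] : xi s1 θ < xi s2 θ).ne

lemma sum_kap {x θ : ℝ} (hx : -1 ≤ x ∧ x ≤ 1) (hθ : θ ∈ Ioo 0 Real.pi)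
    (hne : T x - 2 * Real.cos θ ≠ 0) :
    0 ≤ 6 * Real.log 2 + 2 * Real.log (125/9) - 2 * Real.log (abs (T x - 2 * Real.cos θ)) ∧
    kap x (xi s0 θ) + kap x (xi s1 θ) + kap x (xi s2 θ) =
      ENNReal.ofReal (6 * Real.log 2 + 2 * Real.log (125/9) -
        2 * Real.log (abs (T x - 2 * Real.cos θ))) := by
  have h0 := branch0.xi_mem hθ
  have h1 := branch1.xi_mem hθ
  have h2 := branch2.xi_mem hθ
  obtain ⟨-, -, hv⟩ := xi_facts hθ
  have hv' := hv x
  generalize xi s0 θ = a at h0 hv' ⊢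
  generalize xi s1 θ = b at h1 hv' ⊢
  generalize xi s2 θ = c at h2 hv' ⊢
  rw [hv'] at hne
  have hne' : (x - a) * (x - b) * (x - c) ≠ 0 := right_ne_zero_of_mul hne
  have hc : x - c ≠ 0 := right_ne_zero_of_mul hne'
  have hb : x - b ≠ 0 := right_ne_zero_of_mul (left_ne_zero_of_mul hne')
  have ha : x - a ≠ 0 := left_ne_zero_of_mul (left_ne_zero_of_mul hne')
  have ta := term_nonneg (show abs (x - a) ≤ 2 by
    rw [abs_le]; constructor <;> linarith [h0.1, h0.2, hx.1, hx.2]) (sub_ne_zero.1 ha)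
  have tb := term_nonneg (show abs (x - b) ≤ 2 by
    rw [abs_le]; constructor <;> linarith [h1.1, h1.2, hx.1, hx.2]) (sub_ne_zero.1 hb)
  have tc := term_nonneg (show abs (x - c) ≤ 2 by
    rw [abs_le]; constructor <;> linarith [h2.1, h2.2, hx.1, hx.2]) (sub_ne_zero.1 hc)
  have hlog : Real.log (abs (T x - 2 * Real.cos θ)) = Real.log (125/9) +
      (Real.log (abs (x - a)) + Real.log (abs (x - b)) + Real.log (abs (x - c))) := by
    rw [hv', abs_mul, abs_mul, abs_mul, abs_of_pos (show (0:ℝ) < 125/9 by norm_num)]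
    rw [Real.log_mul (by norm_num) (by positivity), Real.log_mul (by positivity) (by positivity),
      Real.log_mul (by positivity) (by positivity)]
  have e : 6 * Real.log 2 + 2 * Real.log (125/9) - 2 * Real.log (abs (T x - 2 * Real.cos θ)) =
      (2 * Real.log 2 - 2 * Real.log (abs (x - a))) + (2 * Real.log 2 - 2 * Real.log (abs (x - b)))
      + (2 * Real.log 2 - 2 * Real.log (abs (x - c))) := by
    rw [hlog]; ring
  constructor
  · rw [e]; positivity
  · rw [e, ENNReal.ofReal_add (by positivity) tc, ENNReal.ofReal_add ta tb]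
    rfl

theorem pot {x J : ℝ} (hx : -1 ≤ x ∧ x ≤ 1)
    (hJ : IntervalIntegrable (fun θ => Real.log (abs (T x - 2 * Real.cos θ))) volume 0 Real.pi ∧
      ∫ θ in (0:ℝ)..Real.pi, Real.log (abs (T x - 2 * Real.cos θ)) = Real.pi * J) :
    0 ≤ 2 * Real.log 2 + 2/3 * Real.log (125/9) - 2/3 * J ∧
    ∫⁻ y, kap x y ∂muK = ENNReal.ofReal (2 * Real.log 2 + 2/3 * Real.log (125/9) - 2/3 * J) := by
  obtain ⟨hi, hv⟩ := hJ
  have hpi := Real.pi_pos
  have hi' : IntegrableOn (fun θ => Real.log (abs (T x - 2 * Real.cos θ))) (Ioo 0 Real.pi) :=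
    (intervalIntegrable_iff_integrableOn_Ioo_of_le hpi.le).1 hi
  have hF : IntegrableOn (fun θ => 6 * Real.log 2 + 2 * Real.log (125/9) -
      2 * Real.log (abs (T x - 2 * Real.cos θ))) (Ioo 0 Real.pi) := by
    apply Integrable.sub
    · exact integrableOn_const (by simp)
    · exact hi'.const_mul 2
  have hae : ∀ᵐ θ ∂(volume.restrict (Ioo 0 Real.pi)), θ ∈ Ioo 0 Real.pi ∧
      T x - 2 * Real.cos θ ≠ 0 := by
    filter_upwards [ae_restrict_mem measurableSet_Ioo, ae_restrict_of_ae (ae_cos_ne (T x))]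
      with θ h1 h2 using ⟨h1, h2⟩
  have e1 : ∫⁻ θ in Ioo 0 Real.pi, (kap x (xi s0 θ) + kap x (xi s1 θ) + kap x (xi s2 θ)) =
      ∫⁻ θ in Ioo 0 Real.pi, ENNReal.ofReal (6 * Real.log 2 + 2 * Real.log (125/9) -
        2 * Real.log (abs (T x - 2 * Real.cos θ))) := by
    apply lintegral_congr_ae
    filter_upwards [hae] with θ hθ using (sum_kap hx hθ.1 hθ.2).2
  have hnn : 0 ≤ᵐ[volume.restrict (Ioo 0 Real.pi)] (fun θ => 6 * Real.log 2 +
      2 * Real.log (125/9) - 2 * Real.log (abs (T x - 2 * Real.cos θ))) := by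
    filter_upwards [hae] with θ hθ using (sum_kap hx hθ.1 hθ.2).1
  have e2 : ∫ θ in Ioo 0 Real.pi, (6 * Real.log 2 + 2 * Real.log (125/9) -
      2 * Real.log (abs (T x - 2 * Real.cos θ))) =
      Real.pi * (6 * Real.log 2 + 2 * Real.log (125/9)) - 2 * (Real.pi * J) := by
    rw [integral_sub (integrable_const _) (hi'.const_mul 2), integral_const_mul,
      setIntegral_const, ← integral_Ioc_eq_integral_Ioo, ← intervalIntegral.integral_of_le hpi.le, hv]
    simp [hpi.le]
  have hnn2 : 0 ≤ Real.pi * (6 * Real.log 2 + 2 * Real.log (125/9)) - 2 * (Real.pi * J) := by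
    rw [← e2]; exact integral_nonneg_of_ae hnn
  have e3 : 2 * Real.log 2 + 2/3 * Real.log (125/9) - 2/3 * J =
      1 / (3 * Real.pi) * (Real.pi * (6 * Real.log 2 + 2 * Real.log (125/9)) -
        2 * (Real.pi * J)) := by
    field_simp
    ring
  constructor
  · rw [e3]; positivity
  · rw [lint_muK (measurable_kap x), e1, ← ofReal_integral_eq_lintegral_ofReal hF hnn, e2,
      ← ENNReal.ofReal_mul (by positivity), e3]

/-- the constant value `2 log 2 + (2/3) log (125/9)` -/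
noncomputable def CC : ℝ := 2 * Real.log 2 + 2/3 * Real.log (125/9)

theorem pot_K {x : ℝ} (hx : x ∈ KK) : ∫⁻ y, kap x y ∂muK = ENNReal.ofReal CC := by
  have hx1 : -1 ≤ x ∧ x ≤ 1 := by
    rcases hx with h | h
    · constructor <;> linarith [h.1, h.2]
    · constructor <;> linarith [h.1, h.2]
  obtain ⟨h1, h2⟩ := T_mem_K hx
  obtain ⟨i, e⟩ := J_in h1 h2
  have := (pot (J := 0) hx1 ⟨i, by rw [e, mul_zero]⟩).2
  rw [this, CC]
  congr 1
  ring

lemma CC_pos : 0 < CC := by
  unfold CC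
  have h1 : 0 < Real.log 2 := Real.log_pos (by norm_num)
  have h2 : 0 < Real.log (125/9) := Real.log_pos (by norm_num)
  positivity

theorem prob_muK : IsProbabilityMeasure muK := by
  have hpi := Real.pi_pos
  constructor
  have := lint_muK (g := fun _ => 1) measurable_const
  rw [lintegral_one] at this
  rw [this, setLIntegral_const, Real.volume_Ioo, sub_zero]
  have e3 : (1 + 1 + 1 : ENNReal) = ENNReal.ofReal 3 := by
    norm_num
  rw [e3, ← ENNReal.ofReal_mul (by norm_num), ← ENNReal.ofReal_mul (by positivity)]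
  rw [← ENNReal.ofReal_one]
  congr 1
  field_simp

theorem muK_ac : muK ≪ volume :=
  (withDensity_absolutelyContinuous _ _).trans Measure.absolutelyContinuous_restrict

theorem muK_compl : muK KKᶜ = 0 := by
  have hm : MeasurableSet KK := measurableSet_Icc.union measurableSet_Icc
  apply withDensity_absolutelyContinuous
  rw [Measure.restrict_apply hm.compl]
  simp

theorem muK_ne (x : ℝ) : ∀ᵐ y ∂muK, y ≠ x := by
  have h : ∀ᵐ y : ℝ, y ≠ x := by
    have := (Set.countable_singleton x).ae_notMem (volume : Measure ℝ)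
    filter_upwards [this] with y hy h0
    exact hy h0
  exact muK_ac.ae_le h

lemma lam_kap {x y : ℝ} (h : abs (x - y) ≤ 2) (hne : x ≠ y) : Lam (‖x - y‖ ^ 2 / 4) = kap x y := by
  have hp : 0 < abs (x - y) := abs_pos.2 (sub_ne_zero.2 hne)
  rw [Real.norm_eq_abs, Pool.Agent.Helper68.LC.lam_eq (by positivity) (by nlinarith)]
  unfold kap
  congr 1
  rw [Real.log_div (by positivity) (by norm_num), Real.log_pow,
      show (4 : ℝ) = 2 ^ 2 by norm_num, Real.log_pow]
  push_cast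
  ring

lemma KK_abs {x : ℝ} (hx : x ∈ KK) : abs x ≤ 9/10 := by
  rw [abs_le]
  rcases hx with h | h
  · constructor <;> linarith [h.1, h.2]
  · constructor <;> linarith [h.1, h.2]

lemma KK_dist {x y : ℝ} (hx : x ∈ KK) (hy : y ∈ KK) : abs (x - y) ≤ 2 := by
  have h1 := KK_abs hx
  have h2 := KK_abs hy
  rw [abs_le] at *
  constructor <;> linarith [h1.1, h1.2, h2.1, h2.2]

theorem LE_mu {ν : Measure ℝ} [IsProbabilityMeasure ν] (hν : ν KKᶜ = 0) :
    LEn ν muK = ENNReal.ofReal CC := by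
  have hνK : ∀ᵐ x ∂ν, x ∈ KK := by
    rw [ae_iff]; exact hν
  have hμK : ∀ᵐ x ∂muK, x ∈ KK := by
    rw [ae_iff]; exact muK_compl
  unfold LEn Pool.Agent.Helper68.LC.LE
  have : ∫⁻ x, ∫⁻ y, Lam (‖x - y‖ ^ 2 / 4) ∂muK ∂ν = ∫⁻ _, ENNReal.ofReal CC ∂ν := by
    apply lintegral_congr_ae
    filter_upwards [hνK] with x hx
    rw [← pot_K hx]
    apply lintegral_congr_ae
    filter_upwards [hμK, muK_ne x] with y hy hne
    exact lam_kap (KK_dist hx hy) (Ne.symm hne)
  rw [this]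
  simp

theorem LE_ge {ν : Measure ℝ} [IsProbabilityMeasure ν] (hν : ν KKᶜ = 0) :
    ENNReal.ofReal CC ≤ LEn ν ν := by
  have hp := prob_muK
  have hνK : ∀ᵐ x ∂ν, ‖x‖ ≤ 1 := by
    have : ∀ᵐ x ∂ν, x ∈ KK := by rw [ae_iff]; exact hν
    filter_upwards [this] with x hx
    have := KK_abs hx
    rw [Real.norm_eq_abs]; linarith
  have hμK : ∀ᵐ x ∂muK, ‖x‖ ≤ 1 := by
    have : ∀ᵐ x ∂muK, x ∈ KK := by rw [ae_iff]; exact muK_compl
    filter_upwards [this] with x hx
    have := KK_abs hx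
    rw [Real.norm_eq_abs]; linarith
  have h := Pool.Agent.Helper68.LC.two_LE_le ν muK hνK hμK
  have e1 : Pool.Agent.Helper68.LC.LE ν muK = ENNReal.ofReal CC := LE_mu hν
  have e2 : Pool.Agent.Helper68.LC.LE muK muK = ENNReal.ofReal CC := LE_mu muK_compl
  rw [e1, e2, two_mul] at h
  exact (ENNReal.add_le_add_iff_right ENNReal.ofReal_ne_top).1 h

end Pool.Agent.H283R3.Wid
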