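import Mathlib

open MeasureTheory Set Filter
open scoped ENNReal Topology

namespace Pool.Agent.H283R3.WidDefs

/-- Integral of an extended-real valued function: the integral of the positive part minus the
integral of the negative part. -/
noncomputable def eint {X : Type*} [MeasurableSpace X] (μ : Measure X) (g : X → EReal) : EReal :=
  ((∫⁻ x, (g x).toENNReal ∂μ : ℝ≥0∞) : EReal) - ((∫⁻ x, (-g x).toENNReal ∂μ : ℝ≥0∞) : EReal)

open Classical in
/-- The logarithmic kernel `log (1/|x-y|)`, equal to `+∞` for `x = y`. -/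
noncomputable def logKer (x y : ℝ) : EReal :=
  if x = y then ⊤ else ((Real.log (1 / abs (x - y)) : ℝ) : EReal)

/-- The logarithmic energy `∬ log (1/|x-y|) dμ(x) dμ(y)` of a measure on the line. -/
noncomputable def energy (μ : Measure ℝ) : EReal := eint (μ.prod μ) (fun p => logKer p.1 p.2)

/-- The logarithmic capacity `cap K = exp (-inf energy)`, the infimum being over all Borel
probability measures carried by `K`. -/
noncomputable def cap (K : Set ℝ) : ℝ :=
  (EReal.exp (-(⨅ (ν : Measure ℝ) (_ : IsProbabilityMeasure ν ∧ ν Kᶜ = 0), energy ν))).toReal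

/-- `μ` is an equilibrium measure of `K`: a probability measure carried by `K`, of finite
logarithmic energy, whose energy is the smallest among all probability measures carried by `K`. -/
def IsEquilibrium (K : Set ℝ) (μ : Measure ℝ) : Prop :=
  IsProbabilityMeasure μ ∧ μ Kᶜ = 0 ∧ energy μ < ⊤ ∧
    ∀ ν : Measure ℝ, IsProbabilityMeasure ν → ν Kᶜ = 0 → energy μ ≤ energy ν

/-- `K = [α₀,β₀] ∪ ... ∪ [α_ℓ,β_ℓ]`. -/
def bands {l : ℕ} (α β : Fin (l + 1) → ℝ) : Set ℝ := ⋃ i, Icc (α i) (β i)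

/-- The endpoints are strictly ordered `α₀ < β₀ < α₁ < β₁ < ...`. -/
def IsFiniteGap {l : ℕ} (α β : Fin (l + 1) → ℝ) : Prop :=
  (∀ i, α i < β i) ∧ ∀ j : Fin l, β j.castSucc < α j.succ

/-- `γ_j` lies in the `j`-th closed gap. -/
def InGaps {l : ℕ} (α β : Fin (l + 1) → ℝ) (γ : Fin l → ℝ) : Prop :=
  ∀ j, γ j ∈ Icc (β j.castSucc) (α j.succ)

/-- `G_γ(z) = -∏ (z - γ_j) [∏ (z - α_j)(z - β_j)]^{-1/2}` for `z` in the upper half plane, the
square root being the product of the principal square roots of the factors (this is the branch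
which behaves like `z ^ (ℓ+1)` at infinity). -/
noncomputable def G {l : ℕ} (α β : Fin (l + 1) → ℝ) (γ : Fin l → ℝ) (z : ℂ) : ℂ :=
  -(∏ j, (z - (γ j : ℂ))) /
    ∏ i, ((z - (α i : ℂ)) ^ (1 / 2 : ℂ) * (z - (β i : ℂ)) ^ (1 / 2 : ℂ))

/-- `Im G_γ(x + i0)`, the limit of `Im G_γ(x + iε)` as `ε ↓ 0`. -/
noncomputable def imG {l : ℕ} (α β : Fin (l + 1) → ℝ) (γ : Fin l → ℝ) (x : ℝ) : ℝ :=
  limUnder (𝓝[>] (0:ℝ)) (fun ε : ℝ => (G α β γ ((x : ℂ) + (ε : ℂ) * Complex.I)).im)

/-- The reflectionless measure `dμ_γ = (1/π) Im G_γ(x + i0) χ_K dx`. -/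
noncomputable def reflM {l : ℕ} (α β : Fin (l + 1) → ℝ) (γ : Fin l → ℝ) : Measure ℝ :=
  (volume.restrict (bands α β)).withDensity
    (fun x => ENNReal.ofReal (1 / Real.pi * imG α β γ x))

/-- The `L²(μ)` norm of a polynomial. -/
noncomputable def polyNorm (μ : Measure ℝ) (P : Polynomial ℂ) : ℝ :=
  Real.sqrt (∫ x : ℝ, ‖P.eval (x : ℂ)‖ ^ 2 ∂μ)

/-- The Widom factor `W_n²(μ) = inf ‖P‖_{L²(μ)} / cap(K)^n`, the infimum over monic polynomials of
degree `n`. -/
noncomputable def widom (K : Set ℝ) (μ : Measure ℝ) (n : ℕ) : ℝ :=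
  (⨅ P : {P : Polynomial ℂ // P.Monic ∧ P.natDegree = n}, polyNorm μ P.1) / cap K ^ n

/-- `S(μ) = exp ∫ log f dμ_K`, `f` being the density of the absolutely continuous part of `μ` with
respect to `μ_K`. -/
noncomputable def szego (μ μK : Measure ℝ) : ℝ :=
  (EReal.exp (eint μK (fun x => ENNReal.log (μ.rnDeriv μK x)))).toReal

end Pool.Agent.H283R3.WidDefs
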