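import Mathlib
import Pool.Agent.H283R3.Wid3
import Pool.Agent.H283R3.WidDefs

open MeasureTheory Set
open scoped ENNReal

namespace Pool.Agent.H283R3.Wid

open Pool.Agent.H283R3.WidDefs
open Pool.Agent.Helper68.LC (Lam)

open Classical in
/-- `log (2 / |x-y|)` as a nonnegative extended real -/
noncomputable def Phi (x y : ℝ) : ℝ≥0∞ :=
  if x = y then ⊤ else ENNReal.ofReal (Real.log 2 - Real.log (abs (x - y)))

theorem logKer_self (x : ℝ) : logKer x x = ⊤ := by simp [logKer]

theorem logKer_of_ne {x y : ℝ} (h : x ≠ y) :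
    logKer x y = ((-Real.log (abs (x - y)) : ℝ) : EReal) := by
  unfold logKer
  rw [if_neg h, one_div, Real.log_inv]

theorem log_two_pos : 0 < Real.log 2 := Real.log_pos one_lt_two

theorem Phi_add {x y : ℝ} (h : abs (x - y) ≤ 2) :
    Phi x y + (-logKer x y).toENNReal = (logKer x y).toENNReal + ENNReal.ofReal (Real.log 2) := by
  by_cases hxy : x = y
  · subst hxy
    rw [logKer_self]
    simp [Phi]
  · have hd : 0 < abs (x - y) := abs_pos.2 (sub_ne_zero.2 hxy)
    have hl : Real.log (abs (x - y)) ≤ Real.log 2 := Real.log_le_log hd h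
    have h2 := log_two_pos
    rw [logKer_of_ne hxy]
    simp only [Phi, hxy, if_false]
    rw [← EReal.coe_neg, neg_neg, EReal.toENNReal_of_ne_top (EReal.coe_ne_top _),
      EReal.toENNReal_of_ne_top (EReal.coe_ne_top _), EReal.toReal_coe, EReal.toReal_coe]
    rcases le_total 0 (Real.log (abs (x - y))) with h0 | h0
    · rw [ENNReal.ofReal_of_nonpos (show -Real.log (abs (x - y)) ≤ 0 by linarith), zero_add,
        ← ENNReal.ofReal_add (by linarith) h0]
      congr 1; ring
    · rw [ENNReal.ofReal_of_nonpos h0, add_zero, ← ENNReal.ofReal_add (by linarith) h2.le]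
      congr 1; ring

theorem neg_kernel_le {x y : ℝ} (h : abs (x - y) ≤ 2) :
    (-logKer x y).toENNReal ≤ ENNReal.ofReal (Real.log 2) := by
  by_cases hxy : x = y
  · subst hxy
    rw [logKer_self]
    simp
  · have hd : 0 < abs (x - y) := abs_pos.2 (sub_ne_zero.2 hxy)
    have hl : Real.log (abs (x - y)) ≤ Real.log 2 := Real.log_le_log hd h
    rw [logKer_of_ne hxy, ← EReal.coe_neg, neg_neg, EReal.toENNReal_of_ne_top (EReal.coe_ne_top _),
      EReal.toReal_coe]
    exact ENNReal.ofReal_le_ofReal hl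

theorem measurable_kernel : Measurable (fun p : ℝ × ℝ => logKer p.1 p.2) := by
  unfold logKer
  apply Measurable.ite
  · exact measurableSet_eq_fun measurable_fst measurable_snd
  · exact measurable_const
  · apply measurable_coe_real_ereal.comp
    apply Real.measurable_log.comp
    fun_prop

theorem measurable_Phi : Measurable (fun p : ℝ × ℝ => Phi p.1 p.2) := by
  unfold Phi
  apply Measurable.ite
  · exact measurableSet_eq_fun measurable_fst measurable_snd
  · exact measurable_const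
  · apply ENNReal.measurable_ofReal.comp
    apply measurable_const.sub
    apply Real.measurable_log.comp
    fun_prop

theorem ereal_aux {P Q M : ℝ≥0∞} {l : ℝ} (hl : 0 ≤ l) (hM : M ≠ ⊤)
    (e : P + M = Q + ENNReal.ofReal l) : (Q : EReal) - (M : EReal) = (P : EReal) - (l : EReal) := by
  have hM' : (M : EReal) ≠ ⊤ := by simpa using hM
  by_cases hP : P = ⊤
  · have hQ : Q = ⊤ := by
      rw [hP, top_add] at e
      by_contra hne
      exact (ENNReal.add_ne_top.2 ⟨hne, ENNReal.ofReal_ne_top⟩) e.symm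
    rw [hP, hQ, EReal.coe_ennreal_top, EReal.top_sub_coe]
    lift M to NNReal using hM
    exact EReal.top_sub_coe _
  · have hQ : Q ≠ ⊤ := by
      intro hq
      rw [hq, top_add] at e
      exact (ENNReal.add_ne_top.2 ⟨hP, hM⟩) e
    lift P to NNReal using hP
    lift Q to NNReal using hQ
    lift M to NNReal using hM
    have e2 := congrArg ENNReal.toReal e
    rw [ENNReal.toReal_add (by simp) (by simp), ENNReal.toReal_add (by simp) (by simp),
      ENNReal.toReal_ofReal hl] at e2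
    simp only [ENNReal.coe_toReal] at e2
    have h1 : ((Q : ℝ≥0∞) : EReal) = ((Q : ℝ) : EReal) := rfl
    have h2 : ((M : ℝ≥0∞) : EReal) = ((M : ℝ) : EReal) := rfl
    have h3 : ((P : ℝ≥0∞) : EReal) = ((P : ℝ) : EReal) := rfl
    rw [h1, h2, h3, ← EReal.coe_sub, ← EReal.coe_sub]
    congr 1
    linarith

theorem energy_eq (μ : Measure ℝ) [IsProbabilityMeasure μ]
    (h : ∀ᵐ p ∂(μ.prod μ), abs (p.1 - p.2) ≤ 2) :
    energy μ = ((∫⁻ p, Phi p.1 p.2 ∂(μ.prod μ) : ℝ≥0∞) : EReal) - ((Real.log 2 : ℝ) : EReal) := by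
  unfold energy eint
  set Q := ∫⁻ p, (logKer p.1 p.2).toENNReal ∂(μ.prod μ) with hQ
  set M := ∫⁻ p, (-logKer p.1 p.2).toENNReal ∂(μ.prod μ) with hM
  set P := ∫⁻ p, Phi p.1 p.2 ∂(μ.prod μ) with hP
  have mneg : Measurable (fun p : ℝ × ℝ => (-logKer p.1 p.2).toENNReal) :=
    measurable_kernel.neg.ereal_toENNReal
  have mk : Measurable (fun p : ℝ × ℝ => (logKer p.1 p.2).toENNReal) :=
    measurable_kernel.ereal_toENNReal
  have e1 : P + M = Q + ENNReal.ofReal (Real.log 2) := by
    have c : ENNReal.ofReal (Real.log 2) = ∫⁻ _ : ℝ × ℝ, ENNReal.ofReal (Real.log 2) ∂(μ.prod μ) := by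
      simp
    rw [hP, hM, hQ, c, ← lintegral_add_right _ mneg, ← lintegral_add_right _ measurable_const]
    apply lintegral_congr_ae
    filter_upwards [h] with p hp using Phi_add hp
  have e2 : M ≤ ENNReal.ofReal (Real.log 2) := by
    calc M ≤ ∫⁻ _, ENNReal.ofReal (Real.log 2) ∂(μ.prod μ) :=
          lintegral_mono_ae (by filter_upwards [h] with p hp using neg_kernel_le hp)
      _ = _ := by simp
  have hMt : M ≠ ⊤ := (e2.trans_lt ENNReal.ofReal_lt_top).ne
  exact ereal_aux log_two_pos.le hMt e1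

theorem ae_dist {ν : Measure ℝ} [IsProbabilityMeasure ν] (hν : ν KKᶜ = 0) :
    ∀ᵐ p ∂(ν.prod ν), abs (p.1 - p.2) ≤ 2 := by
  have hνK : ∀ᵐ x ∂ν, x ∈ KK := by rw [ae_iff]; exact hν
  have h1 : ∀ᵐ p ∂(ν.prod ν), p.1 ∈ KK :=
    Measure.quasiMeasurePreserving_fst.ae hνK
  have h2 : ∀ᵐ p ∂(ν.prod ν), p.2 ∈ KK :=
    Measure.quasiMeasurePreserving_snd.ae hνK
  filter_upwards [h1, h2] with p a b using KK_dist a b

theorem Phi_prod (ν : Measure ℝ) [IsProbabilityMeasure ν] :
    ∫⁻ p, Phi p.1 p.2 ∂(ν.prod ν) = ∫⁻ x, ∫⁻ y, Phi x y ∂ν ∂ν :=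
  lintegral_prod _ measurable_Phi.aemeasurable

theorem two_Phi {x y : ℝ} (hne : x ≠ y) : 2 * Phi x y = kap x y := by
  unfold Phi kap
  rw [if_neg hne, show 2 * Real.log 2 - 2 * Real.log (abs (x - y)) =
    2 * (Real.log 2 - Real.log (abs (x - y))) by ring, ENNReal.ofReal_mul (by norm_num)]
  norm_num

theorem two_ofReal_half (a : ℝ) : 2 * ENNReal.ofReal (a / 2) = ENNReal.ofReal a := by
  have : ENNReal.ofReal a = ENNReal.ofReal (2 * (a / 2)) := by congr 1; ring
  rw [this, ENNReal.ofReal_mul (by norm_num)]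
  norm_num

theorem measurable_Phi_right (x : ℝ) : Measurable (Phi x) :=
  measurable_Phi.comp measurable_prodMk_left

theorem Phi_muK : ∫⁻ x, ∫⁻ y, Phi x y ∂muK ∂muK = ENNReal.ofReal (CC / 2) := by
  have hp := prob_muK
  have h2 : 2 * ∫⁻ x, ∫⁻ y, Phi x y ∂muK ∂muK = 2 * ENNReal.ofReal (CC / 2) := by
    rw [two_ofReal_half, ← lintegral_const_mul _ measurable_Phi.lintegral_prod_right']
    have hμK : ∀ᵐ x ∂muK, x ∈ KK := by rw [ae_iff]; exact muK_compl
    have : ∫⁻ x, (2 * ∫⁻ y, Phi x y ∂muK) ∂muK = ∫⁻ _, ENNReal.ofReal CC ∂muK := by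
      apply lintegral_congr_ae
      filter_upwards [hμK] with x hx
      rw [← pot_K hx, ← lintegral_const_mul _ (measurable_Phi_right x)]
      apply lintegral_congr_ae
      filter_upwards [muK_ne x] with y hne
      exact two_Phi (Ne.symm hne)
    rw [this]
    simp
  exact (ENNReal.mul_right_inj (by norm_num) (by norm_num)).1 h2

theorem Phi_ge {ν : Measure ℝ} [IsProbabilityMeasure ν] (hν : ν KKᶜ = 0) :
    ENNReal.ofReal (CC / 2) ≤ ∫⁻ x, ∫⁻ y, Phi x y ∂ν ∂ν := by
  have h2 : 2 * ENNReal.ofReal (CC / 2) ≤ 2 * ∫⁻ x, ∫⁻ y, Phi x y ∂ν ∂ν := by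
    rw [two_ofReal_half]
    refine (LE_ge hν).trans ?_
    unfold LEn Pool.Agent.Helper68.LC.LE
    rw [← lintegral_const_mul _ measurable_Phi.lintegral_prod_right']
    have hνK : ∀ᵐ x ∂ν, x ∈ KK := by rw [ae_iff]; exact hν
    apply lintegral_mono_ae
    filter_upwards [hνK] with x hx
    rw [← lintegral_const_mul _ (measurable_Phi_right x)]
    apply lintegral_mono_ae
    filter_upwards [hνK] with y hy
    by_cases hxy : x = y
    · simp [Phi, hxy]
    · rw [two_Phi hxy, lam_kap (KK_dist hx hy) hxy]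
  exact (ENNReal.mul_le_mul_iff_right (by norm_num) (by norm_num)).1 h2

/-- the Robin constant -/
noncomputable def VV : ℝ := 1/3 * Real.log (125/9)

theorem ereal_sub_eq : ((ENNReal.ofReal (CC / 2) : ℝ≥0∞) : EReal) - ((Real.log 2 : ℝ) : EReal) =
    ((VV : ℝ) : EReal) := by
  rw [EReal.coe_ennreal_ofReal, max_eq_left (by have := CC_pos; positivity), ← EReal.coe_sub]
  congr 1
  unfold CC VV
  ring

theorem energy_muK : energy muK = ((VV : ℝ) : EReal) := by
  have hp := prob_muK
  rw [energy_eq muK (ae_dist muK_compl), Phi_prod, Phi_muK, ereal_sub_eq]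

theorem energy_ge {ν : Measure ℝ} [IsProbabilityMeasure ν] (hν : ν KKᶜ = 0) :
    ((VV : ℝ) : EReal) ≤ energy ν := by
  rw [energy_eq ν (ae_dist hν), Phi_prod, ← ereal_sub_eq]
  apply EReal.sub_le_sub _ le_rfl
  exact_mod_cast Phi_ge hν

theorem isEquilibrium_muK : IsEquilibrium KK muK := by
  refine ⟨prob_muK, muK_compl, ?_, ?_⟩
  · rw [energy_muK]; exact EReal.coe_lt_top _
  · intro ν hν h0
    rw [energy_muK]
    exact energy_ge h0

theorem cap_KK : cap KK = Real.exp (-VV) := by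
  unfold cap
  have : (⨅ (ν : Measure ℝ) (_ : IsProbabilityMeasure ν ∧ ν KKᶜ = 0), energy ν) =
      ((VV : ℝ) : EReal) := by
    apply le_antisymm
    · refine (iInf₂_le muK ⟨prob_muK, muK_compl⟩).trans ?_
      rw [energy_muK]
    · refine le_iInf₂ fun ν h => ?_
      have := h.1
      exact energy_ge h.2
  rw [this, ← EReal.coe_neg, EReal.exp_coe, ENNReal.toReal_ofReal (Real.exp_pos _).le]

end Pool.Agent.H283R3.Wid
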