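import Mathlib
import Pool.Agent.H283R3.Wid4

open MeasureTheory Set Filter
open scoped ENNReal Topology

namespace Pool.Agent.H283R3.Wid

open Pool.Agent.H283R3.WidDefs

lemma tends_base (x e : ℝ) : Tendsto (fun ε : ℝ => (x : ℂ) + (ε : ℂ) * Complex.I - (e : ℂ))
    (𝓝[>] (0:ℝ)) (𝓝 ((x - e : ℝ) : ℂ)) := by
  have h : Continuous (fun ε : ℝ => (x : ℂ) + (ε : ℂ) * Complex.I - (e : ℂ)) := by fun_prop
  have h1 := (h.tendsto 0).mono_left (nhdsWithin_le_nhds (s := Ioi (0:ℝ)))
  simpa using h1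

lemma tends_pos {x e : ℝ} (h : e < x) :
    Tendsto (fun ε : ℝ => ((x : ℂ) + (ε : ℂ) * Complex.I - (e : ℂ)) ^ (1 / 2 : ℂ))
      (𝓝[>] (0:ℝ)) (𝓝 ((Real.sqrt (x - e) : ℝ) : ℂ)) := by
  have hv : (((x - e : ℝ) : ℂ)) ^ (1/2 : ℂ) = ((Real.sqrt (x - e) : ℝ) : ℂ) := by
    rw [Real.sqrt_eq_rpow, Complex.ofReal_cpow (by linarith)]
    push_cast
    rfl
  rw [← hv]
  have hsl : ((x - e : ℝ) : ℂ) ∈ Complex.slitPlane := by
    left
    rw [Complex.ofReal_re]
    linarith
  exact (continuousAt_cpow_const (b := (1/2 : ℂ)) hsl).tendsto.comp (tends_base x e)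

lemma tends_neg {x e : ℝ} (h : x < e) :
    Tendsto (fun ε : ℝ => ((x : ℂ) + (ε : ℂ) * Complex.I - (e : ℂ)) ^ (1 / 2 : ℂ))
      (𝓝[>] (0:ℝ)) (𝓝 (Complex.I * ((Real.sqrt (e - x) : ℝ) : ℂ))) := by
  have hre : (((x - e : ℝ) : ℂ)).re < 0 := by rw [Complex.ofReal_re]; linarith
  have him : (((x - e : ℝ) : ℂ)).im = 0 := Complex.ofReal_im _
  have h1 : Tendsto (fun ε : ℝ => (x : ℂ) + (ε : ℂ) * Complex.I - (e : ℂ)) (𝓝[>] (0:ℝ))
      (𝓝[{z : ℂ | 0 ≤ z.im}] ((x - e : ℝ) : ℂ)) := by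
    apply tendsto_nhdsWithin_iff.2 ⟨tends_base x e, ?_⟩
    filter_upwards [self_mem_nhdsWithin] with ε hε
    have : (0:ℝ) < ε := hε
    simp [this.le]
  have h2 := (Complex.continuousWithinAt_log_of_re_neg_of_im_zero hre him).tendsto.comp h1
  have h3 := (Complex.continuous_exp.tendsto _).comp (h2.mul_const (1/2 : ℂ))
  have hv : Complex.exp (Complex.log ((x - e : ℝ) : ℂ) * (1/2 : ℂ)) =
      Complex.I * ((Real.sqrt (e - x) : ℝ) : ℂ) := by
    have hl : Complex.log ((x - e : ℝ) : ℂ) = ((Real.log (e - x) : ℝ) : ℂ) + Real.pi * Complex.I := by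
      rw [Complex.log, Complex.arg_ofReal_of_neg (by linarith), Complex.norm_real, Real.norm_eq_abs,
        abs_of_neg (by linarith)]
      congr 3
      ring
    rw [hl, add_mul, Complex.exp_add, mul_comm]
    congr 1
    · rw [show (Real.pi : ℂ) * Complex.I * (1/2 : ℂ) = ((Real.pi / 2 : ℝ) : ℂ) * Complex.I by
        push_cast; ring, Complex.exp_mul_I, ← Complex.ofReal_cos, ← Complex.ofReal_sin]
      simp
    · rw [show ((Real.log (e - x) : ℝ) : ℂ) * (1/2 : ℂ) = ((Real.log (e - x) * (1/2) : ℝ) : ℂ) by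
        push_cast; ring, ← Complex.ofReal_exp]
      congr 1
      rw [Real.sqrt_eq_rpow, Real.rpow_def_of_pos (by linarith)]
  rw [← hv]
  refine h3.congr' ?_
  filter_upwards [self_mem_nhdsWithin] with ε hε
  have hne : (x : ℂ) + (ε : ℂ) * Complex.I - (e : ℂ) ≠ 0 := by
    intro h0
    have := congrArg Complex.re h0
    simp at this
    linarith
  simp only [Function.comp]
  rw [Complex.cpow_def_of_ne_zero hne]

/-- the data of the example -/
noncomputable def al : Fin 2 → ℝ := ![-9/10, 7/10]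
noncomputable def be : Fin 2 → ℝ := ![1/10, 9/10]

lemma bands_eq : bands al be = KK := by
  unfold bands KK al be
  ext x
  simp [Fin.exists_fin_two]

lemma isFiniteGap_ex : IsFiniteGap al be := by
  constructor
  · intro i
    fin_cases i <;> simp [al, be] <;> norm_num
  · intro j
    fin_cases j
    simp [al, be]
    norm_num

lemma imG_eq {g x : ℝ} (hg1 : 1/10 ≤ g) (hg2 : g ≤ 7/10)
    (hx : x ∈ Ioo (-9/10:ℝ) (1/10) ∪ Ioo (7/10) (9/10)) :
    imG al be ![g] x = abs (x - g) / Real.sqrt (-Rr x) := by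
  unfold imG
  apply Tendsto.limUnder_eq
  have hG : ∀ z : ℂ, G al be ![g] z = -(z - (g:ℂ)) /
      (((z - ((-9/10:ℝ):ℂ)) ^ (1/2:ℂ) * (z - ((1/10:ℝ):ℂ)) ^ (1/2:ℂ)) *
       ((z - ((7/10:ℝ):ℂ)) ^ (1/2:ℂ) * (z - ((9/10:ℝ):ℂ)) ^ (1/2:ℂ))) := by
    intro z
    unfold G
    rw [Fin.prod_univ_two, Fin.prod_univ_one]
    simp [al, be]
  simp only [hG]
  have hR := negR_pos hx
  have hs : 0 < Real.sqrt (-Rr x) := Real.sqrt_pos.2 hR
  have hnum : Tendsto (fun ε : ℝ => -((x : ℂ) + (ε : ℂ) * Complex.I - (g : ℂ))) (𝓝[>] (0:ℝ))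
      (𝓝 (-((x - g : ℝ) : ℂ))) := (tends_base x g).neg
  rcases hx with hx | hx
  · have t1 := tends_pos (show (-9/10:ℝ) < x from hx.1)
    have t2 := tends_neg (show x < (1/10:ℝ) from hx.2)
    have t3 := tends_neg (show x < (7/10:ℝ) by linarith [hx.2])
    have t4 := tends_neg (show x < (9/10:ℝ) by linarith [hx.2])
    have hprod : (((Real.sqrt (x - -9/10) : ℝ) : ℂ) * (Complex.I * ((Real.sqrt (1/10 - x) : ℝ) : ℂ)) *
        ((Complex.I * ((Real.sqrt (7/10 - x) : ℝ) : ℂ)) * (Complex.I * ((Real.sqrt (9/10 - x) : ℝ) : ℂ))))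
        = -Complex.I * ((Real.sqrt (-Rr x) : ℝ) : ℂ) := by
      have e : -Rr x = (x - -9/10) * (1/10 - x) * (7/10 - x) * (9/10 - x) := by unfold Rr; ring
      have a1 : 0 < x - -9/10 := by linarith [hx.1]
      have a2 : 0 < 1/10 - x := by linarith [hx.2]
      have a3 : 0 < 7/10 - x := by linarith [hx.2]
      rw [e, Real.sqrt_mul (by positivity), Real.sqrt_mul (by positivity), Real.sqrt_mul a1.le]
      push_cast
      linear_combination (((Real.sqrt (x - -9/10) : ℝ) : ℂ) * ((Real.sqrt (1/10 - x) : ℝ) : ℂ) *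
        ((Real.sqrt (7/10 - x) : ℝ) : ℂ) * ((Real.sqrt (9/10 - x) : ℝ) : ℂ) * Complex.I) *
          Complex.I_mul_I
    have hne : (((Real.sqrt (x - -9/10) : ℝ) : ℂ) * (Complex.I * ((Real.sqrt (1/10 - x) : ℝ) : ℂ)) *
        ((Complex.I * ((Real.sqrt (7/10 - x) : ℝ) : ℂ)) *
        (Complex.I * ((Real.sqrt (9/10 - x) : ℝ) : ℂ)))) ≠ 0 := by
      rw [hprod]
      have : ((Real.sqrt (-Rr x) : ℝ) : ℂ) ≠ 0 := by exact_mod_cast hs.ne'
      simp [this]
    have h := hnum.div ((t1.mul t2).mul (t3.mul t4)) hne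
    rw [hprod] at h
    have h2 := (Complex.continuous_im.tendsto _).comp h
    have hval : (-((x - g : ℝ) : ℂ) / (-Complex.I * ((Real.sqrt (-Rr x) : ℝ) : ℂ))).im =
        abs (x - g) / Real.sqrt (-Rr x) := by
      have e1 : -((x - g : ℝ) : ℂ) / (-Complex.I * ((Real.sqrt (-Rr x) : ℝ) : ℂ)) =
          (((g - x) / Real.sqrt (-Rr x) : ℝ) : ℂ) * Complex.I := by
        have : ((Real.sqrt (-Rr x) : ℝ) : ℂ) ≠ 0 := by exact_mod_cast hs.ne'
        have hI := Complex.I_ne_zero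
        push_cast
        field_simp
        linear_combination (-(g:ℂ) + x) * Complex.I_sq
      rw [e1, Complex.im_ofReal_mul, Complex.I_im, mul_one, abs_of_nonpos (by linarith [hx.2])]
      congr 1
      ring
    rw [hval] at h2
    exact h2
  · have t1 := tends_pos (show (-9/10:ℝ) < x by linarith [hx.1])
    have t2 := tends_pos (show (1/10:ℝ) < x by linarith [hx.1])
    have t3 := tends_pos (show (7/10:ℝ) < x from hx.1)
    have t4 := tends_neg (show x < (9/10:ℝ) from hx.2)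
    have hprod : (((Real.sqrt (x - -9/10) : ℝ) : ℂ) * ((Real.sqrt (x - 1/10) : ℝ) : ℂ) *
        (((Real.sqrt (x - 7/10) : ℝ) : ℂ) * (Complex.I * ((Real.sqrt (9/10 - x) : ℝ) : ℂ))))
        = Complex.I * ((Real.sqrt (-Rr x) : ℝ) : ℂ) := by
      have e : -Rr x = (x - -9/10) * (x - 1/10) * (x - 7/10) * (9/10 - x) := by unfold Rr; ring
      have a1 : 0 < x - -9/10 := by linarith [hx.1]
      have a2 : 0 < x - 1/10 := by linarith [hx.1]
      have a3 : 0 < x - 7/10 := by linarith [hx.1]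
      rw [e, Real.sqrt_mul (by positivity), Real.sqrt_mul (by positivity), Real.sqrt_mul a1.le]
      push_cast
      ring
    have hne : (((Real.sqrt (x - -9/10) : ℝ) : ℂ) * ((Real.sqrt (x - 1/10) : ℝ) : ℂ) *
        (((Real.sqrt (x - 7/10) : ℝ) : ℂ) * (Complex.I * ((Real.sqrt (9/10 - x) : ℝ) : ℂ)))) ≠ 0 := by
      rw [hprod]
      have : ((Real.sqrt (-Rr x) : ℝ) : ℂ) ≠ 0 := by exact_mod_cast hs.ne'
      simp [this]
    have h := hnum.div ((t1.mul t2).mul (t3.mul t4)) hne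
    rw [hprod] at h
    have h2 := (Complex.continuous_im.tendsto _).comp h
    have hval : (-((x - g : ℝ) : ℂ) / (Complex.I * ((Real.sqrt (-Rr x) : ℝ) : ℂ))).im =
        abs (x - g) / Real.sqrt (-Rr x) := by
      have e1 : -((x - g : ℝ) : ℂ) / (Complex.I * ((Real.sqrt (-Rr x) : ℝ) : ℂ)) =
          (((x - g) / Real.sqrt (-Rr x) : ℝ) : ℂ) * Complex.I := by
        have : ((Real.sqrt (-Rr x) : ℝ) : ℂ) ≠ 0 := by exact_mod_cast hs.ne'
        have hI := Complex.I_ne_zero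
        push_cast
        field_simp
        linear_combination (-(x:ℂ) + g) * Complex.I_sq
      rw [e1, Complex.im_ofReal_mul, Complex.I_im, mul_one, abs_of_nonneg (by linarith [hx.1])]
    rw [hval] at h2
    exact h2

lemma ae_open : ∀ᵐ x ∂(volume.restrict KK), x ∈ Ioo (-9/10:ℝ) (1/10) ∪ Ioo (7/10) (9/10) := by
  have h : volume.restrict KK = volume.restrict (s0 ∪ s1 ∪ s2) := Measure.restrict_congr_set KK_ae
  rw [h]
  have hm : MeasurableSet (s0 ∪ s1 ∪ s2) := (branch0.meas.union branch1.meas).union branch2.meas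
  filter_upwards [ae_restrict_mem hm] with x hx
  rcases hx with (hx | hx) | hx
  · exact branch0.sub hx
  · exact branch1.sub hx
  · exact branch2.sub hx

lemma refl_eq {g : ℝ} (hg1 : 1/10 ≤ g) (hg2 : g ≤ 7/10) : reflM al be ![g] =
    (volume.restrict KK).withDensity
      (fun x => ENNReal.ofReal (abs (x - g) / Real.sqrt (-Rr x) / Real.pi)) := by
  unfold reflM
  rw [bands_eq]
  apply withDensity_congr_ae
  filter_upwards [ae_open] with x hx
  rw [imG_eq hg1 hg2 hx]
  congr 1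
  ring

/-- density of `μ_γ` with respect to `μ_K` -/
noncomputable def hh (x : ℝ) : ℝ := abs (x - 17/25) / abs (x - 13/30)

lemma measurable_hh : Measurable hh := by
  unfold hh
  fun_prop

lemma refl_muK : reflM al be ![17/25] = muK.withDensity (fun x => ENNReal.ofReal (hh x)) := by
  rw [refl_eq (by norm_num) (by norm_num)]
  have hm : Measurable (fun x => ENNReal.ofReal (w x / Real.pi)) :=
    ENNReal.measurable_ofReal.comp (measurable_w.div_const _)
  have hm2 : Measurable (fun x => ENNReal.ofReal (hh x)) :=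
    ENNReal.measurable_ofReal.comp measurable_hh
  unfold muK
  rw [← withDensity_mul _ hm hm2]
  apply withDensity_congr_ae
  filter_upwards [ae_open] with x hx
  have hc : 0 < abs (x - 13/30) := by
    apply abs_pos.2
    rcases hx with h | h
    · intro h0; linarith [h.2]
    · intro h0; linarith [h.1]
  have hR : 0 < Real.sqrt (-Rr x) := Real.sqrt_pos.2 (negR_pos hx)
  have hpi := Real.pi_pos
  show ENNReal.ofReal (abs (x - 17/25) / Real.sqrt (-Rr x) / Real.pi) =
    ENNReal.ofReal (w x / Real.pi) * ENNReal.ofReal (hh x)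
  rw [← ENNReal.ofReal_mul (by unfold w; positivity)]
  congr 1
  unfold w hh
  clear hm hm2 hx
  generalize abs (x - 17/25) = A
  generalize abs (x - 13/30) = B at hc ⊢
  generalize Real.sqrt (-Rr x) = C at hR ⊢
  field_simp

end Pool.Agent.H283R3.Wid
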