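import Mathlib
import Pool.Agent.H283R3.Wid5

open MeasureTheory Set Filter
open scoped ENNReal Topology

namespace Pool.Agent.H283R3.Wid

open Pool.Agent.H283R3.WidDefs

lemma ne_c {x : ℝ} (hx : x ∈ Ioo (-9/10:ℝ) (1/10) ∪ Ioo (7/10) (9/10)) : x - 13/30 ≠ 0 := by
  rcases hx with h | h
  · intro h0; linarith [h.2]
  · intro h0; linarith [h.1]

lemma ne_g {x : ℝ} (hx : x ∈ Ioo (-9/10:ℝ) (1/10) ∪ Ioo (7/10) (9/10)) : x - 17/25 ≠ 0 := by
  rcases hx with h | h
  · intro h0; linarith [h.2]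
  · intro h0; linarith [h.1]

lemma hh_eq {x : ℝ} (hx : x ∈ Ioo (-9/10:ℝ) (1/10) ∪ Ioo (7/10) (9/10)) :
    hh x = (x - 17/25) / (x - 13/30) := by
  unfold hh
  rcases hx with h | h
  · rw [abs_of_neg (by linarith [h.2]), abs_of_neg (by linarith [h.2]), neg_div_neg_eq]
  · rw [abs_of_pos (by linarith [h.1]), abs_of_pos (by linarith [h.1])]

lemma hh_nonneg (x : ℝ) : 0 ≤ hh x := by unfold hh; positivity

lemma sum_inv {a b d : ℝ} (h1 : a + b + d = -1/10) (h2 : a * b + a * d + b * d = -13/20)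
    (ha : a - 13/30 ≠ 0) (hb : b - 13/30 ≠ 0) (hd : d - 13/30 ≠ 0) :
    1 / (a - 13/30) + 1 / (b - 13/30) + 1 / (d - 13/30) = 0 := by
  have e : 1 / (a - 13/30) + 1 / (b - 13/30) + 1 / (d - 13/30) =
      ((b - 13/30) * (d - 13/30) + (a - 13/30) * (d - 13/30) + (a - 13/30) * (b - 13/30)) /
        ((a - 13/30) * (b - 13/30) * (d - 13/30)) := by
    rw [div_add_div _ _ ha hb, div_add_div _ _ (mul_ne_zero ha hb) hd]
    congr 1
    ring
  rw [e]
  have : (b - 13/30) * (d - 13/30) + (a - 13/30) * (d - 13/30) + (a - 13/30) * (b - 13/30) = 0 := by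
    linear_combination h2 - 2 * (13/30) * h1
  rw [this, zero_div]

lemma pf1 {x : ℝ} (hx : x - 13/30 ≠ 0) : (x - 17/25) / (x - 13/30) =
    1 + (-37/150) * (1 / (x - 13/30)) := by
  rw [mul_one_div, eq_comm, ← div_self hx, ← add_div]
  congr 1
  ring

lemma pf2 {x : ℝ} (hx : x - 13/30 ≠ 0) : (x - 17/25) / (x - 13/30) * (x + 7/25) ^ 2 =
    x ^ 2 + 47/150 * x - 3749/22500 + (-423613/3375000) * (1 / (x - 13/30)) := by
  have h : (x - 17/25) / (x - 13/30) = (x - 17/25) * (1 / (x - 13/30)) := by rw [mul_one_div]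
  rw [h]
  have h2 : (x - 13/30) * (1 / (x - 13/30)) = 1 := by rw [mul_one_div, div_self hx]
  generalize 1 / (x - 13/30) = q at h2 ⊢
  linear_combination (x ^ 2 + 47/150 * x - 3749/22500) * h2

lemma sum_hh {θ : ℝ} (hθ : θ ∈ Ioo 0 Real.pi) :
    hh (xi s0 θ) + hh (xi s1 θ) + hh (xi s2 θ) = 3 ∧
    hh (xi s0 θ) * (xi s0 θ + 7/25) ^ 2 + hh (xi s1 θ) * (xi s1 θ + 7/25) ^ 2 +
      hh (xi s2 θ) * (xi s2 θ + 7/25) ^ 2 = 1947/2500 := by
  have h0 := branch0.sub (branch0.xi_mem hθ)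
  have h1 := branch1.sub (branch1.xi_mem hθ)
  have h2 := branch2.sub (branch2.xi_mem hθ)
  obtain ⟨v1, v2, -⟩ := xi_facts hθ
  rw [hh_eq h0, hh_eq h1, hh_eq h2]
  have si := sum_inv v1 v2 (ne_c h0) (ne_c h1) (ne_c h2)
  constructor
  · rw [pf1 (ne_c h0), pf1 (ne_c h1), pf1 (ne_c h2)]
    linear_combination (-37/150) * si
  · rw [pf2 (ne_c h0), pf2 (ne_c h1), pf2 (ne_c h2)]
    linear_combination (-423613/3375000) * si + (xi s0 θ + xi s1 θ + xi s2 θ - 1/10 + 47/150) * v1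
      - 2 * v2

/-- integrals against `μ_γ` of functions whose weighted branch sum is constant -/
lemma lint_refl {F : ℝ → ℝ} (hF : Measurable F) (hF0 : ∀ x, 0 ≤ F x) {k : ℝ} (hk : 0 ≤ k)
    (hs : ∀ θ ∈ Ioo 0 Real.pi, hh (xi s0 θ) * F (xi s0 θ) + hh (xi s1 θ) * F (xi s1 θ) +
      hh (xi s2 θ) * F (xi s2 θ) = 3 * k) :
    ∫⁻ x, ENNReal.ofReal (F x) ∂(reflM al be ![17/25]) = ENNReal.ofReal k := by
  have hpi := Real.pi_pos
  have hm2 : Measurable (fun x => ENNReal.ofReal (hh x)) :=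
    ENNReal.measurable_ofReal.comp measurable_hh
  have hm3 : Measurable (fun x => ENNReal.ofReal (F x)) := ENNReal.measurable_ofReal.comp hF
  rw [refl_muK, lintegral_withDensity_eq_lintegral_mul _ hm2 hm3, lint_muK (hm2.mul hm3)]
  have e : ∫⁻ θ in Ioo 0 Real.pi,
      (((fun x => ENNReal.ofReal (hh x)) * fun x => ENNReal.ofReal (F x)) (xi s0 θ) +
      ((fun x => ENNReal.ofReal (hh x)) * fun x => ENNReal.ofReal (F x)) (xi s1 θ) +
      ((fun x => ENNReal.ofReal (hh x)) * fun x => ENNReal.ofReal (F x)) (xi s2 θ)) =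
      ∫⁻ θ in Ioo 0 Real.pi, ENNReal.ofReal (3 * k) := by
    apply setLIntegral_congr_fun measurableSet_Ioo
    intro θ hθ
    have hh0 := hh_nonneg (xi s0 θ)
    have hh1 := hh_nonneg (xi s1 θ)
    have hh2 := hh_nonneg (xi s2 θ)
    have f0 := hF0 (xi s0 θ)
    have f1 := hF0 (xi s1 θ)
    have f2 := hF0 (xi s2 θ)
    show ENNReal.ofReal (hh (xi s0 θ)) * ENNReal.ofReal (F (xi s0 θ)) +
      ENNReal.ofReal (hh (xi s1 θ)) * ENNReal.ofReal (F (xi s1 θ)) +
      ENNReal.ofReal (hh (xi s2 θ)) * ENNReal.ofReal (F (xi s2 θ)) = ENNReal.ofReal (3 * k)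
    rw [← hs θ hθ, ← ENNReal.ofReal_mul hh0, ← ENNReal.ofReal_mul hh1, ← ENNReal.ofReal_mul hh2,
      ← ENNReal.ofReal_add (by positivity) (by positivity),
      ← ENNReal.ofReal_add (by positivity) (by positivity)]
  rw [e, setLIntegral_const, Real.volume_Ioo, sub_zero, ← ENNReal.ofReal_mul (by positivity),
    ← ENNReal.ofReal_mul (by positivity)]
  congr 1
  field_simp

theorem prob_refl : IsProbabilityMeasure (reflM al be ![17/25]) := by
  constructor
  have := lint_refl (F := fun _ => 1) measurable_const (fun _ => zero_le_one) zero_le_one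
    (fun θ hθ => by rw [mul_one, mul_one, mul_one, (sum_hh hθ).1, mul_one])
  rw [ENNReal.ofReal_one, lintegral_one] at this
  exact this

theorem polyNorm_le : polyNorm (reflM al be ![17/25]) (Polynomial.X - Polynomial.C (-7/25 : ℂ)) =
    Real.sqrt (649/2500) := by
  unfold polyNorm
  congr 1
  have e : ∀ x : ℝ, ‖(Polynomial.X - Polynomial.C (-7/25 : ℂ)).eval (x:ℂ)‖ ^ 2 = (x + 7/25)^2 := by
    intro x
    rw [Polynomial.eval_sub, Polynomial.eval_X, Polynomial.eval_C,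
      show (x:ℂ) - (-7/25 : ℂ) = ((x + 7/25 : ℝ) : ℂ) by push_cast; ring, Complex.norm_real,
      Real.norm_eq_abs, sq_abs]
  simp only [e]
  rw [integral_eq_lintegral_of_nonneg_ae (by filter_upwards with x using sq_nonneg _)
    (by fun_prop), lint_refl (by fun_prop) (fun x => sq_nonneg _)
      (show (0:ℝ) ≤ 649/2500 by norm_num) (fun θ hθ => by rw [(sum_hh hθ).2]; norm_num),
    ENNReal.toReal_ofReal (by norm_num)]

theorem widom_sq_le : (widom (bands al be) (reflM al be ![17/25]) 1) ^ 2 ≤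
    649/2500 / (cap KK) ^ 2 := by
  unfold widom
  rw [bands_eq, pow_one, div_pow]
  have hinf : (⨅ P : {P : Polynomial ℂ // P.Monic ∧ P.natDegree = 1},
      polyNorm (reflM al be ![17/25]) P.1) ≤ Real.sqrt (649/2500) := by
    rw [← polyNorm_le]
    have hb : BddBelow (range fun P : {P : Polynomial ℂ // P.Monic ∧ P.natDegree = 1} =>
        polyNorm (reflM al be ![17/25]) P.1) := by
      refine ⟨0, ?_⟩
      rintro _ ⟨P, rfl⟩
      exact Real.sqrt_nonneg _
    exact ciInf_le hb ⟨Polynomial.X - Polynomial.C (-7/25 : ℂ),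
      Polynomial.monic_X_sub_C _, Polynomial.natDegree_X_sub_C _⟩
  have h0 : 0 ≤ (⨅ P : {P : Polynomial ℂ // P.Monic ∧ P.natDegree = 1},
      polyNorm (reflM al be ![17/25]) P.1) := Real.iInf_nonneg fun P => Real.sqrt_nonneg _
  have h2 := pow_le_pow_left₀ h0 hinf 2
  rw [Real.sq_sqrt (by norm_num)] at h2
  gcongr

/-! the Szegő constant -/

lemma eint_real {X : Type*} [MeasurableSpace X] {μ : Measure X} {g : X → ℝ}
    (hg : Integrable g μ) : eint μ (fun x => ((g x : ℝ) : EReal)) = ((∫ x, g x ∂μ : ℝ) : EReal) := by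
  unfold eint
  have e1 : ∀ r : ℝ, ((r : ℝ) : EReal).toENNReal = ENNReal.ofReal r := by
    intro r
    rw [EReal.toENNReal_of_ne_top (EReal.coe_ne_top _), EReal.toReal_coe]
  have e2 : ∀ x, -((g x : ℝ) : EReal) = ((-g x : ℝ) : EReal) := fun x => (EReal.coe_neg _).symm
  simp only [e2, e1]
  rw [integral_eq_lintegral_pos_part_sub_lintegral_neg_part hg]
  have f1 : ∫⁻ x, ENNReal.ofReal (g x) ∂μ ≠ ⊤ := hg.lintegral_lt_top.ne
  have f2 : ∫⁻ x, ENNReal.ofReal (-g x) ∂μ ≠ ⊤ := hg.neg.lintegral_lt_top.ne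
  generalize ∫⁻ x, ENNReal.ofReal (g x) ∂μ = A at f1 ⊢
  generalize ∫⁻ x, ENNReal.ofReal (-g x) ∂μ = B at f2 ⊢
  lift A to NNReal using f1
  lift B to NNReal using f2
  have h1 : ((A : ℝ≥0∞) : EReal) = ((A : ℝ) : EReal) := rfl
  have h2 : ((B : ℝ≥0∞) : EReal) = ((B : ℝ) : EReal) := rfl
  rw [h1, h2, ← EReal.coe_sub]
  rfl

lemma logpot {g : ℝ} (hg1 : 1/10 < g) (hg2 : g < 7/10) (hT : T g ≤ -2) :
    Integrable (fun y => Real.log (abs (y - g))) muK ∧
    ∫ y, Real.log (abs (y - g)) ∂muK = -(1/3 * Real.log (125/9)) +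
      1/3 * Real.log ((-T g + Real.sqrt (T g ^ 2 - 4)) / 2) := by
  have hp := prob_muK
  obtain ⟨h0, hv⟩ := pot (x := g) (by constructor <;> linarith) (J_out hT)
  set J := Real.log ((-T g + Real.sqrt (T g ^ 2 - 4)) / 2) with hJ
  have hμK : ∀ᵐ x ∂muK, x ∈ KK := by rw [ae_iff]; exact muK_compl
  have hnn : 0 ≤ᵐ[muK] fun y => 2 * Real.log 2 - 2 * Real.log (abs (g - y)) := by
    filter_upwards [hμK, muK_ne g] with y hy hne
    apply term_nonneg _ (Ne.symm hne)
    have := KK_abs hy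
    rw [abs_le] at *
    constructor <;> linarith [this.1, this.2]
  have hm : Measurable (fun y : ℝ => 2 * Real.log 2 - 2 * Real.log (abs (g - y))) := by
    apply measurable_const.sub
    apply Measurable.const_mul
    apply Real.measurable_log.comp
    fun_prop
  have hv' : ∫⁻ y, ENNReal.ofReal (2 * Real.log 2 - 2 * Real.log (abs (g - y))) ∂muK =
    ENNReal.ofReal (2 * Real.log 2 + 2/3 * Real.log (125/9) - 2/3 * J) := hv
  have hi : Integrable (fun y => 2 * Real.log 2 - 2 * Real.log (abs (g - y))) muK := by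
    rw [← lintegral_ofReal_ne_top_iff_integrable hm.aestronglyMeasurable hnn, hv']
    exact ENNReal.ofReal_ne_top
  have hval : ∫ y, (2 * Real.log 2 - 2 * Real.log (abs (g - y))) ∂muK =
      2 * Real.log 2 + 2/3 * Real.log (125/9) - 2/3 * J := by
    rw [integral_eq_lintegral_of_nonneg_ae hnn hm.aestronglyMeasurable, hv',
      ENNReal.toReal_ofReal h0]
  have e : (fun y => Real.log (abs (y - g))) = fun y =>
      Real.log 2 - (1/2) * (2 * Real.log 2 - 2 * Real.log (abs (g - y))) := by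
    ext y
    rw [abs_sub_comm]
    ring
  rw [e]
  refine ⟨(integrable_const _).sub (hi.const_mul _), ?_⟩
  rw [integral_sub (integrable_const _) (hi.const_mul _), integral_const_mul, hval, integral_const]
  simp
  ring

lemma T_g : T (17/25) = -20291/9000 := by unfold T; norm_num
lemma T_c' : T (13/30) = -886/243 := by unfold T; norm_num

theorem szego_eq : szego (reflM al be ![17/25]) muK =
    Real.exp (1/3 * Real.log ((20291/9000 + Real.sqrt ((20291/9000) ^ 2 - 4)) / 2) -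
      1/3 * Real.log ((886/243 + Real.sqrt ((886/243) ^ 2 - 4)) / 2)) := by
  have hp := prob_muK
  obtain ⟨i1, v1⟩ := logpot (g := 17/25) (by norm_num) (by norm_num) (by rw [T_g]; norm_num)
  obtain ⟨i2, v2⟩ := logpot (g := 13/30) (by norm_num) (by norm_num) (by rw [T_c']; norm_num)
  rw [T_g] at v1
  rw [T_c'] at v2
  have hm2 : Measurable (fun x => ENNReal.ofReal (hh x)) :=
    ENNReal.measurable_ofReal.comp measurable_hh
  have hrn : (reflM al be ![17/25]).rnDeriv muK =ᵐ[muK] fun x => ENNReal.ofReal (hh x) := by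
    rw [refl_muK]
    exact Measure.rnDeriv_withDensity muK hm2
  have hae : ∀ᵐ x ∂muK, x ∈ Ioo (-9/10:ℝ) (1/10) ∪ Ioo (7/10) (9/10) :=
    (withDensity_absolutelyContinuous _ _).ae_le ae_open
  have hlog : ∀ᵐ x ∂muK, ENNReal.log ((reflM al be ![17/25]).rnDeriv muK x) =
      ((Real.log (abs (x - 17/25)) - Real.log (abs (x - 13/30)) : ℝ) : EReal) := by
    filter_upwards [hrn, hae] with x h1 h2
    have a1 : 0 < abs (x - 17/25) := abs_pos.2 (ne_g h2)
    have a2 : 0 < abs (x - 13/30) := abs_pos.2 (ne_c h2)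
    rw [h1, ENNReal.log_ofReal_of_pos (by unfold hh; positivity)]
    unfold hh
    rw [Real.log_div a1.ne' a2.ne']
  have he : eint muK (fun x => ENNReal.log ((reflM al be ![17/25]).rnDeriv muK x)) =
      eint muK (fun x => ((Real.log (abs (x - 17/25)) - Real.log (abs (x - 13/30)) : ℝ) : EReal)) := by
    unfold eint
    congr 2
    · apply lintegral_congr_ae
      filter_upwards [hlog] with x hx
      rw [hx]
    · apply lintegral_congr_ae
      filter_upwards [hlog] with x hx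
      rw [hx]
  have i3 : Integrable (fun x => Real.log (abs (x - 17/25)) - Real.log (abs (x - 13/30))) muK :=
    i1.sub i2
  unfold szego
  rw [he, eint_real i3, EReal.exp_coe, ENNReal.toReal_ofReal (Real.exp_pos _).le,
    integral_sub i1 i2, v1, v2]
  congr 1
  have e1 : (-(-20291/9000 : ℝ)) = 20291/9000 := by norm_num
  have e2 : (-(-886/243 : ℝ)) = 886/243 := by norm_num
  have e3 : ((-20291/9000 : ℝ)) ^ 2 = (20291/9000) ^ 2 := by norm_num
  have e4 : ((-886/243 : ℝ)) ^ 2 = (886/243) ^ 2 := by norm_num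
  rw [e1, e2, e3, e4]
  ring

theorem final_ineq : 649/2500 / (cap KK) ^ 2 < 19/10 * szego (reflM al be ![17/25]) muK := by
  rw [cap_KK, szego_eq]
  set A := (20291/9000 + Real.sqrt ((20291/9000) ^ 2 - 4)) / 2 with hA
  set B := (886/243 + Real.sqrt ((886/243) ^ 2 - 4)) / 2 with hB
  have s1 : 10406/10000 ≤ Real.sqrt ((20291/9000 : ℝ) ^ 2 - 4) :=
    Real.le_sqrt_of_sq_le (by norm_num)
  have s2 : Real.sqrt ((886/243 : ℝ) ^ 2 - 4) ≤ 30487/10000 :=
    Real.sqrt_le_iff.2 ⟨by norm_num, by norm_num⟩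
  have s3 : 0 ≤ Real.sqrt ((886/243 : ℝ) ^ 2 - 4) := Real.sqrt_nonneg _
  have hA0 : 0 < A := by rw [hA]; linarith
  have hB0 : 0 < B := by rw [hB]; linarith
  have c3 : (Real.exp (-VV)) ^ 3 = 9/125 := by
    rw [← Real.exp_nat_mul, VV, show ((3:ℕ):ℝ) * -(1/3 * Real.log (125/9)) = -Real.log (125/9) by
      push_cast; ring, Real.exp_neg, Real.exp_log (by norm_num)]
    norm_num
  have S3 : (Real.exp (1/3 * Real.log A - 1/3 * Real.log B)) ^ 3 = A / B := by
    rw [← Real.exp_nat_mul, show ((3:ℕ):ℝ) * (1/3 * Real.log A - 1/3 * Real.log B) =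
      Real.log A - Real.log B by push_cast; ring, Real.exp_sub, Real.exp_log hA0, Real.exp_log hB0]
  have hcp := Real.exp_pos (-VV)
  have hSp := Real.exp_pos (1/3 * Real.log A - 1/3 * Real.log B)
  generalize Real.exp (-VV) = c at c3 hcp ⊢
  generalize Real.exp (1/3 * Real.log A - 1/3 * Real.log B) = S at S3 hSp ⊢
  apply lt_of_pow_lt_pow_left₀ 3 (by positivity)
  have e1 : (649/2500 / c ^ 2) ^ 3 = (649/2500) ^ 3 * (125/9) ^ 2 := by
    rw [div_pow, show (c ^ 2) ^ 3 = (c ^ 3) ^ 2 by ring, c3]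
    norm_num
  rw [e1, mul_pow, S3, ← mul_div_assoc, lt_div_iff₀ hB0, hA, hB]
  nlinarith [s1, s2]

end Pool.Agent.H283R3.Wid
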